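import Pool.Agent.LibGL22.B1
import Pool.Agent.LibSC93.PB
import Pool.Agent.LibSC93.J3

/-!
Row F1 (pointwise bound of `Ψ`). As `S7_ph` in LibSC93/S7.lean: `PhiS_abs_le` (PB) with `t = R.q + 2` (`n + b ≤ 2 z^q + z ≤ z^(q+2)`), `card ↥h = R.k`, `PhiS_rho`.
-/

open Finset Filter

namespace Pool.Agent.LibGL22

open Pool.Agent.LibRG87 Pool.Agent.LibLG5 Pool.Agent.LibPL63 Pool.Agent.LibSC93

variable {R : Prm} {C Cq Cm : ℕ} {c cD Λ δ : ℝ}

/-- the bound of `Ψ` -/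
noncomputable def bdG (R : Prm) (M0 : ℕ) (B : ℝ) : ℝ := (2 ^ (R.q + 2) * B) ^ (R.k + M0)

private theorem F1_card (K : Finset ℕ) (Q : ℕ → Prop) [DecidablePred Q] :
    ((Finset.univ : Finset ↥K).filter fun j : ↥K => Q (j : ℕ)).card = (K.filter Q).card := by
  rw [Finset.card_filter, Finset.card_filter]
  exact Finset.sum_coe_sort K (fun j => if Q j then 1 else 0)

theorem PsG_sq_le (hp : ParG R C Cq Cm c cD Λ δ) {e : ℝ} {z p1 c0 : ℕ} (hBs : BaseG R cD e z p1) {B : ℝ} (hB1 : 1 ≤ B)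
    (hS : ∏ p ∈ PP z (z ^ R.k1), (1 + 1 / ((p : ℝ) - 1)) ≤ B) {h K : Finset ℕ} (hk : h.card = R.k)
    (hh : ∀ x ∈ h ∪ K, (x : ℝ) ≤ Real.log z ^ 2) {n : ℕ} (hn : n ∈ sN (z ^ R.q) (Wp z p1) c0) {M0 : ℕ}
    (hM : (K.filter fun j => ∀ p ∈ P0 z p1, ¬ p ∣ n + j).card ≤ M0) :
    PsG R z p1 h K n ^ 2 ≤ rhoP (P0 z p1) h n * bdG R M0 B ^ 2 := by
  have hz3 : 3 ≤ z := hBs.1
  have hlogz : Real.log z ^ 2 + 1 ≤ z := hBs.2.2.1
  unfold sN at hn
  rw [Finset.mem_filter, Finset.mem_Ioc] at hn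
  obtain ⟨⟨hn1, hn2⟩, _⟩ := hn
  have hxz : ∀ x ∈ h ∪ K, x < z := by
    intro x hx
    have h1 : (x : ℝ) < z := by
      have := hh x hx
      linarith
    exact_mod_cast h1
  have hzpow : ∀ x, x < z → n + x ≤ z ^ (R.q + 2) := by
    intro x hx
    have h6 : 1 ≤ z ^ R.q := Nat.one_le_pow _ _ (by omega)
    have h4 : z ^ (R.q + 2) = z ^ R.q * (z * z) := by rw [pow_add, pow_two]
    have h5 : 2 + z ≤ z * z := by nlinarith
    have h7 : z ^ R.q * (2 + z) ≤ z ^ R.q * (z * z) := Nat.mul_le_mul_left _ h5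
    have h8 : z ≤ z ^ R.q * z := by nlinarith
    have h9 : z ^ R.q * (2 + z) = 2 * z ^ R.q + z ^ R.q * z := by ring
    rw [h4]
    omega
  have hbmem : ∀ i, bS h K i ∈ h ∪ K := by
    rintro (i | i)
    · exact Finset.mem_union_left _ i.2
    · exact Finset.mem_union_right _ i.2
  have hPhi := PhiS_abs_le (κ := ↥h) (ν := ↥K) z R.k1 p1
    (R.q + 2) (by omega) (P0 z p1) (bS h K)
    (YG R z p1 h K) (fun β => YG_abs hp hBs β) h n
    (fun i => ⟨by omega, hzpow _ (hxz _ (hbmem i))⟩)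
  have hcard : ((Finset.univ : Finset ↥K).filter fun j => ∀ p ∈ P0 z p1,
      ¬ p ∣ n + bS h K (Sum.inr j)).card = (K.filter fun j => ∀ p ∈ P0 z p1, ¬ p ∣ n + j).card :=
    F1_card K (fun j => ∀ p ∈ P0 z p1, ¬ p ∣ n + j)
  rw [Fintype.card_coe, hk, hcard] at hPhi
  have hprod1 : 1 ≤ ∏ p ∈ PP z (z ^ R.k1), (1 + 1 / ((p : ℝ) - 1)) := by
    have h1 := Finset.prod_le_prod (s := PP z (z ^ R.k1))
      (f := fun _ => (1 : ℝ)) (g := fun p : ℕ => 1 + 1 / ((p : ℝ) - 1))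
      (fun _ _ => zero_le_one) (fun p hp' => by
        unfold PP at hp'
        rw [Finset.mem_filter] at hp'
        have h1 : (1 : ℝ) < (p : ℝ) := by exact_mod_cast hp'.2.one_lt
        have : (0 : ℝ) ≤ 1 / ((p : ℝ) - 1) := div_nonneg zero_le_one (by linarith)
        linarith)
    rwa [Finset.prod_const_one] at h1
  have hG1 : (1 : ℝ) ≤ 2 ^ (R.q + 2) * B := by
    have h1 : (1 : ℝ) ≤ 2 ^ (R.q + 2) := one_le_pow₀ (by norm_num)
    nlinarith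
  have hK : |PsG R z p1 h K n| ≤ bdG R M0 B := by
    refine le_trans hPhi ?_
    unfold bdG
    have h1 : (2 : ℝ) ^ (R.q + 2) *
        ∏ p ∈ PP z (z ^ R.k1), (1 + 1 / ((p : ℝ) - 1)) ≤
        2 ^ (R.q + 2) * B := mul_le_mul_of_nonneg_left hS (by positivity)
    refine (pow_le_pow_left₀ (by positivity) h1 _).trans ?_
    exact pow_le_pow_right₀ hG1 (by omega)
  have h1 := pow_le_pow_left₀ (abs_nonneg _) hK 2
  rw [sq_abs] at h1
  have h2 : PsG R z p1 h K n =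
      rhoP (P0 z p1) h n * PsG R z p1 h K n := PhiS_rho _ _ _ _ _ _
  by_cases hr : ∀ x ∈ h, ∀ p ∈ P0 z p1, ¬ p ∣ n + x
  · have hrho : rhoP (P0 z p1) h n = 1 := by
      unfold rhoP
      rw [if_pos hr]
    rw [hrho, one_mul]
    exact h1
  · have hrho : rhoP (P0 z p1) h n = 0 := by
      unfold rhoP
      rw [if_neg hr]
    rw [h2, hrho]
    norm_num

end Pool.Agent.LibGL22
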