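import Pool.Agent.LibPL63.M2

/-!
Row N3 (SHORT): the sums `G1s`, `G2s`, `L2s` do not change if the large primes go up to `z^k1`, `k1 ≥ q0 a^I`: `g1 A = 0` if `rr A > z^(q0 a^I)`, and `A ⊆ PL z k1 p1`, `rr A ≤ z^(q0 a^I)` gives
`A ⊆ PL z (q0 a^I) p1` (each `p ∈ A` divides, so `p ≤ rr A`). `Finset.sum_subset`.
-/

open Finset Filter

namespace Pool.Agent.LibGL22

open Pool.Agent.LibRG87 Pool.Agent.LibLG5 Pool.Agent.LibPL63

private theorem N3_sum {z k1 p1 K : ℕ} (hk : K ≤ k1) (hz : 1 ≤ z) (f : Finset ℕ → ℝ)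
    (hf : ∀ A, ¬ rr A ≤ (z : ℝ) ^ K → f A = 0) :
    ∑ A ∈ (PL z k1 p1).powerset, f A = ∑ A ∈ (PL z K p1).powerset, f A := by
  symm
  apply Finset.sum_subset
  · intro A hA
    rw [Finset.mem_powerset] at hA ⊢
    intro p hp
    have h1 := mem_PL.1 (hA hp)
    exact mem_PL.2 ⟨h1.1, h1.2.1, h1.2.2.1, h1.2.2.2.trans (Nat.pow_le_pow_right hz hk)⟩
  · intro A hA hnA
    rw [Finset.mem_powerset] at hA hnA
    apply hf
    intro hle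
    apply hnA
    intro p hp
    have h1 := mem_PL.1 (hA hp)
    have h2 : (p : ℝ) ≤ rr A := by
      unfold rr
      rw [← Nat.cast_prod]
      exact_mod_cast Nat.le_of_dvd
        (Finset.prod_pos fun q hq => (mem_PL.1 (hA hq)).2.1.pos) (Finset.dvd_prod_of_mem _ hp)
    have h3 : (p : ℝ) ≤ ((z ^ K : ℕ) : ℝ) := by
      push_cast
      exact h2.trans hle
    exact mem_PL.2 ⟨h1.1, h1.2.1, h1.2.2.1, by exact_mod_cast h3⟩

private theorem N3_g1 {z q0 a I : ℕ} {A : Finset ℕ} (h : ¬ rr A ≤ (z : ℝ) ^ (q0 * a ^ I)) :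
    g1 z q0 a I A = 0 := by
  unfold g1
  rw [if_neg h]

theorem G1s_PL {z k1 p1 q0 a I : ℕ} (hk : q0 * a ^ I ≤ k1) (hz : 1 ≤ z) :
    G1s (PL z k1 p1) z q0 a I = G1s (PL z (q0 * a ^ I) p1) z q0 a I := by
  unfold G1s
  refine N3_sum hk hz _ fun A hA => ?_
  rw [N3_g1 hA, zero_div]

theorem G2s_PL {z k1 p1 q0 a I : ℕ} (hk : q0 * a ^ I ≤ k1) (hz : 1 ≤ z) :
    G2s (PL z k1 p1) z q0 a I = G2s (PL z (q0 * a ^ I) p1) z q0 a I := by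
  unfold G2s
  refine N3_sum hk hz _ fun A hA => ?_
  rw [N3_g1 hA, zero_pow two_ne_zero, zero_div]

theorem L2s_PL {z k1 p1 q0 a I : ℕ} (hk : q0 * a ^ I ≤ k1) (hz : 1 ≤ z) :
    L2s (PL z k1 p1) z q0 a I = L2s (PL z (q0 * a ^ I) p1) z q0 a I := by
  unfold L2s
  refine N3_sum hk hz _ fun A hA => ?_
  rw [N3_g1 hA, zero_pow two_ne_zero, zero_div, zero_mul]

/-- `SumsP` for larger `k1` -/
theorem sums_PL {a C : ℕ} {c : ℝ} (hs : SumsP a C c) (I q0 k1 : ℕ) (hI : 1 ≤ I) (hq : 1 ≤ q0)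
    (hk : q0 * a ^ I ≤ k1) : ∀ᶠ z : ℕ in atTop, ∀ p1 : ℕ,
    c * I * q0 ≤ G1s (PL z k1 p1) z q0 a I ∧
    G1s (PL z k1 p1) z q0 a I ≤ C * (I + 1) * q0 ∧
    c * q0 ≤ G2s (PL z k1 p1) z q0 a I ∧
    G2s (PL z k1 p1) z q0 a I ≤ C * q0 ∧
    L2s (PL z k1 p1) z q0 a I ≤ C * (I + 1) * q0 ^ 2 * Real.log z := by
  filter_upwards [hs.2.2.2.2 I q0 hI hq, Filter.eventually_ge_atTop 1] with z hz hz1 p1
  have h := hz p1
  rw [G1s_PL hk hz1, G2s_PL hk hz1, L2s_PL hk hz1]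
  exact h

end Pool.Agent.LibGL22
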