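import Pool.Agent.LibGL22.Defs
import Pool.Agent.LibSC93.V1

/-!
Row V1 (SHORT): `tiny` with powers of `log z`: `VP h ≥ V1p^k/2 ≥ (c/log z)^k/2` (`VP_ge_pow`, `V1p_ge`), `Wp ≤ log z` for large `z` (`Wp_le`), so `VP h/Wp ≥ c^k/(2 (log z)^(k+1))`.
-/

open Finset Filter

namespace Pool.Agent.LibGL22

open Pool.Agent.LibRG87 Pool.Agent.LibLG5 Pool.Agent.LibPL63 Pool.Agent.LibSC93

theorem tinyL (k N : ℕ) (e : ℝ) (he : 0 < e) : ∀ᶠ z : ℕ in atTop, ∀ p1 : ℕ, p1.Prime → ∀ h : Finset ℕ, h.card = k →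
    Real.log z ^ N / Real.log z ^ (N + k + 2) ≤ e * VP (P0 z p1) h ∧
      Real.log z ^ N / Real.sqrt z ≤ e * VP (P0 z p1) h := by
  obtain ⟨c, hc, hcV⟩ := V1p_ge
  have hlog : Tendsto (fun z : ℕ => Real.log z) atTop atTop :=
    Real.tendsto_log_atTop.comp tendsto_natCast_atTop_atTop
  filter_upwards [hcV, VP_ge_pow k, tiny k N e he, hlog.eventually_ge_atTop 1,
    hlog.eventually_ge_atTop (2 / (e * c ^ k))] with z h1 h2 h3 h4 h5 p1 hp1 h hh
  refine ⟨?_, (h3 p1 hp1 h hh).1⟩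
  have hL : 0 < Real.log z := by linarith
  have hVP : (c / Real.log z) ^ k / 2 ≤ VP (P0 z p1) h := by
    refine le_trans ?_ (h2 p1 hp1 h hh.le)
    rw [hh]
    have := pow_le_pow_left₀ (by positivity) (h1 p1 hp1) k
    linarith
  refine le_trans ?_ (mul_le_mul_of_nonneg_left hVP he.le)
  have h6 : 2 ≤ e * c ^ k * Real.log z ^ 2 := by
    rw [div_le_iff₀ (by positivity)] at h5
    have h7 : 0 < e * c ^ k := by positivity
    nlinarith [mul_le_mul_of_nonneg_left h4 (mul_pos h7 hL).le]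
  rw [div_le_iff₀ (by positivity), div_pow, pow_add, pow_add]
  have h8 : e * (c ^ k / Real.log z ^ k / 2) * (Real.log z ^ N * Real.log z ^ k * Real.log z ^ 2) =
      (e * c ^ k * Real.log z ^ 2) / 2 * Real.log z ^ N := by
    field_simp
  rw [h8]
  have h9 : 0 < Real.log z ^ N := pow_pos hL N
  nlinarith

/-- the density `vG` -/
theorem vG_facts {R : Prm} (hq : 1 ≤ R.q) {Cm : ℕ} (hm : MertP Cm) : ∀ᶠ z : ℕ in atTop, ∀ p1 : ℕ, p1.Prime →
    1 / (2 * R.q) ≤ vG R z p1 ∧ vG R z p1 ≤ Cm / R.q ∧ NL R z p1 = NW R z p1 * (vG R z p1 * V1p (P0 z p1)) ∧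
      0 < NW R z p1 ∧ 0 < NL R z p1 := by
  have hlog : Tendsto (fun z : ℕ => Real.log z) atTop atTop :=
    Real.tendsto_log_atTop.comp tendsto_natCast_atTop_atTop
  filter_upwards [hm.2, mert_upper, hlog.eventually_ge_atTop 1, eventually_ge_atTop 1] with z h1 h2 h3 hz p1 hp1
  have h1 := h1 p1 hp1
  have h2 := h2 p1 hp1
  have hL : 0 < Real.log z := by linarith
  have hz0 : (0 : ℝ) < z := by exact_mod_cast hz
  have hq0 : (0 : ℝ) < R.q := by exact_mod_cast hq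
  have hW : (0 : ℝ) < Wp z p1 := by exact_mod_cast Wp_pos z p1
  have hT : (0 : ℝ) < (Wp z p1).totient := by exact_mod_cast Nat.totient_pos.2 (Wp_pos z p1)
  have hV : 0 < V1p (P0 z p1) := V1p_pos _ fun p hp => (mem_P0.1 hp).2.1
  unfold vG NL NW
  refine ⟨?_, ?_, ?_, by positivity, by positivity⟩
  · rw [div_le_div_iff₀ (by positivity) (by positivity)]
    rw [div_mul_eq_mul_div, div_le_div_iff₀ hW hL] at h2
    nlinarith [mul_le_mul_of_nonneg_left h2 hq0.le]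
  · rw [div_le_div_iff₀ (by positivity) hW] at h1
    rw [div_le_div_iff₀ (by positivity) hq0]
    nlinarith [mul_le_mul_of_nonneg_left h1 hq0.le]
  · field_simp

end Pool.Agent.LibGL22
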