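import Pool.Agent.LibPL63.V0
import Pool.Agent.LibLG5.NT

/-!
Row Z4 (sharp lower bound for the Selberg sum). `p1 > z`: `Wp z p1 = primorial (wf z)`, `P0 z p1 = PP (wf z) z` and `φ(W)/W * V1p = ∏_{p ≤ z} (1 - 1/p)` (see `NT_V` in LibLG5/NT.lean). With `y = z^k2`:
`log y ≤ ∑_{n ≤ y} 1/n ≤ (∏_{p ≤ z} (1 - 1/p))⁻¹ ∑_{A ⊆ PP z y, rr A ≤ y} 1/ph A` (`Z_harm`, `Z_split`, used as in `NT_prod_le`); the subsets of `PP z y` are subsets of `PP z (z^k1)` (`k2 ≤ k1`);
removing `S' = S ∪ {p1}` (`|S'| ≤ t + 1`) costs the factor `1 - (t+1)/z` at most: `∑_{A ⊆ P \ S'} ≥ (1 - |S'|/z) ∑_{A ⊆ P}` (as `J7_sdiff` in LibSC93/J7.lean with `f A = 1[rr A ≤ y]/ph A`; or `nt_remove` in LibLG5/NT57.lean).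
-/

open Finset Filter

namespace Pool.Agent.LibGL22

open Pool.Agent.LibRG87 Pool.Agent.LibLG5 Pool.Agent.LibPL63

private theorem z4_sdiff (P : Finset ℕ) (z : ℕ) (hz : 1 ≤ z) (f : Finset ℕ → ℝ)
    (hf0 : ∀ A, A ⊆ P → 0 ≤ f A)
    (hf : ∀ A, A ⊆ P → ∀ p ∈ P, p ∉ A → f (insert p A) ≤ f A / z) (S : Finset ℕ) :
    S ⊆ P → (1 - (S.card : ℝ) / z) * ∑ A ∈ P.powerset, f A ≤ ∑ A ∈ (P \ S).powerset, f A := by
  have hz0 : (0 : ℝ) < z := by exact_mod_cast hz
  refine Finset.induction_on S ?_ ?_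
  · intro _
    simp
  · intro p S hpS ih hS
    have hpP : p ∈ P := hS (Finset.mem_insert_self p S)
    have hSP : S ⊆ P := (Finset.subset_insert p S).trans hS
    have ih' := ih hSP
    have hp1 : p ∉ P \ insert p S := fun h => (Finset.mem_sdiff.1 h).2 (Finset.mem_insert_self p S)
    have he : P \ S = insert p (P \ insert p S) := by
      ext q
      rw [Finset.mem_insert, Finset.mem_sdiff, Finset.mem_sdiff, Finset.mem_insert]
      constructor
      · rintro ⟨h1, h2⟩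
        by_cases hq : q = p
        · exact Or.inl hq
        · exact Or.inr ⟨h1, by rintro (h | h); exacts [hq h, h2 h]⟩
      · rintro (h | ⟨h1, h2⟩)
        · rw [h]
          exact ⟨hpP, hpS⟩
        · exact ⟨h1, fun h => h2 (Or.inr h)⟩
    rw [he, Finset.sum_powerset_insert hp1] at ih'
    have h1 : ∑ A ∈ (P \ insert p S).powerset, f (insert p A) ≤
        ∑ A ∈ (P \ insert p S).powerset, f A / z := by
      refine Finset.sum_le_sum fun A hA => ?_
      rw [Finset.mem_powerset] at hA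
      exact hf A (hA.trans Finset.sdiff_subset) p hpP (fun h => hp1 (hA h))
    have h2 : ∑ A ∈ (P \ insert p S).powerset, f A ≤ ∑ A ∈ P.powerset, f A := by
      refine Finset.sum_le_sum_of_subset_of_nonneg (Finset.powerset_mono.2 Finset.sdiff_subset) ?_
      intro A hA _
      exact hf0 A (Finset.mem_powerset.1 hA)
    rw [← Finset.sum_div] at h1
    have h3 : (∑ A ∈ (P \ insert p S).powerset, f A) / z ≤ (∑ A ∈ P.powerset, f A) / z :=
      div_le_div_of_nonneg_right h2 hz0.le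
    rw [Finset.card_insert_of_notMem hpS]
    push_cast
    have h4 : (1 - ((S.card : ℝ) + 1) / z) * ∑ A ∈ P.powerset, f A =
        (1 - (S.card : ℝ) / z) * ∑ A ∈ P.powerset, f A - (∑ A ∈ P.powerset, f A) / z := by
      ring
    rw [h4]
    linarith

private theorem z4_wf (z : ℕ) : wf z ≤ z := by
  unfold wf
  have h1 : Nat.log 2 (Nat.log 2 z) / 4 ≤ Nat.log 2 (Nat.log 2 z) := Nat.div_le_self _ _
  have h2 := Nat.log_le_self 2 (Nat.log 2 z)
  have h3 := Nat.log_le_self 2 z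
  omega

private theorem z4_Wp {z p1 : ℕ} (h : z < p1) : Wp z p1 = primorial (wf z) := by
  have hw := z4_wf z
  unfold Wp primorial
  refine Finset.prod_congr ?_ fun _ _ => rfl
  ext p
  unfold PP
  rw [Finset.mem_erase, Finset.mem_filter, Finset.mem_Ioc, Finset.mem_filter, Finset.mem_range]
  constructor
  · rintro ⟨_, ⟨_, h2⟩, h3⟩
    exact ⟨by omega, h3⟩
  · rintro ⟨h2, h3⟩
    exact ⟨by omega, ⟨h3.pos, by omega⟩, h3⟩

private theorem z4_P0 {z p1 : ℕ} (h : z < p1) : P0 z p1 = PP (wf z) z := by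
  unfold P0
  refine Finset.erase_eq_of_notMem fun h1 => ?_
  unfold PP at h1
  rw [Finset.mem_filter, Finset.mem_Ioc] at h1
  omega

private theorem z4_V {z p1 : ℕ} (hz : z < p1) :
    ((Wp z p1).totient : ℝ) / (Wp z p1 : ℝ) * V1p (P0 z p1) =
      ∏ p ∈ (Finset.range (z + 1)).filter Nat.Prime, (1 - 1 / (p : ℝ)) := by
  rw [z4_Wp hz, z4_P0 hz]
  have hw := z4_wf z
  set w := wf z
  have hpos : 0 < primorial w := primorial_pos w
  have h1 : ((primorial w).totient : ℝ) =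
      primorial w * ∏ p ∈ (Finset.range (w + 1)).filter Nat.Prime, (1 - 1 / (p : ℝ)) := by
    have h2 := Nat.totient_eq_mul_prod_factors (primorial w)
    rw [NT_primeFactors_primorial] at h2
    have h3 : (((primorial w).totient : ℚ) : ℝ) =
        ((primorial w * ∏ p ∈ (Finset.range (w + 1)).filter Nat.Prime, (1 - (p : ℚ)⁻¹) : ℚ) : ℝ) := by
      rw [h2]
    push_cast at h3
    rw [h3]
    congr 1
    exact Finset.prod_congr rfl fun p _ => by rw [one_div]
  have hposR : (0 : ℝ) < primorial w := by exact_mod_cast hpos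
  rw [h1, mul_div_cancel_left₀ _ hposR.ne']
  unfold V1p PP
  rw [← Finset.prod_union]
  · apply Finset.prod_congr _ (fun _ _ => rfl)
    ext p
    simp only [Finset.mem_union, Finset.mem_filter, Finset.mem_range, Finset.mem_Ioc]
    constructor
    · rintro (⟨h, hp⟩ | ⟨h, hp⟩)
      · exact ⟨by omega, hp⟩
      · exact ⟨by omega, hp⟩
    · rintro ⟨h, hp⟩
      by_cases h' : p < w + 1
      · exact Or.inl ⟨h', hp⟩
      · exact Or.inr ⟨⟨by omega, by omega⟩, hp⟩
  · rw [Finset.disjoint_left]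
    intro p hp hp'
    simp only [Finset.mem_filter, Finset.mem_range, Finset.mem_Ioc] at hp hp'
    omega

private theorem z4_Vpos (z : ℕ) :
    0 < ∏ p ∈ (Finset.range (z + 1)).filter Nat.Prime, (1 - 1 / (p : ℝ)) := by
  apply Finset.prod_pos
  intro p hp
  have hp1 : (1 : ℝ) < p := by exact_mod_cast (Finset.mem_filter.1 hp).2.one_lt
  have h2 : 1 / (p : ℝ) < 1 := by rw [div_lt_one (by linarith)]; exact hp1
  linarith

open scoped Classical in
private theorem z4_main (z k1 k2 : ℕ) (hk : k2 ≤ k1) (hz : 2 ≤ z) :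
    k2 * Real.log z * ∏ p ∈ (Finset.range (z + 1)).filter Nat.Prime, (1 - 1 / (p : ℝ)) ≤
      ∑ A ∈ (PP z (z ^ k1)).powerset, (if rr A ≤ (z : ℝ) ^ k2 then 1 / ph A else 0) := by
  have hV := z4_Vpos z
  have hy : 1 ≤ z ^ k2 := Nat.one_le_pow _ _ (by omega)
  have h1 : Real.log ((z ^ k2 : ℕ) : ℝ) ≤ ∑ n ∈ Finset.Icc 1 (z ^ k2), 1 / (n : ℝ) := by
    have h2 := log_add_one_le_harmonic (z ^ k2)
    have h3 : ((harmonic (z ^ k2) : ℚ) : ℝ) = ∑ n ∈ Finset.Icc 1 (z ^ k2), 1 / (n : ℝ) := by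
      rw [harmonic_eq_sum_Icc]
      push_cast
      exact Finset.sum_congr rfl fun n _ => by rw [one_div]
    rw [h3] at h2
    refine le_trans (Real.log_le_log (by exact_mod_cast hy) ?_) h2
    push_cast
    linarith
  have h2 := h1.trans ((Z_harm (z ^ k2)).trans (Z_split z (z ^ k2)))
  rw [Nat.cast_pow, Real.log_pow] at h2
  have h5 := mul_le_mul_of_nonneg_left h2 hV.le
  rw [mul_inv_cancel_left₀ hV.ne'] at h5
  have h6 : ∑ A ∈ (PP z (z ^ k2)).powerset.filter (fun A => rr A ≤ ((z : ℝ) ^ k2)), 1 / ph A ≤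
      ∑ A ∈ (PP z (z ^ k1)).powerset, (if rr A ≤ (z : ℝ) ^ k2 then 1 / ph A else 0) := by
    rw [Finset.sum_filter]
    refine Finset.sum_le_sum_of_subset_of_nonneg (Finset.powerset_mono.2 ?_) ?_
    · intro p hp
      rw [nt_mem] at hp ⊢
      exact ⟨hp.1, hp.2.1.trans (Nat.pow_le_pow_right (by omega) hk), hp.2.2⟩
    · intro A hA _
      rw [Finset.mem_powerset] at hA
      split_ifs
      · exact (one_div_pos.2 (Z_ph_pos fun p hp => (nt_mem.1 (hA hp)).2.2)).le
      · exact le_rfl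
  refine le_trans (le_trans (le_of_eq ?_) h5) (le_trans (le_of_eq ?_) h6)
  · ring
  · apply Finset.sum_congr _ (fun _ _ => rfl)
    ext A
    simp

theorem gn_ge (t k1 k2 : ℕ) (hk : k2 ≤ k1) {ε : ℝ} (hε : 0 < ε) : ∀ᶠ z : ℕ in atTop, ∀ p1 : ℕ, p1.Prime → z < p1 →
    ∀ S ⊆ PL z k1 p1, S.card ≤ t →
      (1 - ε) * (k2 * Real.log z * (((Wp z p1).totient : ℝ) / (Wp z p1 : ℝ) * V1p (P0 z p1))) ≤
        Gn (PL z k1 p1 \ S) z k2 := by
  classical
  have hlim : Tendsto (fun z : ℕ => ((t : ℝ) + 1) / (z : ℝ)) atTop (nhds 0) :=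
    tendsto_const_div_atTop_nhds_zero_nat _
  filter_upwards [eventually_ge_atTop 2, eventually_ge_atTop (t + 1), hlim.eventually_le_const hε] with z hz hzt hze
  intro p1 hp1 hzp S hS hSt
  have hz0 : (0 : ℝ) < z := by exact_mod_cast (by omega : 0 < z)
  rw [z4_V hzp]
  set P := PP z (z ^ k1) with hPdef
  set f : Finset ℕ → ℝ := fun A => if rr A ≤ (z : ℝ) ^ k2 then 1 / ph A else 0 with hf
  have hpr : ∀ A, A ⊆ P → ∀ p ∈ A, p.Prime := fun A hA p hp => (nt_mem.1 (hA hp)).2.2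
  have hph : ∀ A, A ⊆ P → 0 < ph A := fun A hA => Z_ph_pos (hpr A hA)
  have hf0 : ∀ A, A ⊆ P → 0 ≤ f A := by
    intro A hA
    simp only [hf]
    split_ifs
    · exact (one_div_pos.2 (hph A hA)).le
    · exact le_rfl
  have hf1 : ∀ A, A ⊆ P → ∀ p ∈ P, p ∉ A → f (insert p A) ≤ f A / z := by
    intro A hA p hp hpA
    have hpz := nt_mem.1 hp
    have hp1' : (z : ℝ) + 1 ≤ p := by exact_mod_cast hpz.1
    have hrr : rr A ≤ rr (insert p A) := by
      unfold rr
      rw [Finset.prod_insert hpA]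
      have h2 : (0 : ℝ) ≤ ∏ p ∈ A, (p : ℝ) := Finset.prod_nonneg fun p _ => Nat.cast_nonneg p
      nlinarith
    have hph2 : ph (insert p A) = ((p : ℝ) - 1) * ph A := by
      unfold ph
      rw [Finset.prod_insert hpA]
    have hA0 := hph A hA
    simp only [hf]
    by_cases h : rr (insert p A) ≤ (z : ℝ) ^ k2
    · rw [if_pos h, if_pos (hrr.trans h), hph2, div_div]
      refine one_div_le_one_div_of_le (mul_pos hA0 hz0) ?_
      rw [mul_comm (ph A)]
      exact mul_le_mul_of_nonneg_right (by linarith) hA0.le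
    · rw [if_neg h]
      exact div_nonneg (by
        split_ifs
        · exact (one_div_pos.2 hA0).le
        · exact le_rfl) hz0.le
  set S' := (insert p1 S) ∩ P with hS'
  have hS'P : S' ⊆ P := Finset.inter_subset_right
  have hS'c : (S'.card : ℝ) ≤ t + 1 := by
    have h1 : S'.card ≤ (insert p1 S).card := Finset.card_le_card Finset.inter_subset_left
    have h2 := Finset.card_insert_le p1 S
    have h3 : S'.card ≤ t + 1 := by omega
    exact_mod_cast h3
  have h1 := z4_sdiff P z (by omega) f hf0 hf1 S' hS'P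
  have h2 : PL z k1 p1 \ S = P \ S' := by
    ext q
    rw [hS', Finset.mem_sdiff, Finset.mem_sdiff, Finset.mem_inter, Finset.mem_insert]
    unfold PL
    rw [Finset.mem_erase]
    tauto
  have h3 : Gn (PL z k1 p1 \ S) z k2 = ∑ A ∈ (P \ S').powerset, f A := by
    rw [h2]
    unfold Gn
    rw [Finset.sum_filter]
  rw [h3]
  have h4 := z4_main z k1 k2 hk hz
  have hlog : 0 ≤ Real.log (z : ℝ) := Real.log_natCast_nonneg z
  have h5 : 0 ≤ k2 * Real.log z * ∏ p ∈ (Finset.range (z + 1)).filter Nat.Prime, (1 - 1 / (p : ℝ)) :=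
    mul_nonneg (mul_nonneg (Nat.cast_nonneg _) hlog) (z4_Vpos z).le
  have h6 : (S'.card : ℝ) / z ≤ ε := le_trans (div_le_div_of_nonneg_right hS'c hz0.le) hze
  have h7 : 0 ≤ 1 - (S'.card : ℝ) / z := by
    have h8 : (S'.card : ℝ) / z ≤ 1 := by
      rw [div_le_one hz0]
      refine hS'c.trans ?_
      exact_mod_cast hzt
    linarith
  have h8 : (1 - ε) * (k2 * Real.log z * ∏ p ∈ (Finset.range (z + 1)).filter Nat.Prime, (1 - 1 / (p : ℝ)))
      ≤ (1 - (S'.card : ℝ) / z) *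
        (k2 * Real.log z * ∏ p ∈ (Finset.range (z + 1)).filter Nat.Prime, (1 - 1 / (p : ℝ))) :=
    mul_le_mul_of_nonneg_right (by linarith) h5
  have h9 : (1 - (S'.card : ℝ) / z) *
        (k2 * Real.log z * ∏ p ∈ (Finset.range (z + 1)).filter Nat.Prime, (1 - 1 / (p : ℝ))) ≤
      (1 - (S'.card : ℝ) / z) * ∑ A ∈ P.powerset, f A := by
    refine mul_le_mul_of_nonneg_left ?_ h7
    refine h4.trans (le_of_eq ?_)
    refine Finset.sum_congr rfl fun A _ => ?_
    simp only [hf]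
  exact (h8.trans h9).trans h1

/-- `W/(φ(W) V1) ≥ log z` for `p1 > z` -/
theorem mert_sharp : ∀ᶠ z : ℕ in atTop, ∀ p1 : ℕ, p1.Prime → z < p1 →
    ((Wp z p1).totient : ℝ) / (Wp z p1 : ℝ) * V1p (P0 z p1) ≤ 1 / Real.log z := by
  filter_upwards [eventually_ge_atTop 2] with z hz
  intro p1 _ hzp
  rw [z4_V hzp]
  exact NT_prod_le hz

end Pool.Agent.LibGL22
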