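import Pool.Agent.LibGL22.QU
import Pool.Agent.LibGL22.V1
import Pool.Agent.LibSC93.J3
import Pool.Agent.LibSC93.J6
import Pool.Agent.LibSC93.K2

/-!
Rows S1, S2 (uniform side). Copy of the finished `LibSC93/S1.lean` with `quU` of this library.
-/

open Finset Filter

namespace Pool.Agent.LibGL22

open Pool.Agent.LibRG87 Pool.Agent.LibLG5 Pool.Agent.LibPL63 Pool.Agent.LibSC93

variable {R : Prm} {C Cq Cm : ℕ} {c cD Λ δ : ℝ}

private theorem S1_P {z p1 : ℕ} : ∀ p ∈ PG R z p1, Nat.Prime p :=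
  fun _ hp => (PG_mem hp).1

private theorem S1_P0 {z p1 : ℕ} : ∀ p ∈ P0 z p1, Nat.Prime p := fun _ hp => (mem_P0.1 hp).2.1

/-- the diagonal with the joint coefficients -/
private theorem S1_dg {z p1 : ℕ} {h K : Finset ℕ} (hh : h.card = R.k) (E : Finset ℕ)
    (hE : h ⊆ E) :
    dgV (PG R z p1) (VP (P0 z p1)) (bS h K) E (YG R z p1 h K) ≤
      G2G R z p1 ^ R.k * dgV (PG R z p1) (VP (P0 z p1))
        (Subtype.val : ↥K → ℕ) E (y5 (PG R z p1) z R.r0 R.q0) := by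
  have h1 := dgJ_le (κ := ↥h) (ν := ↥K) (PG R z p1) S1_P z R.q0 R.a R.I
    (2 * R.u) R.r0 R.q0 (VP (P0 z p1)) (VP_nonneg _ S1_P0) (bS h K) E
    (fun i => hE i.2)
  rw [Fintype.card_coe, hh] at h1
  exact h1

theorem side1 (hp : ParG R C Cq Cm c cD Λ δ) :
    ∀ᶠ z : ℕ in atTop, ∀ p1 : ℕ, p1.Prime → ∀ (c0 : ℕ) (h K : Finset ℕ),
      PosS z p1 c0 R.k (Λ * R.q) h K →
      ∑ n ∈ sN (z ^ R.q) (Wp z p1) c0, PsG R z p1 h K n ^ 2 ≤
        (1 + δ) * (NW R z p1 * (G2G R z p1 ^ R.k * DKG R z p1 h K)) := by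
  filter_upwards [quU hp, baseG hp 1 zero_lt_one,
    tinyL R.k 0 (δ / 200) (div_pos hp.hδ (by norm_num))]
    with z hQ hB hT p1 hp1 c0 h K hpos
  have hQ1 := hQ p1 hp1 c0 h K h hpos (Or.inl rfl)
  have hB1 := hB p1
  have hz3 : 3 ≤ z := hB1.1
  have hT1 := (hT p1 hp1 h hpos.1).2
  rw [pow_zero] at hT1
  have hW : (0 : ℝ) < Wp z p1 := by exact_mod_cast Wp_pos z p1
  have hz0 : (0 : ℝ) < z := by
    have : 0 < z := by omega
    exact_mod_cast this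
  have hNW : 0 ≤ NW R z p1 := by unfold NW; positivity
  have hG : 1 ≤ G2G R z p1 := (one_le_G hB1).2
  have hGk : 1 ≤ G2G R z p1 ^ R.k := one_le_pow₀ hG
  have hDK := DKG_ge hp hB1 h K
  have hVP := VP_nonneg (P0 z p1) S1_P0 h
  obtain ⟨he0, he1, _⟩ := eG_le hp
  have hdg := S1_dg (R := R) (z := z) (p1 := p1) (K := K) hpos.1 h (Finset.Subset.refl h)
  have hDKS0 : 0 ≤ DKG R z p1 h K := hVP.trans hDK
  have h1 := (abs_le.1 hQ1).2
  have h2 : VP (P0 z p1) h * R.e Cq Λ ≤ VP (P0 z p1) h * (δ / 100) :=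
    mul_le_mul_of_nonneg_left he1 hVP
  have h3 : 2 / Real.sqrt z ≤ VP (P0 z p1) h * (δ / 100) := by
    have : 2 / Real.sqrt z = 2 * (1 / Real.sqrt z) := by ring
    rw [this]
    linarith
  have h4 : DKG R z p1 h K ≤ G2G R z p1 ^ R.k * DKG R z p1 h K :=
    le_mul_of_one_le_left hDKS0 hGk
  have h5 : ∑ n ∈ sN (z ^ R.q) (Wp z p1) c0, PsG R z p1 h K n ^ 2 ≤
      NW R z p1 * dgV (PG R z p1) (VP (P0 z p1)) (bS h K) h (YG R z p1 h K) +
      NW R z p1 * (VP (P0 z p1) h * R.e Cq Λ + 2 / Real.sqrt z) := by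
    unfold PsG
    linarith
  refine h5.trans ?_
  have h6 : dgV (PG R z p1) (VP (P0 z p1)) (bS h K) h (YG R z p1 h K) ≤
      G2G R z p1 ^ R.k * DKG R z p1 h K := hdg
  have h7 : dgV (PG R z p1) (VP (P0 z p1)) (bS h K) h (YG R z p1 h K) +
      (VP (P0 z p1) h * R.e Cq Λ + 2 / Real.sqrt z) ≤
      (1 + δ) * (G2G R z p1 ^ R.k * DKG R z p1 h K) := by
    have h8 : VP (P0 z p1) h * (δ / 100) ≤ G2G R z p1 ^ R.k * DKG R z p1 h K * (δ / 100) :=
      mul_le_mul_of_nonneg_right (hDK.trans h4) (by linarith [hp.hδ])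
    have h9 : 0 ≤ G2G R z p1 ^ R.k * DKG R z p1 h K * δ :=
      mul_nonneg (hDKS0.trans h4) hp.hδ.le
    linarith
  have h10 := mul_le_mul_of_nonneg_left h7 hNW
  linarith

theorem side2 (hp : ParG R C Cq Cm c cD Λ δ) :
    ∀ᶠ z : ℕ in atTop, ∀ p1 : ℕ, p1.Prime → ∀ (c0 : ℕ) (h K : Finset ℕ),
      PosS z p1 c0 R.k (Λ * R.q) h K →
      ∑ n ∈ sN (z ^ R.q) (Wp z p1) c0, PsG R z p1 h K n ^ 2 *
            (K.filter fun j => ∀ p ∈ P0 z p1, ¬ p ∣ n + j).card ≤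
        (2 * R.A2 ^ R.I2 + 16 * (Λ * R.q) + 1) * (NW R z p1 * (G2G R z p1 ^ R.k * DKG R z p1 h K)) := by
  filter_upwards [quU hp, baseG hp 1 zero_lt_one, tinyL R.k 2 (1 / 400) (by norm_num),
    stepVP (R.k + 2 * R.A2 ^ R.I2)] with z hQ hB hT hSt p1 hp1 c0 h K hpos
  have hB1 := hB p1
  have hz3 : 3 ≤ z := hB1.1
  have hlog : 1 ≤ Real.log z := hB1.2.1
  have hT1 := (hT p1 hp1 h hpos.1).2
  have hW : (0 : ℝ) < Wp z p1 := by exact_mod_cast Wp_pos z p1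
  have hz0 : (0 : ℝ) < z := by
    have : 0 < z := by omega
    exact_mod_cast this
  have hNW : 0 ≤ NW R z p1 := by unfold NW; positivity
  have hG : 1 ≤ G2G R z p1 := (one_le_G hB1).2
  have hGk : 1 ≤ G2G R z p1 ^ R.k := one_le_pow₀ hG
  have hDK := DKG_ge hp hB1 h K
  have hVP := VP_nonneg (P0 z p1) S1_P0 h
  have hV1 : 0 < V1p (P0 z p1) := V1p_pos _ S1_P0
  obtain ⟨he0, he1, _, he2, _⟩ := eG_le hp
  have hDKS0 : 0 ≤ DKG R z p1 h K := hVP.trans hDK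
  have hposx := hpos
  obtain ⟨hhc, hdis, hxs, hKV⟩ := hposx
  -- the step property
  have hStep : StepV (VP (P0 z p1)) (4 * V1p (P0 z p1)) (h ∪ K) (R.k + 2 * R.A2 ^ R.I2) :=
    hSt p1 hp1 (h ∪ K) fun x hx => (hxs x hx).1
  have hVj : ∀ j ∈ K, VP (P0 z p1) (insert j h) ≤ 4 * V1p (P0 z p1) * VP (P0 z p1) h := by
    intro j hj
    refine hStep h j Finset.subset_union_left (by omega) (Finset.mem_union_right _ hj) ?_
    exact fun hh => (Finset.disjoint_left.1 hdis) hh hj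
  -- the pointwise identity
  have hpt : ∀ n, PsG R z p1 h K n ^ 2 *
      (K.filter fun j => ∀ p ∈ P0 z p1, ¬ p ∣ n + j).card =
      ∑ j ∈ K, PhiS (PG R z p1) (P0 z p1) (bS h K) (YG R z p1 h K) (insert j h) n ^ 2 := by
    intro n
    have h1 : ∀ j ∈ K, PhiS (PG R z p1) (P0 z p1) (bS h K)
        (YG R z p1 h K) (insert j h) n ^ 2 =
        if ∀ p ∈ P0 z p1, ¬ p ∣ n + j then PsG R z p1 h K n ^ 2 else 0 :=
      fun j _ => PhiS_insert _ _ _ _ _ _ _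
    rw [Finset.sum_congr rfl h1, ← Finset.sum_filter, Finset.sum_const, nsmul_eq_mul, mul_comm]
  rw [Finset.sum_congr rfl fun n _ => hpt n, Finset.sum_comm]
  -- every `j`
  have hj : ∀ j ∈ K, ∑ n ∈ sN (z ^ R.q) (Wp z p1) c0,
        PhiS (PG R z p1) (P0 z p1) (bS h K) (YG R z p1 h K) (insert j h) n ^ 2 ≤
      NW R z p1 * (G2G R z p1 ^ R.k * dgV (PG R z p1) (VP (P0 z p1))
        (Subtype.val : ↥K → ℕ) (insert j h) (y5 (PG R z p1) z R.r0 R.q0) +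
        (4 * V1p (P0 z p1) * VP (P0 z p1) h * R.e Cq Λ + 2 / Real.sqrt z)) := by
    intro j hj
    have h1 := (abs_le.1 (hQ p1 hp1 c0 h K (insert j h) hpos (Or.inr ⟨j, hj, rfl⟩))).2
    have h2 := S1_dg (R := R) (z := z)
      (p1 := p1) (K := K) hhc (insert j h) (Finset.subset_insert j h)
    have h3 : VP (P0 z p1) (insert j h) * R.e Cq Λ ≤
        4 * V1p (P0 z p1) * VP (P0 z p1) h * R.e Cq Λ :=
      mul_le_mul_of_nonneg_right (hVj j hj) he0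
    have h4 : ∑ n ∈ sN (z ^ R.q) (Wp z p1) c0,
          PhiS (PG R z p1) (P0 z p1) (bS h K) (YG R z p1 h K) (insert j h) n ^ 2 ≤
        NW R z p1 * dgV (PG R z p1) (VP (P0 z p1)) (bS h K) (insert j h) (YG R z p1 h K) +
        NW R z p1 * (VP (P0 z p1) (insert j h) * R.e Cq Λ + 2 / Real.sqrt z) := by
      linarith
    refine h4.trans ?_
    rw [← mul_add]
    refine mul_le_mul_of_nonneg_left ?_ hNW
    linarith
  refine (Finset.sum_le_sum hj).trans ?_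
  rw [← Finset.mul_sum]
  have hfin : (2 * (R.A2 : ℝ) ^ R.I2 + 16 * (Λ * R.q) + 1) *
      (NW R z p1 * (G2G R z p1 ^ R.k * DKG R z p1 h K)) =
      NW R z p1 * ((2 * (R.A2 : ℝ) ^ R.I2 + 16 * (Λ * R.q) + 1) *
      (G2G R z p1 ^ R.k * DKG R z p1 h K)) := by ring
  rw [hfin]
  refine mul_le_mul_of_nonneg_left ?_ hNW
  rw [Finset.sum_add_distrib, ← Finset.mul_sum, Finset.sum_const, nsmul_eq_mul]
  -- the diagonal sum
  have hNr : ∑ j ∈ K, dgV (PG R z p1) (VP (P0 z p1))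
        (Subtype.val : ↥K → ℕ) (insert j h) (y5 (PG R z p1) z R.r0 R.q0) ≤
      (2 * R.A2 ^ R.I2 + 16 * (Λ * R.q)) * DKG R z p1 h K := by
    have hE : ∀ j : ↥K, (j : ℕ) ∉ h := fun j hh => (Finset.disjoint_left.1 hdis) hh j.2
    have himg : (univ : Finset ↥K).image (Subtype.val : ↥K → ℕ) = K := by
      ext x
      rw [Finset.mem_image]
      constructor
      · rintro ⟨j, _, rfl⟩
        exact j.2
      · intro hx
        exact ⟨⟨x, hx⟩, Finset.mem_univ _, rfl⟩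
    have h1 := sumNrV (ν := ↥K) (PG R z p1) z R.r0 R.q0 (2 * R.A2 ^ R.I2)
      (fun p hp' => ⟨(PG_mem hp').1, (PG_mem hp').2.1⟩) (by omega) hp.hr0
      (by unfold Prm.q0 q0S; exact le_of_eq (by ring)) (VP (P0 z p1)) (VP_nonneg _ S1_P0)
      (v := 4 * V1p (P0 z p1)) (by positivity) (Subtype.val : ↥K → ℕ) Subtype.val_injective h hE
      (by rw [himg, hhc]; exact hStep)
    have h2 : ∑ j ∈ K, dgV (PG R z p1) (VP (P0 z p1))
        (Subtype.val : ↥K → ℕ) (insert j h) (y5 (PG R z p1) z R.r0 R.q0) =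
        ∑ j : ↥K, dgV (PG R z p1) (VP (P0 z p1))
        (Subtype.val : ↥K → ℕ) (insert (j : ℕ) h)
          (y5 (PG R z p1) z R.r0 R.q0) :=
      (Finset.sum_coe_sort K _).symm
    rw [h2]
    refine h1.trans ?_
    refine mul_le_mul_of_nonneg_right ?_ hDKS0
    rw [Fintype.card_coe]
    push_cast
    have h3 : (K.card : ℝ) * (4 * V1p (P0 z p1)) = 4 * (K.card * V1p (P0 z p1)) := by ring
    rw [h3]
    linarith
  have hGN : G2G R z p1 ^ R.k * ∑ j ∈ K, dgV (PG R z p1) (VP (P0 z p1))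
        (Subtype.val : ↥K → ℕ) (insert j h) (y5 (PG R z p1) z R.r0 R.q0) ≤
      G2G R z p1 ^ R.k * ((2 * R.A2 ^ R.I2 + 16 * (Λ * R.q)) *
        DKG R z p1 h K) := mul_le_mul_of_nonneg_left hNr (by linarith)
  -- the errors
  have hE1 : (K.card : ℝ) * (4 * V1p (P0 z p1) * VP (P0 z p1) h * R.e Cq Λ) ≤
      VP (P0 z p1) h / 100 := by
    have h1 : (K.card : ℝ) * (4 * V1p (P0 z p1) * VP (P0 z p1) h * R.e Cq Λ) =
        4 * (K.card * V1p (P0 z p1)) * (VP (P0 z p1) h * R.e Cq Λ) := by ring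
    rw [h1]
    have h2 : 4 * ((K.card : ℝ) * V1p (P0 z p1)) * (VP (P0 z p1) h * R.e Cq Λ) ≤
        16 * (Λ * R.q) * (VP (P0 z p1) h * R.e Cq Λ) :=
      mul_le_mul_of_nonneg_right (by linarith) (mul_nonneg hVP he0)
    refine h2.trans ?_
    have h3 : 16 * (Λ * R.q) * (VP (P0 z p1) h * R.e Cq Λ) =
        VP (P0 z p1) h * (16 * (Λ * R.q) * R.e Cq Λ) := by ring
    rw [h3]
    have h4 := mul_le_mul_of_nonneg_left he2 hVP
    have h5 : VP (P0 z p1) h * (δ / 100) ≤ VP (P0 z p1) h * (1 / 100) := by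
      refine mul_le_mul_of_nonneg_left ?_ hVP
      linarith [hp.hδ1]
    linarith
  have hE2 : (K.card : ℝ) * (2 / Real.sqrt z) ≤ VP (P0 z p1) h / 100 := by
    have h1 := (card_pos hp hpos).1
    rw [Fintype.card_sum, Fintype.card_coe, Fintype.card_coe] at h1
    push_cast at h1
    have h2 : (0 : ℝ) ≤ (h.card : ℝ) := Nat.cast_nonneg _
    have h3 : (K.card : ℝ) ≤ 2 * Real.log z ^ 2 := by nlinarith
    have h4 : 0 ≤ 2 / Real.sqrt z := by positivity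
    calc (K.card : ℝ) * (2 / Real.sqrt z) ≤ 2 * Real.log z ^ 2 * (2 / Real.sqrt z) :=
          mul_le_mul_of_nonneg_right h3 h4
      _ = 4 * (Real.log z ^ 2 / Real.sqrt z) := by ring
      _ ≤ VP (P0 z p1) h / 100 := by linarith
  have h4 : DKG R z p1 h K ≤
      G2G R z p1 ^ R.k * DKG R z p1 h K :=
    le_mul_of_one_le_left hDKS0 hGk
  have h5 : (K.card : ℝ) * (4 * V1p (P0 z p1) * VP (P0 z p1) h * R.e Cq Λ +
      2 / Real.sqrt z) ≤ VP (P0 z p1) h / 50 := by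
    rw [mul_add]
    linarith
  calc _ ≤ G2G R z p1 ^ R.k * ((2 * R.A2 ^ R.I2 + 16 * (Λ * R.q)) *
        DKG R z p1 h K) + VP (P0 z p1) h / 50 := add_le_add hGN h5
    _ ≤ G2G R z p1 ^ R.k * ((2 * R.A2 ^ R.I2 + 16 * (Λ * R.q)) *
        DKG R z p1 h K) +
        G2G R z p1 ^ R.k * DKG R z p1 h K := by
          refine add_le_add le_rfl ?_
          linarith
    _ = _ := by ring

end Pool.Agent.LibGL22
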