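import Pool.Agent.LibGL22.N1
import Pool.Agent.LibSC93.J7

/-!
Row N2 (sharp version of `LibSC93.dgJ_ge`, file J7). Same proof; `J7_DD` becomes: `(1 - ε) G1s² G2s^(k-1) ≤ DD (P \ S) (yC (P \ S) …)` for `|S| ≤ 2 r1`, from `DD_yC_ge2` (row N1) for `P \ S` with `ε/2`
and `G1s_sdiff`, `G2s_sdiff`, `L2s_sdiff` (public in J7): `(1 - 2 r1/z)^(k+1) ≥ 1 - 2 r1 (k+1)/z ≥ 1 - ε/8` (Bernoulli; `64 (k + r1 + L' + 1)² ≤ ε z`), `(1 - ε/2)(1 - ε/8) ≥ 1 - ε`.
Hypothesis of N1 for `P \ S`: `8 k L2s(P \ S) ≤ 8 k L2s P ≤ (ε/4) G2s P L' log z ≤ (ε/2) G2s(P \ S) L' log z`. Copy J7.lean from `J7_card_le` on (the private lemmas have to be copied).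
-/

open Finset

namespace Pool.Agent.LibGL22

open Pool.Agent.LibRG87 Pool.Agent.LibLG5 Pool.Agent.LibPL63 Pool.Agent.LibSC93

variable {κ ν : Type} [Fintype κ] [DecidableEq κ] [Fintype ν] [DecidableEq ν] (P : Finset ℕ)

private theorem N2_ph_pos (hP : ∀ p ∈ P, Nat.Prime p) {A : Finset ℕ} (hA : A ⊆ P) : 0 < ph A := by
  unfold ph
  refine Finset.prod_pos fun p hp => ?_
  have h1 : (1 : ℝ) < p := by exact_mod_cast (hP p (hA hp)).one_lt
  linarith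

private theorem N2_card_le {z L' : ℕ} (hz : 2 ≤ z) (hP : ∀ p ∈ P, p.Prime ∧ z < p) (S : Finset ℕ)
    (hS : S ⊆ P) (h : rr S ≤ (z : ℝ) ^ L') : S.card ≤ L' := by
  have h1 : (z : ℝ) ^ S.card ≤ rr S := by
    unfold rr
    rw [← Finset.prod_const]
    refine Finset.prod_le_prod (fun p _ => Nat.cast_nonneg z) fun p hp => ?_
    exact_mod_cast (hP p (hS hp)).2.le
  have h2 : (z : ℝ) ^ S.card ≤ (z : ℝ) ^ L' := h1.trans h
  have h3 : z ^ S.card ≤ z ^ L' := by exact_mod_cast h2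
  exact (Nat.pow_le_pow_iff_right (by omega)).1 h3

/-- the lower bound for the diagonal form of `P \ S` -/
private theorem N2_DD (z q0 a I L' r1 : ℕ) (hP : ∀ p ∈ P, Nat.Prime p ∧ z < p) (ha : 1 ≤ a)
    (i0 : κ) (hL : q0 * a ^ I ≤ L') (hL' : 1 ≤ L') {ε : ℝ} (hε : 0 < ε) (hε1 : ε ≤ 1)
    (hz : 64 * ((Fintype.card κ : ℝ) + r1 + L' + 1) ^ 2 ≤ ε * z)
    (h2 : 32 * Fintype.card κ * L2s P z q0 a I ≤ ε * (G2s P z q0 a I * L' * Real.log z))
    (S : Finset ℕ) (hS : S ⊆ P) (hSc : S.card ≤ 2 * r1) :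
    (1 - ε) * (G1s P z q0 a I ^ 2 * G2s P z q0 a I ^ (Fintype.card κ - 1)) ≤
      DD (P \ S) (yC (P \ S) z q0 a I (2 * L') i0) := by
  have hP' : ∀ p ∈ P, Nat.Prime p := fun p hp => (hP p hp).1
  have hPS : ∀ p ∈ P \ S, Nat.Prime p ∧ z < p := fun p hp => hP p (Finset.mem_sdiff.1 hp).1
  obtain ⟨m, hm⟩ : ∃ m, Fintype.card κ = m + 1 :=
    ⟨Fintype.card κ - 1, by have := Fintype.card_pos_iff.2 ⟨i0⟩; omega⟩
  have hm0 : (0 : ℝ) ≤ m := Nat.cast_nonneg m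
  have hr00 : (0 : ℝ) ≤ r1 := Nat.cast_nonneg r1
  have hL0 : (0 : ℝ) ≤ L' := Nat.cast_nonneg L'
  have hmc : (Fintype.card κ : ℝ) = m + 1 := by
    rw [hm]
    push_cast
    ring
  have hz64 : (64 : ℝ) ≤ z := by
    have h3 : (1 : ℝ) ≤ ((Fintype.card κ : ℝ) + r1 + L' + 1) ^ 2 := by
      apply one_le_pow₀
      have : (0 : ℝ) ≤ Fintype.card κ := Nat.cast_nonneg _
      linarith
    have h4 : ε * (z : ℝ) ≤ z := mul_le_of_le_one_left (Nat.cast_nonneg z) hε1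
    linarith
  have hz1 : 1 ≤ z := by
    have : (1 : ℝ) ≤ z := by linarith
    exact_mod_cast this
  have hz0 : (0 : ℝ) < z := by exact_mod_cast hz1
  have hlz : 0 ≤ Real.log z := Real.log_nonneg (by exact_mod_cast hz1)
  have hG1 : 1 ≤ G1s P z q0 a I := one_le_G1s P hP' hz1
  have hG2 : 1 ≤ G2s P z q0 a I := one_le_G2s P hP' hz1
  have hzz : 16 * (((m : ℝ) + 2) * r1) ≤ ε * z := by
    rw [hmc] at hz
    refine le_trans ?_ hz
    nlinarith [mul_nonneg hm0 hr00, mul_nonneg hm0 hL0, mul_nonneg hr00 hL0, sq_nonneg (m : ℝ),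
      sq_nonneg (r1 : ℝ), sq_nonneg (L' : ℝ)]
  -- the factor
  set t : ℝ := 1 - (S.card : ℝ) / z with ht
  have hSc' : (S.card : ℝ) / z ≤ 2 * r1 / z :=
    div_le_div_of_nonneg_right (by exact_mod_cast hSc) hz0.le
  have hb : ((m : ℝ) + 2) * (2 * r1 / z) ≤ ε / 8 := by
    rw [mul_div_assoc', div_le_iff₀ hz0]
    linarith
  have hc0 : 0 ≤ (S.card : ℝ) / z := by positivity
  have hr0 : (0 : ℝ) ≤ 2 * r1 / z := by positivity
  have hrb : 2 * (r1 : ℝ) / z ≤ ε / 8 := by nlinarith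
  have hcb : ((m : ℝ) + 2) * ((S.card : ℝ) / z) ≤ ε / 8 :=
    (mul_le_mul_of_nonneg_left hSc' (by linarith)).trans hb
  have htm : 1 - ε / 8 ≤ t ^ (m + 2) := by
    have h3 : -2 ≤ -((S.card : ℝ) / z) := by linarith
    have h4 := one_add_mul_le_pow h3 (m + 2)
    have h5 : t = 1 + -((S.card : ℝ) / z) := by rw [ht]; ring
    rw [h5]
    refine le_trans ?_ h4
    push_cast
    linarith
  have ht2 : 1 / 2 ≤ t := by
    rw [ht]
    linarith
  have ht0 : 0 ≤ t := by linarith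
  have h1s := G1s_sdiff P z q0 a I hP hz1 ha hS
  have h2s := G2s_sdiff P z q0 a I hP hz1 ha hS
  rw [← ht] at h1s h2s
  have hL2 := L2s_sdiff P z q0 a I hP hz1 S
  have hmain := DD_yC_ge2 (P \ S) z q0 a I L' hPS ha i0 hL hL' (ε := ε / 2) (by linarith)
    (by linarith)
    (by
      have h3 : ((Fintype.card κ : ℝ) + L' + 1) ^ 2 ≤ ((Fintype.card κ : ℝ) + r1 + L' + 1) ^ 2 := by
        apply pow_le_pow_left₀ (by positivity)
        linarith
      have h4 : 0 ≤ ((Fintype.card κ : ℝ) + L' + 1) ^ 2 := sq_nonneg _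
      have h5 : ε / 2 * (z : ℝ) = ε * z / 2 := by ring
      rw [h5]
      linarith)
    (by
      have h3 : 8 * (Fintype.card κ : ℝ) * L2s (P \ S) z q0 a I ≤
          8 * Fintype.card κ * L2s P z q0 a I :=
        mul_le_mul_of_nonneg_left hL2 (by positivity)
      refine h3.trans ?_
      have h4 : G2s P z q0 a I ≤ 2 * G2s (P \ S) z q0 a I := by nlinarith
      have h5 : (0 : ℝ) ≤ L' * Real.log z := mul_nonneg (Nat.cast_nonneg _) hlz
      have h6 := mul_le_mul_of_nonneg_right h4 h5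
      have h7 := mul_le_mul_of_nonneg_left h6 hε.le
      have h8 : ε * (G2s P z q0 a I * (L' * Real.log z)) =
          ε * (G2s P z q0 a I * L' * Real.log z) := by ring
      have h9 : ε * (2 * G2s (P \ S) z q0 a I * (L' * Real.log z)) =
          4 * (ε / 2 * (G2s (P \ S) z q0 a I * L' * Real.log z)) := by ring
      rw [h8, h9] at h7
      linarith)
  refine le_trans ?_ hmain
  rw [hm, Nat.add_sub_cancel]
  have hq1 : (t * G1s P z q0 a I) ^ 2 ≤ G1s (P \ S) z q0 a I ^ 2 :=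
    pow_le_pow_left₀ (mul_nonneg ht0 (by linarith)) h1s 2
  have hq2 : (t * G2s P z q0 a I) ^ m ≤ G2s (P \ S) z q0 a I ^ m :=
    pow_le_pow_left₀ (mul_nonneg ht0 (by linarith)) h2s m
  have hq3 : (t * G1s P z q0 a I) ^ 2 * (t * G2s P z q0 a I) ^ m ≤
      G1s (P \ S) z q0 a I ^ 2 * G2s (P \ S) z q0 a I ^ m :=
    mul_le_mul hq1 hq2 (pow_nonneg (mul_nonneg ht0 (by linarith)) _) (sq_nonneg _)
  have hq4 : (t * G1s P z q0 a I) ^ 2 * (t * G2s P z q0 a I) ^ m =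
      t ^ (m + 2) * (G1s P z q0 a I ^ 2 * G2s P z q0 a I ^ m) := by ring
  have hq5 : 0 ≤ G1s P z q0 a I ^ 2 * G2s P z q0 a I ^ m :=
    mul_nonneg (sq_nonneg _) (pow_nonneg (by linarith) _)
  have hq6 := mul_le_mul_of_nonneg_right htm hq5
  have hq7 : (1 - ε / 8) * (G1s P z q0 a I ^ 2 * G2s P z q0 a I ^ m) ≤
      G1s (P \ S) z q0 a I ^ 2 * G2s (P \ S) z q0 a I ^ m := by linarith
  have hq8 := mul_le_mul_of_nonneg_left hq7 (show (0 : ℝ) ≤ 1 - ε / 2 by linarith)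
  refine le_trans ?_ hq8
  have hq9 : (1 - ε / 2) * ((1 - ε / 8) * (G1s P z q0 a I ^ 2 * G2s P z q0 a I ^ m)) =
      ((1 - ε / 2) * (1 - ε / 8)) * (G1s P z q0 a I ^ 2 * G2s P z q0 a I ^ m) := by ring
  rw [hq9]
  apply mul_le_mul_of_nonneg_right _ hq5
  nlinarith

open scoped Classical in
/-- the summand -/
private noncomputable def N2_G (V : Finset ℕ → ℝ) (b : κ ⊕ ν → ℕ) (E : Finset ℕ)
    (z q0 a I L r0 r1 : ℕ) (i0 : κ) (α : P → Option κ) (γ : P → Option ν) : ℝ :=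
  if ∀ p, α p ≠ some i0 then
    ((∏ i, g1 z q0 a I (fb P α i)) * gS P z q0 a I L (sp P α ∪ sp P γ) (rr (sp P α)) *
      y5 P z r0 r1 γ) ^ 2 * V (E ∪ su P (fun j => b (Sum.inr j)) γ) / (ph (sp P α) * ph (sp P γ))
  else 0

private theorem N2_bL_ne (β : P → Option (κ ⊕ ν)) (i0 : κ) :
    (∀ p, bL P β p ≠ some i0) ↔ ∀ p, β p ≠ some (Sum.inl i0) := by
  refine forall_congr' fun p => not_congr ?_
  unfold bL
  rcases h : β p with _ | (i | j)
  · simp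
  · simp
  · simp

private theorem N2_rhs (V : Finset ℕ → ℝ) (b : κ ⊕ ν → ℕ) (E : Finset ℕ)
    (hE : ∀ i, b (Sum.inl i) ∈ E) (z q0 a I L r0 r1 : ℕ) (hz : 1 ≤ z) (i0 : κ) :
    dgV P V b E (yCol P (Sum.inl i0) (yJ P z q0 a I L r0 r1)) =
      ∑ β : P → Option (κ ⊕ ν), N2_G P V b E z q0 a I L r0 r1 i0 (bL P β) (bR P β) := by
  unfold dgV
  refine Finset.sum_congr rfl fun β _ => ?_
  unfold N2_G
  by_cases h : ∀ p, β p ≠ some (Sum.inl i0)
  · rw [if_pos ((N2_bL_ne P β i0).2 h), yCol_inl P z q0 a I L r0 r1 hz i0 β h, su_bR P b E hE β,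
      ph_bLR P β, sp_bLR P β]
  · rw [if_neg (fun h' => h ((N2_bL_ne P β i0).1 h')), yCol_of_not P _ _ _ h]
    simp

private theorem N2_cond (α : P → Option κ) (γ : P → Option ν) :
    (∀ p, α p = none ∨ γ p = none) ↔ ∀ p : P, (p : ℕ) ∈ sp P γ → α p = none := by
  refine forall_congr' fun p => ?_
  rw [mem_sp]
  constructor
  · rintro (h | h) ⟨_, h2⟩
    · exact h
    · exact absurd h h2
  · intro h
    by_cases hg : γ p = none
    · exact Or.inr hg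
    · exact Or.inl (h ⟨p.2, hg⟩)

private theorem N2_inner (V : Finset ℕ → ℝ) (b : κ ⊕ ν → ℕ) (E : Finset ℕ)
    (z q0 a I L r0 r1 : ℕ) (i0 : κ) (γ : P → Option ν) (α : ↥(P \ sp P γ) → Option κ) :
    N2_G P V b E z q0 a I L r0 r1 i0 (ext P (sp P γ) α) γ =
      y5 P z r0 r1 γ ^ 2 * V (E ∪ su P (fun j => b (Sum.inr j)) γ) / ph (sp P γ) *
        (yC (P \ sp P γ) z q0 a I L i0 α ^ 2 / ph (sp (P \ sp P γ) α)) := by
  unfold N2_G yC
  by_cases h : ∀ p, α p ≠ some i0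
  · rw [if_pos ((ext_ne P (sp P γ) α i0).2 h), if_pos h, sp_ext]
    have h1 : ∏ i, g1 z q0 a I (fb P (ext P (sp P γ) α) i) =
        ∏ i, g1 z q0 a I (fb (P \ sp P γ) α i) :=
      Finset.prod_congr rfl fun i _ => by rw [fb_ext]
    have h2 : gS P z q0 a I L (sp (P \ sp P γ) α ∪ sp P γ) (rr (sp (P \ sp P γ) α)) =
        ∑ A ∈ ((P \ sp P γ) \ sp (P \ sp P γ) α).powerset with
          rr A * rr (sp (P \ sp P γ) α) ≤ (z : ℝ) ^ L, g1 z q0 a I A / ph A := by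
      unfold gS
      rw [sdiff_sdiff_left, Finset.sup_eq_union, Finset.union_comm]
    rw [h1, h2]
    ring
  · rw [if_neg (fun h' => h ((ext_ne P (sp P γ) α i0).1 h')), if_neg h]
    ring

theorem dgJ_ge2 (z q0 a I L' r0 r1 : ℕ) (hP : ∀ p ∈ P, Nat.Prime p ∧ z < p) (ha : 1 ≤ a)
    (V : Finset ℕ → ℝ) (hV0 : ∀ B, 0 ≤ V B) (b : κ ⊕ ν → ℕ) (E : Finset ℕ)
    (hE : ∀ i, b (Sum.inl i) ∈ E) (i0 : κ) (hL : q0 * a ^ I ≤ L') (hL' : 1 ≤ L')
    {ε : ℝ} (hε : 0 < ε) (hε1 : ε ≤ 1)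
    (hz : 64 * ((Fintype.card κ : ℝ) + r1 + L' + 1) ^ 2 ≤ ε * z)
    (h2 : 32 * Fintype.card κ * L2s P z q0 a I ≤ ε * (G2s P z q0 a I * L' * Real.log z)) :
    (1 - ε) * (G1s P z q0 a I ^ 2 * G2s P z q0 a I ^ (Fintype.card κ - 1)) *
        dgV P V (fun j => b (Sum.inr j)) E (y5 P z r0 r1) ≤
      dgV P V b E (yCol P (Sum.inl i0) (yJ P z q0 a I (2 * L') r0 r1)) := by
  classical
  have hP' : ∀ p ∈ P, Nat.Prime p := fun p hp => (hP p hp).1
  have hz64 : (64 : ℝ) ≤ z := by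
    have h3 : (1 : ℝ) ≤ ((Fintype.card κ : ℝ) + r1 + L' + 1) ^ 2 := by
      apply one_le_pow₀
      have h4 : (0 : ℝ) ≤ Fintype.card κ := Nat.cast_nonneg _
      have h5 : (0 : ℝ) ≤ r1 := Nat.cast_nonneg _
      have h6 : (0 : ℝ) ≤ L' := Nat.cast_nonneg _
      linarith
    have h4 : ε * (z : ℝ) ≤ z := mul_le_of_le_one_left (Nat.cast_nonneg z) hε1
    linarith
  have hz2 : 2 ≤ z := by
    have : (2 : ℝ) ≤ z := by linarith
    exact_mod_cast this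
  rw [N2_rhs P V b E hE z q0 a I (2 * L') r0 r1 (by omega) i0,
    sum_split P (N2_G P V b E z q0 a I (2 * L') r0 r1 i0)]
  unfold dgV
  rw [Finset.mul_sum]
  refine Finset.sum_le_sum fun γ _ => ?_
  have e1 : (∑ α : P → Option κ, if ∀ p, α p = none ∨ γ p = none then
        N2_G P V b E z q0 a I (2 * L') r0 r1 i0 α γ else 0) =
      ∑ α : P → Option κ, if ∀ p : P, (p : ℕ) ∈ sp P γ → α p = none then
        N2_G P V b E z q0 a I (2 * L') r0 r1 i0 α γ else 0 := by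
    refine Finset.sum_congr rfl fun α _ => ?_
    exact if_congr (N2_cond P α γ) rfl rfl
  rw [e1, sum_ext P (sp P γ) (fun α => N2_G P V b E z q0 a I (2 * L') r0 r1 i0 α γ),
    Finset.sum_congr rfl (fun α _ => N2_inner P V b E z q0 a I (2 * L') r0 r1 i0 γ α),
    ← Finset.mul_sum]
  by_cases hy : y5 P z r0 r1 γ = 0
  · rw [hy]
    simp
  · have hr : rr (sp P γ) ≤ (z : ℝ) ^ (2 * r1) := by
      by_contra hc
      apply hy
      unfold y5
      rw [if_neg hc]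
    have hcard := N2_card_le P hz2 hP (sp P γ) (sp_subset P γ) hr
    have hDD := N2_DD P z q0 a I L' r1 hP ha i0 hL hL' hε hε1 hz h2 (sp P γ) (sp_subset P γ) hcard
    have h0 : 0 ≤ y5 P z r0 r1 γ ^ 2 * V (E ∪ su P (fun j => b (Sum.inr j)) γ) / ph (sp P γ) :=
      div_nonneg (mul_nonneg (sq_nonneg _) (hV0 _)) (N2_ph_pos P hP' (sp_subset P γ)).le
    rw [mul_comm]
    exact mul_le_mul_of_nonneg_left hDD h0

end Pool.Agent.LibGL22
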