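import Pool.Agent.LibGL22.QP
import Pool.Agent.LibGL22.V1
import Pool.Agent.LibGL22.N2
import Pool.Agent.LibGL22.N3
import Pool.Agent.LibSC93.J3

/-!
Row S3 (prime side, sharp lower bound). Plan of the finished `LibSC93/S3.lean`, simpler because the average is uniform: for `n ∈ (N, 2N]` and `n + i0` prime, `n + i0 > z^k1`, so `PsG n = PhiS (yCol (inl i0) YG) h n` (`collapseS`);
`quP` with `i0 = inl i0`, `y = yCol (inl i0) YG/G1` (`YL_abs`, `YL_supp`, `L1 ≤ L2`), `A' = k + 3`: the sum is `≥ X (dgV yCol/V1 - G1² (VP h/V1 e + 1/√z)) - G1² NW/(log z)^(k+3)`; `dgJ_ge2` (row N2) with `ε = δ/4`: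
`dgV yCol ≥ (1 - δ/4) G1² G2^(k-1) DKG` (hypothesis by `sums_PL` (row N3) and `hD`: `32 k C (I+1) q0² ≤ (δ/4) c q0 u` ⟸ `128 C ≤ δ c D`, see below), `X ≥ (1 - δ/16) NL`, `NL/V1 = NW vG` (`vG_facts`); errors `≤ (δ/8) NW vG G1² G2^(k-1) DKG`
(`e ≤ δ/100`, `DKG ≥ VP h`, `tinyL`, `vG ≥ 1/(2q)`).
-/

open Finset Filter

namespace Pool.Agent.LibGL22

open Pool.Agent.LibRG87 Pool.Agent.LibLG5 Pool.Agent.LibPL63 Pool.Agent.LibSC93 Pool.Agent.LibBW4

variable {R : Prm} {C Cq Cm : ℕ} {c cD Λ δ : ℝ}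

private theorem S3_Phi_div {ι : Type} [Fintype ι] [DecidableEq ι] (P Pr : Finset ℕ) (b : ι → ℕ)
    (y : (P → Option ι) → ℝ) (E : Finset ℕ) (G : ℝ) (n : ℕ) :
    PhiS P Pr b (fun β => y β / G) E n = PhiS P Pr b y E n / G := by
  unfold PhiS
  rw [Finset.sum_div]
  exact Finset.sum_congr rfl fun β _ => by ring

private theorem S3_dg_div {ι : Type} [Fintype ι] [DecidableEq ι] (P : Finset ℕ)
    (V : Finset ℕ → ℝ) (b : ι → ℕ) (y : (P → Option ι) → ℝ) (E : Finset ℕ) (G : ℝ) :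
    dgV P V b E (fun β => y β / G) = dgV P V b E y / G ^ 2 := by
  unfold dgV
  rw [Finset.sum_div]
  exact Finset.sum_congr rfl fun β _ => by rw [div_pow]; ring

private theorem S3_dg_ins {ι : Type} [Fintype ι] [DecidableEq ι] (P Pr : Finset ℕ)
    (b : ι → ℕ) (y : (P → Option ι) → ℝ) (E : Finset ℕ) {a0 : ℕ} (ha : a0 ∈ E) :
    dgV P (fun B => VP Pr (insert a0 B) / V1p Pr) b E y = dgV P (VP Pr) b E y / V1p Pr := by
  unfold dgV
  rw [Finset.sum_div]
  refine Finset.sum_congr rfl fun β _ => ?_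
  have h1 : insert a0 (E ∪ su P b β) = E ∪ su P b β :=
    Finset.insert_eq_of_mem (Finset.mem_union_left _ ha)
  simp only [h1]
  ring

private theorem S3_V1_le (Pr : Finset ℕ) (hPr : ∀ p ∈ Pr, p.Prime) : V1p Pr ≤ 1 := by
  unfold V1p
  refine Finset.prod_le_one (fun p hp => ?_) (fun p hp => ?_)
  · have h1 : (2 : ℝ) ≤ p := by exact_mod_cast (hPr p hp).two_le
    have h2 : 1 / (p : ℝ) ≤ 1 := by
      rw [div_le_one (by linarith)]
      linarith
    linarith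
  · have h1 : (0 : ℝ) ≤ 1 / (p : ℝ) := by positivity
    linarith

/-- the real inequality at the end -/
private theorem S3_fin {X NL NW v V1 VH DK E G dg e T1 T2 S δ : ℝ} (hδ : 0 < δ) (hδ1 : δ ≤ 1 / 8)
    (hV1 : 0 < V1) (hV1' : V1 ≤ 1) (hNW : 0 < NW) (hv : 0 < v) (hNL : NL = NW * (v * V1))
    (hX1 : (1 - δ / 16) * NL ≤ X) (hX2 : X ≤ (1 + δ / 16) * NL) (hVH : 0 ≤ VH) (hVD : VH ≤ DK)
    (hG : 0 < G) (hGE : G ≤ E) (hdg : (1 - δ / 4) * E * DK ≤ dg) (he0 : 0 ≤ e) (he : e ≤ δ / 100)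
    (hT1 : T1 ≤ δ / 100 * VH) (hT10 : 0 ≤ T1) (hT2 : T2 ≤ NW * (δ / 100 * (v * VH)))
    (hS : X * (dg / V1 - G * (VH / V1 * e + T1)) - G * T2 ≤ S) :
    (1 - δ) * (v * (E * (NW * DK))) ≤ S := by
  have hDK : 0 ≤ DK := hVH.trans hVD
  have hE : 0 < E := lt_of_lt_of_le hG hGE
  have hNL0 : 0 < NL := by rw [hNL]; positivity
  have hX0 : 0 < X := lt_of_lt_of_le (mul_pos (by linarith) hNL0) hX1
  refine le_trans ?_ hS
  -- main term
  have m1 : (1 - δ / 16) * NL * ((1 - δ / 4) * E * DK / V1) ≤ X * (dg / V1) := by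
    have h1 : (1 - δ / 4) * E * DK / V1 ≤ dg / V1 := div_le_div_of_nonneg_right hdg hV1.le
    have h2 : 0 ≤ (1 - δ / 4) * E * DK / V1 := by
      have : 0 ≤ 1 - δ / 4 := by linarith
      positivity
    exact mul_le_mul hX1 h1 h2 hX0.le
  have m2 : (1 - δ / 16) * NL * ((1 - δ / 4) * E * DK / V1) =
      (1 - δ / 16) * (1 - δ / 4) * (v * (E * (NW * DK))) := by
    rw [hNL]
    field_simp
  -- errors
  have x1 : X * (G * (VH / V1 * e + T1)) ≤ 2 * NL * (G * (VH / V1 * e + T1)) := by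
    have h1 : 0 ≤ G * (VH / V1 * e + T1) := by positivity
    have h2 : X ≤ 2 * NL := by nlinarith
    exact mul_le_mul_of_nonneg_right h2 h1
  have x2 : 2 * NL * (G * (VH / V1 * e + T1)) = 2 * (v * (G * (NW * (VH * e + V1 * T1)))) := by
    rw [hNL]
    field_simp
  have x3 : VH * e + V1 * T1 ≤ δ / 50 * DK := by
    have h1 : VH * e ≤ VH * (δ / 100) := mul_le_mul_of_nonneg_left he hVH
    have h2 : V1 * T1 ≤ 1 * T1 := mul_le_mul_of_nonneg_right hV1' hT10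
    nlinarith
  have x4 : v * (G * (NW * (VH * e + V1 * T1))) ≤ v * (E * (NW * (δ / 50 * DK))) := by
    have h0 : 0 ≤ VH * e + V1 * T1 := by positivity
    have h1 : NW * (VH * e + V1 * T1) ≤ NW * (δ / 50 * DK) := mul_le_mul_of_nonneg_left x3 hNW.le
    have h2 : G * (NW * (VH * e + V1 * T1)) ≤ E * (NW * (δ / 50 * DK)) :=
      mul_le_mul hGE h1 (mul_nonneg hNW.le h0) hE.le
    exact mul_le_mul_of_nonneg_left h2 hv.le
  have x5 : G * T2 ≤ v * (E * (NW * (δ / 100 * DK))) := by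
    have h1 : T2 ≤ NW * (δ / 100 * (v * DK)) := by
      refine hT2.trans ?_
      have h2 : v * VH ≤ v * DK := mul_le_mul_of_nonneg_left hVD hv.le
      have h3 : δ / 100 * (v * VH) ≤ δ / 100 * (v * DK) :=
        mul_le_mul_of_nonneg_left h2 (by positivity)
      exact mul_le_mul_of_nonneg_left h3 hNW.le
    have h4 : G * T2 ≤ G * (NW * (δ / 100 * (v * DK))) := mul_le_mul_of_nonneg_left h1 hG.le
    have h5 : G * (NW * (δ / 100 * (v * DK))) ≤ E * (NW * (δ / 100 * (v * DK))) :=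
      mul_le_mul_of_nonneg_right hGE (by positivity)
    refine (h4.trans h5).trans (le_of_eq ?_)
    ring
  set Z := v * (E * (NW * DK)) with hZ
  have hZ0 : 0 ≤ Z := by positivity
  have y1 : v * (E * (NW * (δ / 50 * DK))) = δ / 50 * Z := by rw [hZ]; ring
  have y2 : v * (E * (NW * (δ / 100 * DK))) = δ / 100 * Z := by rw [hZ]; ring
  rw [y1] at x4
  rw [y2] at x5
  have y3 : X * (dg / V1 - G * (VH / V1 * e + T1)) - G * T2 =
      X * (dg / V1) - X * (G * (VH / V1 * e + T1)) - G * T2 := by ring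
  rw [y3]
  have y4 : (1 - δ) * Z ≤ (1 - δ / 16) * (1 - δ / 4) * Z - 2 * (δ / 50 * Z) - δ / 100 * Z := by
    have : 0 ≤ (δ - δ / 16 - δ / 4 - 2 * (δ / 50) - δ / 100) * Z :=
      mul_nonneg (by linarith) hZ0
    have h2 : 0 ≤ δ / 16 * (δ / 4) * Z := by positivity
    nlinarith
  linarith

theorem side3 (hBV : BVprimes) (hp : ParG R C Cq Cm c cD Λ δ) :
    ∀ᶠ z : ℕ in atTop, ∀ p1 : ℕ, p1.Prime → ∀ (c0 : ℕ) (h K : Finset ℕ),
      PosS z p1 c0 R.k (Λ * R.q) h K → ∀ i0 ∈ h,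
        (1 - δ) * (vG R z p1 * (G1G R z p1 ^ 2 * (NW R z p1 * (G2G R z p1 ^ (R.k - 1) * DKG R z p1 h K)))) ≤
          ∑ n ∈ sN (z ^ R.q) (Wp z p1) c0, prI i0 n * PsG R z p1 h K n ^ 2 := by
  classical
  obtain ⟨hq0, hk1, hu1, hqu, hqau, hM, hk21, hk2k1, huk1, hk1q, ht1, ht2⟩ := prm_le hp
  have hq1 : 1 ≤ R.q := by omega
  have hqr : (1 : ℝ) ≤ R.q := by exact_mod_cast hq1
  have hδ := hp.hδ
  have hδ1 := hp.hδ1
  have e0 : (0 : ℝ) < δ / 100 / (2 * R.q) := by positivity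
  have t1 : Tendsto (fun z : ℕ => Real.log (z : ℝ)) atTop atTop :=
    Real.tendsto_log_atTop.comp tendsto_natCast_atTop_atTop
  have e1 : ∀ᶠ z : ℕ in atTop, 64 * ((R.k : ℝ) + R.q0 + R.u + 1) ^ 2 ≤ δ / 4 * z := by
    have h1 : Tendsto (fun z : ℕ => δ / 4 * (z : ℝ)) atTop atTop :=
      tendsto_natCast_atTop_atTop.const_mul_atTop (by positivity)
    exact h1.eventually_ge_atTop _
  filter_upwards [baseG hp 1 one_pos, quP hBV hp (R.k + 2), tinyL R.k 0 _ e0,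
    vG_facts (R := R) hq1 hp.mert, sums_PL hp.sums R.I R.q0 R.k1 hp.hI hq0 (hqau.trans huk1), e1,
    t1.eventually_ge_atTop 1, eventually_ge_atTop 6]
    with z hB h1 h3 h4 h5 hz64 h7 hz6
  intro p1 hp1 c0 h K hpos i0 hi0
  have hBz := hB p1
  have hh : h.card = R.k := hpos.1
  have hz0 : (0 : ℝ) < z := by
    have : 0 < z := by omega
    exact_mod_cast this
  have hz1 : (1 : ℝ) ≤ z := by exact_mod_cast (by omega : 1 ≤ z)
  have hlz : 0 < Real.log (z : ℝ) := by linarith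
  set P := PG R z p1 with hPdef
  have hPL : ∀ p ∈ P, p.Prime := fun p hp' => (PG_mem hp').1
  have hP0 : ∀ p ∈ P0 z p1, p.Prime := fun p hp' => (mem_P0.1 hp').2.1
  set iz : ↥h ⊕ ↥K := Sum.inl ⟨i0, hi0⟩ with hiz
  have hbz : bS h K iz = i0 := rfl
  set G1 := G1G R z p1 with hG1
  set G2 := G2G R z p1 with hG2
  obtain ⟨hG11, hG21⟩ := one_le_G (R := R) hBz
  rw [← hG1] at hG11
  rw [← hG2] at hG21
  set yc := yCol P iz (YG R z p1 h K) with hyc
  -- collapse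
  have hcoll : ∑ n ∈ sN (z ^ R.q) (Wp z p1) c0, prI i0 n * PsG R z p1 h K n ^ 2 =
      ∑ n ∈ sN (z ^ R.q) (Wp z p1) c0, prI i0 n * PhiS P (P0 z p1) (bS h K) yc h n ^ 2 := by
    refine Finset.sum_congr rfl fun n hn => ?_
    by_cases hprime : (n + i0).Prime
    · have hnN : z ^ R.q < n := (Finset.mem_Ioc.1 (Finset.mem_filter.1 hn).1).1
      have hz1' : 1 ≤ z := by omega
      have hnd : ∀ p ∈ P, ¬ p ∣ n + bS h K iz := by
        intro p hp' hd
        rw [hbz] at hd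
        have h11 : p = n + i0 := (Nat.prime_dvd_prime_iff_eq (hPL p hp') hprime).1 hd
        have h12 : p ≤ z ^ R.k1 := (PG_mem hp').2.2.2
        have h13 : z ^ R.k1 ≤ z ^ R.q := Nat.pow_le_pow_right hz1' hk1q.le
        omega
      have hnd0 : ∀ p ∈ P0 z p1, ¬ p ∣ n + bS h K iz := by
        intro p hp' hd
        rw [hbz] at hd
        have h11 : p = n + i0 := (Nat.prime_dvd_prime_iff_eq (hP0 p hp') hprime).1 hd
        have h12 : p ≤ z := (mem_P0.1 hp').2.2.2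
        have h13 : z ≤ z ^ R.q := Nat.le_self_pow (by omega) z
        omega
      have h13 := collapseS P (P0 z p1) hPL (bS h K) iz n hnd0 hnd (YG R z p1 h K) h
      unfold PsG
      rw [h13]
    · have h14 : prI i0 n = 0 := by
        unfold prI
        rw [if_neg hprime]
      rw [h14, zero_mul, zero_mul]
  -- the quadratic form
  obtain ⟨X, hX1, hX2, hmain⟩ := h1 p1 hp1 c0 h K hpos iz (fun β => yc β / G1)
    (fun β => by
      rw [abs_div, abs_of_pos (by linarith : 0 < G1), div_le_one (by linarith)]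
      exact YL_abs hp hBz _ β)
    (fun β hβ => by
      have h11 : yc β ≠ 0 := fun h0 => hβ (by
        show yc β / G1 = 0
        rw [h0, zero_div])
      obtain ⟨h12, h13, h14⟩ := YL_supp hp hBz hh _ h11
      refine ⟨h12.trans ?_, h13, h14⟩
      exact pow_le_pow_right₀ hz1 (by unfold Prm.L2; omega))
  have hmem : bS h K iz ∈ h := hi0
  rw [if_pos hmem, S3_dg_div, S3_dg_ins P (P0 z p1) (bS h K) yc h hmem] at hmain
  have hPhi : ∑ n ∈ sN (z ^ R.q) (Wp z p1) c0, prI (bS h K iz) n *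
      PhiS P (P0 z p1) (bS h K) (fun β => yc β / G1) h n ^ 2 =
      (∑ n ∈ sN (z ^ R.q) (Wp z p1) c0, prI i0 n * PsG R z p1 h K n ^ 2) / G1 ^ 2 := by
    rw [hcoll, Finset.sum_div]
    refine Finset.sum_congr rfl fun n _ => ?_
    rw [S3_Phi_div, div_pow, hbz]
    ring
  rw [hPhi] at hmain
  -- the diagonal
  obtain ⟨hs1, hs2, hs3, hs4, hs5⟩ := h5 p1
  set DK := DKG R z p1 h K with hDK
  have hDD : (1 - δ / 4) * (G1 ^ 2 * G2 ^ (R.k - 1)) * DK ≤
      dgV P (VP (P0 z p1)) (bS h K) h yc := by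
    have h11 := dgJ_ge2 (κ := ↥h) (ν := ↥K) P z R.q0 R.a R.I R.u R.r0 R.q0
      (fun p hp' => ⟨(PG_mem hp').1, (PG_mem hp').2.1⟩) (by have := hp.sums.1; omega)
      (VP (P0 z p1)) (VP_nonneg _ hP0) (bS h K) h (fun i => i.2) ⟨i0, hi0⟩ hqau hu1
      (ε := δ / 4) (by positivity) (by linarith)
      (by
        rw [Fintype.card_coe, hh]
        exact hz64)
      (by
        rw [Fintype.card_coe, hh]
        have hLL : (R.u : ℝ) = R.D * (R.k : ℕ) * (R.I + 1) * R.q0 := by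
          unfold Prm.u; push_cast; ring
        have h12 : 32 * ((R.k : ℕ) : ℝ) * L2s P z R.q0 R.a R.I ≤
            32 * ((R.k : ℕ) : ℝ) * (C * (R.I + 1) * R.q0 ^ 2 * Real.log z) :=
          mul_le_mul_of_nonneg_left hs5 (by positivity)
        have h13 : δ / 4 * ((c * R.q0) * (R.u : ℝ) * Real.log z) ≤
            δ / 4 * (G2s P z R.q0 R.a R.I * (R.u : ℝ) * Real.log z) := by
          have h14 : c * R.q0 ≤ G2s P z R.q0 R.a R.I := hs3
          gcongr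
        refine h12.trans (le_trans ?_ h13)
        rw [hLL]
        have h14 : 128 * (C : ℝ) ≤ δ * c * R.D := hp.hD
        have h15 : 0 ≤ ((R.k : ℕ) : ℝ) * (R.I + 1) * R.q0 ^ 2 * Real.log z := by positivity
        calc 32 * ((R.k : ℕ) : ℝ) * (C * (R.I + 1) * R.q0 ^ 2 * Real.log z) =
            (1 / 4) * ((128 * C) * (((R.k : ℕ) : ℝ) * (R.I + 1) * R.q0 ^ 2 * Real.log z)) := by ring
          _ ≤ (1 / 4) * ((δ * c * R.D) * (((R.k : ℕ) : ℝ) * (R.I + 1) * R.q0 ^ 2 * Real.log z)) :=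
            mul_le_mul_of_nonneg_left (mul_le_mul_of_nonneg_right h14 h15) (by norm_num)
          _ = _ := by ring)
    rw [Fintype.card_coe, hh] at h11
    exact h11
  -- assembly
  have hV1 : 0 < V1p (P0 z p1) := V1p_pos _ hP0
  have hV1' : V1p (P0 z p1) ≤ 1 := S3_V1_le _ hP0
  have hVP0 : 0 ≤ VP (P0 z p1) h := VP_nonneg _ hP0 h
  have hDKge : VP (P0 z p1) h ≤ DK := DKG_ge hp hBz h K
  obtain ⟨he0, he1, -⟩ := eG_le hp
  obtain ⟨hv1, hv2, hNL, hNW, hNL0⟩ := h4 p1 hp1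
  obtain ⟨hT2, hT1⟩ := h3 p1 hp1 h hh
  simp only [pow_zero, Nat.zero_add] at hT1 hT2
  have hqp : (0 : ℝ) < 2 * R.q := by positivity
  have hv0 : 0 < vG R z p1 := lt_of_lt_of_le (by positivity) hv1
  have hG1sq : 0 < G1 ^ 2 := by positivity
  have hGE : G1 ^ 2 ≤ G1 ^ 2 * G2 ^ (R.k - 1) :=
    le_mul_of_one_le_right hG1sq.le (one_le_pow₀ hG21)
  have hlow := (abs_le.1 hmain).1
  have hS : X * (dgV P (VP (P0 z p1)) (bS h K) h yc / V1p (P0 z p1) -
      G1 ^ 2 * (VP (P0 z p1) h / V1p (P0 z p1) * R.e Cq Λ + 1 / Real.sqrt z)) -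
      G1 ^ 2 * (NW R z p1 / Real.log z ^ (R.k + 2)) ≤
      ∑ n ∈ sN (z ^ R.q) (Wp z p1) c0, prI i0 n * PsG R z p1 h K n ^ 2 := by
    have h11 : X * (dgV P (VP (P0 z p1)) (bS h K) h yc / V1p (P0 z p1) / G1 ^ 2) -
        (X * (VP (P0 z p1) h / V1p (P0 z p1) * R.e Cq Λ + 1 / Real.sqrt z) +
          NW R z p1 / Real.log z ^ (R.k + 2)) ≤
        (∑ n ∈ sN (z ^ R.q) (Wp z p1) c0, prI i0 n * PsG R z p1 h K n ^ 2) / G1 ^ 2 := by
      have h12 : dgV P (VP (P0 z p1)) (bS h K) h yc / V1p (P0 z p1) / G1 ^ 2 =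
          dgV P (VP (P0 z p1)) (bS h K) h yc / V1p (P0 z p1) / G1 ^ 2 := rfl
      linarith
    rw [le_div_iff₀ hG1sq] at h11
    refine le_trans (le_of_eq ?_) h11
    field_simp
    ring
  have hvVH : 1 / (2 * R.q) * VP (P0 z p1) h ≤ vG R z p1 * VP (P0 z p1) h :=
    mul_le_mul_of_nonneg_right hv1 hVP0
  have hfin := S3_fin (T1 := 1 / Real.sqrt z) (T2 := NW R z p1 / Real.log z ^ (R.k + 2)) hδ hδ1
    hV1 hV1' hNW hv0 hNL hX1 hX2 hVP0 hDKge hG1sq hGE hDD he0 he1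
    (by
      refine hT1.trans ?_
      refine mul_le_mul_of_nonneg_right ?_ hVP0
      rw [div_le_iff₀ hqp]
      nlinarith)
    (by positivity)
    (by
      rw [div_eq_mul_inv, ← one_div]
      refine mul_le_mul_of_nonneg_left ?_ hNW.le
      refine hT2.trans ?_
      calc δ / 100 / (2 * R.q) * VP (P0 z p1) h = δ / 100 * (1 / (2 * R.q) * VP (P0 z p1) h) := by
            ring
        _ ≤ δ / 100 * (vG R z p1 * VP (P0 z p1) h) :=
            mul_le_mul_of_nonneg_left hvVH (by positivity)) hS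
  refine le_trans (le_of_eq ?_) hfin
  ring

end Pool.Agent.LibGL22
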