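import Pool.Agent.LibGL22.QP
import Pool.Agent.LibGL22.V1
import Pool.Agent.LibSC93.J3
import Pool.Agent.LibSC93.J8

/-!
Row S4 (kill side, upper bound). Plan of the finished `LibSC93/S4.lean` (`S4_num`, `side4`), with `X ≤ 2 NL ≤ 2 NW (Cm/q) V1` in the place of `(64/x) M/φ`: for `j ∈ K`: `n + j` prime, `n > N ≥ z^k1`: `PsG n = PhiS (yCol (inr j) YG) h n` (`collapseS`),
`quP` with `y = yCol (inr j) YG` (`YR_abs`, `YR_supp`), `A' = k + 6`; `∑_j dgV (VP (insert j ·)) h yCol ≤ G2^k (16 Λ q)(16 Λ q/(Dn q0 log z) + e²) DKG` (`kill_le`, `stepVP`, `e` from `BaseG`), `Dn log z ≥ cD I2`; `kill_ratio` (B1).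
-/

open Finset Filter

namespace Pool.Agent.LibGL22

open Pool.Agent.LibRG87 Pool.Agent.LibLG5 Pool.Agent.LibPL63 Pool.Agent.LibSC93 Pool.Agent.LibBW4

variable {R : Prm} {C Cq Cm : ℕ} {c cD Λ δ : ℝ}

private theorem S4_num {NL NW vG V1 Lz q Cm N Λ S Gk DK Dn q0 cDI e δ eS VPh rz pw e1 : ℝ}
    (hNW : 0 < NW) (hV0 : 0 < V1) (hV1 : V1 ≤ 1) (hvG0 : 0 ≤ vG) (hvG : vG ≤ Cm / q)
    (hNL : NL = NW * (vG * V1)) (hLz : 2 ≤ Lz) (hq : 1 ≤ q) (hCm : 1 ≤ Cm) (hΛ : 1 ≤ Λ)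
    (hq0 : 1 ≤ q0) (hN0 : 0 ≤ N) (hN : N * V1 ≤ 4 * (Λ * q)) (hN2 : N ≤ Lz ^ 2 + 1)
    (hS : S ≤ Gk * ((N * (4 * V1)) * (N * (4 * V1) / (Dn * (q0 * Lz)) + e ^ 2) * DK))
    (hcDI : 0 < cDI) (hDn : cDI ≤ Dn * Lz)
    (hkr : 64 * 3 * Cm * (16 * Λ) * (16 * (Λ * q) / (cDI * q0)) ≤ δ / 4)
    (he : 64 * 3 * Cm * (16 * Λ) * e ^ 2 ≤ δ / 8) (hδ : 0 < δ)
    (heS0 : 0 ≤ eS) (heps : 1000 * Cm * Λ * eS ≤ δ / 16)
    (hrz0 : 0 ≤ rz) (hpw0 : 0 ≤ pw)
    (ht1 : Lz ^ 3 * rz ≤ e1 * VPh) (ht3 : Lz ^ 3 * pw ≤ e1 * VPh)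
    (he1 : 192 * Cm * e1 ≤ δ / 8)
    (hVPh : 0 ≤ VPh) (hDK : VPh ≤ DK) (hGk : 1 ≤ Gk) :
    2 * NL / V1 * S + N * (2 * NL * (VPh * eS + rz) + NW * pw) ≤
      δ * (NW * (Gk * DK)) := by
  have hLz0 : 0 < Lz := by linarith
  have hq' : 0 < q := by linarith
  have hDK0 : 0 ≤ DK := hVPh.trans hDK
  have hGD : VPh ≤ Gk * DK := hDK.trans (le_mul_of_one_le_left hDK0 hGk)
  have hGD0 : 0 ≤ Gk * DK := hVPh.trans hGD
  have h1 : NL / V1 = NW * vG := by
    rw [hNL]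
    field_simp
  have hNL0 : 0 ≤ NL := by rw [hNL]; positivity
  have hCq0 : 0 ≤ Cm / q := by positivity
  -- the kill part
  have ht : N * (4 * V1) ≤ 16 * (Λ * q) := by linarith
  have ht0 : 0 ≤ N * (4 * V1) := by positivity
  have hfrac : N * (4 * V1) / (Dn * (q0 * Lz)) ≤ 16 * (Λ * q) / (cDI * q0) := by
    have h4 : cDI * q0 ≤ Dn * (q0 * Lz) := by
      have : Dn * (q0 * Lz) = Dn * Lz * q0 := by ring
      rw [this]
      exact mul_le_mul_of_nonneg_right hDn (by linarith)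
    exact div_le_div₀ (by positivity) ht (by positivity) h4
  have hS2 : S ≤ 16 * (Λ * q) * (16 * (Λ * q) / (cDI * q0) + e ^ 2) * (Gk * DK) := by
    refine hS.trans ?_
    have h5 : Gk * ((N * (4 * V1)) * (N * (4 * V1) / (Dn * (q0 * Lz)) + e ^ 2) * DK) =
        (N * (4 * V1)) * (N * (4 * V1) / (Dn * (q0 * Lz)) + e ^ 2) * (Gk * DK) := by ring
    rw [h5]
    refine mul_le_mul_of_nonneg_right ?_ hGD0
    have h7 : 0 ≤ Dn * (q0 * Lz) := by
      have : Dn * (q0 * Lz) = Dn * Lz * q0 := by ring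
      rw [this]
      exact mul_nonneg (hcDI.le.trans hDn) (by linarith)
    have h6 : 0 ≤ N * (4 * V1) / (Dn * (q0 * Lz)) + e ^ 2 :=
      add_nonneg (div_nonneg ht0 h7) (sq_nonneg e)
    exact mul_le_mul ht (by linarith) h6 (by positivity)
  have hA : 2 * NL / V1 * S ≤ NW * ((3 * δ / 8) * (Gk * DK)) := by
    set B : ℝ := 16 * (Λ * q) * (16 * (Λ * q) / (cDI * q0) + e ^ 2) * (Gk * DK) with hB
    have hB0 : 0 ≤ B := by positivity
    have h2 : 2 * NL / V1 = NW * (2 * vG) := by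
      rw [mul_div_assoc, h1]
      ring
    calc 2 * NL / V1 * S ≤ 2 * NL / V1 * B := mul_le_mul_of_nonneg_left hS2 (by positivity)
      _ = NW * (2 * vG * B) := by rw [h2]; ring
      _ ≤ NW * (2 * (Cm / q) * B) :=
          mul_le_mul_of_nonneg_left (mul_le_mul_of_nonneg_right (by linarith) hB0) hNW.le
      _ = NW * ((2 * Cm * (16 * Λ) * (16 * (Λ * q) / (cDI * q0)) +
            2 * Cm * (16 * Λ) * e ^ 2) * (Gk * DK)) := by
          rw [hB]
          field_simp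
      _ ≤ NW * ((3 * δ / 8) * (Gk * DK)) := by
          refine mul_le_mul_of_nonneg_left (mul_le_mul_of_nonneg_right ?_ hGD0) hNW.le
          have h5 : 0 ≤ Cm * (16 * Λ) * (16 * (Λ * q) / (cDI * q0)) := by positivity
          have h6 : 0 ≤ Cm * (16 * Λ) * e ^ 2 := by positivity
          linarith
  have hBB : N * (2 * NL * (VPh * eS)) ≤ NW * ((δ / 8) * (Gk * DK)) := by
    have h5 : N * (2 * NL * (VPh * eS)) = NW * (2 * (N * V1) * vG * (VPh * eS)) := by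
      rw [hNL]
      ring
    have h6 : (N * V1) * vG ≤ 4 * (Λ * q) * (Cm / q) :=
      mul_le_mul hN hvG hvG0 (by positivity)
    have h7 : 4 * (Λ * q) * (Cm / q) = 4 * (Λ * Cm) := by
      field_simp
    rw [h5]
    refine mul_le_mul_of_nonneg_left ?_ hNW.le
    calc 2 * (N * V1) * vG * (VPh * eS) = 2 * ((N * V1) * vG) * (VPh * eS) := by ring
      _ ≤ 2 * (4 * (Λ * Cm)) * (VPh * eS) := by
          refine mul_le_mul_of_nonneg_right ?_ (by positivity)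
          linarith
      _ = 8 * (Cm * Λ * eS) * VPh := by ring
      _ ≤ (δ / 8) * (Gk * DK) := by
          refine mul_le_mul ?_ hGD hVPh (by positivity)
          have h8 : 0 ≤ Cm * Λ * eS := by positivity
          linarith
  have hpoly : Lz ^ 2 + 1 ≤ Lz ^ 3 := by
    nlinarith [sq_nonneg Lz, mul_nonneg (sq_nonneg Lz) (sub_nonneg.2 hLz)]
  have he10 : 0 ≤ e1 ∨ VPh = 0 := by
    rcases hVPh.eq_or_lt with h | h
    · exact Or.inr h.symm
    · refine Or.inl ?_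
      have h9 : 0 ≤ e1 * VPh := le_trans (by positivity) ht1
      exact nonneg_of_mul_nonneg_left h9 h
  have hEV : 192 * Cm * (e1 * VPh) ≤ (δ / 8) * (Gk * DK) := by
    rcases he10 with h | h
    · calc 192 * Cm * (e1 * VPh) = 192 * Cm * e1 * VPh := by ring
        _ ≤ (δ / 8) * (Gk * DK) := mul_le_mul he1 hGD hVPh (by positivity)
    · rw [h, mul_zero, mul_zero]
      positivity
  have hCC : N * (2 * NL * rz) ≤ NW * ((δ / 8) * (Gk * DK)) := by
    have h5 : N * rz ≤ e1 * VPh :=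
      le_trans (mul_le_mul_of_nonneg_right (hN2.trans hpoly) hrz0) ht1
    have h50 : 0 ≤ N * rz := by positivity
    have h6 : vG * V1 ≤ Cm := by
      have h7 : Cm / q ≤ Cm := div_le_self (by linarith) hq
      have h8 : vG * V1 ≤ vG := mul_le_of_le_one_right hvG0 hV1
      linarith
    calc N * (2 * NL * rz) = NW * (2 * (vG * V1) * (N * rz)) := by rw [hNL]; ring
      _ ≤ NW * (2 * Cm * (e1 * VPh)) := by
          refine mul_le_mul_of_nonneg_left ?_ hNW.le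
          exact mul_le_mul (by linarith) h5 h50 (by positivity)
      _ ≤ NW * ((δ / 8) * (Gk * DK)) := by
          refine mul_le_mul_of_nonneg_left ?_ hNW.le
          have h9 : 0 ≤ Cm * (e1 * VPh) := mul_nonneg (by linarith) (h50.trans h5)
          linarith
  have hDD : N * (NW * pw) ≤ NW * ((δ / 8) * (Gk * DK)) := by
    have h5 : N * pw ≤ e1 * VPh :=
      le_trans (mul_le_mul_of_nonneg_right (hN2.trans hpoly) hpw0) ht3
    have h50 : 0 ≤ N * pw := by positivity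
    calc N * (NW * pw) = NW * (N * pw) := by ring
      _ ≤ NW * ((δ / 8) * (Gk * DK)) := by
          refine mul_le_mul_of_nonneg_left ?_ hNW.le
          have h9 : 0 ≤ e1 * VPh := h50.trans h5
          nlinarith
  have hsum : 2 * NL / V1 * S + N * (2 * NL * (VPh * eS + rz) + NW * pw) =
      2 * NL / V1 * S + N * (2 * NL * (VPh * eS)) + N * (2 * NL * rz) + N * (NW * pw) := by ring
  rw [hsum]
  have h9 : 0 ≤ NW * (Gk * DK) := by positivity
  nlinarith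

private theorem S4_memP0 {z p1 p : ℕ} (h : p ∈ P0 z p1) : p ≤ z ∧ p.Prime := by
  have h1 := mem_P0.1 h
  exact ⟨h1.2.2.2, h1.2.1⟩

private theorem S4_free {z p1 m N : ℕ} (hz : 1 ≤ z) (hL : R.k1 ≤ N) (hL1 : 1 ≤ N)
    (hm : m.Prime) (hlo : z ^ N < m) :
    (∀ p ∈ P0 z p1, ¬ p ∣ m) ∧ (∀ p ∈ PG R z p1, ¬ p ∣ m) := by
  constructor
  · intro p hp hd
    obtain ⟨h1, h2⟩ := S4_memP0 hp
    have h3 : p = m := (Nat.prime_dvd_prime_iff_eq h2 hm).1 hd
    have h4 : z ^ 1 ≤ z ^ N := Nat.pow_le_pow_right hz hL1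
    rw [pow_one] at h4
    omega
  · intro p hp hd
    obtain ⟨h2, _, _, h1⟩ := PG_mem hp
    have h3 : p = m := (Nat.prime_dvd_prime_iff_eq h2 hm).1 hd
    have h4 : z ^ R.k1 ≤ z ^ N := Nat.pow_le_pow_right hz hL
    omega

private theorem S4_V1 (z p1 : ℕ) : 0 < V1p (P0 z p1) ∧ V1p (P0 z p1) ≤ 1 := by
  have hpr : ∀ p ∈ P0 z p1, p.Prime := fun p hp => (S4_memP0 hp).2
  refine ⟨V1p_pos _ hpr, ?_⟩
  unfold V1p
  refine Finset.prod_le_one (fun p hp => ?_) (fun p hp => ?_)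
  · have h2 : (2 : ℝ) ≤ p := by exact_mod_cast (hpr p hp).two_le
    have h1 : 1 / (p : ℝ) ≤ 1 := by
      rw [div_le_one (by linarith)]
      linarith
    linarith
  · have h1 : 0 ≤ 1 / (p : ℝ) := by positivity
    linarith

private theorem S4_loglim (B : ℝ) : ∀ᶠ z : ℕ in atTop, B ≤ Real.log z :=
  (Real.tendsto_log_atTop.comp (tendsto_natCast_atTop_atTop (R := ℝ))).eventually_ge_atTop B

private theorem S4_bS_inj {h K : Finset ℕ} (hd : Disjoint h K) : Function.Injective (bS h K) := by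
  rintro (i | i) (j | j) hij
  · exact congrArg _ (Subtype.ext hij)
  · exfalso
    have h1 : (i : ℕ) = (j : ℕ) := hij
    exact Finset.disjoint_left.1 hd i.2 (by rw [h1]; exact j.2)
  · exfalso
    have h1 : (i : ℕ) = (j : ℕ) := hij
    exact Finset.disjoint_left.1 hd j.2 (by rw [← h1]; exact i.2)
  · exact congrArg _ (Subtype.ext hij)

/-- one position of the killing part -/
private theorem S4_one {z p1 : ℕ} (hz : 1 ≤ z) (hL : R.k1 ≤ R.q) (hL1 : 1 ≤ R.q)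
    (c0 : ℕ) (h K : Finset ℕ) (j : ↥K) :
    ∑ n ∈ sN (z ^ R.q) (Wp z p1) c0, prI (j : ℕ) n * PsG R z p1 h K n ^ 2 =
      ∑ n ∈ sN (z ^ R.q) (Wp z p1) c0, prI (bS h K (Sum.inr j)) n *
              PhiS (PG R z p1) (P0 z p1) (bS h K)
                (yCol (PG R z p1) (Sum.inr j) (YG R z p1 h K)) h n ^ 2 := by
  refine Finset.sum_congr rfl fun n hn => ?_
  unfold sN at hn
  rw [Finset.mem_filter, Finset.mem_Ioc] at hn
  have hn2 := hn.1.1
  change prI (bS h K (Sum.inr j)) n * _ = _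
  by_cases hpr : (n + bS h K (Sum.inr j)).Prime
  · have hgt : z ^ R.q < n + bS h K (Sum.inr j) := by omega
    obtain ⟨h2, h3⟩ := S4_free (R := R) (p1 := p1) hz hL hL1 hpr hgt
    have h4 := collapseS (PG R z p1) (P0 z p1) (fun p hp => (PG_mem hp).1) (bS h K)
      (Sum.inr j) n h2 h3 (YG R z p1 h K) h
    show _ * (PhiS (PG R z p1) (P0 z p1) (bS h K) (YG R z p1 h K) h n) ^ 2 = _
    rw [h4]
  · unfold prI
    rw [if_neg hpr, zero_mul, zero_mul]

theorem side4 (hBV : BVprimes) (hp : ParG R C Cq Cm c cD Λ δ) :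
    ∀ᶠ z : ℕ in atTop, ∀ p1 : ℕ, p1.Prime → ∀ (c0 : ℕ) (h K : Finset ℕ),
      PosS z p1 c0 R.k (Λ * R.q) h K →
        ∑ j ∈ K, ∑ n ∈ sN (z ^ R.q) (Wp z p1) c0, prI j n * PsG R z p1 h K n ^ 2 ≤
          δ * (NW R z p1 * (G2G R z p1 ^ R.k * DKG R z p1 h K)) := by
  classical
  obtain ⟨hq0, hk, hu, hq0u, hq0a, hM, hk2, hk21, huk1, hk1q, ht1, ht2⟩ := prm_le hp
  have hq1 : 1 ≤ R.q := by omega
  have hq1R : (1 : ℝ) ≤ R.q := by exact_mod_cast hq1
  have hCm1 : (1 : ℝ) ≤ Cm := by exact_mod_cast hp.mert.1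
  have hδ := hp.hδ
  have hδ1 := hp.hδ1
  have hΛ := hp.hΛ
  -- the parameters `e`, `e1`
  set B : ℝ := 64 * 3 * Cm * (16 * Λ) with hB
  have hB1 : 1 ≤ B := by
    rw [hB]
    nlinarith [mul_le_mul hCm1 hΛ zero_le_one (by linarith : (0 : ℝ) ≤ Cm)]
  obtain ⟨e, he, heB⟩ : ∃ e : ℝ, 0 < e ∧ B * e ^ 2 ≤ δ / 8 := by
    refine ⟨δ / (8 * B), by positivity, ?_⟩
    have h1 : B * (δ / (8 * B)) ^ 2 = δ / 8 * (δ / (8 * B)) := by
      field_simp
    rw [h1]
    have h2 : δ / (8 * B) ≤ 1 := by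
      rw [div_le_one (by positivity)]
      linarith
    exact mul_le_of_le_one_right (by positivity) h2
  obtain ⟨e1, he1, he1C⟩ : ∃ e1 : ℝ, 0 < e1 ∧ 192 * Cm * e1 ≤ δ / 8 := by
    refine ⟨δ / (1536 * Cm), by positivity, ?_⟩
    apply le_of_eq
    field_simp
    norm_num
  filter_upwards [baseG hp e he, quP hBV hp (3 + R.k + 2), stepVP (R.k + 2 * R.A2 ^ R.I2),
    tinyL R.k 3 e1 he1, vG_facts (R := R) hq1 hp.mert, S4_loglim 2] with z hBs hqu hst hti hvg hL2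
  intro p1 hp1 c0 h K hpos
  obtain ⟨hcard, hdis, hposs, hKV⟩ := id hpos
  have hBz := hBs p1
  obtain ⟨hz3, hl1, hl2, hwf, hDn0, hDnc, hDn1, heps⟩ := id hBz
  have hz1 : 1 ≤ z := by omega
  have hz0R : (0 : ℝ) < z := by exact_mod_cast hz1
  obtain ⟨hV0, hV1⟩ := S4_V1 z p1
  obtain ⟨hvg1, hvg2, hNLeq, hNW0, hNL0⟩ := hvg p1 hp1
  obtain ⟨htA, htB⟩ := hti p1 hp1 h hcard
  have hposc : (Fintype.card (↥h ⊕ ↥K) : ℝ) ≤ Real.log z ^ 2 + 1 := (card_pos hp hpos).1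
  have hKc : (K.card : ℝ) ≤ Real.log z ^ 2 + 1 := by
    refine le_trans ?_ hposc
    have h1 : K.card ≤ Fintype.card (↥h ⊕ ↥K) := by
      rw [Fintype.card_sum, Fintype.card_coe, Fintype.card_coe]
      omega
    exact_mod_cast h1
  have hVP0 : ∀ B : Finset ℕ, 0 ≤ VP (P0 z p1) B :=
    VP_nonneg _ fun p hp => (S4_memP0 hp).2
  have hnot : ∀ j : ↥K, bS h K (Sum.inr j) ∉ h := fun j hj =>
    (Finset.disjoint_left.1 hdis hj) j.2
  have hposb : ∀ x ∈ h ∪ univ.image (bS h K), (x : ℝ) ≤ Real.log z ^ 2 := by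
    intro x hx
    rw [Finset.mem_union, Finset.mem_image] at hx
    rcases hx with hx | ⟨i, _, hi⟩
    · exact (hposs x (Finset.mem_union_left _ hx)).1
    · rcases i with i | j
      · have h2 : x ∈ h := by rw [← hi]; exact i.2
        exact (hposs x (Finset.mem_union_left _ h2)).1
      · have h2 : x ∈ K := by rw [← hi]; exact j.2
        exact (hposs x (Finset.mem_union_right _ h2)).1
  -- the kill sum
  have hkill := kill_le (PG R z p1) z R.q0 R.a R.I (2 * R.u) R.r0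
    R.q0 (2 * R.A2 ^ R.I2) (fun p hp => ⟨(PG_mem hp).1, (PG_mem hp).2.1⟩) (by omega)
    hp.hr0 hq0 (by unfold Prm.q0 q0S; exact le_of_eq (by ring)) hDn0 hDn1 (VP (P0 z p1)) hVP0
    (v := 4 * V1p (P0 z p1)) (by positivity) (bS h K) (S4_bS_inj hdis) h (fun i => i.2) hnot
    (by
      rw [hcard]
      exact hst p1 hp1 _ hposb) (ε := e) heps
  rw [Fintype.card_coe, Fintype.card_coe, hcard] at hkill
  -- one position
  set S : ↥K → ℝ := fun j => ∑ β : PG R z p1 → Option (↥h ⊕ ↥K),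
    yCol (PG R z p1) (Sum.inr j) (YG R z p1 h K) β ^ 2 *
      VP (P0 z p1) (insert (bS h K (Sum.inr j)) (h ∪ su (PG R z p1) (bS h K) β)) /
        ph (sp (PG R z p1) β) with hSdef
  have hS0 : ∀ j, 0 ≤ S j := by
    intro j
    refine Finset.sum_nonneg fun β _ => ?_
    refine div_nonneg (mul_nonneg (sq_nonneg _) (hVP0 _)) ?_
    unfold ph
    refine Finset.prod_nonneg fun p hp => ?_
    have h1 : p ∈ PG R z p1 := sp_subset _ _ hp
    have h2 : (2 : ℝ) ≤ p := by exact_mod_cast (PG_mem h1).1.two_le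
    linarith
  have hVPh0 : 0 ≤ VP (P0 z p1) h := hVP0 h
  have heG := (eG_le hp).1
  have hone : ∀ j : ↥K, ∑ n ∈ sN (z ^ R.q) (Wp z p1) c0, prI (j : ℕ) n * PsG R z p1 h K n ^ 2 ≤
      2 * NL R z p1 / V1p (P0 z p1) * S j +
        (2 * NL R z p1 * (VP (P0 z p1) h * R.e Cq Λ + 1 / Real.sqrt z) +
          NW R z p1 * (1 / Real.log z ^ (3 + R.k + 2))) := by
    intro j
    rw [S4_one hz1 hk1q.le hq1 c0 h K j]
    obtain ⟨X, hX1, hX2, h1⟩ := hqu p1 hp1 c0 h K hpos (Sum.inr j)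
      (yCol (PG R z p1) (Sum.inr j) (YG R z p1 h K))
      (YR_abs hp hBz j) (fun β hβ => by
        obtain ⟨ha, hb, hc⟩ := YR_supp hp hBz hcard j hβ
        refine ⟨ha.trans ?_, hb, hc⟩
        have hz1R : (1 : ℝ) ≤ z := by exact_mod_cast hz1
        exact pow_le_pow_right₀ hz1R (by unfold Prm.L2; omega))
    rw [if_neg (hnot j), div_one] at h1
    have h2 : dgV (PG R z p1)
        (fun B => VP (P0 z p1) (insert (bS h K (Sum.inr j)) B) / V1p (P0 z p1)) (bS h K) h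
          (yCol (PG R z p1) (Sum.inr j) (YG R z p1 h K)) =
        S j / V1p (P0 z p1) := by
      rw [hSdef]
      unfold dgV
      simp only []
      rw [Finset.sum_div]
      refine Finset.sum_congr rfl fun β _ => ?_
      ring
    rw [h2] at h1
    have h3 := (abs_le.1 h1).2
    have hX3 : X ≤ 2 * NL R z p1 := by
      refine hX2.trans ?_
      nlinarith
    have h4 : X * (S j / V1p (P0 z p1)) ≤ 2 * NL R z p1 / V1p (P0 z p1) * S j := by
      have h5 : 2 * NL R z p1 / V1p (P0 z p1) * S j = 2 * NL R z p1 * (S j / V1p (P0 z p1)) := by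
        ring
      rw [h5]
      exact mul_le_mul_of_nonneg_right hX3 (div_nonneg (hS0 j) hV0.le)
    have h6 : X * (VP (P0 z p1) h * R.e Cq Λ + 1 / Real.sqrt z) ≤
        2 * NL R z p1 * (VP (P0 z p1) h * R.e Cq Λ + 1 / Real.sqrt z) :=
      mul_le_mul_of_nonneg_right hX3 (by positivity)
    have h7 : NW R z p1 / Real.log z ^ (3 + R.k + 2) =
        NW R z p1 * (1 / Real.log z ^ (3 + R.k + 2)) := by ring
    rw [h7] at h3
    linarith
  -- the sum
  have hsumK : ∑ j ∈ K, ∑ n ∈ sN (z ^ R.q) (Wp z p1) c0, prI j n * PsG R z p1 h K n ^ 2 ≤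
      2 * NL R z p1 / V1p (P0 z p1) * (∑ j, S j) +
        (K.card : ℝ) * (2 * NL R z p1 * (VP (P0 z p1) h * R.e Cq Λ + 1 / Real.sqrt z) +
          NW R z p1 * (1 / Real.log z ^ (3 + R.k + 2))) := by
    rw [← Finset.sum_coe_sort K]
    refine (Finset.sum_le_sum fun j _ => hone j).trans (le_of_eq ?_)
    rw [Finset.sum_add_distrib, ← Finset.mul_sum, Finset.sum_const,
      Finset.card_univ, Fintype.card_coe, nsmul_eq_mul]
  refine hsumK.trans ?_
  have hG : 1 ≤ G2G R z p1 ^ R.k := one_le_pow₀ (one_le_G hBz).2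
  refine S4_num (q := R.q) (Lz := Real.log z) (Cm := Cm) (Λ := Λ) (vG := vG R z p1)
    (q0 := R.q0) (cDI := cD * R.I2) (e := e) (e1 := e1)
    (Dn := Dn (PG R z p1) z R.r0 R.q0)
    hNW0 hV0 hV1 (le_trans (by positivity) hvg1) hvg2 hNLeq hL2 hq1R hCm1 hΛ
    (by exact_mod_cast hq0) (Nat.cast_nonneg _) (by linarith) hKc hkill
    (by linarith [hp.hcD]) hDnc (kill_ratio hp) heB hδ heG (eG_le hp).2.2.2.2
    (by positivity) (by positivity) ?_ ?_ he1C hVPh0 (DKG_ge hp hBz h K) hG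
  · rw [mul_one_div]
    exact htB
  · rw [mul_one_div]
    exact htA

end Pool.Agent.LibGL22
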