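import Pool.Agent.LibGL22.Defs

/-!
Row B1 (what holds for large `z`). Copy of `LibSC93/SB.lean` with `PG R`, `R.k1` instead of `PS`, `q0S a^I`; `card ↥h = R.k`; `2 R.q0 = 2 A2^I2 r0 ≤ (2 A2^I2) r0`; `R.K = R.k + 2 A2^I2`. `Dn`: `hp.dn` with `J = I2`,
`R.k1 = M u ≥ q0 = A2^I2 r0`. `YG_abs`, …: `yJ_abs_le`, `yJ_supp`, `yColL_*`, `yColR_*` of LibSC93/J5.lean.
-/

open Finset Filter

namespace Pool.Agent.LibGL22

open Pool.Agent.LibRG87 Pool.Agent.LibLG5 Pool.Agent.LibPL63 Pool.Agent.LibSC93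

variable {R : Prm} {C Cq Cm : ℕ} {c cD Λ δ : ℝ}

private theorem GS22_B1_a (hp : ParG R C Cq Cm c cD Λ δ) : 2 ≤ R.a := hp.sums.1

private theorem GS22_B1_q0 (hp : ParG R C Cq Cm c cD Λ δ) : 1 ≤ R.q0 := by
  have h1 := hp.dn.1
  have h2 := hp.hr0
  unfold Prm.q0 q0S
  exact Nat.one_le_iff_ne_zero.2 (by positivity)

private theorem GS22_B1_k (hp : ParG R C Cq Cm c cD Λ δ) : 1 ≤ R.k := by
  have h1 := GS22_B1_a hp
  have h2 := hp.hB
  unfold Prm.k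
  exact Nat.one_le_iff_ne_zero.2 (by positivity)

private theorem GS22_B1_M (hp : ParG R C Cq Cm c cD Λ δ) : 480 ≤ R.M := by
  have h1 := hp.hM
  have h2 := hp.hδ1
  have h3 : (0 : ℝ) ≤ R.M := Nat.cast_nonneg _
  have h4 : δ * R.M ≤ 1 / 8 * R.M := mul_le_mul_of_nonneg_right h2 h3
  have h5 : (480 : ℝ) ≤ R.M := by linarith
  exact_mod_cast h5

private theorem GS22_B1_prime {z p1 : ℕ} : ∀ p ∈ PG R z p1, p.Prime :=
  fun _ hp => (mem_PL.1 hp).2.1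

/-- the integers -/
theorem prm_le (hp : ParG R C Cq Cm c cD Λ δ) : 1 ≤ R.q0 ∧ 1 ≤ R.k ∧ 1 ≤ R.u ∧ R.q0 ≤ R.u ∧ R.q0 * R.a ^ R.I ≤ R.u ∧
    480 ≤ R.M ∧ 1 ≤ R.k2 ∧ R.k2 ≤ R.k1 ∧ R.u ≤ R.k1 ∧ R.k1 < R.q ∧ R.t + 1 ≤ (2 * R.M - 1) * R.u ∧ 2 * (R.t + 1) < R.q := by
  have hq0 := GS22_B1_q0 hp
  have hk := GS22_B1_k hp
  have hM := GS22_B1_M hp
  have ha := GS22_B1_a hp
  have hD := hp.hD1
  have hBB := hp.hB
  have hai : R.a ^ R.I ≤ R.k := by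
    unfold Prm.k
    exact Nat.le_mul_of_pos_left _ hBB
  have hqa : R.q0 * R.a ^ R.I ≤ R.u := by
    unfold Prm.u
    calc R.q0 * R.a ^ R.I ≤ R.q0 * R.k := Nat.mul_le_mul_left _ hai
      _ ≤ R.q0 * R.k * (R.D * (R.I + 1)) := Nat.le_mul_of_pos_right _ (by positivity)
      _ = _ := by ring
  have hqu : R.q0 ≤ R.u := le_trans (Nat.le_mul_of_pos_right _ (by positivity)) hqa
  have hu : 1 ≤ R.u := hq0.trans hqu
  have hk2 : R.k2 = (R.M - 10) * R.u := rfl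
  have hk1 : R.k1 = R.M * R.u := rfl
  have hq : R.q = 4 * R.M * R.u := rfl
  obtain ⟨m, hm⟩ : ∃ m, R.M = m + 10 := ⟨R.M - 10, by omega⟩
  have hm' : 470 ≤ m := by omega
  have hk2' : R.k2 = m * R.u := by rw [hk2, hm]; congr 1
  have hk1' : R.k1 = m * R.u + 10 * R.u := by rw [hk1, hm]; ring
  have hq' : R.q = 4 * (m * R.u) + 40 * R.u := by rw [hq, hm]; ring
  have ht : R.t = 2 * (m * R.u) + 8 * R.u + 4 * R.q0 + 6 := by
    unfold Prm.t Prm.L2 Prm.L1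
    rw [hk2']
    ring
  have hM2 : (2 * R.M - 1) * R.u = 2 * (m * R.u) + 19 * R.u := by
    have : 2 * R.M - 1 = 2 * m + 19 := by omega
    rw [this]
    ring
  have hmu : 470 * R.u ≤ m * R.u := Nat.mul_le_mul_right _ hm'
  refine ⟨hq0, hk, hu, hqu, hqa, hM, ?_, ?_, ?_, ?_, ?_, ?_⟩
  · rw [hk2']; omega
  · rw [hk2', hk1']; omega
  · rw [hk1']; omega
  · rw [hk1', hq']; omega
  · rw [ht, hM2]; omega
  · rw [ht, hq']; omega

theorem baseG (hp : ParG R C Cq Cm c cD Λ δ) (e : ℝ) (he : 0 < e) :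
    ∀ᶠ z : ℕ in atTop, ∀ p1 : ℕ, BaseG R cD e z p1 := by
  obtain ⟨C0, hC0, hS⟩ := NT_S_upper
  obtain ⟨hq0, -, hu, hqu, -, -, -, -, huk, -, -, -⟩ := prm_le hp
  have hk1 : 1 ≤ R.k1 := hu.trans huk
  have t1 : Tendsto (fun z : ℕ => Real.log (z : ℝ)) atTop atTop :=
    Real.tendsto_log_atTop.comp tendsto_natCast_atTop_atTop
  have e1 : ∀ᶠ z : ℕ in atTop, Real.log (z : ℝ) ^ 2 ≤ (z : ℝ) / 2 := by
    have h1 : ∀ᶠ x : ℝ in atTop, ‖Real.log x ^ 2‖ ≤ (1 / 2) * ‖id x‖ :=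
      (Real.isLittleO_pow_log_id_atTop (n := 2)).bound (by norm_num)
    filter_upwards [tendsto_natCast_atTop_atTop.eventually h1] with z h2
    simp only [id, Real.norm_eq_abs] at h2
    rw [abs_of_nonneg (sq_nonneg _), abs_of_nonneg (Nat.cast_nonneg z)] at h2
    linarith
  set B : ℝ := ((2 * R.u + 2 * R.q0 : ℕ) : ℝ) * ((C0 : ℝ) * (R.k1 : ℕ)) with hB
  have hB0 : 0 ≤ B := by positivity
  have e2 : ∀ᶠ z : ℕ in atTop, B / e ≤ (z : ℝ) :=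
    tendsto_natCast_atTop_atTop.eventually_ge_atTop _
  filter_upwards [hp.dn.2.2 R.I2 R.r0 hp.hr0, hS _ hk1, e1, e2, t1.eventually_ge_atTop 1,
    wf_tendsto.eventually_ge_atTop (4 * R.n + 4),
    eventually_ge_atTop 3] with z h1 h2 h3 h4 h5 h6 h8 p1
  have hz3 : (3 : ℝ) ≤ z := by exact_mod_cast h8
  have hz0 : (0 : ℝ) < z := by linarith
  have hl : 0 < Real.log (z : ℝ) := by linarith
  have h9 : cD * R.I2 / Real.log z ≤ Dn (PG R z p1) z R.r0 R.q0 :=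
    h1 p1 R.k1 (hqu.trans huk)
  have h10 : cD * R.I2 ≤ Dn (PG R z p1) z R.r0 R.q0 * Real.log z := by
    rwa [div_le_iff₀ hl] at h9
  have h11 := hp.hcD
  have h12 : 0 < Dn (PG R z p1) z R.r0 R.q0 := by
    refine lt_of_lt_of_le ?_ h9
    exact div_pos (by linarith) hl
  have hr0 : (1 : ℝ) ≤ R.r0 := by exact_mod_cast hp.hr0
  refine ⟨h8, h5, by linarith, h6, h12, h10, ?_, ?_⟩
  · have h13 : 1 ≤ Dn (PG R z p1) z R.r0 R.q0 * Real.log z := by linarith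
    calc (1 : ℝ) ≤ Dn (PG R z p1) z R.r0 R.q0 * Real.log z := h13
      _ ≤ Dn (PG R z p1) z R.r0 R.q0 * Real.log z * R.r0 :=
        le_mul_of_one_le_right (by linarith) hr0
      _ = _ := by ring
  · have h14 : ∏ p ∈ PG R z p1, (1 + 1 / ((p : ℝ) - 1)) ≤ (C0 : ℝ) * (R.k1 : ℕ) := by
      refine le_trans ?_ h2
      unfold PG PL
      have hone : ∀ p ∈ PP z (z ^ R.k1), (1 : ℝ) ≤ 1 + 1 / ((p : ℝ) - 1) := by
        intro p hp
        unfold PP at hp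
        have h15 : (2 : ℝ) ≤ p := by exact_mod_cast (Finset.mem_filter.1 hp).2.two_le
        have : 0 ≤ 1 / ((p : ℝ) - 1) := div_nonneg zero_le_one (by linarith)
        linarith
      by_cases h : p1 ∈ PP z (z ^ R.k1)
      · rw [← Finset.mul_prod_erase _ _ h]
        exact le_mul_of_one_le_left (Finset.prod_nonneg fun p hp =>
          le_trans zero_le_one (hone p (Finset.mem_of_mem_erase hp))) (hone p1 h)
      · rw [Finset.erase_eq_of_notMem h]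
    rw [div_le_iff₀ hz0]
    refine (mul_le_mul_of_nonneg_left h14 (Nat.cast_nonneg _)).trans ?_
    rw [div_le_iff₀ he] at h4
    linarith

theorem PG_mem {z p1 p : ℕ} (h : p ∈ PG R z p1) : p.Prime ∧ z < p ∧ p ≠ p1 ∧ p ≤ z ^ R.k1 := by
  obtain ⟨h1, h2, h3, h4⟩ := mem_PL.1 h
  exact ⟨h2, h3, h1, h4⟩

private theorem GS22_B1_K : 2 * R.q0 ≤ (2 * R.A2 ^ R.I2) * R.r0 := by
  unfold Prm.q0 q0S
  exact le_of_eq (by ring)

private theorem GS22_B1_card {h : Finset ℕ} (hh : h.card = R.k) {m : ℕ}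
    (hm : m ≤ Fintype.card ↥h + 2 * R.A2 ^ R.I2) : m ≤ R.K := by
  rw [Fintype.card_coe, hh] at hm
  exact hm

theorem YG_abs (hp : ParG R C Cq Cm c cD Λ δ) {e : ℝ} {z p1 : ℕ} (hB : BaseG R cD e z p1) {h K : Finset ℕ} (β) :
    |YG R z p1 h K β| ≤ 1 := by
  obtain ⟨h1, _, _, _, h2, _, h3, _⟩ := hB
  exact yJ_abs_le _ GS22_B1_prime (by omega) (by have := GS22_B1_a hp; omega) hp.hr0 h2 h3 _ _ _ β

theorem YG_supp (hp : ParG R C Cq Cm c cD Λ δ) {e : ℝ} {z p1 : ℕ} (hB : BaseG R cD e z p1) {h K : Finset ℕ}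
    (hh : h.card = R.k) {β} (hβ : YG R z p1 h K β ≠ 0) :
    rr (sp (PG R z p1) β) ≤ (z : ℝ) ^ R.L1 ∧ (sui (PG R z p1) β).card ≤ R.K := by
  obtain ⟨h1, _⟩ := hB
  obtain ⟨h2, h3⟩ := yJ_supp (κ := ↥h) (ν := ↥K) (a := R.a) _ GS22_B1_prime (by omega) hp.hr0
    GS22_B1_K _ _ _ hβ
  exact ⟨h2, GS22_B1_card hh h3⟩

theorem YL_abs (hp : ParG R C Cq Cm c cD Λ δ) {e : ℝ} {z p1 : ℕ} (hB : BaseG R cD e z p1) {h K : Finset ℕ}
    (i0 : ↥h) (β) :
    |yCol (PG R z p1) (Sum.inl i0) (YG R z p1 h K) β| ≤ G1G R z p1 := by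
  obtain ⟨h1, _, _, _, h2, _, h3, _⟩ := hB
  exact yColL_abs_le _ GS22_B1_prime (by omega) (by have := GS22_B1_a hp; omega) hp.hr0 h2 h3 _ _ _
    i0 β

theorem YL_supp (hp : ParG R C Cq Cm c cD Λ δ) {e : ℝ} {z p1 : ℕ} (hB : BaseG R cD e z p1) {h K : Finset ℕ}
    (hh : h.card = R.k) (i0 : ↥h) {β} (hβ : yCol (PG R z p1) (Sum.inl i0) (YG R z p1 h K) β ≠ 0) :
    rr (sp (PG R z p1) β) ≤ (z : ℝ) ^ R.L1 ∧ alw (PG R z p1) (univ.erase (Sum.inl i0)) β ∧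
      (sui (PG R z p1) β).card ≤ R.K := by
  obtain ⟨h1, _⟩ := hB
  obtain ⟨h2, h3, h4⟩ := yColL_supp (κ := ↥h) (ν := ↥K) (a := R.a) _ GS22_B1_prime (by omega)
    hp.hr0 GS22_B1_K _ _ _ i0 hβ
  exact ⟨h2, h3, GS22_B1_card hh h4⟩

theorem YR_abs (hp : ParG R C Cq Cm c cD Λ δ) {e : ℝ} {z p1 : ℕ} (hB : BaseG R cD e z p1) {h K : Finset ℕ}
    (j0 : ↥K) (β) :
    |yCol (PG R z p1) (Sum.inr j0) (YG R z p1 h K) β| ≤ 1 := by
  obtain ⟨h1, _, _, _, h2, _, h3, _⟩ := hB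
  exact yColR_abs_le _ GS22_B1_prime (by omega) (by have := GS22_B1_a hp; omega) hp.hr0 h2 h3 _ _ _
    j0 β

theorem YR_supp (hp : ParG R C Cq Cm c cD Λ δ) {e : ℝ} {z p1 : ℕ} (hB : BaseG R cD e z p1) {h K : Finset ℕ}
    (hh : h.card = R.k) (j0 : ↥K) {β} (hβ : yCol (PG R z p1) (Sum.inr j0) (YG R z p1 h K) β ≠ 0) :
    rr (sp (PG R z p1) β) ≤ (z : ℝ) ^ R.L1 ∧ alw (PG R z p1) (univ.erase (Sum.inr j0)) β ∧
      (sui (PG R z p1) β).card ≤ R.K := by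
  obtain ⟨h1, _⟩ := hB
  obtain ⟨h2, h3, h4⟩ := yColR_supp (κ := ↥h) (ν := ↥K) (a := R.a) _ GS22_B1_prime (by omega)
    hp.hr0 GS22_B1_K _ _ _ j0 hβ
  exact ⟨h2, h3, GS22_B1_card hh h4⟩

/-- number of positions -/
theorem card_pos (hp : ParG R C Cq Cm c cD Λ δ) {z p1 c0 : ℕ} {Λq : ℝ} {h K : Finset ℕ}
    (hpos : PosS z p1 c0 R.k Λq h K) :
    (Fintype.card (↥h ⊕ ↥K) : ℝ) ≤ Real.log z ^ 2 + 1 ∧
      (Fintype.card (↥h ⊕ ↥K) : ℝ) * V1p (P0 z p1) ≤ R.k + 4 * Λq := by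
  obtain ⟨h1, h2, h3, h4⟩ := hpos
  have hc : Fintype.card (↥h ⊕ ↥K) = h.card + K.card := by
    rw [Fintype.card_sum, Fintype.card_coe, Fintype.card_coe]
  constructor
  · rw [hc, ← Finset.card_union_of_disjoint h2]
    have h5 : h ∪ K ⊆ Finset.range (⌊Real.log z ^ 2⌋₊ + 1) := by
      intro x hx
      rw [Finset.mem_range]
      have h6 := (h3 x hx).1
      have h7 : x ≤ ⌊Real.log z ^ 2⌋₊ := Nat.le_floor h6
      omega
    have h6 := Finset.card_le_card h5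
    rw [Finset.card_range] at h6
    have h7 : (((h ∪ K).card : ℕ) : ℝ) ≤ (⌊Real.log z ^ 2⌋₊ : ℝ) + 1 := by exact_mod_cast h6
    have h8 := Nat.floor_le (sq_nonneg (Real.log z))
    linarith
  · rw [hc, h1]
    push_cast
    have hP0 : ∀ p ∈ P0 z p1, p.Prime := fun p hp => (mem_P0.1 hp).2.1
    have h5 : V1p (P0 z p1) ≤ 1 := by
      unfold V1p
      refine Finset.prod_le_one (fun p hp => ?_) fun p hp => ?_
      · have h6 : (2 : ℝ) ≤ p := by exact_mod_cast (hP0 p hp).two_le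
        have h7 : 1 / (p : ℝ) ≤ 1 := by
          rw [div_le_one (by linarith)]
          linarith
        linarith
      · have : 0 ≤ 1 / (p : ℝ) := by positivity
        linarith
    have h6 : (0 : ℝ) ≤ (R.k : ℝ) := Nat.cast_nonneg _
    have h7 : (R.k : ℝ) * V1p (P0 z p1) ≤ (R.k : ℝ) := mul_le_of_le_one_right h6 h5
    rw [add_mul]
    linarith

/-- the diagonal of the killing part is at least its first term -/
theorem DKG_ge (hp : ParG R C Cq Cm c cD Λ δ) {e : ℝ} {z p1 : ℕ} (hB : BaseG R cD e z p1) (h K : Finset ℕ) :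
    VP (P0 z p1) h ≤ DKG R z p1 h K := by
  obtain ⟨h1, _⟩ := hB
  have hP0 : ∀ p ∈ P0 z p1, p.Prime := fun p hp => (mem_P0.1 hp).2.1
  unfold DKG dgV
  let β0 : PG R z p1 → Option ↥K := fun _ => none
  have hsp : sp (PG R z p1) β0 = ∅ := by
    unfold sp
    rw [Finset.filter_false_of_mem (fun p _ => by simp [β0]), Finset.image_empty]
  have hsu : su (PG R z p1) (Subtype.val : ↥K → ℕ) β0 = ∅ := by
    unfold su sui
    rw [Finset.filter_false_of_mem (fun i _ => by simp [β0]), Finset.image_empty]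
  have h2 : VP (P0 z p1) h = y5 (PG R z p1) z R.r0 R.q0 β0 ^ 2 *
      VP (P0 z p1) (h ∪ su (PG R z p1) (Subtype.val : ↥K → ℕ) β0) /
        ph (sp (PG R z p1) β0) := by
    rw [hsp, hsu, y5_none _ _ _ _ β0 (fun _ => rfl) (by omega), Finset.union_empty]
    unfold ph
    rw [Finset.prod_empty]
    ring
  rw [h2]
  refine Finset.single_le_sum (f := fun β : PG R z p1 → Option ↥K =>
    y5 (PG R z p1) z R.r0 R.q0 β ^ 2 *
      VP (P0 z p1) (h ∪ su (PG R z p1) (Subtype.val : ↥K → ℕ) β) /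
        ph (sp (PG R z p1) β)) (fun β _ => ?_) (Finset.mem_univ β0)
  refine div_nonneg (mul_nonneg (sq_nonneg _) (VP_nonneg _ hP0 _)) ?_
  unfold ph
  refine Finset.prod_nonneg fun p hp => ?_
  have h3 : p ∈ PG R z p1 := ((mem_sp _).1 hp).1
  have h4 : (2 : ℝ) ≤ p := by exact_mod_cast (GS22_B1_prime p h3).two_le
  linarith

theorem one_le_G {e : ℝ} {z p1 : ℕ} (hB : BaseG R cD e z p1) : 1 ≤ G1G R z p1 ∧ 1 ≤ G2G R z p1 := by
  obtain ⟨h1, _⟩ := hB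
  have hph : ∀ A ∈ (PG R z p1).powerset, 0 ≤ ph A := by
    intro A hA
    unfold ph
    refine Finset.prod_nonneg fun p hp => ?_
    have h4 : (2 : ℝ) ≤ p := by
      exact_mod_cast (GS22_B1_prime p (Finset.mem_powerset.1 hA hp)).two_le
    linarith
  have h0 : ph ∅ = 1 := by
    unfold ph
    rw [Finset.prod_empty]
  constructor
  · unfold G1G G1s
    have h2 : (1 : ℝ) = g1 z R.q0 R.a R.I ∅ / ph ∅ := by
      rw [g1_empty (by omega), h0, div_one]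
    rw [h2]
    exact Finset.single_le_sum (f := fun A => g1 z R.q0 R.a R.I A / ph A)
      (fun A hA => div_nonneg (g1_nonneg _ _ _ _ _) (hph A hA)) (Finset.empty_mem_powerset _)
  · unfold G2G G2s
    have h2 : (1 : ℝ) = g1 z R.q0 R.a R.I ∅ ^ 2 / ph ∅ := by
      rw [g1_empty (by omega), h0, div_one, one_pow]
    rw [h2]
    exact Finset.single_le_sum (f := fun A => g1 z R.q0 R.a R.I A ^ 2 / ph A)
      (fun A hA => div_nonneg (sq_nonneg _) (hph A hA)) (Finset.empty_mem_powerset _)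

/-- the error factor is small -/
theorem eG_le (hp : ParG R C Cq Cm c cD Λ δ) :
    0 ≤ R.e Cq Λ ∧ R.e Cq Λ ≤ δ / 100 ∧ R.e Cq Λ * R.q ≤ δ / 100 ∧
      16 * (Λ * R.q) * R.e Cq Λ ≤ δ / 100 ∧ 1000 * Cm * Λ * R.e Cq Λ ≤ δ / 16 := by
  have hΛ := hp.hΛ
  have h0 : 0 ≤ R.e Cq Λ := by
    unfold Prm.e eps0
    positivity
  have hq : (1 : ℝ) ≤ R.q := by
    obtain ⟨-, -, hu, -, -, -, -, -, huk, hkq, -, -⟩ := prm_le hp
    have : 1 ≤ R.q := by omega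
    exact_mod_cast this
  have hCm : (1 : ℝ) ≤ Cm := by exact_mod_cast hp.mert.1
  have h2 := hp.eps2
  have hδ := hp.hδ
  set E : ℝ := R.e Cq Λ with hE
  have hCΛ : (1 : ℝ) ≤ Cm * Λ := one_le_mul_of_one_le_of_one_le hCm hΛ
  have hCΛq : (1 : ℝ) ≤ Cm * Λ * R.q := one_le_mul_of_one_le_of_one_le hCΛ hq
  have hX : E * (Cm * Λ * R.q) ≤ δ / 10 ^ 5 := by
    rw [le_div_iff₀ (by norm_num)]
    calc E * (Cm * Λ * R.q) * 10 ^ 5 = E * (10 ^ 5 * Cm * Λ * R.q) := by ring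
      _ ≤ δ := h2
  have h3 : E ≤ E * (Cm * Λ * R.q) := le_mul_of_one_le_right h0 hCΛq
  have h4 : E * R.q ≤ E * (Cm * Λ * R.q) := by
    refine mul_le_mul_of_nonneg_left ?_ h0
    exact le_mul_of_one_le_left (by linarith) hCΛ
  have h5 : E * (Λ * R.q) ≤ E * (Cm * Λ * R.q) := by
    refine mul_le_mul_of_nonneg_left ?_ h0
    rw [mul_assoc]
    exact le_mul_of_one_le_left (by positivity) hCm
  have h6 : E * (Cm * Λ) ≤ E * (Cm * Λ * R.q) := by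
    refine mul_le_mul_of_nonneg_left ?_ h0
    exact le_mul_of_one_le_right (by positivity) hq
  refine ⟨h0, ?_, ?_, ?_, ?_⟩
  · linarith
  · linarith
  · calc 16 * (Λ * R.q) * E = 16 * (E * (Λ * R.q)) := by ring
      _ ≤ δ / 100 := by linarith
  · calc 1000 * Cm * Λ * E = 1000 * (E * (Cm * Λ)) := by ring
      _ ≤ δ / 16 := by linarith

/-- the number of kill scales is large -/
theorem kill_ratio (hp : ParG R C Cq Cm c cD Λ δ) :
    64 * 3 * Cm * (16 * Λ) * (16 * (Λ * R.q) / (cD * R.I2 * R.q0)) ≤ δ / 4 := by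
  have h1 := hp.kill
  have h2 := hp.hcD
  have hq0 : (0 : ℝ) < R.q0 := by
    exact_mod_cast (by have := GS22_B1_q0 hp; omega : 0 < R.q0)
  have hcI : 0 < cD * R.I2 := by linarith
  have h5 : (R.q : ℝ) = 4 * (R.M * R.D * R.k * (R.I + 1)) * R.q0 := by
    unfold Prm.q Prm.u
    push_cast
    ring
  have h6 : 64 * 3 * Cm * (16 * Λ) * (16 * (Λ * R.q) / (cD * R.I2 * R.q0)) =
      196608 * (Cm * Λ ^ 2 * (R.M * R.D * R.k * (R.I + 1))) / (cD * R.I2) := by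
    rw [h5]
    field_simp
    ring
  rw [h6, div_le_iff₀ hcI]
  have h7 : (0 : ℝ) ≤ Cm * Λ ^ 2 * (R.M * R.D * R.k * (R.I + 1)) := by positivity
  nlinarith

end Pool.Agent.LibGL22
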