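import Pool.Agent.LibGL22.Defs
import Pool.Agent.LibSC93.J3
import Pool.Agent.LibLG5.M5

/-!
Row Z0 (collapse with the Selberg factor, general coefficients). As `LibLG5.collapse5` (LibLG5/M5.lean) and `LibSC93.collapseS` (J3.lean): `split` at `i`; for `β` avoiding `i` the right side is
`∑_{A ⊆ P \ sp β, rr A ≤ z^k2} yCol β/Gn (P \ sp β) * rhoP (E ∪ su (ins i A β)) n * ee β n/ph A` (`fb_ins_self`, `rem_ins`, `ee_ins`; `rhoP` does not see the position `b i`), the sum over `A` of `1/ph A` is `Gn (P \ sp β) > 0`;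
the left side is `∑_{A ⊆ P \ sp β} y (ins i A β) … /ph A = yCol β …`.
-/

open Finset

namespace Pool.Agent.LibGL22

open Pool.Agent.LibRG87 Pool.Agent.LibLG5 Pool.Agent.LibPL63 Pool.Agent.LibSC93

variable {ι : Type} [Fintype ι] [DecidableEq ι] (P : Finset ℕ)

private theorem Z0_rho {Pr : Finset ℕ} {n x : ℕ} (B : Finset ℕ) (h : ∀ p ∈ Pr, ¬ p ∣ n + x) :
    rhoP Pr B n = rhoP Pr (insert x B) n := by
  unfold rhoP
  have h1 : (∀ a ∈ B, ∀ p ∈ Pr, ¬ p ∣ n + a) ↔
      ∀ a ∈ insert x B, ∀ p ∈ Pr, ¬ p ∣ n + a := by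
    constructor
    · intro h1 a ha
      rcases Finset.mem_insert.1 ha with h2 | h2
      · rw [h2]
        exact h
      · exact h1 a h2
    · intro h1 a ha
      exact h1 a (Finset.mem_insert_of_mem ha)
  by_cases h2 : ∀ a ∈ B, ∀ p ∈ Pr, ¬ p ∣ n + a
  · rw [if_pos h2, if_pos (h1.1 h2)]
  · rw [if_neg h2, if_neg (fun h3 => h2 (h1.2 h3))]

private theorem Z0_su_ins (b : ι → ℕ) (i : ι) {A : Finset ℕ} {β : P → Option ι}
    (hβ : ∀ p, β p ≠ some i) (hA : A ⊆ P \ sp P β) :
    insert (b i) (su P b (ins P i A β)) = insert (b i) (su P b β) := by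
  unfold su
  rw [sui_ins P i hβ hA]
  split_ifs
  · rfl
  · rw [Finset.image_insert]
    exact Finset.insert_idem _ _

theorem collapseSel (Pr : Finset ℕ) (hP : ∀ p ∈ P, Nat.Prime p) (z k2 : ℕ) (hz : 1 ≤ z) (b : ι → ℕ) (i : ι) (n : ℕ)
    (hn : ∀ p ∈ Pr, ¬ p ∣ n + b i) (hn' : ∀ p ∈ P, ¬ p ∣ n + b i) (y : (P → Option ι) → ℝ)
    (E : Finset ℕ) : PhiS P Pr b y E n = PhiS P Pr b (ySel P z k2 i y) E n := by
  classical
  rw [collapseS P Pr hP b i n hn hn' y E]
  unfold PhiS
  rw [split P i (fun β => ySel P z k2 i y β * rhoP Pr (E ∪ su P b β) n * ee P b β n)]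
  refine Finset.sum_congr rfl fun β _ => ?_
  by_cases hβ : ∀ p, β p ≠ some i
  · rw [if_pos hβ]
    have h3 : ∀ A ∈ (P \ sp P β).powerset,
        ySel P z k2 i y (ins P i A β) * rhoP Pr (E ∪ su P b (ins P i A β)) n *
          ee P b (ins P i A β) n =
        (if rr A ≤ (z : ℝ) ^ k2 then 1 / ph A else 0) *
          (yCol P i y β / Gn (P \ sp P β) z k2 * (rhoP Pr (E ∪ su P b β) n * ee P b β n)) := by
      intro A hA
      rw [Finset.mem_powerset] at hA
      have h1 : rhoP Pr (E ∪ su P b (ins P i A β)) n = rhoP Pr (E ∪ su P b β) n := by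
        rw [Z0_rho (E ∪ su P b (ins P i A β)) hn, Z0_rho (E ∪ su P b β) hn,
          ← Finset.union_insert, ← Finset.union_insert, Z0_su_ins P b i hβ hA]
      rw [h1, ee_ins P b i hβ hA n hn']
      unfold ySel
      rw [fb_ins_self P i hβ hA, rem_ins P i hβ hA]
      split_ifs
      · ring
      · ring
    rw [Finset.sum_congr rfl h3, ← Finset.sum_mul, ← Finset.sum_filter]
    have h4 : ∑ A ∈ (P \ sp P β).powerset with rr A ≤ (z : ℝ) ^ k2, 1 / ph A =
        Gn (P \ sp P β) z k2 := rfl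
    rw [h4]
    have h6 : Gn (P \ sp P β) z k2 ≠ 0 := by
      have := one_le_Gn (P \ sp P β) z k2 (fun p hp => hP p (Finset.mem_sdiff.1 hp).1) hz
      linarith
    field_simp
  · rw [if_neg hβ]
    have h5 : yCol P i y β = 0 := by
      unfold yCol
      rw [if_neg hβ]
    rw [h5, zero_mul, zero_mul]

/-- the diagonal with the Selberg factor -/
theorem dgV_ySel (hP : ∀ p ∈ P, Nat.Prime p) (z k2 : ℕ) (hz : 1 ≤ z) (V : Finset ℕ → ℝ) (b : ι → ℕ) (i : ι)
    (E : Finset ℕ) (hE : b i ∈ E) (y : (P → Option ι) → ℝ) :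
    dgV P V b E (ySel P z k2 i y) = ∑ β : P → Option ι,
      yCol P i y β ^ 2 * V (E ∪ su P b β) / (Gn (P \ sp P β) z k2 * ph (sp P β)) := by
  classical
  unfold dgV
  rw [split P i (fun β => ySel P z k2 i y β ^ 2 * V (E ∪ su P b β) / ph (sp P β))]
  refine Finset.sum_congr rfl fun β _ => ?_
  by_cases hβ : ∀ p, β p ≠ some i
  · rw [if_pos hβ]
    have hG : Gn (P \ sp P β) z k2 ≠ 0 := by
      have := one_le_Gn (P \ sp P β) z k2 (fun p hp => hP p (Finset.mem_sdiff.1 hp).1) hz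
      linarith
    have h3 : ∀ A ∈ (P \ sp P β).powerset,
        ySel P z k2 i y (ins P i A β) ^ 2 * V (E ∪ su P b (ins P i A β)) /
          ph (sp P (ins P i A β)) =
        (if rr A ≤ (z : ℝ) ^ k2 then 1 / ph A else 0) *
          ((yCol P i y β / Gn (P \ sp P β) z k2) ^ 2 * (V (E ∪ su P b β) / ph (sp P β))) := by
      intro A hA
      rw [Finset.mem_powerset] at hA
      have h1 : E ∪ su P b (ins P i A β) = E ∪ su P b β := by
        have h2 := Z0_su_ins P b i hβ hA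
        have h4 : ∀ B : Finset ℕ, E ∪ insert (b i) B = E ∪ B := by
          intro B
          rw [Finset.union_insert, Finset.insert_eq_self]
          exact Finset.mem_union_left _ hE
        rw [← h4 (su P b (ins P i A β)), ← h4 (su P b β), h2]
      rw [h1, ph_sp_ins P i hβ hA]
      unfold ySel
      rw [fb_ins_self P i hβ hA, rem_ins P i hβ hA]
      split_ifs
      · rw [one_div, div_eq_mul_inv, mul_inv, div_eq_mul_inv (V (E ∪ su P b β))]
        ring
      · ring
    rw [Finset.sum_congr rfl h3, ← Finset.sum_mul, ← Finset.sum_filter]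
    have h4 : ∑ A ∈ (P \ sp P β).powerset with rr A ≤ (z : ℝ) ^ k2, 1 / ph A =
        Gn (P \ sp P β) z k2 := rfl
    rw [h4, div_pow, mul_comm (Gn (P \ sp P β) z k2) (ph (sp P β)), ← div_div]
    have h7 : Gn (P \ sp P β) z k2 *
        (yCol P i y β ^ 2 / Gn (P \ sp P β) z k2 ^ 2 * (V (E ∪ su P b β) / ph (sp P β))) =
        (Gn (P \ sp P β) z k2 / Gn (P \ sp P β) z k2 ^ 2) *
        (yCol P i y β ^ 2 * (V (E ∪ su P b β) / ph (sp P β))) := by ring
    rw [h7]
    have h8 : Gn (P \ sp P β) z k2 / Gn (P \ sp P β) z k2 ^ 2 = 1 / Gn (P \ sp P β) z k2 := by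
      field_simp
    rw [h8]
    ring
  · rw [if_neg hβ]
    have h5 : yCol P i y β = 0 := by
      unfold yCol
      rw [if_neg hβ]
    rw [h5]
    simp

end Pool.Agent.LibGL22
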