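import Pool.Agent.LibGL22.Defs
import Pool.Agent.LibSC93.J4
import Pool.Agent.LibSC93.J5

/-!
Row Z1 (the coefficients collapsed at two positions `inl i0 ≠ inl i1`). `yCol (inl i0) (yJ …)` is 0 unless `β` avoids `inl i0`; collapsing at `inl i1`: for `β` avoiding both,
`yCol (inl i1) (yCol (inl i0) yJ) β = ∑_{A1 ⊆ P \ sp β} yCol (inl i0) yJ (ins (inl i1) A1 β)/ph A1`, and by `yCol_inl` (J4) each term is at most
`(∏_i g1 (fb (bL (ins …)) i)) G1s |y5 (bR β)|/ph A1 = g1 A1/ph A1 * G1s * (∏_i g1 (fb (bL β) i)) |y5 (bR β)|` (`gS ≤ G1s`); sum over `A1`: `≤ G1s²`. `ins` at `inl i1` does not change avoidance of `inl i0`. If `rr (sp β) > z^(L + 2 r1)`, all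
terms vanish (`yColL_supp`; `rr (sp (ins …)) = rr A1 rr (sp β) ≥ rr (sp β)`).
-/

open Finset

namespace Pool.Agent.LibGL22

open Pool.Agent.LibRG87 Pool.Agent.LibLG5 Pool.Agent.LibPL63 Pool.Agent.LibSC93

variable {κ ν : Type} [Fintype κ] [DecidableEq κ] [Fintype ν] [DecidableEq ν] (P : Finset ℕ)

private theorem Z1_sub_bL {A : Finset ℕ} {β : P → Option (κ ⊕ ν)} (hA : A ⊆ P \ sp P β) :
    A ⊆ P \ sp P (bL P β) := by
  intro p hp
  have h1 := Finset.mem_sdiff.1 (hA hp)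
  refine Finset.mem_sdiff.2 ⟨h1.1, fun h2 => h1.2 ?_⟩
  rw [sp_bLR]
  exact Finset.mem_union_left _ h2

omit [Fintype κ] [DecidableEq κ] [Fintype ν] [DecidableEq ν] in
private theorem Z1_ne_bL {i0 : κ} {β : P → Option (κ ⊕ ν)}
    (hβ : ∀ p, β p ≠ some (Sum.inl i0)) : ∀ p, bL P β p ≠ some i0 := by
  intro p h
  unfold bL at h
  cases hp : β p with
  | none => rw [hp] at h; simp at h
  | some s =>
    rw [hp] at h
    cases s with
    | inl i =>
      simp only [Option.bind_some, Sum.getLeft?_inl, Option.some.injEq] at h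
      rw [h] at hp
      exact hβ p hp
    | inr j => simp at h

private theorem Z1_bL_ins (i0 : κ) {A : Finset ℕ} {β : P → Option (κ ⊕ ν)} :
    bL P (ins P (Sum.inl i0) A β) = ins P i0 A (bL P β) := by
  funext p
  by_cases hp : (p : ℕ) ∈ A
  · rw [M4_ins_mem P i0 hp]
    unfold bL
    rw [M4_ins_mem P (Sum.inl i0) hp]
    rfl
  · rw [M4_ins_notMem P i0 hp]
    unfold bL
    rw [M4_ins_notMem P (Sum.inl i0) hp]

private theorem Z1_bR_ins (i0 : κ) {A : Finset ℕ} {β : P → Option (κ ⊕ ν)}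
    (hA : A ⊆ P \ sp P β) : bR P (ins P (Sum.inl i0) A β) = bR P β := by
  funext p
  unfold bR
  by_cases hp : (p : ℕ) ∈ A
  · rw [M4_ins_mem P (Sum.inl i0) hp, M4_none P hA hp]
    rfl
  · rw [M4_ins_notMem P (Sum.inl i0) hp]

private theorem Z1_prod {ι : Type} [Fintype ι] [DecidableEq ι] (g : Finset ℕ → ℝ) (hg : g ∅ = 1)
    (i0 : ι) {A : Finset ℕ} {γ : P → Option ι} (hγ : ∀ p, γ p ≠ some i0) (hA : A ⊆ P \ sp P γ) :
    ∏ i, g (fb P (ins P i0 A γ) i) = g A * ∏ i, g (fb P γ i) := by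
  rw [← Finset.mul_prod_erase Finset.univ (fun i => g (fb P (ins P i0 A γ) i)) (Finset.mem_univ i0),
    ← Finset.mul_prod_erase Finset.univ (fun i => g (fb P γ i)) (Finset.mem_univ i0),
    fb_ins_self P i0 hγ hA, fb_self_eq_empty P hγ, hg, one_mul]
  congr 1
  refine Finset.prod_congr rfl fun i hi => ?_
  rw [fb_ins_ne P i0 hγ hA (Finset.ne_of_mem_erase hi)]

private theorem Z1_gS_nonneg (hP : ∀ p ∈ P, Nat.Prime p) (z q0 a I L : ℕ) (S : Finset ℕ) (R : ℝ) :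
    0 ≤ gS P z q0 a I L S R := by
  unfold gS
  refine Finset.sum_nonneg fun A hA => ?_
  rw [Finset.mem_filter, Finset.mem_powerset] at hA
  exact div_nonneg (g1_nonneg z q0 a I A) (ph_pos P hP (hA.1.trans Finset.sdiff_subset)).le

private theorem Z1_gS_le (hP : ∀ p ∈ P, Nat.Prime p) (z q0 a I L : ℕ) (S : Finset ℕ) (R : ℝ) :
    gS P z q0 a I L S R ≤ G1s P z q0 a I := by
  unfold gS G1s
  refine Finset.sum_le_sum_of_subset_of_nonneg ?_ fun A hA _ =>
    div_nonneg (g1_nonneg z q0 a I A) (ph_pos P hP (Finset.mem_powerset.1 hA)).le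
  intro A hA
  rw [Finset.mem_filter, Finset.mem_powerset] at hA
  exact Finset.mem_powerset.2 (hA.1.trans Finset.sdiff_subset)

private theorem Z1_avoid (i0 i1 : κ) (hne : i0 ≠ i1) {A : Finset ℕ} {β : P → Option (κ ⊕ ν)}
    (hβ : ∀ p, β p ≠ some (Sum.inl i0)) : ∀ p, ins P (Sum.inl i1) A β p ≠ some (Sum.inl i0) := by
  intro p
  by_cases hp : (p : ℕ) ∈ A
  · rw [M4_ins_mem P (Sum.inl i1) hp]
    intro h
    exact hne (Sum.inl_injective (Option.some_injective _ h)).symm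
  · rw [M4_ins_notMem P (Sum.inl i1) hp]
    exact hβ p

private theorem Z1_hit (i0 i1 : κ) {A : Finset ℕ} {β : P → Option (κ ⊕ ν)} (hA : A ⊆ P \ sp P β)
    (hβ : ¬ ∀ p, β p ≠ some (Sum.inl i0)) :
    ¬ ∀ p, ins P (Sum.inl i1) A β p ≠ some (Sum.inl i0) := by
  intro h
  apply hβ
  intro p hp
  have h1 : (p : ℕ) ∉ A := by
    intro h2
    rw [M4_none P hA h2] at hp
    simp at hp
  have h2 := h p
  rw [M4_ins_notMem P (Sum.inl i1) h1] at h2
  exact h2 hp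

/-- one term -/
private theorem Z1_term (hP : ∀ p ∈ P, Nat.Prime p) {z a r0 r1 : ℕ} (hz : 2 ≤ z)
    (q0 I L : ℕ) (i0 i1 : κ) (hne : i0 ≠ i1) (β : P → Option (κ ⊕ ν))
    (hβ : ∀ p, β p ≠ some (Sum.inl i0)) (hβ1 : ∀ p, β p ≠ some (Sum.inl i1)) {A : Finset ℕ}
    (hA : A ⊆ P \ sp P β) :
    |yCol P (Sum.inl i0) (yJ P z q0 a I L r0 r1) (ins P (Sum.inl i1) A β)| ≤
      g1 z q0 a I A * (G1s P z q0 a I * ((∏ i, g1 z q0 a I (fb P (bL P β) i)) *
        |y5 P z r0 r1 (bR P β)|)) := by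
  rw [yCol_inl P z q0 a I L r0 r1 (by omega) i0 _ (Z1_avoid P i0 i1 hne hβ), Z1_bL_ins,
    Z1_bR_ins P i1 hA, Z1_prod P (g1 z q0 a I) (g1_empty (by omega)) i1 (Z1_ne_bL P hβ1)
      (Z1_sub_bL P hA), abs_mul, abs_mul, abs_mul, abs_of_nonneg (g1_nonneg z q0 a I A),
    abs_of_nonneg (Finset.prod_nonneg fun i _ => g1_nonneg z q0 a I (fb P (bL P β) i)),
    abs_of_nonneg (Z1_gS_nonneg P hP z q0 a I L _ _)]
  have h1 := Z1_gS_le P hP z q0 a I L (sp P (ins P (Sum.inl i1) A β))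
    (rr (sp P (ins P i1 A (bL P β))))
  have h2 : 0 ≤ g1 z q0 a I A * ((∏ i, g1 z q0 a I (fb P (bL P β) i)) *
        |y5 P z r0 r1 (bR P β)|) :=
    mul_nonneg (g1_nonneg _ _ _ _ _) (mul_nonneg (Finset.prod_nonneg fun i _ =>
      g1_nonneg z q0 a I (fb P (bL P β) i)) (abs_nonneg _))
  have h3 := mul_le_mul_of_nonneg_left h1 h2
  calc _ = g1 z q0 a I A * ((∏ i, g1 z q0 a I (fb P (bL P β) i)) * |y5 P z r0 r1 (bR P β)|) *
        gS P z q0 a I L (sp P (ins P (Sum.inl i1) A β)) (rr (sp P (ins P i1 A (bL P β)))) := by ring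
    _ ≤ _ := h3
    _ = _ := by ring

open scoped Classical in
theorem yCC_abs (hP : ∀ p ∈ P, Nat.Prime p) {z a r0 r1 : ℕ} (hz : 2 ≤ z) (ha : 1 ≤ a) (hr0 : 1 ≤ r0)
    (q0 I L : ℕ) (i0 i1 : κ) (hne : i0 ≠ i1) (β : P → Option (κ ⊕ ν)) :
    |yCol P (Sum.inl i1) (yCol P (Sum.inl i0) (yJ P z q0 a I L r0 r1)) β| ≤
      if (∀ p, β p ≠ some (Sum.inl i0) ∧ β p ≠ some (Sum.inl i1)) ∧ rr (sp P β) ≤ (z : ℝ) ^ (L + 2 * r1) then
        G1s P z q0 a I ^ 2 * ((∏ i, g1 z q0 a I (fb P (bL P β) i)) * |y5 P z r0 r1 (bR P β)|) else 0 := by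
  have hG := G1s_nonneg P hP z q0 a I
  have hX : 0 ≤ (∏ i, g1 z q0 a I (fb P (bL P β) i)) * |y5 P z r0 r1 (bR P β)| :=
    mul_nonneg (Finset.prod_nonneg fun i _ => g1_nonneg z q0 a I (fb P (bL P β) i)) (abs_nonneg _)
  by_cases hβ1 : ∀ p, β p ≠ some (Sum.inl i1)
  swap
  · rw [yCol_of_not P _ _ β hβ1, abs_zero]
    split_ifs
    · exact mul_nonneg (sq_nonneg _) hX
    · exact le_rfl
  unfold yCol
  rw [if_pos hβ1]
  by_cases hβ : ∀ p, β p ≠ some (Sum.inl i0)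
  swap
  · rw [Finset.sum_eq_zero, abs_zero]
    · split_ifs
      · exact mul_nonneg (sq_nonneg _) hX
      · exact le_rfl
    · intro A hA
      rw [Finset.mem_powerset] at hA
      rw [if_neg (Z1_hit P i0 i1 hA hβ), zero_div]
  by_cases hR : rr (sp P β) ≤ (z : ℝ) ^ (L + 2 * r1)
  · rw [if_pos ⟨fun p => ⟨hβ p, hβ1 p⟩, hR⟩]
    refine (Finset.abs_sum_le_sum_abs _ _).trans ?_
    have h1 : ∀ A ∈ (P \ sp P β).powerset,
        |yCol P (Sum.inl i0) (yJ P z q0 a I L r0 r1) (ins P (Sum.inl i1) A β) / ph A| ≤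
          g1 z q0 a I A / ph A * (G1s P z q0 a I * ((∏ i, g1 z q0 a I (fb P (bL P β) i)) *
            |y5 P z r0 r1 (bR P β)|)) := by
      intro A hA
      rw [Finset.mem_powerset] at hA
      have hph := ph_pos P hP (hA.trans Finset.sdiff_subset)
      rw [abs_div, abs_of_pos hph, div_mul_eq_mul_div]
      exact div_le_div_of_nonneg_right (Z1_term P hP hz q0 I L i0 i1 hne β hβ hβ1 hA) hph.le
    refine (Finset.sum_le_sum h1).trans ?_
    rw [← Finset.sum_mul]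
    have h2 : ∑ A ∈ (P \ sp P β).powerset, g1 z q0 a I A / ph A ≤ G1s P z q0 a I := by
      unfold G1s
      refine Finset.sum_le_sum_of_subset_of_nonneg
        (Finset.powerset_mono.2 Finset.sdiff_subset) fun A hA _ => ?_
      exact div_nonneg (g1_nonneg _ _ _ _ _) (ph_pos P hP (Finset.mem_powerset.1 hA)).le
    calc _ ≤ G1s P z q0 a I * (G1s P z q0 a I * ((∏ i, g1 z q0 a I (fb P (bL P β) i)) *
            |y5 P z r0 r1 (bR P β)|)) :=
          mul_le_mul_of_nonneg_right h2 (mul_nonneg hG hX)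
      _ = _ := by ring
  · rw [if_neg (fun h => hR h.2), Finset.sum_eq_zero, abs_zero]
    intro A hA
    rw [Finset.mem_powerset] at hA
    have h1 : yCol P (Sum.inl i0) (yJ P z q0 a I L r0 r1) (ins P (Sum.inl i1) A β) = 0 := by
      by_contra h2
      have h3 := (yColL_supp P hP hz hr0 (Kν := 2 * r1)
        (Nat.le_mul_of_pos_right _ (by omega)) q0 I L i0 h2).1
      rw [rr_sp_ins P (Sum.inl i1) hβ1 hA] at h3
      have h4 : 1 ≤ rr A := one_le_rr P hP (hA.trans Finset.sdiff_subset)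
      have h5 : 0 < rr (sp P β) := rr_pos P hP (sp_subset P _)
      apply hR
      nlinarith
    change yCol P (Sum.inl i0) (yJ P z q0 a I L r0 r1) (ins P (Sum.inl i1) A β) / ph A = 0
    rw [h1, zero_div]

end Pool.Agent.LibGL22
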