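import Pool.Agent.LibGL22.Z1
import Pool.Agent.LibLG5.M5
import Pool.Agent.LibLG5.M2

/-!
Row Z2 (bound and support of the coefficients with the Selberg factor at `inl i1`, collapsed at `inl i0`). `|ySel β| ≤ |yCC (rem β)|/Gn ≤ G1s²` (`yCC_abs`, `g1 ≤ 1`, `|y5| ≤ 1` (`y5_abs_le`), `1 ≤ Gn` (`one_le_Gn`)). Support: `rr (fb β (inl i1)) ≤ z^k2`
and `rem β` has `rr ≤ z^(L + 2 r1)`: product (`rr_sp_ins`, `M4_ins_rem`); `alw`: `rem β` avoids `inl i0`, and so does `β` (`rem` changes only the primes of `inl i1`); `sui β ⊆ insert (inl i1) (sui (rem β))`, and `rem β` avoids `inl i0`, `inl i1`: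
`card ≤ 1 + (card κ - 2) + Kν ≤ card κ + Kν` (`sui (rem β)`: its part in `κ` misses `i0, i1`; its part in `ν` has at most `Kν` elements by `y5_supp` as `y5 (bR (rem β)) ≠ 0`; see `J5_supp`, `card_sui_le`).
-/

open Finset

namespace Pool.Agent.LibGL22

open Pool.Agent.LibRG87 Pool.Agent.LibLG5 Pool.Agent.LibPL63 Pool.Agent.LibSC93

variable {κ ν : Type} [Fintype κ] [DecidableEq κ] [Fintype ν] [DecidableEq ν] (P : Finset ℕ)

private theorem Z2_bR (i1 : κ) (β : P → Option (κ ⊕ ν)) :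
    bR P (rem P (Sum.inl i1) β) = bR P β := by
  funext p
  unfold bR rem
  by_cases h : β p = some (Sum.inl i1)
  · rw [if_pos h, h]
    rfl
  · rw [if_neg h]

theorem yPP_abs_le (hP : ∀ p ∈ P, Nat.Prime p) {z a r0 r1 : ℕ} (hz : 2 ≤ z) (ha : 1 ≤ a) (hr0 : 1 ≤ r0)
    (hD : 0 < Dn P z r0 r1) (hD1 : 1 ≤ Dn P z r0 r1 * (r0 * Real.log z)) (q0 I L k2 : ℕ) (i0 i1 : κ)
    (hne : i0 ≠ i1) (β : P → Option (κ ⊕ ν)) :
    |ySel P z k2 (Sum.inl i1) (yCol P (Sum.inl i0) (yJ P z q0 a I L r0 r1)) β| ≤ G1s P z q0 a I ^ 2 := by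
  classical
  have hG2 : 0 ≤ G1s P z q0 a I ^ 2 := sq_nonneg _
  unfold ySel
  split_ifs with h1
  · have h6 : 1 ≤ Gn (P \ sp P (rem P (Sum.inl i1) β)) z k2 :=
      one_le_Gn _ z k2 (fun p hp => hP p (Finset.mem_sdiff.1 hp).1) (by omega)
    have h7 : |yCol P (Sum.inl i1) (yCol P (Sum.inl i0) (yJ P z q0 a I L r0 r1))
        (rem P (Sum.inl i1) β)| ≤ G1s P z q0 a I ^ 2 := by
      refine (yCC_abs P hP hz ha hr0 q0 I L i0 i1 hne _).trans ?_
      split_ifs with h2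
      · refine mul_le_of_le_one_right hG2 ?_
        refine mul_le_one₀ ?_ (abs_nonneg _) (y5_abs_le P z r0 r1 hP hz hr0 hD hD1 _)
        exact Finset.prod_le_one (fun i _ => g1_nonneg _ _ _ _ _) (fun i _ => g1_le_one ha _)
      · exact hG2
    rw [abs_div, abs_of_pos (by linarith : 0 < Gn (P \ sp P (rem P (Sum.inl i1) β)) z k2)]
    exact (div_le_self (abs_nonneg _) h6).trans h7
  · rw [abs_zero]
    exact hG2

theorem yPP_supp (hP : ∀ p ∈ P, Nat.Prime p) {z a r0 r1 : ℕ} (hz : 2 ≤ z) (ha : 1 ≤ a) (hr0 : 1 ≤ r0) {Kν : ℕ}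
    (hK : 2 * r1 ≤ Kν * r0) (q0 I L k2 : ℕ) (i0 i1 : κ) (hne : i0 ≠ i1) {β : P → Option (κ ⊕ ν)}
    (h : ySel P z k2 (Sum.inl i1) (yCol P (Sum.inl i0) (yJ P z q0 a I L r0 r1)) β ≠ 0) :
    rr (sp P β) ≤ (z : ℝ) ^ (L + 2 * r1 + k2) ∧ alw P (univ.erase (Sum.inl i0)) β ∧
      (sui P β).card ≤ Fintype.card κ + Kν := by
  classical
  have h1 : rr (fb P β (Sum.inl i1)) ≤ (z : ℝ) ^ k2 := by
    by_contra h1
    apply h
    unfold ySel
    rw [if_neg h1]
  have h2 : yCol P (Sum.inl i1) (yCol P (Sum.inl i0) (yJ P z q0 a I L r0 r1))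
      (rem P (Sum.inl i1) β) ≠ 0 := by
    intro h2
    apply h
    unfold ySel
    rw [if_pos h1, h2, zero_div]
  have h3 := yCC_abs P hP (r1 := r1) hz ha hr0 q0 I L i0 i1 hne (rem P (Sum.inl i1) β)
  have h4 := (abs_pos.2 h2).trans_le h3
  by_cases h5 : (∀ p, rem P (Sum.inl i1) β p ≠ some (Sum.inl i0) ∧
      rem P (Sum.inl i1) β p ≠ some (Sum.inl i1)) ∧
      rr (sp P (rem P (Sum.inl i1) β)) ≤ (z : ℝ) ^ (L + 2 * r1)
  · rw [if_pos h5] at h4
    have h6 : y5 P z r0 r1 (bR P β) ≠ 0 := by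
      intro h6
      rw [Z2_bR, h6] at h4
      simp at h4
    have h7 := y5_supp P z r0 r1 hP hz hr0 hK _ h6
    have h8 := rr_sp_ins P (Sum.inl i1) (M5_rem_ne P (Sum.inl i1) β) (M5_fb_sub P (Sum.inl i1) β)
    rw [M5_ins_rem] at h8
    refine ⟨?_, ?_, ?_⟩
    · rw [h8, pow_add, mul_comm]
      exact mul_le_mul h5.2 h1 (zero_le_one.trans (one_le_rr P hP (fb_subset P β _)))
        (by positivity)
    · intro p i hpi
      rw [Finset.mem_erase]
      refine ⟨?_, Finset.mem_univ i⟩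
      rintro rfl
      apply (h5.1 p).1
      unfold rem
      rw [if_neg, hpi]
      rw [hpi]
      intro h9
      exact hne (Sum.inl.inj (Option.some.inj h9))
    · exact (card_sui_le P β).trans (Nat.add_le_add_left h7.2 _)
  · rw [if_neg h5] at h4
    exact absurd h4 (lt_irrefl _)

end Pool.Agent.LibGL22
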