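import Pool.Agent.LibGL22.Z0
import Pool.Agent.LibGL22.Z1
import Pool.Agent.LibSC93.J6
import Pool.Agent.LibSC93.K2

/-!
Row Z3 (upper bound for the diagonal of the pair). `sum_avoid_le`: as `sum_yM_le` (J6): `sum_split` with `G α γ = (∏_i f_i (fb α i))/ph (sp α) * w γ/ph (sp γ)`, `f_i = g1²` for `i ≠ i0, i1` and `f_i A = 1[A = ∅]` for `i = i0, i1`
(`g1 ∅ = 1`); drop the condition of disjointness; `∑_α ∏_i f_i (fb α i)/ph (fb α i) ≤ ∏_i ∑_A f_i A/ph A = G2s^(card κ - 2)` (`sum_beta_le` of LibRG87, `Finset.prod_univ_sum`).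
`dgPP_le`: `dgV_ySel` (row Z0) with `yCol (inl i1) (yCol (inl i0) yJ)`, `yCC_abs` (row Z1), `Gm ≤ Gn (P \ sp β)` (`rr (sp β) ≤ z^(L + 2 r1)`), `su_bR`, then `sum_avoid_le` with `w γ = y5 γ² V (E ∪ su γ)`.
-/

open Finset

namespace Pool.Agent.LibGL22

open Pool.Agent.LibRG87 Pool.Agent.LibLG5 Pool.Agent.LibPL63 Pool.Agent.LibSC93

variable {κ ν : Type} [Fintype κ] [DecidableEq κ] [Fintype ν] [DecidableEq ν] (P : Finset ℕ)

private theorem Z3_g1_le (z q0 a I : ℕ) (A : Finset ℕ) : g1 z q0 a I A ≤ 1 := by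
  unfold g1
  split_ifs
  · apply pow_le_one₀ (by positivity)
    rcases Nat.eq_zero_or_pos a with h | h
    · rw [h]
      simp
    · exact inv_le_one_of_one_le₀ (by exact_mod_cast h)
  · exact zero_le_one

private theorem Z3_prod (i0 i1 : κ) (hne : i0 ≠ i1) (c : ℝ) :
    ∏ i : κ, (if i = i0 ∨ i = i1 then (1 : ℝ) else c) = c ^ (Fintype.card κ - 2) := by
  rw [Finset.prod_ite, Finset.prod_const_one, one_mul, Finset.prod_const]
  congr 1
  have h : (Finset.univ.filter fun i : κ => ¬(i = i0 ∨ i = i1)) = ({i0, i1} : Finset κ)ᶜ := by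
    ext i
    simp
  rw [h, Finset.card_compl, Finset.card_pair hne]

open scoped Classical in
private theorem Z3_one (hP : ∀ p ∈ P, Nat.Prime p) (z q0 a I : ℕ) (i0 i1 : κ) (hne : i0 ≠ i1) :
    ∑ α : P → Option κ, ∏ i, ((if i = i0 ∨ i = i1 then (if fb P α i = ∅ then (1 : ℝ) else 0) else
        g1 z q0 a I (fb P α i) ^ 2) / ph (fb P α i)) ≤ G2s P z q0 a I ^ (Fintype.card κ - 2) := by
  have h1 := sum_beta_le (ι := κ) P (fun A => ∏ i, ((if i = i0 ∨ i = i1 then
      (if A i = ∅ then (1 : ℝ) else 0) else g1 z q0 a I (A i) ^ 2) / ph (A i))) (by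
    intro A hA
    rw [Fintype.mem_piFinset] at hA
    refine Finset.prod_nonneg fun i _ => div_nonneg ?_
      (ph_pos P hP (Finset.mem_powerset.1 (hA i))).le
    split_ifs
    · exact zero_le_one
    · exact le_rfl
    · exact sq_nonneg _)
  refine h1.trans (le_of_eq ?_)
  rw [← Finset.prod_univ_sum (fun _ : κ => P.powerset)
    (fun i A => (if i = i0 ∨ i = i1 then (if A = ∅ then (1 : ℝ) else 0) else
      g1 z q0 a I A ^ 2) / ph A), ← Z3_prod i0 i1 hne]
  refine Finset.prod_congr rfl fun i _ => ?_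
  by_cases h : i = i0 ∨ i = i1
  · simp only [if_pos h]
    rw [Finset.sum_eq_single ∅]
    · simp [ph]
    · intro A _ hA
      rw [if_neg hA, zero_div]
    · intro h2
      exact absurd (Finset.empty_mem_powerset P) h2
  · simp only [if_neg h]
    rfl

open scoped Classical in
theorem sum_avoid_le (hP : ∀ p ∈ P, Nat.Prime p) (z q0 a I : ℕ) (i0 i1 : κ) (hne : i0 ≠ i1) (w : (P → Option ν) → ℝ)
    (hw : ∀ γ, 0 ≤ w γ) :
    ∑ β : P → Option (κ ⊕ ν), (if ∀ p, β p ≠ some (Sum.inl i0) ∧ β p ≠ some (Sum.inl i1) then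
        (∏ i, g1 z q0 a I (fb P (bL P β) i)) ^ 2 * w (bR P β) / ph (sp P β) else 0) ≤
      G2s P z q0 a I ^ (Fintype.card κ - 2) * ∑ γ : P → Option ν, w γ / ph (sp P γ) := by
  have hpos : ∀ {ι : Type} [Fintype ι] [DecidableEq ι] (α : P → Option ι), 0 < ph (sp P α) :=
    fun α => ph_pos P hP (sp_subset P α)
  obtain ⟨F, hF⟩ : ∃ F : (P → Option κ) → κ → ℝ, F = fun α i =>
      (if i = i0 ∨ i = i1 then (if fb P α i = ∅ then (1 : ℝ) else 0) else
        g1 z q0 a I (fb P α i) ^ 2) := ⟨_, rfl⟩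
  have hF0 : ∀ α i, 0 ≤ F α i := by
    intro α i
    rw [hF]
    dsimp only
    split_ifs
    · exact zero_le_one
    · exact le_rfl
    · exact sq_nonneg _
  have hph : ∀ (α : P → Option κ) (i : κ), 0 < ph (fb P α i) := fun α i =>
    ph_pos P hP (fb_subset P α i)
  have hT0 : ∀ α : P → Option κ, 0 ≤ ∏ i, (F α i / ph (fb P α i)) := fun α =>
    Finset.prod_nonneg fun i _ => div_nonneg (hF0 α i) (hph α i).le
  let G : (P → Option κ) → (P → Option ν) → ℝ := fun α γ =>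
    (∏ i, (F α i / ph (fb P α i))) * (w γ / ph (sp P γ))
  have hG0 : ∀ α γ, 0 ≤ G α γ := fun α γ =>
    mul_nonneg (hT0 α) (div_nonneg (hw γ) (hpos γ).le)
  have h1 : ∀ β : P → Option (κ ⊕ ν), (if ∀ p, β p ≠ some (Sum.inl i0) ∧ β p ≠ some (Sum.inl i1) then
        (∏ i, g1 z q0 a I (fb P (bL P β) i)) ^ 2 * w (bR P β) / ph (sp P β) else 0) ≤
      G (bL P β) (bR P β) := by
    intro β
    split_ifs with hc
    · have hle : (∏ i, g1 z q0 a I (fb P (bL P β) i)) ^ 2 ≤ ∏ i, F (bL P β) i := by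
        rw [← Finset.prod_pow]
        refine Finset.prod_le_prod (fun i _ => sq_nonneg _) fun i _ => ?_
        rw [hF]
        dsimp only
        by_cases hi : i = i0 ∨ i = i1
        · have he : fb P (bL P β) i = ∅ := by
            rw [fb_bL]
            apply Finset.eq_empty_of_forall_notMem
            intro p hp
            obtain ⟨h2, h3⟩ := (mem_fb P).1 hp
            rcases hi with rfl | rfl
            · exact (hc ⟨p, h2⟩).1 h3
            · exact (hc ⟨p, h2⟩).2 h3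
          rw [if_pos hi, if_pos he]
          exact pow_le_one₀ (g1_nonneg _ _ _ _ _) (Z3_g1_le _ _ _ _ _)
        · rw [if_neg hi]
      have e : G (bL P β) (bR P β) =
          (∏ i, F (bL P β) i) * w (bR P β) / ph (sp P β) := by
        show (∏ i, (F (bL P β) i / ph (fb P (bL P β) i))) * (w (bR P β) / ph (sp P (bR P β))) = _
        rw [Finset.prod_div_distrib, ph_bLR, ← ph_sp]
        exact (mul_div_mul_comm _ _ _ _).symm
      rw [e]
      exact div_le_div_of_nonneg_right (mul_le_mul_of_nonneg_right hle (hw _)) (hpos β).le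
    · exact hG0 _ _
  refine (Finset.sum_le_sum fun β _ => h1 β).trans ?_
  rw [sum_split P G, Finset.mul_sum]
  refine Finset.sum_le_sum fun γ _ => ?_
  have hγ : 0 ≤ w γ / ph (sp P γ) := div_nonneg (hw γ) (hpos γ).le
  have h2 : ∑ α : P → Option κ, (if ∀ p, α p = none ∨ γ p = none then G α γ else 0) ≤
      ∑ α : P → Option κ, G α γ := by
    refine Finset.sum_le_sum fun α _ => ?_
    split_ifs
    · exact le_rfl
    · exact hG0 α γ
  refine h2.trans ?_
  show ∑ α : P → Option κ, (∏ i, (F α i / ph (fb P α i))) * (w γ / ph (sp P γ)) ≤ _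
  rw [← Finset.sum_mul]
  refine mul_le_mul_of_nonneg_right ?_ hγ
  have h4 := Z3_one P hP z q0 a I i0 i1 hne
  rw [hF]
  exact h4

theorem dgPP_le (hP : ∀ p ∈ P, Nat.Prime p) {z a r0 r1 : ℕ} (hz : 2 ≤ z) (ha : 1 ≤ a) (hr0 : 1 ≤ r0)
    (q0 I L k2 : ℕ) (V : Finset ℕ → ℝ) (hV0 : ∀ B, 0 ≤ V B) (b : κ ⊕ ν → ℕ) (E : Finset ℕ)
    (hE : ∀ i, b (Sum.inl i) ∈ E) (i0 i1 : κ) (hne : i0 ≠ i1) {Gm : ℝ} (hGm : 0 < Gm)
    (hG : ∀ S ⊆ P, rr S ≤ (z : ℝ) ^ (L + 2 * r1) → Gm ≤ Gn (P \ S) z k2) :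
    dgV P V b E (ySel P z k2 (Sum.inl i1) (yCol P (Sum.inl i0) (yJ P z q0 a I L r0 r1))) ≤
      G1s P z q0 a I ^ 4 * G2s P z q0 a I ^ (Fintype.card κ - 2) / Gm *
        dgV P V (fun j => b (Sum.inr j)) E (y5 P z r0 r1) := by
  classical
  rw [dgV_ySel P hP z k2 (by omega) V b (Sum.inl i1) E (hE i1)]
  have hG1 : 0 ≤ G1s P z q0 a I := G1s_nonneg P hP z q0 a I
  have hav := sum_avoid_le (κ := κ) (ν := ν) P hP z q0 a I i0 i1 hne
    (fun γ => y5 P z r0 r1 γ ^ 2 * V (E ∪ su P (fun j => b (Sum.inr j)) γ))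
    (fun γ => mul_nonneg (sq_nonneg _) (hV0 _))
  have hterm : ∀ β : P → Option (κ ⊕ ν),
      yCol P (Sum.inl i1) (yCol P (Sum.inl i0) (yJ P z q0 a I L r0 r1)) β ^ 2 *
          V (E ∪ su P b β) / (Gn (P \ sp P β) z k2 * ph (sp P β)) ≤
        G1s P z q0 a I ^ 4 / Gm *
          (if ∀ p, β p ≠ some (Sum.inl i0) ∧ β p ≠ some (Sum.inl i1) then
            (∏ i, g1 z q0 a I (fb P (bL P β) i)) ^ 2 * (y5 P z r0 r1 (bR P β) ^ 2 *
              V (E ∪ su P (fun j => b (Sum.inr j)) (bR P β))) / ph (sp P β) else 0) := by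
    intro β
    have hc := yCC_abs P hP hz ha hr0 q0 I L (r1 := r1) i0 i1 hne β
    have hphs : 0 < ph (sp P β) := ph_pos P hP (sp_subset P β)
    have hV := hV0 (E ∪ su P b β)
    have hR : 0 ≤ G1s P z q0 a I ^ 4 / Gm *
          (if ∀ p, β p ≠ some (Sum.inl i0) ∧ β p ≠ some (Sum.inl i1) then
            (∏ i, g1 z q0 a I (fb P (bL P β) i)) ^ 2 * (y5 P z r0 r1 (bR P β) ^ 2 *
              V (E ∪ su P (fun j => b (Sum.inr j)) (bR P β))) / ph (sp P β) else 0) := by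
      refine mul_nonneg (div_nonneg (pow_nonneg hG1 _) hGm.le) ?_
      split_ifs
      · exact div_nonneg (mul_nonneg (sq_nonneg _) (mul_nonneg (sq_nonneg _) (hV0 _))) hphs.le
      · exact le_rfl
    by_cases hcond : (∀ p, β p ≠ some (Sum.inl i0) ∧ β p ≠ some (Sum.inl i1)) ∧
        rr (sp P β) ≤ (z : ℝ) ^ (L + 2 * r1)
    · rw [if_pos hcond] at hc
      rw [if_pos hcond.1, su_bR P b E hE β]
      rw [su_bR P b E hE β] at hV
      have hGn : Gm ≤ Gn (P \ sp P β) z k2 := hG _ (sp_subset P β) hcond.2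
      have hsq : yCol P (Sum.inl i1) (yCol P (Sum.inl i0) (yJ P z q0 a I L r0 r1)) β ^ 2 ≤
          G1s P z q0 a I ^ 4 * ((∏ i, g1 z q0 a I (fb P (bL P β) i)) ^ 2 *
            y5 P z r0 r1 (bR P β) ^ 2) := by
        have h5 := pow_le_pow_left₀ (abs_nonneg _) hc 2
        rw [sq_abs] at h5
        refine h5.trans (le_of_eq ?_)
        rw [mul_pow, mul_pow, sq_abs]
        ring
      have hden : Gm * ph (sp P β) ≤ Gn (P \ sp P β) z k2 * ph (sp P β) :=
        mul_le_mul_of_nonneg_right hGn hphs.le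
      calc yCol P (Sum.inl i1) (yCol P (Sum.inl i0) (yJ P z q0 a I L r0 r1)) β ^ 2 *
            V (E ∪ su P (fun j => b (Sum.inr j)) (bR P β)) / (Gn (P \ sp P β) z k2 * ph (sp P β))
          ≤ (G1s P z q0 a I ^ 4 * ((∏ i, g1 z q0 a I (fb P (bL P β) i)) ^ 2 *
              y5 P z r0 r1 (bR P β) ^ 2)) * V (E ∪ su P (fun j => b (Sum.inr j)) (bR P β)) /
              (Gm * ph (sp P β)) := by
            refine div_le_div₀ ?_ (mul_le_mul_of_nonneg_right hsq hV) (mul_pos hGm hphs) hden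
            exact mul_nonneg (mul_nonneg (pow_nonneg hG1 _)
              (mul_nonneg (sq_nonneg _) (sq_nonneg _))) hV
        _ = _ := by
            field_simp
    · rw [if_neg hcond] at hc
      have h0 : yCol P (Sum.inl i1) (yCol P (Sum.inl i0) (yJ P z q0 a I L r0 r1)) β = 0 :=
        abs_eq_zero.1 (le_antisymm hc (abs_nonneg _))
      rw [h0]
      refine le_trans (le_of_eq ?_) hR
      simp
  refine (Finset.sum_le_sum fun β _ => hterm β).trans ?_
  rw [← Finset.mul_sum]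
  refine (mul_le_mul_of_nonneg_left hav (div_nonneg (pow_nonneg hG1 _) hGm.le)).trans
    (le_of_eq ?_)
  unfold dgV
  ring

end Pool.Agent.LibGL22
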