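import Pool.Agent.LibGL22.Defs

/-!
Row A1 (uniform average). Model: `avgU`, `VA_avgU`, `smallOK_avgU`, `locOK_avgU`, `remA_avgU` (LibPL63/SA5.lean, SA9.lean). `s = sN N W c`, `om = 1`, `good` = primes not dividing `W`, `lp p _ = 1/p`, `X = N/W`, `Er = 1`.
`hp` by `hp_of_classes` (SA4) and the count of `n ∈ (N, 2N]`, `n ≡ r` modulo `W q` (`crt_mod`): it differs from `N/(W q)` by at most `1` (`Nat.Ioc_filter_modEq_card` or `Int.Ioc_filter_modEq_card`).
Remainder: `RemA_const_le`, `prod_P0_PL_le`.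
-/

open Finset Filter

namespace Pool.Agent.LibGL22

open Pool.Agent.LibRG87 Pool.Agent.LibLG5 Pool.Agent.LibPL63 Pool.Agent.LibSC93

/-- the count of a residue class in `(N, 2N]` -/
theorem A1_count (N m r : ℕ) (hm : 0 < m) :
    |(((Ioc N (2 * N)).filter fun n => n ≡ r [MOD m]).card : ℝ) - (N : ℝ) / m| ≤ 1 := by
  have h := Nat.Ioc_filter_modEq_card N (2 * N) hm r
  have hmQ : (0 : ℚ) < m := by exact_mod_cast hm
  set a : ℚ := (((2 * N : ℕ) : ℚ) - r) / m with ha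
  set b : ℚ := ((N : ℚ) - r) / m with hb
  have hab : a - b = (N : ℚ) / m := by
    rw [ha, hb]
    push_cast
    field_simp
    ring
  have hN : (0 : ℚ) ≤ (N : ℚ) / m := by positivity
  have hba : b ≤ a := by linarith
  have h1 : (⌊b⌋ : ℤ) ≤ ⌊a⌋ := Int.floor_mono hba
  have h2 : ((((Ioc N (2 * N)).filter fun n => n ≡ r [MOD m]).card : ℕ) : ℤ) = ⌊a⌋ - ⌊b⌋ := by
    rw [h]
    exact max_eq_left (by omega)
  have h3 : ((((Ioc N (2 * N)).filter fun n => n ≡ r [MOD m]).card : ℕ) : ℚ) = (⌊a⌋ : ℚ) - (⌊b⌋ : ℚ) := by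
    exact_mod_cast h2
  set K : ℕ := ((Ioc N (2 * N)).filter fun n => n ≡ r [MOD m]).card with hK
  have h4 : (K : ℚ) - (N : ℚ) / m ≤ 1 ∧ -1 ≤ (K : ℚ) - (N : ℚ) / m := by
    rw [h3, ← hab]
    have h5 := Int.floor_le a
    have h6 := Int.lt_floor_add_one a
    have h7 := Int.floor_le b
    have h8 := Int.lt_floor_add_one b
    constructor <;> linarith
  have e : (((K : ℚ) - (N : ℚ) / m : ℚ) : ℝ) = (K : ℝ) - (N : ℝ) / m := by push_cast; rfl
  have h5 : (((K : ℚ) - (N : ℚ) / m : ℚ) : ℝ) ≤ ((1 : ℚ) : ℝ) := Rat.cast_le.2 h4.1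
  have h6 : (((-1 : ℚ)) : ℝ) ≤ (((K : ℚ) - (N : ℚ) / m : ℚ) : ℝ) := Rat.cast_le.2 h4.2
  rw [e] at h5 h6
  push_cast at h5 h6
  exact abs_le.2 ⟨h6, h5⟩

/-- the uniform average -/
noncomputable def avgUn (N W c : ℕ) (hW : 0 < W) : Average where
  s := sN N W c
  om := fun _ => 1
  good := {p | p.Prime ∧ ¬ p ∣ W}
  lp := fun p _ => 1 / (p : ℝ)
  X := (N : ℝ) / (W : ℝ)
  Er := fun _ => 1
  om_nonneg := fun n _ => zero_le_one
  X_nonneg := by positivity
  Er_nonneg := fun _ => zero_le_one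
  good_prime := fun p hp => hp.1
  lp_nonneg := fun p _ _ => by positivity
  lp_sum := fun p hp => by
    rw [Finset.sum_const, Finset.card_range, nsmul_eq_mul, mul_one_div,
      div_self (by exact_mod_cast (hp.1).ne_zero)]
  hp := by
    refine hp_of_classes (sN N W c) (fun _ => 1) {p | p.Prime ∧ ¬ p ∣ W}
      (fun (p : ℕ) (hp : p ∈ {p : ℕ | p.Prime ∧ ¬ p ∣ W}) => hp.1)
      (fun p _ => 1 / (p : ℝ)) ((N : ℝ) / (W : ℝ)) (fun _ => 1) ?_
    intro T hT a ha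
    set q := ∏ p ∈ T, p with hq
    have hq0 : 0 < q := Finset.prod_pos fun p hp => (hT p hp).1.pos
    have hcop : W.Coprime q := by
      apply Nat.Coprime.prod_right
      intro p hp
      exact ((Nat.Prime.coprime_iff_not_dvd (hT p hp).1).2 (hT p hp).2).symm
    have hcW : c % W < W := Nat.mod_lt _ hW
    set r : ℕ := (Nat.chineseRemainder hcop (c % W) a : ℕ) with hr
    have hrl : r < W * q := Nat.chineseRemainder_lt_mul hcop (c % W) a hW.ne' hq0.ne'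
    have h := A1_count N (W * q) r (Nat.mul_pos hW hq0)
    have h1 : (sN N W c).filter (fun n => n % q = a) =
        (Ioc N (2 * N)).filter fun n => n ≡ r [MOD (W * q)] := by
      ext n
      unfold sN
      rw [Finset.mem_filter, Finset.mem_filter, Finset.mem_filter]
      have h3 := crt_mod W q (c % W) a n hW hq0 hcop hcW ha
      have h4 : n ≡ c [MOD W] ↔ n % W = c % W := Iff.rfl
      have h5 : n ≡ r [MOD (W * q)] ↔ n % (W * q) = r := by
        unfold Nat.ModEq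
        rw [Nat.mod_eq_of_lt hrl]
      rw [and_assoc, h4, h5, h3]
    have h2 : (N : ℝ) / (W : ℝ) * ∏ p ∈ T, 1 / (p : ℝ) = (N : ℝ) / ((W * q : ℕ) : ℝ) := by
      rw [Finset.prod_div_distrib, Finset.prod_const_one, hq]
      push_cast
      rw [div_mul_div_comm, mul_one]
    have h3 : ∑ n ∈ (sN N W c).filter (fun n => n % q = a), (1 : ℝ) =
        (((Ioc N (2 * N)).filter fun n => n ≡ r [MOD (W * q)]).card : ℝ) := by
      rw [h1, Finset.sum_const, nsmul_eq_mul, mul_one]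
    show |∑ n ∈ (sN N W c).filter (fun n => n % q = a), (1 : ℝ) -
      (N : ℝ) / (W : ℝ) * ∏ p ∈ T, 1 / (p : ℝ)| ≤ 1
    rw [h3, h2]
    exact h

theorem avgUn_Ep (N W c : ℕ) (hW : 0 < W) (p : ℕ) (g : ℕ → ℝ) :
    (avgUn N W c hW).Ep p g = mean p g := by
  unfold Average.Ep mean avgUn
  simp only
  rw [← Finset.mul_sum, one_div_mul_eq_div]

theorem VA_avgUn (N W c : ℕ) (hW : 0 < W) (Pr : Finset ℕ) (hPr : ∀ p ∈ Pr, p.Prime)
    (B : Finset ℕ) : VA (avgUn N W c hW) Pr B = VP Pr B := by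
  unfold VA VP
  refine Finset.prod_congr rfl fun p hp => ?_
  rw [avgUn_Ep]
  unfold mean
  congr 2
  exact sum_xp B p (hPr p hp).pos

theorem smallOK_avgUn (z p1 k : ℕ) (hk : 4 * k + 4 ≤ wf z) (N : ℕ) (c : ℕ) :
    SmallOK (avgUn N (Wp z p1) c (Wp_pos z p1)) (P0 z p1) z k where
  good := fun p hp => P0_good hp
  le := fun p hp => (mem_P0.1 hp).2.2.2
  big := fun p hp => hk.trans (mem_P0.1 hp).2.2.1.le
  lp_le := fun p hp y _ => by
    change 1 / (p : ℝ) ≤ 1 / ((p : ℝ) - 1)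
    have h2 : (2 : ℝ) ≤ p := by exact_mod_cast (mem_P0.1 hp).2.1.two_le
    exact one_div_le_one_div_of_le (by linarith) (by linarith)

theorem locOK_avgUn {ι : Type} [Fintype ι] [DecidableEq ι] (z p1 k1 : ℕ) (hz : 3 ≤ z) (N : ℕ) (c : ℕ)
    (b : ι → ℕ) (J : Finset ι)
    (hb : ∀ i ∈ J, b i ≤ z) (hinj : ∀ i ∈ J, ∀ j ∈ J, i ≠ j → b i ≠ b j) :
    LocOK (PL z k1 p1) (avgUn N (Wp z p1) c (Wp_pos z p1)) b J where
  good := fun p hp => PL_good hp
  three := fun p hp => by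
    have := (mem_PL.1 hp).2.2.1
    omega
  lp_le := fun p hp y _ => by
    change 1 / (p : ℝ) ≤ 1 / ((p : ℝ) - 1)
    have h2 : (2 : ℝ) ≤ p := by exact_mod_cast (mem_PL.1 hp).2.1.two_le
    exact one_div_le_one_div_of_le (by linarith) (by linarith)
  m1 := fun p hp i hi => by
    have h1 := (mem_PL.1 hp).2.2.1
    rw [avgUn_Ep]
    unfold mean
    rw [sum_psi (by omega), zero_div, abs_zero]
    positivity
  m2 := fun p hp i hi => by
    have h1 := (mem_PL.1 hp).2.2.1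
    have h2 : (3 : ℝ) ≤ p := by
      have : 3 ≤ p := by omega
      exact_mod_cast this
    have h3 : (p : ℝ) - 1 ≠ 0 := by linarith
    have h4 : (p : ℝ) ≠ 0 := by linarith
    rw [avgUn_Ep]
    unfold mean
    rw [sum_psi_sq (by omega)]
    have h5 : (p : ℝ) / ((p : ℝ) - 1) / p - 1 / ((p : ℝ) - 1) = 0 := by
      field_simp
      ring
    rw [h5, abs_zero]
    positivity
  m3 := fun p hp i hi j hj hij => by
    have h1 := (mem_PL.1 hp).2.2.1
    have h2 : (3 : ℝ) ≤ p := by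
      have : 3 ≤ p := by omega
      exact_mod_cast this
    have h3 : (p : ℝ) - 1 ≠ 0 := by linarith
    have h4 : (p : ℝ) ≠ 0 := by linarith
    rw [avgUn_Ep]
    unfold mean
    rw [sum_psi_psi (by omega) (not_modEq h1 (hb i hi) (hb j hj) (hinj i hi j hj hij))]
    have h5 : -((p : ℝ) / ((p : ℝ) - 1) ^ 2) / p = -(1 / ((p : ℝ) - 1) ^ 2) := by
      field_simp
    rw [h5, abs_neg, abs_of_nonneg (by positivity)]
    exact div_le_div_of_nonneg_right (by norm_num) (by positivity)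

theorem avgU_ex (k1 C : ℕ) (hk1 : 1 ≤ k1) : ∀ᶠ z : ℕ in atTop, ∀ p1 : ℕ, p1.Prime → ∀ N c T : ℕ,
    ∃ A : Average, A.s = sN N (Wp z p1) c ∧ (∀ n, A.om n = 1) ∧ A.X = (N : ℝ) / Wp z p1 ∧
      (∀ B, VA A (P0 z p1) B = VP (P0 z p1) B) ∧
      (∀ k, 4 * k + 4 ≤ wf z → SmallOK A (P0 z p1) z k) ∧
      (∀ (ι : Type) [Fintype ι] [DecidableEq ι] (b : ι → ℕ) (J : Finset ι), (∀ i ∈ J, b i ≤ z) →
        (∀ i ∈ J, ∀ j ∈ J, i ≠ j → b i ≠ b j) → LocOK (PL z k1 p1) A b J) ∧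
      RemA A.Er (P0 z p1 ∪ PL z k1 p1) C T ≤ T * z := by
  filter_upwards [prod_P0_PL_le k1 C hk1, eventually_ge_atTop 3] with z hz hz3 p1 hp1 N c T
  refine ⟨avgUn N (Wp z p1) c (Wp_pos z p1), rfl, fun _ => rfl, rfl, ?_, ?_, ?_, ?_⟩
  · exact fun B => VA_avgUn N (Wp z p1) c (Wp_pos z p1) (P0 z p1) (fun p hp => (mem_P0.1 hp).2.1) B
  · exact fun k hk => smallOK_avgUn z p1 k hk N c
  · intro ι _ _ b J hb hinj
    exact locOK_avgUn z p1 k1 hz3 N c b J hb hinj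
  · have hS : ∀ p ∈ P0 z p1 ∪ PL z k1 p1, p.Prime := by
      intro p hp
      rcases Finset.mem_union.1 hp with hp | hp
      · exact (mem_P0.1 hp).2.1
      · exact (mem_PL.1 hp).2.1
    refine (RemA_const_le _ hS C T (e := 1) zero_le_one).trans ?_
    rw [one_mul]
    exact mul_le_mul_of_nonneg_left (hz p1 hp1) (Nat.cast_nonneg _)

end Pool.Agent.LibGL22
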