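import Pool.Agent.LibGL22.Defs
import Pool.Agent.LibPL63.SA9

/-!
Row A2 (prime average, level of distribution as hypothesis). Model: `avgQ` (LibPL63/SA7.lean), `VA_avgQ`, `smallOK_avgQ`, `locOK_avgQ`, `RemA_er_le` (SA9.lean).
For `0 < W`, `(c + a0).Coprime W`, `z^k1 ≤ N`: `s = sN N W c`, `om = prI a0`, `good` = primes `p ≤ N` not dividing `W`, `lp = lpP a0`, `X = (π(2N + a0) - π(N + a0))/φ(W)`,
`Er q = bvD pr (N + a0) (2N + a0) (W q) (cmx … (W q))`, where `cmx u v q` is a class coprime to `q` with the largest `bvD pr u v q ·` (`Finset.exists_max_image`).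
`hp` by `hp_of_classes`: the sum over `n ∈ sN N W c`, `n ≡ a (mod q)`, is the sum of `pr m` over `m ∈ (N + a0, 2N + a0]`, `m ≡ r` modulo `W q` (`m = n + a0`, `r` = Chinese remainder); if `r` is coprime to `W q`, the main term in `bvD`
is `(∑_{m ∈ (u,v]} pr m)/φ(W q)`, because the primes of `W q` are `≤ N < m` (for `p ∣ W`: `p ≤ W ≤ N`); if not, a prime `p ∣ q` divides `m > N ≥ p`, so `m` is not prime and the sum is `0`.
`RemA`: as in `RemA_er_le` (injectivity of `F ↦ W ∏ F`, `card F ≤ ω(W ∏ F)`).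
-/

open Finset Filter

namespace Pool.Agent.LibGL22

open Pool.Agent.LibRG87 Pool.Agent.LibLG5 Pool.Agent.LibPL63 Pool.Agent.LibSC93 Pool.Agent.LibBW4

private theorem A2_class (N W c a0 q a : ℕ) (hcop : W.Coprime q) (ha : a < q) (r : ℕ)
    (hr1 : r ≡ c + a0 [MOD W]) (hr2 : r ≡ a + a0 [MOD q]) :
    ∑ n ∈ sN N W c with n % q = a, prI a0 n =
      ∑ m ∈ (Ioc (N + a0) (2 * N + a0)).filter (fun m => m ≡ r [MOD W * q]), pr m := by
  have hS : (Ioc (N + a0) (2 * N + a0)).filter (fun m => m ≡ r [MOD W * q]) =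
      ((sN N W c).filter fun n => n % q = a).image fun n => n + a0 := by
    ext m
    rw [Finset.mem_image, Finset.mem_filter, Finset.mem_Ioc,
      ← Nat.modEq_and_modEq_iff_modEq_mul hcop]
    constructor
    · rintro ⟨⟨h1, h2⟩, h3, h4⟩
      obtain ⟨n, rfl⟩ : ∃ n, m = n + a0 := ⟨m - a0, by omega⟩
      refine ⟨n, ?_, rfl⟩
      unfold sN
      rw [Finset.mem_filter, Finset.mem_filter, Finset.mem_Ioc]
      refine ⟨⟨⟨by omega, by omega⟩, Nat.ModEq.add_right_cancel' a0 (h3.trans hr1)⟩, ?_⟩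
      have h6 : n % q = a % q := Nat.ModEq.add_right_cancel' a0 (h4.trans hr2)
      rw [h6, Nat.mod_eq_of_lt ha]
    · rintro ⟨n, hn, rfl⟩
      unfold sN at hn
      rw [Finset.mem_filter, Finset.mem_filter, Finset.mem_Ioc] at hn
      obtain ⟨⟨⟨h1, h2⟩, h3⟩, h4⟩ := hn
      refine ⟨⟨by omega, by omega⟩, (h3.add_right a0).trans hr1.symm, ?_⟩
      have h5 : n ≡ a [MOD q] := by
        unfold Nat.ModEq
        rw [h4, Nat.mod_eq_of_lt ha]
      exact (h5.add_right a0).trans hr2.symm
  rw [hS, Finset.sum_image (fun n _ m _ h => by simpa using h)]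
  refine Finset.sum_congr rfl fun n _ => ?_
  unfold prI pr
  split_ifs <;> rfl

private theorem A2_pi (u v Q : ℕ) (huv : u ≤ v) (hQ : ∀ p : ℕ, p.Prime → p ∣ Q → p ≤ u) :
    ∑ m ∈ (Ioc u v).filter (fun m => m.Coprime Q), pr m =
      (v.primeCounting : ℝ) - (u.primeCounting : ℝ) := by
  have h1 : ∑ m ∈ (Ioc u v).filter (fun m => m.Coprime Q), pr m =
      (((Ioc u v).filter fun m => m.Prime).card : ℝ) := by
    rw [Finset.card_filter, Nat.cast_sum, Finset.sum_filter]
    refine Finset.sum_congr rfl fun m hm => ?_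
    rw [Finset.mem_Ioc] at hm
    unfold pr
    by_cases hp : m.Prime
    · have h2 : m.Coprime Q := by
        rw [hp.coprime_iff_not_dvd]
        intro hd
        have := hQ m hp hd
        omega
      rw [if_pos h2, if_pos hp, if_pos hp, Nat.cast_one]
    · rw [if_neg hp, if_neg hp, Nat.cast_zero, ite_self]
  have h2 : ∀ n : ℕ, n.primeCounting = ((range (n + 1)).filter fun m => m.Prime).card := by
    intro n
    unfold Nat.primeCounting Nat.primeCounting'
    exact Nat.count_eq_card_filter_range _ _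
  have h3 : ((Ioc u v).filter fun m => m.Prime).card + ((range (u + 1)).filter fun m => m.Prime).card =
      ((range (v + 1)).filter fun m => m.Prime).card := by
    rw [← Finset.card_union_of_disjoint]
    · congr 1
      ext m
      simp only [Finset.mem_union, Finset.mem_filter, Finset.mem_Ioc, Finset.mem_range]
      constructor
      · rintro (⟨⟨h4, h5⟩, h6⟩ | ⟨h4, h6⟩)
        · exact ⟨by omega, h6⟩
        · exact ⟨by omega, h6⟩
      · rintro ⟨h4, h6⟩
        by_cases h7 : u < m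
        · exact Or.inl ⟨⟨h7, by omega⟩, h6⟩
        · exact Or.inr ⟨by omega, h6⟩
    · rw [Finset.disjoint_left]
      intro m h4 h5
      rw [Finset.mem_filter, Finset.mem_Ioc] at h4
      rw [Finset.mem_filter, Finset.mem_range] at h5
      omega
  rw [h1, h2, h2, ← h3]
  push_cast
  ring

private theorem A2_max (u v q : ℕ) : ∃ c : ℕ, c.Coprime q ∧
    (q ≠ 0 → ∀ r : ℕ, r.Coprime q → bvD pr u v q r ≤ bvD pr u v q c) := by
  rcases Nat.eq_zero_or_pos q with rfl | hq
  · exact ⟨1, by simp, fun h => absurd rfl h⟩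
  · have hne : ((range q).filter fun c => c.Coprime q).Nonempty := by
      rcases Nat.lt_or_ge 1 q with h | h
      · exact ⟨1, Finset.mem_filter.2 ⟨Finset.mem_range.2 h, by simp⟩⟩
      · refine ⟨0, Finset.mem_filter.2 ⟨Finset.mem_range.2 hq, ?_⟩⟩
        have : q = 1 := by omega
        subst this
        simp
    obtain ⟨c, hc, hmax⟩ := Finset.exists_max_image _ (fun c => bvD pr u v q c) hne
    refine ⟨c, (Finset.mem_filter.1 hc).2, fun _ r hr => ?_⟩
    have h1 : r % q ∈ (range q).filter fun c => c.Coprime q := by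
      refine Finset.mem_filter.2 ⟨Finset.mem_range.2 (Nat.mod_lt _ hq), ?_⟩
      unfold Nat.Coprime
      rw [Nat.ModEq.gcd_eq (Nat.mod_modEq r q)]
      exact hr
    have h2 : bvD pr u v q r = bvD pr u v q (r % q) := by
      unfold bvD
      have h3 : ∀ m : ℕ, m ≡ r [MOD q] ↔ m ≡ r % q [MOD q] := fun m =>
        ⟨fun h => h.trans (Nat.mod_modEq r q).symm, fun h => h.trans (Nat.mod_modEq r q)⟩
      simp only [h3]
    rw [h2]
    exact hmax _ h1

private theorem A2_bvD_nonneg (u v q c : ℕ) : 0 ≤ bvD pr u v q c := abs_nonneg _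

/-- the average over the primes -/
private noncomputable def A2avg (N W c a0 : ℕ) (hW : 0 < W) (hc : (c + a0).Coprime W)
    (hWN : ∀ p : ℕ, p.Prime → p ∣ W → p ≤ N) (f : ℕ → ℕ)
    (hf : ∀ q : ℕ, q ≠ 0 → ∀ r : ℕ, r.Coprime q →
      bvD pr (N + a0) (2 * N + a0) q r ≤ bvD pr (N + a0) (2 * N + a0) q (f q)) : Average where
  s := sN N W c
  om := prI a0
  good := {p | p.Prime ∧ ¬ p ∣ W ∧ p ≤ N}
  lp := lpP a0
  X := (((2 * N + a0).primeCounting : ℝ) - ((N + a0).primeCounting : ℝ)) / (W.totient : ℝ)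
  Er := fun q => bvD pr (N + a0) (2 * N + a0) (W * q) (f (W * q))
  om_nonneg := fun n _ => by
    unfold prI
    split_ifs <;> norm_num
  X_nonneg := by
    refine div_nonneg (sub_nonneg.2 ?_) (Nat.cast_nonneg _)
    exact_mod_cast Nat.monotone_primeCounting (by omega)
  Er_nonneg := fun q => A2_bvD_nonneg _ _ _ _
  good_prime := fun p hp => hp.1
  lp_nonneg := fun p hp y => by
    have h2 : (2 : ℝ) ≤ p := by exact_mod_cast (hp.1).two_le
    unfold lpP
    split_ifs
    · exact le_rfl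
    · exact div_nonneg zero_le_one (by linarith)
  lp_sum := fun p hp => by
    have hpp : p.Prime := hp.1
    have h2 : (2 : ℝ) ≤ p := by exact_mod_cast hpp.two_le
    have h1 : ∀ y, lpP a0 p y = (1 - xp {a0} p y) * (1 / ((p : ℝ) - 1)) := by
      intro y
      unfold lpP xp
      by_cases h : p ∣ y + a0
      · rw [if_pos h, if_pos ⟨a0, by simp, h⟩]
        ring
      · rw [if_neg h, if_neg]
        · ring
        · rintro ⟨a, ha, hd⟩
          rw [Finset.mem_singleton] at ha
          rw [ha] at hd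
          exact h hd
    have h3 : ∑ y ∈ range p, lpP a0 p y = ((p : ℝ) - 1) * (1 / ((p : ℝ) - 1)) := by
      rw [Finset.sum_congr rfl fun y _ => h1 y, ← Finset.sum_mul, Finset.sum_sub_distrib,
        sum_xp {a0} p hpp.pos]
      unfold nuP
      simp
    rw [h3, mul_one_div, div_self (by linarith)]
  hp := by
    refine hp_of_classes (sN N W c) (prI a0) {p | p.Prime ∧ ¬ p ∣ W ∧ p ≤ N}
      (fun (p : ℕ) (hp : p ∈ {p : ℕ | p.Prime ∧ ¬ p ∣ W ∧ p ≤ N}) => hp.1)
      (lpP a0) _ (fun q => bvD pr (N + a0) (2 * N + a0) (W * q) (f (W * q))) ?_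
    intro T hT a ha
    set q := ∏ p ∈ T, p with hq
    have hTp : ∀ p ∈ T, p.Prime := fun p hp => (hT p hp).1
    have hq0 : 0 < q := Finset.prod_pos fun p hp => (hT p hp).1.pos
    have hcop : W.Coprime q := by
      apply Nat.Coprime.prod_right
      intro p hp
      exact ((Nat.Prime.coprime_iff_not_dvd (hT p hp).1).2 (hT p hp).2.1).symm
    set r : ℕ := (Nat.chineseRemainder hcop (c + a0) (a + a0) : ℕ) with hr
    have hr12 := (Nat.chineseRemainder hcop (c + a0) (a + a0)).2
    rw [A2_class N W c a0 q a hcop ha r hr12.1 hr12.2]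
    have hrW : r.Coprime W := by
      unfold Nat.Coprime
      rw [Nat.ModEq.gcd_eq hr12.1]
      exact hc
    have hWq : W * q ≠ 0 := (Nat.mul_pos hW hq0).ne'
    have hQ : ∀ p : ℕ, p.Prime → p ∣ W * q → p ≤ N := by
      intro p hp hd
      rcases (Nat.Prime.dvd_mul hp).1 hd with h | h
      · exact hWN p hp h
      · obtain ⟨p', hp', hd'⟩ := (Prime.dvd_finsetProd_iff hp.prime _).1 h
        rw [(Nat.prime_dvd_prime_iff_eq hp (hTp p' hp')).1 hd']
        exact (hT p' hp').2.2
    have hlp : ∀ p ∈ T, lpP a0 p (a % p) = lpP a0 p a := by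
      intro p hp
      unfold lpP
      have : p ∣ a % p + a0 ↔ p ∣ a + a0 := by
        have h3 : a % p + a0 ≡ a + a0 [MOD p] := (Nat.mod_modEq a p).add_right a0
        exact h3.dvd_iff dvd_rfl
      simp only [this]
    have hprod : ∏ p ∈ T, lpP a0 p (a % p) = ∏ p ∈ T, lpP a0 p a := Finset.prod_congr rfl hlp
    rw [hprod]
    by_cases hu : ∀ p ∈ T, ¬ p ∣ a + a0
    · have hrq : r.Coprime q := by
        unfold Nat.Coprime
        rw [Nat.ModEq.gcd_eq hr12.2]
        apply Nat.Coprime.prod_right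
        intro p hp
        exact ((Nat.Prime.coprime_iff_not_dvd (hTp p hp)).2 (hu p hp)).symm
      have h3 := hf (W * q) hWq r (Nat.Coprime.mul_right hrW hrq)
      refine le_trans (le_of_eq ?_) h3
      unfold bvD
      rw [A2_pi _ _ _ (by omega) (fun p hp hd => (hQ p hp hd).trans (by omega))]
      congr 2
      have h5 : ∏ p ∈ T, lpP a0 p a = ∏ p ∈ T, 1 / ((p : ℝ) - 1) := by
        refine Finset.prod_congr rfl fun p hp => ?_
        unfold lpP
        rw [if_neg (hu p hp)]
      have h6 : (q.totient : ℝ) = ∏ p ∈ T, ((p : ℝ) - 1) := totient_prod T hTp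
      rw [h5, Finset.prod_div_distrib, Finset.prod_const_one, Nat.totient_mul hcop, ← h6]
      push_cast
      rw [div_mul_div_comm, mul_one]
    · push Not at hu
      obtain ⟨p, hpT, hpd⟩ := hu
      have h3 : ∏ p ∈ T, lpP a0 p a = 0 := by
        refine Finset.prod_eq_zero hpT ?_
        unfold lpP
        rw [if_pos hpd]
      have h5 : p ∣ r := (hr12.2.of_dvd (Finset.dvd_prod_of_mem _ hpT)).dvd_iff dvd_rfl |>.2 hpd
      have h4 : ∑ m ∈ (Ioc (N + a0) (2 * N + a0)).filter (fun m => m ≡ r [MOD W * q]), pr m = 0 := by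
        refine Finset.sum_eq_zero fun m hm => ?_
        rw [Finset.mem_filter, Finset.mem_Ioc] at hm
        have h6 : p ∣ W * q := Dvd.dvd.mul_left (Finset.dvd_prod_of_mem _ hpT) W
        have h7 : p ∣ m := ((hm.2.of_dvd h6).dvd_iff dvd_rfl).2 h5
        unfold pr
        rw [if_neg]
        intro hmp
        have h8 : p = m := (Nat.prime_dvd_prime_iff_eq (hTp p hpT) hmp).1 h7
        have h9 := (hT p hpT).2.2
        omega
      rw [h3, mul_zero, sub_zero, h4, abs_zero]
      exact A2_bvD_nonneg _ _ _ _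

theorem avgP_ex0 (k1 C : ℕ) (hC : 1 ≤ C) : ∀ᶠ z : ℕ in atTop, ∀ p1 : ℕ, p1.Prime → ∀ N c a0 T : ℕ, z ≤ N → z ^ k1 ≤ N →
    a0 ≤ z → (c + a0).Coprime (Wp z p1) →
    ∃ A : Average, A.s = sN N (Wp z p1) c ∧ (∀ n, A.om n = prI a0 n) ∧
      A.X = (((2 * N + a0).primeCounting : ℝ) - ((N + a0).primeCounting : ℝ)) / ((Wp z p1).totient : ℝ) ∧
      (∀ B, VA A (P0 z p1) B = VP (P0 z p1) (insert a0 B) / V1p (P0 z p1)) ∧
      (∀ k, 4 * k + 4 ≤ wf z → SmallOK A (P0 z p1) z k) ∧
      (∀ (ι : Type) [Fintype ι] [DecidableEq ι] (b : ι → ℕ) (J : Finset ι), (∀ i ∈ J, b i ≤ z) →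
        (∀ i ∈ J, ∀ j ∈ J, i ≠ j → b i ≠ b j) → (∀ i ∈ J, b i ≠ a0) → LocOK (PL z k1 p1) A b J) ∧
      ∃ f : ℕ → ℕ, (∀ q, (f q).Coprime q) ∧
        RemA A.Er (P0 z p1 ∪ PL z k1 p1) C T ≤
          ∑ q ∈ Icc 1 (Wp z p1 * T), (C : ℝ) ^ q.primeFactors.card * bvD pr (N + a0) (2 * N + a0) q (f q) := by
  classical
  filter_upwards [eventually_ge_atTop 3] with z hz p1 hp1 N c a0 T hzN hzk ha0 hc
  choose f hf1 hf2 using A2_max (N + a0) (2 * N + a0)
  have hWN : ∀ p : ℕ, p.Prime → p ∣ Wp z p1 → p ≤ N := by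
    intro p hp hd
    have h1 := ((dvd_Wp hp).1 hd).1
    have h2 := wf_le_self z
    omega
  have hgP0 : ∀ p ∈ P0 z p1, p.Prime ∧ ¬ p ∣ Wp z p1 ∧ p ≤ N := by
    intro p hp
    have h1 := (mem_P0.1 hp).2.2.2
    exact ⟨(P0_good hp).1, (P0_good hp).2, by omega⟩
  have hgPL : ∀ p ∈ PL z k1 p1, p.Prime ∧ ¬ p ∣ Wp z p1 ∧ p ≤ N := by
    intro p hp
    have h1 := (mem_PL.1 hp).2.2.2
    exact ⟨(PL_good hp).1, (PL_good hp).2, h1.trans hzk⟩
  refine ⟨A2avg N (Wp z p1) c a0 (Wp_pos z p1) hc hWN f hf2, rfl, fun n => rfl, rfl, ?_, ?_, ?_,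
    f, hf1, ?_⟩
  · -- the densities
    intro B
    unfold VA VP V1p
    rw [← Finset.prod_div_distrib]
    refine Finset.prod_congr rfl fun p hp => ?_
    have hpp : p.Prime := (hgP0 p hp).1
    have hE : (A2avg N (Wp z p1) c a0 (Wp_pos z p1) hc hWN f hf2).Ep p (xB B p) =
        ((nuP (insert a0 B) p : ℝ) - 1) / ((p : ℝ) - 1) := by
      have h1 : ∀ y, lpP a0 p y * xp B p y =
          (xp (insert a0 B) p y - xp {a0} p y) / ((p : ℝ) - 1) := by
        intro y
        unfold lpP xp
        by_cases h : p ∣ y + a0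
        · rw [if_pos h, if_pos (⟨a0, Finset.mem_insert_self _ _, h⟩ :
              ∃ a ∈ insert a0 B, p ∣ y + a),
            if_pos (⟨a0, Finset.mem_singleton_self _, h⟩ : ∃ a ∈ ({a0} : Finset ℕ), p ∣ y + a)]
          simp
        · have h2 : ¬ ∃ a ∈ ({a0} : Finset ℕ), p ∣ y + a := by
            rintro ⟨a, ha, hd⟩
            rw [Finset.mem_singleton] at ha
            rw [ha] at hd
            exact h hd
          have h3 : (∃ a ∈ insert a0 B, p ∣ y + a) ↔ ∃ a ∈ B, p ∣ y + a := by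
            constructor
            · rintro ⟨a, ha, hd⟩
              rcases Finset.mem_insert.1 ha with rfl | ha
              · exact absurd hd h
              · exact ⟨a, ha, hd⟩
            · rintro ⟨a, ha, hd⟩
              exact ⟨a, Finset.mem_insert_of_mem ha, hd⟩
          rw [if_neg h, if_neg h2]
          simp only [h3]
          ring
      unfold Average.Ep
      change ∑ y ∈ range p, lpP a0 p y * xp B p y = _
      rw [Finset.sum_congr rfl fun y _ => h1 y, ← Finset.sum_div, Finset.sum_sub_distrib,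
        sum_xp _ p hpp.pos, sum_xp _ p hpp.pos]
      have : nuP {a0} p = 1 := by
        unfold nuP
        simp
      rw [this, Nat.cast_one]
    rw [hE]
    have h2 : (2 : ℝ) ≤ p := by exact_mod_cast hpp.two_le
    have h3 : (p : ℝ) - 1 ≠ 0 := by linarith
    have h4 : (p : ℝ) ≠ 0 := by linarith
    have h5 : 1 - 1 / (p : ℝ) ≠ 0 := by
      have : 1 - 1 / (p : ℝ) = ((p : ℝ) - 1) / p := by field_simp
      rw [this]
      exact div_ne_zero h3 h4
    field_simp
    ring
  · intro k hk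
    exact {
      good := hgP0
      le := fun p hp => (mem_P0.1 hp).2.2.2
      big := fun p hp => hk.trans (mem_P0.1 hp).2.2.1.le
      lp_le := fun p hp y _ => lpP_le a0 (mem_P0.1 hp).2.1 y }
  · intro ι _ _ b J hb hinj hne
    exact {
      good := hgPL
      three := fun p hp => by
        have := (mem_PL.1 hp).2.2.1
        omega
      lp_le := fun p hp y _ => lpP_le a0 (mem_PL.1 hp).2.1 y
      m1 := fun p hp i hi => by
        have h1 := (mem_PL.1 hp).2.2.1
        unfold Average.Ep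
        change |∑ y ∈ range p, lpP a0 p y * psi p (y + b i)| ≤ _
        rw [Q_psi (by omega) (not_modEq h1 ha0 (hb i hi) (hne i hi).symm), abs_neg,
          abs_of_nonneg (by positivity)]
      m2 := fun p hp i hi => by
        have h1 := (mem_PL.1 hp).2.2.1
        have h2 : (3 : ℝ) ≤ p := by
          have : 3 ≤ p := by omega
          exact_mod_cast this
        have h3 : (0 : ℝ) < (p : ℝ) - 1 := by linarith
        unfold Average.Ep
        change |∑ y ∈ range p, lpP a0 p y * (psi p (y + b i) * psi p (y + b i)) - _| ≤ _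
        rw [Q_psi_sq (by omega) (not_modEq h1 ha0 (hb i hi) (hne i hi).symm)]
        have h5 : (((p : ℝ) / ((p : ℝ) - 1)) - 1 / ((p : ℝ) - 1) ^ 2) / ((p : ℝ) - 1) -
            1 / ((p : ℝ) - 1) = ((p : ℝ) - 2) / ((p : ℝ) - 1) ^ 3 := by
          field_simp
          ring
        rw [h5, abs_of_nonneg (div_nonneg (by linarith) (by positivity)),
          div_le_div_iff₀ (by positivity) (by positivity)]
        nlinarith [pow_pos h3 2]
      m3 := fun p hp i hi j hj hij => by
        have h1 := (mem_PL.1 hp).2.2.1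
        have h2 : (3 : ℝ) ≤ p := by
          have : 3 ≤ p := by omega
          exact_mod_cast this
        have h3 : (0 : ℝ) < (p : ℝ) - 1 := by linarith
        unfold Average.Ep
        change |∑ y ∈ range p, lpP a0 p y * (psi p (y + b i) * psi p (y + b j))| ≤ _
        rw [Q_psi_psi (by omega) (not_modEq h1 ha0 (hb i hi) (hne i hi).symm)
          (not_modEq h1 ha0 (hb j hj) (hne j hj).symm)
          (not_modEq h1 (hb i hi) (hb j hj) (hinj i hi j hj hij)), abs_neg,
          abs_of_nonneg (by positivity), div_le_div_iff₀ (by positivity) (by positivity)]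
        nlinarith [pow_pos h3 2, pow_pos h3 3] }
  · -- the remainder
    set W := Wp z p1 with hWdef
    have hW0 : W ≠ 0 := (Wp_pos z p1).ne'
    change RemA (fun q => bvD pr (N + a0) (2 * N + a0) (W * q) (f (W * q))) _ C T ≤ _
    unfold RemA
    set S := P0 z p1 ∪ PL z k1 p1 with hSdef
    have hS : ∀ p ∈ S, p.Prime ∧ ¬ p ∣ W := by
      intro p hp
      rcases Finset.mem_union.1 hp with hp | hp
      · exact ⟨(hgP0 p hp).1, (hgP0 p hp).2.1⟩
      · exact ⟨(hgPL p hp).1, (hgPL p hp).2.1⟩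
    set FF := S.powerset.filter (fun F => ∏ p ∈ F, p ≤ T) with hFF
    have hprime : ∀ F ∈ FF, ∀ p ∈ F, p.Prime := by
      intro F hF p hp
      rw [hFF, Finset.mem_filter, Finset.mem_powerset] at hF
      exact (hS p (hF.1 hp)).1
    have hpf : ∀ F ∈ FF, (W * ∏ p ∈ F, p).primeFactors = W.primeFactors ∪ F := by
      intro F hF
      rw [Nat.primeFactors_mul hW0 (Finset.prod_pos fun p hp => (hprime F hF p hp).pos).ne',
        Nat.primeFactors_prod (hprime F hF)]
    have hdisj : ∀ F ∈ FF, Disjoint W.primeFactors F := by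
      intro F hF
      rw [hFF, Finset.mem_filter, Finset.mem_powerset] at hF
      rw [Finset.disjoint_left]
      intro p h1 h2
      exact (hS p (hF.1 h2)).2 (Nat.dvd_of_mem_primeFactors h1)
    have hinj : Set.InjOn (fun F : Finset ℕ => W * ∏ p ∈ F, p) FF := by
      intro F hF G hG h
      simp only at h
      have h1 := hpf F hF
      rw [h, hpf G hG] at h1
      have h2 : (W.primeFactors ∪ G) \ W.primeFactors = (W.primeFactors ∪ F) \ W.primeFactors := by
        rw [h1]
      rw [Finset.union_sdiff_cancel_left (hdisj F hF),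
        Finset.union_sdiff_cancel_left (hdisj G hG)] at h2
      exact h2.symm
    have h1 : ∀ F ∈ FF, (C : ℝ) ^ F.card *
        bvD pr (N + a0) (2 * N + a0) (W * ∏ p ∈ F, p) (f (W * ∏ p ∈ F, p)) ≤
        (C : ℝ) ^ (W * ∏ p ∈ F, p).primeFactors.card *
        bvD pr (N + a0) (2 * N + a0) (W * ∏ p ∈ F, p) (f (W * ∏ p ∈ F, p)) := by
      intro F hF
      refine mul_le_mul_of_nonneg_right ?_ (A2_bvD_nonneg _ _ _ _)
      refine pow_le_pow_right₀ (by exact_mod_cast hC) ?_
      rw [hpf F hF]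
      exact Finset.card_le_card Finset.subset_union_right
    refine (Finset.sum_le_sum h1).trans ?_
    rw [← Finset.sum_image (f := fun q => (C : ℝ) ^ q.primeFactors.card *
      bvD pr (N + a0) (2 * N + a0) q (f q)) hinj]
    refine Finset.sum_le_sum_of_subset_of_nonneg ?_ fun q _ _ =>
      mul_nonneg (pow_nonneg (Nat.cast_nonneg _) _) (A2_bvD_nonneg _ _ _ _)
    intro q hq
    rw [Finset.mem_image] at hq
    obtain ⟨F, hF, rfl⟩ := hq
    have hF' := hF
    rw [hFF, Finset.mem_filter, Finset.mem_powerset] at hF'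
    have hpos : 0 < ∏ p ∈ F, p := Finset.prod_pos fun p hp => (hprime F hF p hp).pos
    rw [Finset.mem_Icc]
    exact ⟨Nat.mul_pos (Nat.pos_of_ne_zero hW0) hpos, Nat.mul_le_mul_left W hF'.2⟩

end Pool.Agent.LibGL22
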