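import Pool.Agent.LibGL22.A2
import Pool.Agent.LibPL63.V0

/-!
Row A3 (the remainder of the prime average). `BVprimes` with `A := A' + 1`, `C`, `θ = (t + 1)/q < 1/2`, applied to `3 z^q` in the place of `N` (`v = 2 z^q + a0 ≤ 3 z^q`): `Wp z p1 * z^t ≤ z^(t+1) ≤ (3 z^q)^θ` (`Wp_le_self`),
so the sum in A2 is at most `3 z^q/log (3 z^q)^(A'+1) ≤ z^q/(log z)^A'` for large `z`.
-/

open Finset Filter

namespace Pool.Agent.LibGL22

open Pool.Agent.LibRG87 Pool.Agent.LibLG5 Pool.Agent.LibPL63 Pool.Agent.LibSC93 Pool.Agent.LibBW4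

private theorem A3_sum (hBV : BVprimes) (C t q A' : ℕ) (ht : 2 * (t + 1) < q) :
    ∀ᶠ z : ℕ in atTop, ∀ p1 a0 : ℕ, a0 ≤ z → ∀ f : ℕ → ℕ, (∀ q, (f q).Coprime q) →
      ∑ r ∈ Icc 1 (Wp z p1 * z ^ t), (C : ℝ) ^ r.primeFactors.card *
        bvD pr (z ^ q + a0) (2 * z ^ q + a0) r (f r) ≤ (z : ℝ) ^ q / Real.log z ^ A' := by
  have hq0 : 0 < q := by omega
  have hqR : (0 : ℝ) < q := by exact_mod_cast hq0
  have hθ : (((t + 1 : ℕ) : ℝ) / (q : ℝ)) < 1 / 2 := by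
    rw [div_lt_div_iff₀ hqR (by norm_num)]
    have : ((2 * (t + 1) : ℕ) : ℝ) < (q : ℝ) := by exact_mod_cast ht
    push_cast at this ⊢
    linarith
  obtain ⟨N0, hN0⟩ := hBV (A' + 1) C (((t + 1 : ℕ) : ℝ) / (q : ℝ)) hθ
  have hlog : ∀ᶠ z : ℕ in atTop, (3 : ℝ) ≤ Real.log z :=
    (Real.tendsto_log_atTop.comp tendsto_natCast_atTop_atTop).eventually_ge_atTop 3
  filter_upwards [eventually_ge_atTop N0, eventually_ge_atTop 4, hlog] with z hzN hz4 hzl p1 a0 ha0 f hf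
  have hz1 : 1 ≤ z := by omega
  have hzq : z ≤ z ^ q := by
    calc z = z ^ 1 := (pow_one z).symm
      _ ≤ z ^ q := Nat.pow_le_pow_right hz1 hq0
  have hNbig : N0 ≤ 3 * z ^ q := by omega
  have hv : 2 * z ^ q + a0 ≤ 3 * z ^ q := by omega
  have h1 := hN0 (3 * z ^ q) hNbig (z ^ q + a0) (2 * z ^ q + a0) hv f hf
  have hzR : (1 : ℝ) ≤ (z : ℝ) := by exact_mod_cast hz1
  have hz0 : (0 : ℝ) < (z : ℝ) := by linarith
  have hzqR : (0 : ℝ) < (z : ℝ) ^ q := pow_pos hz0 q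
  have hfl : Wp z p1 * z ^ t ≤ ⌊((3 * z ^ q : ℕ) : ℝ) ^ (((t + 1 : ℕ) : ℝ) / (q : ℝ))⌋₊ := by
    apply Nat.le_floor
    have h2 : Wp z p1 * z ^ t ≤ z ^ (t + 1) := by
      rw [pow_succ, mul_comm]
      exact Nat.mul_le_mul_left _ (Wp_le_self hz4 p1)
    have h3 : ((z ^ (t + 1) : ℕ) : ℝ) = ((z : ℝ) ^ q) ^ (((t + 1 : ℕ) : ℝ) / (q : ℝ)) := by
      rw [← Real.rpow_natCast (z : ℝ) q, ← Real.rpow_mul hz0.le, mul_div_cancel₀ _ hqR.ne',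
        Real.rpow_natCast]
      push_cast
      rfl
    calc ((Wp z p1 * z ^ t : ℕ) : ℝ) ≤ ((z ^ (t + 1) : ℕ) : ℝ) := by exact_mod_cast h2
      _ = ((z : ℝ) ^ q) ^ (((t + 1 : ℕ) : ℝ) / (q : ℝ)) := h3
      _ ≤ ((3 * z ^ q : ℕ) : ℝ) ^ (((t + 1 : ℕ) : ℝ) / (q : ℝ)) := by
          apply Real.rpow_le_rpow hzqR.le _ (by positivity)
          push_cast
          linarith
  have hsub : Icc 1 (Wp z p1 * z ^ t) ⊆ Icc 1 ⌊((3 * z ^ q : ℕ) : ℝ) ^ (((t + 1 : ℕ) : ℝ) / (q : ℝ))⌋₊ :=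
    Finset.Icc_subset_Icc_right hfl
  refine (Finset.sum_le_sum_of_subset_of_nonneg hsub ?_).trans (h1.trans ?_)
  · intro r _ _
    exact mul_nonneg (by positivity) (abs_nonneg _)
  · have hl0 : (0 : ℝ) < Real.log z := by linarith
    have hlogle : Real.log z ≤ Real.log ((3 * z ^ q : ℕ) : ℝ) := by
      apply Real.log_le_log hz0
      have : z ≤ 3 * z ^ q := by omega
      exact_mod_cast this
    have hpow : Real.log z ^ (A' + 1) ≤ Real.log ((3 * z ^ q : ℕ) : ℝ) ^ (A' + 1) :=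
      pow_le_pow_left₀ hl0.le hlogle _
    calc ((3 * z ^ q : ℕ) : ℝ) / Real.log ((3 * z ^ q : ℕ) : ℝ) ^ (A' + 1)
        ≤ ((3 * z ^ q : ℕ) : ℝ) / Real.log z ^ (A' + 1) :=
          div_le_div_of_nonneg_left (by positivity) (by positivity) hpow
      _ ≤ (z : ℝ) ^ q / Real.log z ^ A' := by
          rw [div_le_div_iff₀ (by positivity) (by positivity), pow_succ]
          push_cast
          have h5 : 0 ≤ (z : ℝ) ^ q * Real.log z ^ A' := by positivity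
          nlinarith [mul_le_mul_of_nonneg_left hzl h5]

theorem avgP_ex (hBV : BVprimes) (k1 C t q A' : ℕ) (hC : 1 ≤ C) (hk1 : k1 ≤ q) (ht : 2 * (t + 1) < q) :
    ∀ᶠ z : ℕ in atTop, ∀ p1 : ℕ, p1.Prime → ∀ c a0 : ℕ, a0 ≤ z → (c + a0).Coprime (Wp z p1) →
    ∃ A : Average, A.s = sN (z ^ q) (Wp z p1) c ∧ (∀ n, A.om n = prI a0 n) ∧
      A.X = (((2 * z ^ q + a0).primeCounting : ℝ) - ((z ^ q + a0).primeCounting : ℝ)) / ((Wp z p1).totient : ℝ) ∧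
      (∀ B, VA A (P0 z p1) B = VP (P0 z p1) (insert a0 B) / V1p (P0 z p1)) ∧
      (∀ k, 4 * k + 4 ≤ wf z → SmallOK A (P0 z p1) z k) ∧
      (∀ (ι : Type) [Fintype ι] [DecidableEq ι] (b : ι → ℕ) (J : Finset ι), (∀ i ∈ J, b i ≤ z) →
        (∀ i ∈ J, ∀ j ∈ J, i ≠ j → b i ≠ b j) → (∀ i ∈ J, b i ≠ a0) → LocOK (PL z k1 p1) A b J) ∧
      RemA A.Er (P0 z p1 ∪ PL z k1 p1) C (z ^ t) ≤ (z : ℝ) ^ q / Real.log z ^ A' := by
  filter_upwards [avgP_ex0 k1 C hC, A3_sum hBV C t q A' ht, eventually_ge_atTop 1] with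
    z hA hS hz1 p1 hp1 c a0 ha0 hcop
  have hq0 : 0 < q := by omega
  have hzq : z ≤ z ^ q := by
    calc z = z ^ 1 := (pow_one z).symm
      _ ≤ z ^ q := Nat.pow_le_pow_right hz1 hq0
  obtain ⟨A, a1, a2, a3, a4, a5, a6, f, hf, hR⟩ :=
    hA p1 hp1 (z ^ q) c a0 (z ^ t) hzq (Nat.pow_le_pow_right hz1 hk1) ha0 hcop
  exact ⟨A, a1, a2, a3, a4, a5, a6, hR.trans (hS p1 a0 ha0 f hf)⟩

end Pool.Agent.LibGL22
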