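import Pool.Agent.LibPNT.PNT

/-!
Row A4 (prime number theorem in `(N + a, 2N + a]`, `N = z^q`). From `Pool.Agent.LibPNT.primeCounting_tendsto`: `π(x) ~ x/log x`; `π(2N + a) - π(2N) ≤ a`, `π(N + a) - π(N) ≤ a ≤ log² z`, `log (2N) ~ log N`.
-/

open Finset Filter

namespace Pool.Agent.LibGL22

private theorem A4_succ (m a : ℕ) : (m + a).primeCounting ≤ m.primeCounting + a := by
  induction a with
  | zero => simp
  | succ a ih =>
    have h : (m + (a + 1)).primeCounting ≤ (m + a).primeCounting + 1 := by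
      rw [← add_assoc]
      simp only [Nat.primeCounting, Nat.primeCounting']
      rw [Nat.count_succ Nat.Prime (m + a + 1)]
      split_ifs <;> omega
    omega

private theorem A4_nat : Tendsto (fun n : ℕ => ((n.primeCounting : ℝ)) * Real.log n / n) atTop (nhds 1) := by
  have h := Pool.Agent.LibPNT.primeCounting_tendsto.comp (tendsto_natCast_atTop_atTop (R := ℝ))
  refine h.congr fun n => ?_
  simp [Function.comp]

private theorem A4_ratio : Tendsto (fun n : ℕ => Real.log n / Real.log (2 * n)) atTop (nhds 1) := by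
  have hlog : Tendsto (fun n : ℕ => Real.log (n : ℝ)) atTop atTop :=
    Real.tendsto_log_atTop.comp tendsto_natCast_atTop_atTop
  have h1 : Tendsto (fun n : ℕ => 1 + Real.log 2 / Real.log (n : ℝ)) atTop (nhds (1 + 0)) :=
    tendsto_const_nhds.add (tendsto_const_nhds.div_atTop hlog)
  have h2 : Tendsto (fun n : ℕ => (1 + Real.log 2 / Real.log (n : ℝ))⁻¹) atTop (nhds 1) := by
    have := h1.inv₀ (by norm_num)
    simpa using this
  refine h2.congr' ?_
  filter_upwards [hlog.eventually_gt_atTop 0, eventually_gt_atTop 0] with n hn hn0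
  have hn' : (n : ℝ) ≠ 0 := by
    have : (0 : ℝ) < n := by exact_mod_cast hn0
    exact this.ne'
  rw [Real.log_mul (by norm_num) hn']
  have h2 : 0 < Real.log 2 := Real.log_pos (by norm_num)
  have h3 : Real.log 2 + Real.log n ≠ 0 := by positivity
  have h4 : Real.log (n : ℝ) ≠ 0 := hn.ne'
  field_simp
  ring

private theorem A4_diff : Tendsto (fun n : ℕ => (((2 * n).primeCounting : ℝ) - n.primeCounting) *
    Real.log n / n) atTop (nhds 1) := by
  have h2 : Tendsto (fun n : ℕ => 2 * n) atTop atTop :=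
    tendsto_id.const_mul_atTop' (by norm_num)
  have h3 := A4_nat.comp h2
  have h4 : Tendsto (fun n : ℕ => (((2 * n).primeCounting : ℝ)) * Real.log n / n) atTop
      (nhds (1 * 2 * 1)) := by
    refine ((h3.mul_const 2).mul A4_ratio).congr' ?_
    filter_upwards [eventually_gt_atTop 1] with n hn
    have hn1 : (1 : ℝ) < n := by exact_mod_cast hn
    have hn0 : (n : ℝ) ≠ 0 := by positivity
    have hl : Real.log (2 * n) ≠ 0 := (Real.log_pos (by linarith)).ne'
    simp only [Function.comp, Nat.cast_mul, Nat.cast_ofNat]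
    field_simp
  have h5 := h4.sub A4_nat
  have h6 : (1 * 2 * 1 - 1 : ℝ) = 1 := by norm_num
  rw [h6] at h5
  refine h5.congr fun n => ?_
  ring

theorem pnt_X (q : ℕ) (hq : 1 ≤ q) {ε : ℝ} (hε : 0 < ε) : ∀ᶠ z : ℕ in atTop, ∀ a : ℕ, (a : ℝ) ≤ Real.log z ^ 2 →
    (1 - ε) * ((z : ℝ) ^ q / (q * Real.log z)) ≤
        ((2 * z ^ q + a).primeCounting : ℝ) - ((z ^ q + a).primeCounting : ℝ) ∧
      ((2 * z ^ q + a).primeCounting : ℝ) - ((z ^ q + a).primeCounting : ℝ) ≤
        (1 + ε) * ((z : ℝ) ^ q / (q * Real.log z)) := by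
  have hq0 : (0 : ℝ) < q := by exact_mod_cast hq
  have hpow : Tendsto (fun z : ℕ => z ^ q) atTop atTop :=
    tendsto_pow_atTop (by omega)
  have h1 : ∀ᶠ z : ℕ in atTop,
      |((((2 * z ^ q).primeCounting : ℝ) - (z ^ q).primeCounting) *
        Real.log ((z ^ q : ℕ) : ℝ) / ((z ^ q : ℕ) : ℝ)) - 1| < ε / 2 := by
    have := (A4_diff.comp hpow)
    have h := Metric.tendsto_nhds.1 this (ε / 2) (by positivity)
    filter_upwards [h] with z hz
    rw [Real.dist_eq] at hz
    exact hz
  have h2 : ∀ᶠ z : ℕ in atTop, (q : ℝ) * (Real.log z ^ 3 / z) < ε / 2 := by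
    have h := (Real.tendsto_pow_log_div_mul_add_atTop 1 0 3 (by norm_num)).comp
      (tendsto_natCast_atTop_atTop (R := ℝ))
    have h' := h.const_mul (q : ℝ)
    rw [mul_zero] at h'
    have h'' := h'.eventually (gt_mem_nhds (show (0 : ℝ) < ε / 2 by positivity))
    filter_upwards [h''] with z hz
    simpa [Function.comp] using hz
  filter_upwards [h1, h2, eventually_gt_atTop 1] with z hz1 hz2 hz a ha
  have hz0 : (1 : ℝ) < z := by exact_mod_cast hz
  have hlz : 0 < Real.log z := Real.log_pos hz0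
  have hX : (0 : ℝ) < (z : ℝ) ^ q := by positivity
  set Y : ℝ := (z : ℝ) ^ q / (q * Real.log z) with hY
  have hY0 : 0 < Y := by positivity
  have hzq : (z : ℝ) ≤ (z : ℝ) ^ q := le_self_pow₀ hz0.le (by omega)
  -- the shift
  have hshift : (a : ℝ) ≤ ε / 2 * Y := by
    refine ha.trans ?_
    have h3 : (q : ℝ) * Real.log z ^ 3 ≤ ε / 2 * z := by
      have : (q : ℝ) * (Real.log z ^ 3 / z) * z < ε / 2 * z := by
        exact mul_lt_mul_of_pos_right hz2 (by linarith)
      have h4 : (q : ℝ) * (Real.log z ^ 3 / z) * z = q * Real.log z ^ 3 := by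
        field_simp
      linarith
    rw [hY, ← mul_div_assoc, le_div_iff₀ (by positivity)]
    calc Real.log z ^ 2 * (q * Real.log z) = q * Real.log z ^ 3 := by ring
      _ ≤ ε / 2 * z := h3
      _ ≤ ε / 2 * (z : ℝ) ^ q := by gcongr
  -- the main term
  have hmain : |(((2 * z ^ q).primeCounting : ℝ) - (z ^ q).primeCounting) - Y| ≤ ε / 2 * Y := by
    have hc : ((z ^ q : ℕ) : ℝ) = (z : ℝ) ^ q := by push_cast; rfl
    rw [hc, Real.log_pow] at hz1
    have h3 : (((2 * z ^ q).primeCounting : ℝ) - (z ^ q).primeCounting) - Y =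
        ((((2 * z ^ q).primeCounting : ℝ) - (z ^ q).primeCounting) *
        (q * Real.log z) / (z : ℝ) ^ q - 1) * Y := by
      rw [hY]
      field_simp
    rw [h3, abs_mul, abs_of_pos hY0]
    exact mul_le_mul_of_nonneg_right hz1.le hY0.le
  have hA1 : ((2 * z ^ q + a).primeCounting : ℝ) ≤ (2 * z ^ q).primeCounting + a := by
    exact_mod_cast A4_succ (2 * z ^ q) a
  have hA2 : ((z ^ q + a).primeCounting : ℝ) ≤ (z ^ q).primeCounting + a := by
    exact_mod_cast A4_succ (z ^ q) a
  have hA3 : ((2 * z ^ q).primeCounting : ℝ) ≤ (2 * z ^ q + a).primeCounting := by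
    exact_mod_cast Nat.monotone_primeCounting (Nat.le_add_right _ _)
  have hA4 : ((z ^ q).primeCounting : ℝ) ≤ (z ^ q + a).primeCounting := by
    exact_mod_cast Nat.monotone_primeCounting (Nat.le_add_right _ _)
  obtain ⟨hm1, hm2⟩ := abs_le.1 hmain
  constructor
  · nlinarith
  · nlinarith

end Pool.Agent.LibGL22
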