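import Pool.Agent.LibSC93.S0
import Pool.Agent.LibBW4.Defs

/-!
LibGL22 (MP_ff81b6_nt, GapLaws v2): definitions.

`N = z^q`; uniform averages over `n ∈ (N, 2N]`, `n ≡ c` modulo `Wp z p1` (`p1` a prime `> z`, so that `Wp z p1` is the primorial of `wf z` and `P0 z p1` all primes in `(wf z, z]`).
Positions: `h` = the `k = B a^I` positions of the `B` bins (`κ = ↥h`), `K` = all other positions (`ν = ↥K`). The weight is `PsG^2`, joint coefficients `yJ` of LibSC93: Maynard part `g1` with the scales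
`z^(q0 a^i)`, `i ≤ I`, level `z^(2u)`, `u = D k (I+1) q0`; killing part `f5`, `z^r0 < r ≤ z^q0`, `q0 = A2^I2 r0`, level `z^(2 q0)`.
`q = 4 M u`, large primes up to `z^k1`, `k1 = M u`; Selberg factor of level `z^k2`, `k2 = (M - 10) u` (nearly `N^(1/4)`).
Levels of the quadratic forms: a configuration `L1 = 2u + 2 q0`, with the Selberg factor `L2 = L1 + k2`; remainder level `z^t`, `t = 2 L2 + 2 (2u) + 6`, `2 (t + 1) ≤ (4M - 2) u < q`.
-/

open Finset Filter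

namespace Pool.Agent.LibGL22

open Pool.Agent.LibRG87 Pool.Agent.LibLG5 Pool.Agent.LibPL63 Pool.Agent.LibSC93

/-- the natural parameters -/
structure Prm where
  M : ℕ
  D : ℕ
  B : ℕ
  a : ℕ
  I : ℕ
  A2 : ℕ
  I2 : ℕ
  r0 : ℕ

namespace Prm

variable (R : Prm)

/-- number of positions of `h` -/
def k : ℕ := R.B * R.a ^ R.I

/-- the largest scale of the killing part, the first scale of the Maynard part -/
def q0 : ℕ := q0S R.A2 R.I2 R.r0

/-- half the level of the Maynard part -/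
def u : ℕ := R.D * R.k * (R.I + 1) * R.q0

/-- `N = z^q` -/
def q : ℕ := 4 * R.M * R.u

/-- exponent of the large primes -/
def k1 : ℕ := R.M * R.u

/-- exponent of the Selberg factor -/
def k2 : ℕ := (R.M - 10) * R.u

/-- level of a configuration -/
def L1 : ℕ := 2 * R.u + 2 * R.q0

/-- level of a configuration with the Selberg factor -/
def L2 : ℕ := R.L1 + R.k2

/-- level of the remainder -/
def t : ℕ := 2 * R.L2 + 2 * (2 * R.u) + 6

/-- number of positions used by a configuration -/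
def K : ℕ := R.k + 2 * R.A2 ^ R.I2

/-- number of positions in the roughness sets -/
def n : ℕ := R.k + 1 + 2 * R.K

/-- the error factor of the quadratic form -/
noncomputable def e (Cq : ℕ) (Λ : ℝ) : ℝ :=
  eps0 Cq (2 * R.n) (2 * R.u) * ((Cq * R.k1 : ℕ) : ℝ) ^ (Cq * (R.n + 1) ^ 2) *
    (1 + (R.k + 4 * Λ * R.q)) ^ (2 * R.K)

end Prm

/-- the conditions on the parameters -/
structure ParG (R : Prm) (C Cq Cm : ℕ) (c cD Λ δ : ℝ) : Prop where
  sums : SumsP R.a C c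
  qf : QFRp Cq
  hCq : 1 ≤ Cq
  dn : DnP R.A2 cD
  mert : MertP Cm
  hΛ : 1 ≤ Λ
  hB : 1 ≤ R.B
  hδ : 0 < δ
  hδ1 : δ ≤ 1 / 8
  hD : (128 * C : ℝ) ≤ δ * c * R.D
  hD1 : 1 ≤ R.D
  hM : 60 ≤ δ * R.M
  hI : 1 ≤ R.I
  hI2 : 1 ≤ R.I2
  hcD : 1 ≤ cD * R.I2
  hr0 : 1 ≤ R.r0
  kill : 10 ^ 8 * Cm * Λ ^ 2 * (R.M * R.D * R.k * (R.I + 1)) ≤ δ * (cD * R.I2)
  eps1 : eps0 Cq (2 * R.n) (2 * R.u) ≤ 1
  eps2 : R.e Cq Λ * (10 ^ 5 * Cm * Λ * R.q) ≤ δ

section

variable (R : Prm)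

/-- the large primes -/
def PG (z p1 : ℕ) : Finset ℕ := PL z R.k1 p1

/-- the joint coefficients -/
noncomputable def YG (z p1 : ℕ) (h K : Finset ℕ) : (PG R z p1 → Option (↥h ⊕ ↥K)) → ℝ :=
  yJ (PG R z p1) z R.q0 R.a R.I (2 * R.u) R.r0 R.q0

/-- the function `Ψ` -/
noncomputable def PsG (z p1 : ℕ) (h K : Finset ℕ) (n : ℕ) : ℝ :=
  PhiS (PG R z p1) (P0 z p1) (bS h K) (YG R z p1 h K) h n

/-- the diagonal of the killing part -/
noncomputable def DKG (z p1 : ℕ) (h K : Finset ℕ) : ℝ :=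
  dgV (PG R z p1) (VP (P0 z p1)) (Subtype.val : ↥K → ℕ) h (y5 (PG R z p1) z R.r0 R.q0)

/-- the sum `G1` -/
noncomputable def G1G (z p1 : ℕ) : ℝ := G1s (PG R z p1) z R.q0 R.a R.I

/-- the sum `G2` -/
noncomputable def G2G (z p1 : ℕ) : ℝ := G2s (PG R z p1) z R.q0 R.a R.I

/-- `N / W` -/
noncomputable def NW (z p1 : ℕ) : ℝ := (z : ℝ) ^ R.q / Wp z p1

/-- the density of the primes among the numbers without prime factor `≤ z`: `W / (φ(W) V1 log N)` -/
noncomputable def vG (z p1 : ℕ) : ℝ :=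
  (Wp z p1 : ℝ) / (((Wp z p1).totient : ℝ) * V1p (P0 z p1) * (R.q * Real.log z))

/-- `N / (φ(W) log N)` -/
noncomputable def NL (z p1 : ℕ) : ℝ := (z : ℝ) ^ R.q / (((Wp z p1).totient : ℝ) * (R.q * Real.log z))

end

/-- the numbers of `(N, 2N]` in the class `c` modulo `W` -/
def sN (N W c : ℕ) : Finset ℕ := (Ioc N (2 * N)).filter fun n => n ≡ c [MOD W]

open scoped Classical in
/-- indicator of `n + a0` prime -/
noncomputable def prI (a0 n : ℕ) : ℝ := if (n + a0).Prime then 1 else 0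

/-- what holds for large `z`, uniformly in `p1` -/
def BaseG (R : Prm) (cD e : ℝ) (z p1 : ℕ) : Prop :=
  3 ≤ z ∧ 1 ≤ Real.log z ∧ Real.log z ^ 2 + 1 ≤ z ∧ 4 * R.n + 4 ≤ wf z ∧
    0 < Dn (PG R z p1) z R.r0 R.q0 ∧
    cD * R.I2 ≤ Dn (PG R z p1) z R.r0 R.q0 * Real.log z ∧
    1 ≤ Dn (PG R z p1) z R.r0 R.q0 * (R.r0 * Real.log z) ∧
    ((2 * R.u + 2 * R.q0 : ℕ) : ℝ) * (∏ p ∈ PG R z p1, (1 + 1 / ((p : ℝ) - 1))) / z ≤ e

section

variable {ι : Type} [Fintype ι] [DecidableEq ι] (P : Finset ℕ)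

open scoped Classical in
/-- the coefficients collapsed at `i`, times the Selberg factor of level `z^k2` at `i` -/
noncomputable def ySel (z k2 : ℕ) (i : ι) (y : (P → Option ι) → ℝ) (β : P → Option ι) : ℝ :=
  if rr (fb P β i) ≤ (z : ℝ) ^ k2 then
    yCol P i y (rem P i β) / Gn (P \ sp P (rem P i β)) z k2 else 0

end

end Pool.Agent.LibGL22
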