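import Mathlib

/-!
Row F2 (real and pointwise inequalities). `F2_sq`: `2 t x - t² x² = 1 - (1 - t x)² ≤ 1`, and it is `0` for `x = 0`.
`F2_point`: as `S7_point`: if the event fails, `∑_j (2 t N_j - t² N_j²) ≤ #{j : N_j ≥ 1} =: r ≤ B` and `r ≤ m - 1`, or `N_K ≥ 1`, or `N_r > M0`: the bracket is `≤ 0`.
`F2_real`: `E w = E0`, `V = NW DKG …`; with `s = vG G1²/G2` (one position), `S = k0 s` (one bin), `t = 1/(4 (1+δ) S)`, `t ≤ δ`: `B (2 t - t²) (1 - δ) S - B t² 4 (1+δ) S² - (m - 1)(1 + δ) - 2 B δ ≥ B (1 - 3 δ)/(4 (1+δ)) - (m-1) - … ≥ 1/8` for `B = 4m - 3`, `δ ≤ 1/(100 B)`.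
-/

open Finset

namespace Pool.Agent.LibGL22

theorem F2_sq (t : ℝ) (x : ℕ) : 2 * t * x - t ^ 2 * (x : ℝ) ^ 2 ≤ if 1 ≤ x then 1 else 0 := by
  split_ifs with h
  · nlinarith [sq_nonneg (1 - t * (x : ℝ))]
  · have hx : x = 0 := by omega
    subst hx
    simp

/-- the pointwise inequality -/
theorem F2_point {B m : ℕ} (N : Fin B → ℕ) (NK Nr M0 : ℕ) (hM0 : 1 ≤ M0) (hm : 1 ≤ m) {t w rho Bd : ℝ} (ht : 0 ≤ t)
    (hw : 0 ≤ w) (hrho : 0 ≤ rho) (hBd : 0 ≤ Bd) (hb : Nr ≤ M0 → w ≤ rho * Bd) :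
    w * (∑ j, (2 * t * N j - t ^ 2 * (N j : ℝ) ^ 2) - (m - 1) - B * NK - B / M0 * Nr) ≤
      B * Bd * (rho * if m ≤ (univ.filter fun j => 1 ≤ N j).card ∧ NK = 0 ∧ Nr ≤ M0 then 1 else 0) := by
  have hr1 : ∑ j, (2 * t * N j - t ^ 2 * (N j : ℝ) ^ 2) ≤
      ((univ.filter fun j => 1 ≤ N j).card : ℝ) := by
    calc ∑ j, (2 * t * N j - t ^ 2 * (N j : ℝ) ^ 2) ≤ ∑ j, (if 1 ≤ N j then (1 : ℝ) else 0) :=
          Finset.sum_le_sum fun j _ => F2_sq t (N j)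
      _ = ((univ.filter fun j => 1 ≤ N j).card : ℝ) := by
          rw [Finset.sum_boole]
  have hr2 : (univ.filter fun j => 1 ≤ N j).card ≤ B := by
    calc (univ.filter fun j => 1 ≤ N j).card ≤ (univ : Finset (Fin B)).card :=
          Finset.card_filter_le _ _
      _ = B := by simp
  set r : ℕ := (univ.filter fun j => 1 ≤ N j).card with hr
  set Sg : ℝ := ∑ j, (2 * t * N j - t ^ 2 * (N j : ℝ) ^ 2) with hSg
  have hr2' : (r : ℝ) ≤ B := by exact_mod_cast hr2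
  have hm' : (0 : ℝ) ≤ (m : ℝ) - 1 := by
    have : (1 : ℝ) ≤ m := by exact_mod_cast hm
    linarith
  have hM0' : (0 : ℝ) < M0 := by exact_mod_cast hM0
  have hB0 : (0 : ℝ) ≤ B := Nat.cast_nonneg _
  have hNK0 : (0 : ℝ) ≤ (B : ℝ) * NK := by positivity
  have hNr0 : (0 : ℝ) ≤ (B : ℝ) / M0 * Nr := by positivity
  split_ifs with h
  · obtain ⟨-, -, h3⟩ := h
    have h4 := hb h3
    have h5 : Sg - (m - 1) - B * NK - B / M0 * Nr ≤ B := by linarith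
    calc w * (Sg - (m - 1) - B * NK - B / M0 * Nr) ≤ w * B := mul_le_mul_of_nonneg_left h5 hw
      _ ≤ (rho * Bd) * B := mul_le_mul_of_nonneg_right h4 hB0
      _ = B * Bd * (rho * 1) := by ring
  · have h5 : Sg - (m - 1) - B * NK - B / M0 * Nr ≤ 0 := by
      by_cases h1 : m ≤ r
      · by_cases h2 : NK = 0
        · have h3 : M0 < Nr := by
            by_contra hc
            exact h ⟨h1, h2, not_lt.1 hc⟩
          have h3' : (M0 : ℝ) ≤ Nr := by exact_mod_cast h3.le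
          have h6 : (B : ℝ) ≤ B / M0 * Nr := by
            rw [div_mul_eq_mul_div, le_div_iff₀ hM0']
            exact mul_le_mul_of_nonneg_left h3' hB0
          linarith
        · have h3 : 1 ≤ NK := Nat.one_le_iff_ne_zero.2 h2
          have h3' : (1 : ℝ) ≤ NK := by exact_mod_cast h3
          have h6 : (B : ℝ) ≤ B * NK := le_mul_of_one_le_right hB0 h3'
          linarith
      · have h2 : r + 1 ≤ m := by omega
        have h2' : (r : ℝ) + 1 ≤ m := by exact_mod_cast h2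
        linarith
    have h6 := mul_nonpos_of_nonneg_of_nonpos hw h5
    simpa using h6

/-- the real inequality -/
theorem F2_real {B m : ℕ} (hm : 1 ≤ m) (hB : B = 4 * m - 3) {δ S t : ℝ} (hδ : 0 < δ) (hδB : 100 * B * δ ≤ 1)
    (hS : 0 < S) (ht : t = 1 / (4 * (1 + δ) * S)) (htδ : t ≤ δ) :
    1 / 8 ≤ B * ((2 * t - t ^ 2) * ((1 - δ) * S) - t ^ 2 * (4 * (1 + δ) * S ^ 2)) - (m - 1) * (1 + δ) - B * δ - B * δ := by
  have hBr : (B : ℝ) = 4 * m - 3 := by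
    have h1 : B + 3 = 4 * m := by omega
    have h2 : (B : ℝ) + 3 = 4 * m := by exact_mod_cast h1
    linarith
  have hm' : (1 : ℝ) ≤ m := by exact_mod_cast hm
  have hB1 : (1 : ℝ) ≤ B := by linarith
  have hδ1 : δ ≤ 1 / 100 := by nlinarith
  have hδ4 : 0 < 1 + δ := by linarith
  obtain ⟨σ, hσ⟩ : ∃ σ : ℝ, σ = t * S := ⟨_, rfl⟩
  have hσ1 : 4 * (1 + δ) * σ = 1 := by
    rw [hσ, ht]
    field_simp
  have hσ0 : 0 < σ := by
    by_contra hc
    have : 4 * (1 + δ) * σ ≤ 0 := mul_nonpos_of_nonneg_of_nonpos (by linarith) (not_lt.1 hc)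
    linarith
  have e1 : (2 * t - t ^ 2) * ((1 - δ) * S) - t ^ 2 * (4 * (1 + δ) * S ^ 2) =
      ((2 - t) * (1 - δ) - 1) * σ := by
    have e2 : t ^ 2 * (4 * (1 + δ) * S ^ 2) = σ := by
      calc t ^ 2 * (4 * (1 + δ) * S ^ 2) = (4 * (1 + δ) * σ) * σ := by rw [hσ]; ring
        _ = σ := by rw [hσ1, one_mul]
    rw [e2, hσ]
    ring
  rw [e1]
  have h1 : 1 - 3 * δ ≤ (2 - t) * (1 - δ) - 1 := by nlinarith
  have h2 : (1 - 4 * δ) / 4 ≤ σ * (1 - 3 * δ) := by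
    have h3 : σ * (1 - 3 * δ) * (4 * (1 + δ)) = 1 - 3 * δ := by
      calc σ * (1 - 3 * δ) * (4 * (1 + δ)) = (4 * (1 + δ) * σ) * (1 - 3 * δ) := by ring
        _ = 1 - 3 * δ := by rw [hσ1, one_mul]
    have h4 : (1 - 4 * δ) / 4 * (4 * (1 + δ)) ≤ 1 - 3 * δ := by nlinarith
    rw [← h3] at h4
    exact le_of_mul_le_mul_right h4 (by linarith)
  have h3 : σ * (1 - 3 * δ) ≤ ((2 - t) * (1 - δ) - 1) * σ := by
    rw [mul_comm σ]
    exact mul_le_mul_of_nonneg_right h1 hσ0.le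
  have h4 : (B : ℝ) * ((1 - 4 * δ) / 4) ≤ B * (((2 - t) * (1 - δ) - 1) * σ) :=
    mul_le_mul_of_nonneg_left (h2.trans h3) (by linarith)
  have h5 : (m - 1 : ℝ) ≤ B / 4 := by linarith
  have h6 : (m - 1 : ℝ) * δ ≤ B / 4 * δ := mul_le_mul_of_nonneg_right h5 hδ.le
  have h7 : (B : ℝ) * ((1 - 4 * δ) / 4) = B / 4 - B * δ := by ring
  have h8 : (m - 1 : ℝ) * (1 + δ) = (m - 1) + (m - 1) * δ := by ring
  have h9 : (B : ℝ) * δ ≤ 1 / 100 := by linarith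
  have h10 : (B : ℝ) / 4 * δ = (B * δ) / 4 := by ring
  rw [h8]
  linarith

end Pool.Agent.LibGL22
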