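import Pool.Agent.LibGL22.QP
import Pool.Agent.LibGL22.V1
import Pool.Agent.LibGL22.Z0
import Pool.Agent.LibGL22.Z2
import Pool.Agent.LibGL22.Z3
import Pool.Agent.LibGL22.Z4
import Pool.Agent.LibSC93.J3

/-!
Row S5 (pairs, sharp upper bound). For `i0 ≠ i1 ∈ h`, `n > N ≥ z^k1`, `n + i0`, `n + i1` prime: `PsG n = PhiS (yCol (inl i0) YG) h n = PhiS y' h n`, `y' = ySel (inl i1) (yCol (inl i0) YG)` (`collapseS`, `collapseSel`), so
`∑ prI i0 prI i1 PsG² ≤ ∑ prI i0 (PhiS y' h)²`; `quP` at `inl i0` with `y = y'/G1²` (`yPP_abs_le`, `yPP_supp`; `L1 + k2 = L2`), `A' = k + 2`: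
`≤ X (dgV y'/V1 + G1⁴ (VP h/V1 e + 1/√z)) + G1⁴ NW/(log z)^(k+2)`. `dgPP_le` (row Z3) with `Gm = (1 - δ/16) k2 log z φ(W)/W V1 = (1 - δ/16) (k2/q)/vG` (`gn_ge`, row Z4, `t = L1` (primes `> z`: `rr S ≤ z^L1` gives `|S| ≤ L1`)):
`dgV y' ≤ G1⁴ G2^(k-2) DKG vG (q/k2)/(1 - δ/16)`, `q/k2 = 4M/(M - 10) ≤ 4 (1 + δ/5)` (`hM`), `X ≤ (1 + δ/16) NL`, `NL/V1 = NW vG`. Main part: `≤ 4 (1 + δ/5)(1 + δ/16)/(1 - δ/16) NW vG² G1⁴ G2^(k-2) DKG ≤ 4 (1 + δ/2) …`.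
Errors: `NW vG e G1⁴ VP h (1 + δ/16)` with `e q ≤ δ/100`, `vG ≥ 1/(2q)`: `e ≤ (δ/50) vG`; the rest by `tinyL`.
-/

open Finset Filter

namespace Pool.Agent.LibGL22

open Pool.Agent.LibRG87 Pool.Agent.LibLG5 Pool.Agent.LibPL63 Pool.Agent.LibSC93 Pool.Agent.LibBW4

variable {R : Prm} {C Cq Cm : ℕ} {c cD Λ δ : ℝ}

private theorem S5_Phi_div {ι : Type} [Fintype ι] [DecidableEq ι] (P Pr : Finset ℕ) (b : ι → ℕ)
    (y : (P → Option ι) → ℝ) (E : Finset ℕ) (G : ℝ) (n : ℕ) :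
    PhiS P Pr b (fun β => y β / G) E n = PhiS P Pr b y E n / G := by
  unfold PhiS
  rw [Finset.sum_div]
  exact Finset.sum_congr rfl fun β _ => by ring

private theorem S5_dg_div {ι : Type} [Fintype ι] [DecidableEq ι] (P : Finset ℕ)
    (V : Finset ℕ → ℝ) (b : ι → ℕ) (y : (P → Option ι) → ℝ) (E : Finset ℕ) (G : ℝ) :
    dgV P V b E (fun β => y β / G) = dgV P V b E y / G ^ 2 := by
  unfold dgV
  rw [Finset.sum_div]
  exact Finset.sum_congr rfl fun β _ => by rw [div_pow]; ring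

private theorem S5_dg_ins {ι : Type} [Fintype ι] [DecidableEq ι] (P Pr : Finset ℕ)
    (b : ι → ℕ) (y : (P → Option ι) → ℝ) (E : Finset ℕ) {a0 : ℕ} (ha : a0 ∈ E) :
    dgV P (fun B => VP Pr (insert a0 B) / V1p Pr) b E y = dgV P (VP Pr) b E y / V1p Pr := by
  unfold dgV
  rw [Finset.sum_div]
  refine Finset.sum_congr rfl fun β _ => ?_
  have h1 : insert a0 (E ∪ su P b β) = E ∪ su P b β :=
    Finset.insert_eq_of_mem (Finset.mem_union_left _ ha)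
  simp only [h1]
  ring

private theorem S5_V1_le (Pr : Finset ℕ) (hPr : ∀ p ∈ Pr, p.Prime) : V1p Pr ≤ 1 := by
  unfold V1p
  refine Finset.prod_le_one (fun p hp => ?_) (fun p hp => ?_)
  · have h1 : (2 : ℝ) ≤ p := by exact_mod_cast (hPr p hp).two_le
    have h2 : 1 / (p : ℝ) ≤ 1 := by
      rw [div_le_one (by linarith)]
      linarith
    linarith
  · have h1 : (0 : ℝ) ≤ 1 / (p : ℝ) := by positivity
    linarith

private theorem S5_card {P : Finset ℕ} {z : ℕ} (hP : ∀ p ∈ P, z < p) (hz : 2 ≤ z)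
    {S : Finset ℕ} (hS : S ⊆ P) {N : ℕ} (h : rr S ≤ (z : ℝ) ^ N) : S.card ≤ N := by
  have h1 : (z : ℝ) ^ S.card ≤ rr S := by
    unfold rr
    rw [← Finset.prod_const]
    exact Finset.prod_le_prod (fun _ _ => Nat.cast_nonneg _)
      (fun p hp => by exact_mod_cast (hP p (hS hp)).le)
  have h2 : (z : ℝ) ^ S.card ≤ (z : ℝ) ^ N := h1.trans h
  exact (pow_le_pow_iff_right₀ (by exact_mod_cast (by omega : 1 < z))).1 h2

private theorem S5_prI_nonneg (a n : ℕ) : 0 ≤ prI a n := by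
  unfold prI
  split_ifs
  · exact zero_le_one
  · exact le_rfl

private theorem S5_num {δ X NL NW v V1 VH DK G Gk dg e rz Lt q k2 Gm Sm : ℝ}
    (hδ : 0 < δ) (hδ1 : δ ≤ 1 / 8) (hX0 : 0 ≤ X) (hX : X ≤ (1 + δ / 16) * NL)
    (hNL : NL = NW * (v * V1)) (hNW : 0 < NW) (hV1 : 0 < V1) (hV1' : V1 ≤ 1) (hq : 1 ≤ q)
    (hv : 1 / (2 * q) ≤ v) (hk2 : 0 < k2) (hqk : q ≤ 4 * (1 + δ / 5) * k2)
    (hGm : Gm * v * q = (1 - δ / 16) * k2) (hG : 0 < G) (hGk : 1 ≤ Gk) (hVH : 0 ≤ VH) (hDK : VH ≤ DK)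
    (hdg0 : 0 ≤ dg) (hdg : dg * Gm ≤ G * Gk * DK)
    (he : e * q ≤ δ / 100) (he0 : 0 ≤ e) (hrz : rz * (16 * q) ≤ δ * VH) (hrz0 : 0 ≤ rz)
    (hLt : Lt * (16 * q ^ 2) ≤ δ * VH) (hLt0 : 0 ≤ Lt)
    (hSm : Sm / G - X * (dg / V1 / G) ≤ X * (VH / V1 * e + rz) + NW * Lt) :
    Sm ≤ 4 * (1 + δ) * (v ^ 2 * (G * (NW * (Gk * DK)))) := by
  have hq0 : 0 < q := by linarith
  have hv0 : 0 < v := lt_of_lt_of_le (by positivity) hv
  have hqv : 1 ≤ 2 * q * v := by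
    rw [div_le_iff₀ (by positivity)] at hv
    linarith
  have hDK0 : 0 ≤ DK := hVH.trans hDK
  set T := G * Gk * DK with hT
  have hT0 : 0 ≤ T := by positivity
  -- the diagonal
  have h1 : (1 - δ / 16) * dg ≤ 4 * (1 + δ / 5) * (v * T) := by
    have h2 : (1 - δ / 16) * k2 * dg ≤ q * v * T := by
      rw [← hGm]
      calc Gm * v * q * dg = q * v * (dg * Gm) := by ring
        _ ≤ q * v * T := mul_le_mul_of_nonneg_left hdg (by positivity)
    have h3 : q * v * T ≤ 4 * (1 + δ / 5) * k2 * (v * T) := by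
      calc q * v * T = q * (v * T) := by ring
        _ ≤ 4 * (1 + δ / 5) * k2 * (v * T) := mul_le_mul_of_nonneg_right hqk (by positivity)
    have h4 : k2 * ((1 - δ / 16) * dg) ≤ k2 * (4 * (1 + δ / 5) * (v * T)) := by
      calc k2 * ((1 - δ / 16) * dg) = (1 - δ / 16) * k2 * dg := by ring
        _ ≤ 4 * (1 + δ / 5) * k2 * (v * T) := h2.trans h3
        _ = k2 * (4 * (1 + δ / 5) * (v * T)) := by ring
    exact le_of_mul_le_mul_left h4 hk2
  have h5 : (1 + δ / 16) * dg ≤ 4 * (1 + δ / 2) * (v * T) := by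
    have hvT : 0 ≤ v * T := by positivity
    have h6 : (1 + δ / 16) * (4 * (1 + δ / 5)) ≤ (1 - δ / 16) * (4 * (1 + δ / 2)) := by nlinarith
    have h7 : (0 : ℝ) < 1 - δ / 16 := by linarith
    have h8 : (1 - δ / 16) * ((1 + δ / 16) * dg) ≤ (1 - δ / 16) * (4 * (1 + δ / 2) * (v * T)) := by
      calc (1 - δ / 16) * ((1 + δ / 16) * dg) = (1 + δ / 16) * ((1 - δ / 16) * dg) := by ring
        _ ≤ (1 + δ / 16) * (4 * (1 + δ / 5) * (v * T)) := mul_le_mul_of_nonneg_left h1 (by linarith)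
        _ = ((1 + δ / 16) * (4 * (1 + δ / 5))) * (v * T) := by ring
        _ ≤ ((1 - δ / 16) * (4 * (1 + δ / 2))) * (v * T) := mul_le_mul_of_nonneg_right h6 hvT
        _ = _ := by ring
    exact le_of_mul_le_mul_left h8 h7
  have hXV : X / V1 ≤ (1 + δ / 16) * (NW * v) := by
    rw [div_le_iff₀ hV1]
    calc X ≤ (1 + δ / 16) * NL := hX
      _ = (1 + δ / 16) * (NW * v) * V1 := by rw [hNL]; ring
  have hXV0 : 0 ≤ X / V1 := by positivity
  have hX2 : X / V1 ≤ 2 * (NW * v) := hXV.trans (mul_le_mul_of_nonneg_right (by linarith) (by positivity))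
  have hXX : X ≤ 2 * (NW * v) := by
    have h6 : X = X / V1 * V1 := by field_simp
    rw [h6]
    calc X / V1 * V1 ≤ X / V1 * 1 := mul_le_mul_of_nonneg_left hV1' hXV0
      _ ≤ 2 * (NW * v) := by linarith
  -- the main part
  have hA : X * (dg / V1) ≤ 4 * (1 + δ / 2) * (NW * v ^ 2 * T) := by
    calc X * (dg / V1) = X / V1 * dg := by ring
      _ ≤ (1 + δ / 16) * (NW * v) * dg := mul_le_mul_of_nonneg_right hXV hdg0
      _ = (NW * v) * ((1 + δ / 16) * dg) := by ring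
      _ ≤ (NW * v) * (4 * (1 + δ / 2) * (v * T)) := mul_le_mul_of_nonneg_left h5 (by positivity)
      _ = _ := by ring
  -- the errors
  have hVHT : G * VH ≤ T := by
    rw [hT]
    calc G * VH = G * 1 * VH := by ring
      _ ≤ G * Gk * DK := by gcongr
  have he' : e ≤ δ / 50 * v := by
    have h6 : e * 1 ≤ e * (2 * q * v) := mul_le_mul_of_nonneg_left hqv he0
    have h7 : e * (2 * q * v) = 2 * v * (e * q) := by ring
    have h8 : 2 * v * (e * q) ≤ 2 * v * (δ / 100) := mul_le_mul_of_nonneg_left he (by positivity)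
    linarith
  have hrz' : rz ≤ δ / 8 * (v * VH) := by
    have h6 : rz * 1 ≤ rz * (2 * q * v) := mul_le_mul_of_nonneg_left hqv hrz0
    have h7 : rz * (2 * q * v) = v / 8 * (rz * (16 * q)) := by ring
    have h8 : v / 8 * (rz * (16 * q)) ≤ v / 8 * (δ * VH) := mul_le_mul_of_nonneg_left hrz (by positivity)
    linarith
  have hLt' : Lt ≤ δ / 4 * (v ^ 2 * VH) := by
    have h9 : 1 ≤ (2 * q * v) ^ 2 := one_le_pow₀ hqv
    have h6 : Lt * 1 ≤ Lt * (2 * q * v) ^ 2 := mul_le_mul_of_nonneg_left h9 hLt0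
    have h7 : Lt * (2 * q * v) ^ 2 = v ^ 2 / 4 * (Lt * (16 * q ^ 2)) := by ring
    have h8 : v ^ 2 / 4 * (Lt * (16 * q ^ 2)) ≤ v ^ 2 / 4 * (δ * VH) :=
      mul_le_mul_of_nonneg_left hLt (by positivity)
    linarith
  have hB1 : X * (VH / V1 * e) ≤ δ / 25 * (NW * v ^ 2 * VH) := by
    calc X * (VH / V1 * e) = X / V1 * VH * e := by ring
      _ ≤ 2 * (NW * v) * VH * (δ / 50 * v) := by gcongr
      _ = δ / 25 * (NW * v ^ 2 * VH) := by ring
  have hB2 : X * rz ≤ δ / 4 * (NW * v ^ 2 * VH) := by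
    calc X * rz ≤ 2 * (NW * v) * (δ / 8 * (v * VH)) := mul_le_mul hXX hrz' hrz0 (by positivity)
      _ = _ := by ring
  have hB3 : NW * Lt ≤ δ / 4 * (NW * v ^ 2 * VH) := by
    calc NW * Lt ≤ NW * (δ / 4 * (v ^ 2 * VH)) := mul_le_mul_of_nonneg_left hLt' hNW.le
      _ = _ := by ring
  have hB : G * (X * (VH / V1 * e + rz) + NW * Lt) ≤ 2 * δ * (NW * v ^ 2 * T) := by
    have h6 : X * (VH / V1 * e + rz) + NW * Lt ≤ δ * (NW * v ^ 2 * VH) := by
      have h7 : 0 ≤ δ * (NW * v ^ 2 * VH) := by positivity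
      rw [mul_add]
      linarith
    calc G * (X * (VH / V1 * e + rz) + NW * Lt) ≤ G * (δ * (NW * v ^ 2 * VH)) :=
          mul_le_mul_of_nonneg_left h6 hG.le
      _ = δ * (NW * v ^ 2 * (G * VH)) := by ring
      _ ≤ δ * (NW * v ^ 2 * T) := by gcongr
      _ ≤ 2 * δ * (NW * v ^ 2 * T) := by
          have h7 : 0 ≤ δ * (NW * v ^ 2 * T) := by positivity
          linarith
  have hfin : Sm ≤ X * (dg / V1) + G * (X * (VH / V1 * e + rz) + NW * Lt) := by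
    have h6 : Sm / G ≤ X * (dg / V1 / G) + (X * (VH / V1 * e + rz) + NW * Lt) := by linarith
    rw [div_le_iff₀ hG] at h6
    refine h6.trans (le_of_eq ?_)
    field_simp
  calc Sm ≤ X * (dg / V1) + G * (X * (VH / V1 * e + rz) + NW * Lt) := hfin
    _ ≤ 4 * (1 + δ / 2) * (NW * v ^ 2 * T) + 2 * δ * (NW * v ^ 2 * T) := add_le_add hA hB
    _ = 4 * (1 + δ) * (v ^ 2 * (G * (NW * (Gk * DK)))) := by rw [hT]; ring

theorem side5 (hBV : BVprimes) (hp : ParG R C Cq Cm c cD Λ δ) :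
    ∀ᶠ z : ℕ in atTop, ∀ p1 : ℕ, p1.Prime → z < p1 → ∀ (c0 : ℕ) (h K : Finset ℕ),
      PosS z p1 c0 R.k (Λ * R.q) h K → ∀ i0 ∈ h, ∀ i1 ∈ h, i0 ≠ i1 →
        ∑ n ∈ sN (z ^ R.q) (Wp z p1) c0, prI i0 n * prI i1 n * PsG R z p1 h K n ^ 2 ≤
          4 * (1 + δ) * (vG R z p1 ^ 2 * (G1G R z p1 ^ 4 * (NW R z p1 * (G2G R z p1 ^ (R.k - 2) * DKG R z p1 h K)))) := by
  classical
  obtain ⟨hq0, hk, hu, hq0u, hq0a, hM480, hk2, hk21, huk1, hk1q, -, -⟩ := prm_le hp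
  have hq1 : 1 ≤ R.q := by omega
  have hqR : (1 : ℝ) ≤ R.q := by exact_mod_cast hq1
  have hδ := hp.hδ
  have hδ1 := hp.hδ1
  have ha : 2 ≤ R.a := hp.sums.1
  obtain ⟨he0, -, heq, -, -⟩ := eG_le hp
  have hqk : (R.q : ℝ) ≤ 4 * (1 + δ / 5) * R.k2 := by
    have h1 : (R.k2 : ℝ) = ((R.M : ℝ) - 10) * R.u := by
      have : R.k2 = (R.M - 10) * R.u := rfl
      rw [this, Nat.cast_mul, Nat.cast_sub (by omega)]
      norm_num
    have h2 : (R.q : ℝ) = 4 * R.M * R.u := by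
      have : R.q = 4 * R.M * R.u := rfl
      rw [this]
      push_cast
      ring
    have h3 : (60 : ℝ) ≤ δ * R.M := hp.hM
    have h4 : (0 : ℝ) ≤ R.u := Nat.cast_nonneg _
    rw [h1, h2]
    have h5 : (R.M : ℝ) ≤ (1 + δ / 5) * ((R.M : ℝ) - 10) := by nlinarith
    calc 4 * (R.M : ℝ) * R.u ≤ 4 * ((1 + δ / 5) * ((R.M : ℝ) - 10)) * R.u := by gcongr
      _ = _ := by ring
  filter_upwards [quP hBV hp (0 + R.k + 2), baseG hp 1 one_pos, tinyL R.k 0 (δ / (16 * R.q ^ 2)) (by positivity),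
    vG_facts (R := R) hq1 hp.mert, gn_ge R.L1 R.k1 R.k2 hk21 (ε := δ / 16) (by positivity),
    eventually_ge_atTop 3] with z hQ hB hT hvf hGn hz3
  intro p1 hp1 hzp1 c0 h K hpos i0 hi0 i1 hi1 hne
  have hBz := hB p1
  have hh : h.card = R.k := hpos.1
  obtain ⟨hT1, hT2⟩ := hT p1 hp1 h hh
  obtain ⟨hv1, -, hNL, hNW0, hNL0⟩ := hvf p1 hp1
  have hlz : 1 ≤ Real.log (z : ℝ) := hBz.2.1
  have hlz0 : 0 < Real.log (z : ℝ) := by linarith
  have hzR : (0 : ℝ) < z := by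
    have : 0 < z := by omega
    exact_mod_cast this
  set P := PG R z p1 with hPdef
  have hPm : ∀ p ∈ P, p.Prime ∧ z < p ∧ p ≠ p1 ∧ p ≤ z ^ R.k1 := fun p hp' => PG_mem hp'
  have hPL : ∀ p ∈ P, p.Prime := fun p hp' => (hPm p hp').1
  have hP0 : ∀ p ∈ P0 z p1, p.Prime := fun p hp' => (mem_P0.1 hp').2.1
  set iz0 : ↥h ⊕ ↥K := Sum.inl ⟨i0, hi0⟩ with hiz0
  set iz1 : ↥h ⊕ ↥K := Sum.inl ⟨i1, hi1⟩ with hiz1
  have hbz0 : bS h K iz0 = i0 := rfl
  have hbz1 : bS h K iz1 = i1 := rfl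
  obtain ⟨hG11, hG21⟩ := one_le_G (R := R) (cD := cD) hBz
  set G1 := G1G R z p1 with hG1
  set G2 := G2G R z p1 with hG2
  set DK := DKG R z p1 h K with hDK
  set yc := yCol P iz0 (YG R z p1 h K) with hyc
  set y' := ySel P z R.k2 iz1 yc with hy'
  -- collapse
  have hcoll : ∑ n ∈ sN (z ^ R.q) (Wp z p1) c0, prI i0 n * prI i1 n * PsG R z p1 h K n ^ 2 ≤
      ∑ n ∈ sN (z ^ R.q) (Wp z p1) c0, prI (bS h K iz0) n *
        PhiS P (P0 z p1) (bS h K) y' h n ^ 2 := by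
    refine Finset.sum_le_sum fun n hn => ?_
    have hNn : z ^ R.q < n := by
      unfold sN at hn
      rw [Finset.mem_filter, Finset.mem_Ioc] at hn
      exact hn.1.1
    rw [hbz0]
    by_cases c0' : (n + i0).Prime
    · by_cases c1' : (n + i1).Prime
      · have e0 : prI i0 n = 1 := by unfold prI; rw [if_pos c0']
        have e1 : prI i1 n = 1 := by unfold prI; rw [if_pos c1']
        have hzq : z ≤ z ^ R.q := Nat.le_self_pow (by omega) z
        have hzk : z ^ R.k1 ≤ z ^ R.q := Nat.pow_le_pow_right (by omega) (by omega)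
        have hnd : ∀ i : ℕ, (n + i).Prime → (∀ p ∈ P, ¬ p ∣ n + i) ∧ (∀ p ∈ P0 z p1, ¬ p ∣ n + i) := by
          intro i hprime
          constructor
          · intro p hp' hd
            have h11 : p = n + i := (Nat.prime_dvd_prime_iff_eq (hPL p hp') hprime).1 hd
            have h12 : p ≤ z ^ R.k1 := (hPm p hp').2.2.2
            omega
          · intro p hp' hd
            have h11 : p = n + i := (Nat.prime_dvd_prime_iff_eq (hP0 p hp') hprime).1 hd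
            have h12 : p ≤ z := (mem_P0.1 hp').2.2.2
            omega
        have h13 := collapseS P (P0 z p1) hPL (bS h K) iz0 n (hnd i0 c0').2 (hnd i0 c0').1
          (YG R z p1 h K) h
        have h14 := collapseSel P (P0 z p1) hPL z R.k2 (by omega) (bS h K) iz1 n (hnd i1 c1').2
          (hnd i1 c1').1 yc h
        have h15 : PsG R z p1 h K n = PhiS P (P0 z p1) (bS h K) y' h n := h13.trans h14
        rw [e0, e1, one_mul, one_mul, one_mul, h15]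
      · have e1 : prI i1 n = 0 := by unfold prI; rw [if_neg c1']
        rw [e1, mul_zero, zero_mul]
        exact mul_nonneg (S5_prI_nonneg i0 n) (sq_nonneg _)
    · have e0 : prI i0 n = 0 := by unfold prI; rw [if_neg c0']
      rw [e0, zero_mul, zero_mul, zero_mul]
  -- the quadratic form
  have hL2 : R.L1 + R.k2 = R.L2 := rfl
  have hne' : (⟨i0, hi0⟩ : ↥h) ≠ ⟨i1, hi1⟩ := fun h0 => hne (congrArg Subtype.val h0)
  have hr0 : 1 ≤ R.r0 := hp.hr0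
  have hDn := hBz.2.2.2.2.1
  have hDn1 := hBz.2.2.2.2.2.2.1
  have hkr : 2 * R.q0 ≤ 2 * R.A2 ^ R.I2 * R.r0 := by
    have : R.q0 = R.A2 ^ R.I2 * R.r0 := rfl
    rw [this]
    exact le_of_eq (by ring)
  have h20 := yPP_abs_le (κ := ↥h) (ν := ↥K) P hPL (z := z) (a := R.a) (r0 := R.r0) (r1 := R.q0) (by omega)
    (by omega) hr0 hDn hDn1 R.q0 R.I (2 * R.u) R.k2 ⟨i0, hi0⟩ ⟨i1, hi1⟩ hne'
  have hyabs : ∀ β, |y' β| ≤ G1 ^ 2 := h20
  have hysupp : ∀ β, y' β ≠ 0 → rr (sp P β) ≤ (z : ℝ) ^ R.L2 ∧ alw P (univ.erase iz0) β ∧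
      (sui P β).card ≤ R.K := by
    intro β hβ
    have h1 := yPP_supp (κ := ↥h) (ν := ↥K) P hPL (z := z) (a := R.a) (r0 := R.r0) (r1 := R.q0) (by omega)
      (by omega) hr0 (Kν := 2 * R.A2 ^ R.I2) hkr R.q0 R.I (2 * R.u) R.k2
      ⟨i0, hi0⟩ ⟨i1, hi1⟩ hne' (β := β) hβ
    rw [Fintype.card_coe, hh] at h1
    exact h1
  have hG1sq : (0 : ℝ) < G1 ^ 2 := by positivity
  obtain ⟨X, hX1, hX2, hmain⟩ := hQ p1 hp1 c0 h K hpos iz0 (fun β => y' β / G1 ^ 2)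
    (fun β => by
      rw [abs_div, abs_of_pos hG1sq, div_le_one hG1sq]
      exact hyabs β)
    (fun β hβ => hysupp β (fun h0 => hβ (by
      show y' β / G1 ^ 2 = 0
      rw [h0, zero_div])))
  have hmem : bS h K iz0 ∈ h := hi0
  rw [if_pos hmem, S5_dg_div, S5_dg_ins P (P0 z p1) (bS h K) y' h hmem] at hmain
  set Sm := ∑ n ∈ sN (z ^ R.q) (Wp z p1) c0, prI (bS h K iz0) n *
        PhiS P (P0 z p1) (bS h K) y' h n ^ 2 with hSm
  have hPhi : ∑ n ∈ sN (z ^ R.q) (Wp z p1) c0, prI (bS h K iz0) n *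
      PhiS P (P0 z p1) (bS h K) (fun β => y' β / G1 ^ 2) h n ^ 2 = Sm / (G1 ^ 4) := by
    rw [hSm, Finset.sum_div]
    refine Finset.sum_congr rfl fun n _ => ?_
    rw [S5_Phi_div, div_pow]
    ring
  rw [hPhi] at hmain
  -- the diagonal
  set V1 := V1p (P0 z p1) with hV1d
  set VH := VP (P0 z p1) h with hVH
  have hV1 : 0 < V1 := V1p_pos _ hP0
  have hV1' : V1 ≤ 1 := S5_V1_le _ hP0
  have hVP0 : 0 ≤ VH := VP_nonneg _ hP0 h
  have hW0 : (0 : ℝ) < Wp z p1 := by exact_mod_cast Wp_pos z p1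
  have hφ : (0 : ℝ) < ((Wp z p1).totient : ℝ) := by
    exact_mod_cast Nat.totient_pos.2 (Wp_pos z p1)
  set Gm : ℝ := (1 - δ / 16) * (R.k2 * Real.log z * (((Wp z p1).totient : ℝ) / (Wp z p1 : ℝ) * V1)) with hGm
  have hk2R : (0 : ℝ) < R.k2 := by exact_mod_cast (by omega : 0 < R.k2)
  have hδ16 : (0 : ℝ) < 1 - δ / 16 := by linarith
  have hGm0 : 0 < Gm := by positivity
  have hdd := dgPP_le P hPL (κ := ↥h) (ν := ↥K) (z := z) (a := R.a) (r0 := R.r0) (r1 := R.q0) (by omega) (by omega) hr0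
    R.q0 R.I (2 * R.u) R.k2 (VP (P0 z p1)) (VP_nonneg _ hP0) (bS h K) h (fun i => i.2) ⟨i0, hi0⟩ ⟨i1, hi1⟩ hne' hGm0
    (fun S hS hrS => hGn p1 hp1 hzp1 S hS (S5_card (fun p hp' => (hPm p hp').2.1) (by omega) hS hrS))
  rw [Fintype.card_coe, hh] at hdd
  set dg := dgV P (VP (P0 z p1)) (bS h K) h y' with hdg
  have hdg0 : 0 ≤ dg := by
    rw [hdg]
    unfold dgV
    refine Finset.sum_nonneg fun β _ => div_nonneg (mul_nonneg (sq_nonneg _) (VP_nonneg _ hP0 _)) ?_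
    exact (ph_pos P hPL (sp_subset P β)).le
  have hdd' : dg * Gm ≤ G1 ^ 4 * G2 ^ (R.k - 2) * DK := by
    have h1 : dg ≤ G1 ^ 4 * G2 ^ (R.k - 2) / Gm * DK := hdd
    calc dg * Gm ≤ G1 ^ 4 * G2 ^ (R.k - 2) / Gm * DK * Gm := mul_le_mul_of_nonneg_right h1 hGm0.le
      _ = G1 ^ 4 * G2 ^ (R.k - 2) * DK := by field_simp
  have hGmv : Gm * vG R z p1 * R.q = (1 - δ / 16) * R.k2 := by
    rw [hGm]
    unfold vG
    rw [← hV1d]
    have hq0' : (R.q : ℝ) ≠ 0 := by positivity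
    field_simp
  -- assembly
  have hX0 : 0 ≤ X := le_trans (by positivity) hX1
  have hDKge : VH ≤ DK := DKG_ge hp hBz h K
  have hrz : (1 / Real.sqrt z) * (16 * R.q) ≤ δ * VH := by
    rw [pow_zero] at hT2
    have h1 : 1 / Real.sqrt z ≤ δ / (16 * R.q ^ 2) * VH := hT2
    have h2 : (1 / Real.sqrt z) * (16 * R.q) ≤ δ / (16 * R.q ^ 2) * VH * (16 * R.q) :=
      mul_le_mul_of_nonneg_right h1 (by positivity)
    have h3 : δ / (16 * (R.q : ℝ) ^ 2) * VH * (16 * R.q) = δ * VH / R.q := by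
      field_simp
    rw [h3] at h2
    exact h2.trans (div_le_self (by positivity) hqR)
  have hLt : (1 / Real.log z ^ (0 + R.k + 2)) * (16 * (R.q : ℝ) ^ 2) ≤ δ * VH := by
    rw [pow_zero] at hT1
    have h1 : 1 / Real.log z ^ (0 + R.k + 2) ≤ δ / (16 * R.q ^ 2) * VH := hT1
    calc (1 / Real.log z ^ (0 + R.k + 2)) * (16 * (R.q : ℝ) ^ 2) ≤
        δ / (16 * R.q ^ 2) * VH * (16 * (R.q : ℝ) ^ 2) := mul_le_mul_of_nonneg_right h1 (by positivity)
      _ = δ * VH := by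
          have hq0' : (R.q : ℝ) ≠ 0 := by positivity
          field_simp
  refine hcoll.trans ?_
  refine S5_num (δ := δ) (X := X) (NL := NL R z p1) (NW := NW R z p1) (v := vG R z p1) (V1 := V1) (VH := VH)
    (DK := DK) (G := G1 ^ 4) (Gk := G2 ^ (R.k - 2)) (dg := dg) (e := R.e Cq Λ) (rz := 1 / Real.sqrt z)
    (Lt := 1 / Real.log z ^ (0 + R.k + 2)) (q := R.q) (k2 := R.k2) (Gm := Gm) (Sm := Sm)
    hδ hδ1 hX0 hX2 hNL hNW0 hV1 hV1' hqR hv1 hk2R hqk hGmv (by positivity) (one_le_pow₀ hG21) hVP0 hDKge hdg0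
    hdd' heq he0 hrz (by positivity) hLt (by positivity) ?_
  have h1 := (abs_le.1 hmain).2
  have h2 : dg / V1 / (G1 ^ 2) ^ 2 = dg / V1 / G1 ^ 4 := by
    congr 1
    ring
  rw [h2] at h1
  have h3 : NW R z p1 / Real.log z ^ (0 + R.k + 2) = NW R z p1 * (1 / Real.log z ^ (0 + R.k + 2)) := by ring
  rw [h3] at h1
  linarith

end Pool.Agent.LibGL22
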