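import Pool.Agent.LibGL22.S1
import Pool.Agent.LibGL22.S3
import Pool.Agent.LibGL22.S4
import Pool.Agent.LibGL22.S5
import Pool.Agent.LibGL22.F1
import Pool.Agent.LibGL22.F2
import Pool.Agent.LibGL22T.Defs

/-!
Row F3 (the core inequality, for one `z`). As `S7_core` in LibSC93/S7.lean. With `w n = PsG n ^ 2`, `V = NW G2^k DKG`, `N_j n = #{a ∈ h j : n + a prime}`, `S = k0 s`, `s = vG G1²/G2`, `H = univ.biUnion h`:
`∑ w N_j = ∑_{a ∈ h j} ∑ prI a w ≥ (1 - δ) S V` (hypothesis `h3`), `∑ w N_j² = ∑ w N_j + ∑_{a ≠ a' ∈ h j} ∑ prI a prI a' w ≤ ∑ w N_j + 4 (1+δ) S² V` (`h5`), `∑ w ≤ (1 + δ) V` (`h1`), `∑ w N_K ≤ δ V` (`h4`), `∑ w N_r ≤ (M0/B) δ V` (`h2`, `hM0`).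
`F2_real` and `F2_point`: `V/8 ≤ ∑ w (…) ≤ B Bd ∑ rhoP 1[event]`; `V ≥ NW VP H` (`DKG_ge`, `1 ≤ G2`).
-/

open Finset Filter

namespace Pool.Agent.LibGL22

open Pool.Agent.LibRG87 Pool.Agent.LibLG5 Pool.Agent.LibPL63 Pool.Agent.LibSC93

variable {R : Prm} {C Cq Cm : ℕ} {c cD Λ δ : ℝ}

theorem core (hp : ParG R C Cq Cm c cD Λ δ) {e : ℝ} {z p1 c0 m k0 M0 : ℕ} (hBs : BaseG R cD e z p1)
    (hm : 1 ≤ m) (hRB : R.B = 4 * m - 3) (hk0 : k0 = R.a ^ R.I) (hδB : 100 * R.B * δ ≤ 1) (hM0 : 1 ≤ M0)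
    (hM0k : (R.B : ℝ) * (2 * R.A2 ^ R.I2 + 16 * (Λ * R.q) + 1) ≤ δ * M0) {B : ℝ} (hB1 : 1 ≤ B)
    (hS : ∏ p ∈ PP z (z ^ R.k1), (1 + 1 / ((p : ℝ) - 1)) ≤ B)
    (hbig : 1 ≤ δ * (4 * (1 + δ) * (k0 * (vG R z p1 * G1G R z p1 ^ 2 / G2G R z p1))))
    (hN : 0 < NW R z p1) (hv : 0 < vG R z p1)
    {h : Fin (4 * m - 3) → Finset ℕ} {K : Finset ℕ} (hc : ∀ j, (h j).card = k0)
    (hd : ∀ i j, i ≠ j → Disjoint (h i) (h j)) (hpos : PosS z p1 c0 R.k (Λ * R.q) (univ.biUnion h) K)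
    (h1 : ∑ n ∈ sN (z ^ R.q) (Wp z p1) c0, PsG R z p1 (univ.biUnion h) K n ^ 2 ≤
        (1 + δ) * (NW R z p1 * (G2G R z p1 ^ R.k * DKG R z p1 (univ.biUnion h) K)))
    (h2 : ∑ n ∈ sN (z ^ R.q) (Wp z p1) c0, PsG R z p1 (univ.biUnion h) K n ^ 2 *
            (K.filter fun j => ∀ p ∈ P0 z p1, ¬ p ∣ n + j).card ≤
        (2 * R.A2 ^ R.I2 + 16 * (Λ * R.q) + 1) *
          (NW R z p1 * (G2G R z p1 ^ R.k * DKG R z p1 (univ.biUnion h) K)))
    (h3 : ∀ i0 ∈ univ.biUnion h, (1 - δ) * (vG R z p1 * (G1G R z p1 ^ 2 *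
          (NW R z p1 * (G2G R z p1 ^ (R.k - 1) * DKG R z p1 (univ.biUnion h) K)))) ≤
          ∑ n ∈ sN (z ^ R.q) (Wp z p1) c0, prI i0 n * PsG R z p1 (univ.biUnion h) K n ^ 2)
    (h4 : ∑ j ∈ K, ∑ n ∈ sN (z ^ R.q) (Wp z p1) c0, prI j n * PsG R z p1 (univ.biUnion h) K n ^ 2 ≤
          δ * (NW R z p1 * (G2G R z p1 ^ R.k * DKG R z p1 (univ.biUnion h) K)))
    (h5 : ∀ i0 ∈ univ.biUnion h, ∀ i1 ∈ univ.biUnion h, i0 ≠ i1 →
        ∑ n ∈ sN (z ^ R.q) (Wp z p1) c0, prI i0 n * prI i1 n * PsG R z p1 (univ.biUnion h) K n ^ 2 ≤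
          4 * (1 + δ) * (vG R z p1 ^ 2 * (G1G R z p1 ^ 4 *
            (NW R z p1 * (G2G R z p1 ^ (R.k - 2) * DKG R z p1 (univ.biUnion h) K))))) :
    1 / (8 * R.B * bdG R M0 B ^ 2) * (VP (P0 z p1) (univ.biUnion h) / Wp z p1) * (z : ℝ) ^ R.q ≤
      ∑ n ∈ sN (z ^ R.q) (Wp z p1) c0,
        (rhoP (P0 z p1) (univ.biUnion h) n *
          if m ≤ (univ.filter fun j => ∃ a ∈ h j, (n + a).Prime).card ∧ (∀ a ∈ K, ¬ (n + a).Prime) ∧
            (K.filter fun a => ∀ p ∈ P0 z p1, ¬ p ∣ n + a).card ≤ M0 then 1 else 0) := by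
  have hz3 : 3 ≤ z := hBs.1
  have hWR : (0 : ℝ) < Wp z p1 := by exact_mod_cast Wp_pos z p1
  have hDK := DKG_ge hp hBs (univ.biUnion h) K
  have hVP0 : 0 ≤ VP (P0 z p1) (univ.biUnion h) :=
    VP_nonneg _ (fun p hp => (mem_P0.1 hp).2.1) (univ.biUnion h)
  obtain ⟨hG11, hG21⟩ := one_le_G hBs
  obtain ⟨hcard, _, hxs, _⟩ := hpos
  have hk1 : 1 ≤ R.k := (prm_le hp).2.1
  set H := univ.biUnion h with hH
  set G1 : ℝ := G1G R z p1
  set G2 : ℝ := G2G R z p1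
  set v : ℝ := vG R z p1
  set DK : ℝ := DKG R z p1 H K
  set V : ℝ := NW R z p1 * (G2 ^ R.k * DK) with hVdef
  set w : ℕ → ℝ := fun n => PsG R z p1 H K n ^ 2 with hw
  set T := sN (z ^ R.q) (Wp z p1) c0 with hT
  set s : ℝ := v * G1 ^ 2 / G2 with hs
  set S : ℝ := k0 * s with hSdef
  have hG2p : 0 < G2 := by linarith
  have hG1p : 0 < G1 := by linarith
  have hsp : 0 < s := by positivity
  have hk0 : 1 ≤ k0 := by
    have h6 : R.k = R.B * k0 := by rw [hk0]; rfl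
    rcases Nat.eq_zero_or_pos k0 with h7 | h7
    · rw [h7] at h6; omega
    · exact h7
  have hk0R : (1 : ℝ) ≤ k0 := by exact_mod_cast hk0
  have hSp : 0 < S := by positivity
  have hDK0 : 0 ≤ DK := hVP0.trans hDK
  have hV : 0 ≤ V := by positivity
  have hw0 : ∀ n, 0 ≤ w n := fun n => sq_nonneg _
  have hδ := hp.hδ
  have hδ1 := hp.hδ1
  -- one position
  have h3' : ∀ i0 ∈ H, (1 - δ) * (s * V) ≤ ∑ n ∈ T, prI i0 n * w n := by
    intro i0 hi0
    refine le_trans (le_of_eq ?_) (h3 i0 hi0)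
    have e1 : G2 ^ R.k = G2 ^ (R.k - 1) * G2 := by
      rw [← pow_succ, Nat.sub_add_cancel hk1]
    rw [hVdef, hs, e1]
    field_simp
  have h5' : ∀ i0 ∈ H, ∀ i1 ∈ H, i0 ≠ i1 →
      ∑ n ∈ T, prI i0 n * prI i1 n * w n ≤ 4 * (1 + δ) * (s ^ 2 * V) := by
    intro i0 hi0 i1 hi1 hne
    refine (h5 i0 hi0 i1 hi1 hne).trans (le_of_eq ?_)
    have hk2 : 2 ≤ R.k := by
      rw [← hcard]
      exact Finset.one_lt_card.2 ⟨i0, hi0, i1, hi1, hne⟩
    have e1 : G2 ^ R.k = G2 ^ (R.k - 2) * G2 ^ 2 := by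
      rw [← pow_add, Nat.sub_add_cancel hk2]
    rw [hVdef, hs, e1]
    field_simp
  -- the counts
  set N : Fin (4 * m - 3) → ℕ → ℕ := fun j n => ((h j).filter fun a => (n + a).Prime).card with hNdef
  have hsub : ∀ j, h j ⊆ H := fun j => Finset.subset_biUnion_of_mem h (mem_univ j)
  have hcnt : ∀ (A : Finset ℕ) n, ((A.filter fun a => (n + a).Prime).card : ℝ) = ∑ a ∈ A, prI a n := by
    intro A n
    unfold prI
    rw [Finset.sum_boole]
  have hN1 : ∀ j, (1 - δ) * (S * V) ≤ ∑ n ∈ T, w n * (N j n : ℝ) := by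
    intro j
    have e1 : ∑ n ∈ T, w n * (N j n : ℝ) = ∑ a ∈ h j, ∑ n ∈ T, prI a n * w n := by
      rw [Finset.sum_comm]
      refine Finset.sum_congr rfl fun n _ => ?_
      rw [hNdef]
      simp only
      rw [hcnt, Finset.mul_sum]
      exact Finset.sum_congr rfl fun a _ => mul_comm _ _
    rw [e1]
    have h6 := Finset.sum_le_sum fun a (ha : a ∈ h j) => h3' a (hsub j ha)
    rw [Finset.sum_const, hc j, nsmul_eq_mul] at h6
    refine le_trans (le_of_eq ?_) h6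
    rw [hSdef]
    ring
  have hN2 : ∀ j, ∑ n ∈ T, w n * (N j n : ℝ) ^ 2 ≤ ∑ n ∈ T, w n * (N j n : ℝ) + 4 * (1 + δ) * (S ^ 2 * V) := by
    intro j
    have e1 : ∀ n, w n * (N j n : ℝ) ^ 2 = w n * (N j n : ℝ) +
        ∑ a ∈ h j, ∑ b ∈ (h j).erase a, prI a n * prI b n * w n := by
      intro n
      have e2 : (N j n : ℝ) ^ 2 = ∑ a ∈ h j, ∑ b ∈ h j, prI a n * prI b n := by
        rw [hNdef]
        simp only
        rw [hcnt, sq, Finset.sum_mul_sum]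
      have e3 : ∀ a ∈ h j, ∑ b ∈ h j, prI a n * prI b n =
          prI a n + ∑ b ∈ (h j).erase a, prI a n * prI b n := by
        intro a ha
        rw [← Finset.add_sum_erase _ _ ha]
        congr 1
        unfold prI
        split_ifs <;> norm_num
      rw [e2, Finset.sum_congr rfl e3, Finset.sum_add_distrib, mul_add]
      congr 1
      · rw [hNdef]
        simp only
        rw [hcnt]
      · rw [Finset.mul_sum]
        refine Finset.sum_congr rfl fun a _ => ?_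
        rw [Finset.mul_sum]
        exact Finset.sum_congr rfl fun b _ => mul_comm _ _
    rw [Finset.sum_congr rfl fun n _ => e1 n, Finset.sum_add_distrib]
    refine add_le_add le_rfl ?_
    rw [Finset.sum_comm]
    have h6 : ∀ a ∈ h j, ∑ n ∈ T, ∑ b ∈ (h j).erase a, prI a n * prI b n * w n ≤
        k0 * (4 * (1 + δ) * (s ^ 2 * V)) := by
      intro a ha
      rw [Finset.sum_comm]
      have h7 := Finset.sum_le_sum fun b (hb : b ∈ (h j).erase a) =>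
        h5' a (hsub j ha) b (hsub j (Finset.mem_of_mem_erase hb)) (Finset.ne_of_mem_erase hb).symm
      rw [Finset.sum_const, nsmul_eq_mul] at h7
      refine h7.trans (mul_le_mul_of_nonneg_right ?_ (by positivity))
      have h8 : ((h j).erase a).card ≤ (h j).card := Finset.card_le_card (Finset.erase_subset _ _)
      rw [hc j] at h8
      exact_mod_cast h8
    have h9 := Finset.sum_le_sum h6
    rw [Finset.sum_const, hc j, nsmul_eq_mul] at h9
    refine h9.trans (le_of_eq ?_)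
    rw [hSdef]
    ring
  -- the parameter t
  set t : ℝ := 1 / (4 * (1 + δ) * S) with ht
  have htp : 0 < t := by positivity
  have htδ : t ≤ δ := by
    rw [ht, div_le_iff₀ (by positivity)]
    exact hbig
  have ht2 : 0 ≤ 2 * t - t ^ 2 := by nlinarith
  have hB1' : 1 ≤ R.B := by omega
  have hBR : (1 : ℝ) ≤ (R.B : ℝ) := by exact_mod_cast hB1'
  have hM0R : (0 : ℝ) < M0 := by exact_mod_cast hM0
  have hreal := F2_real (B := R.B) hm hRB hδ hδB hSp ht htδ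
  set NK : ℕ → ℕ := fun n => (K.filter fun a => (n + a).Prime).card with hNK
  set Nr : ℕ → ℕ := fun n => (K.filter fun a => ∀ p ∈ P0 z p1, ¬ p ∣ n + a).card with hNr
  have hA1 : ∑ n ∈ T, w n ≤ (1 + δ) * V := h1
  have hA3 : ∑ n ∈ T, w n * (NK n : ℝ) ≤ δ * V := by
    have e1 : ∑ n ∈ T, w n * (NK n : ℝ) = ∑ a ∈ K, ∑ n ∈ T, prI a n * w n := by
      rw [Finset.sum_comm]
      refine Finset.sum_congr rfl fun n _ => ?_
      rw [hNK]
      simp only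
      rw [hcnt, Finset.mul_sum]
      exact Finset.sum_congr rfl fun a _ => mul_comm _ _
    rw [e1]
    exact h4
  have hA4 : (R.B : ℝ) / M0 * ∑ n ∈ T, w n * (Nr n : ℝ) ≤ R.B * δ * V := by
    refine (mul_le_mul_of_nonneg_left h2 (by positivity)).trans ?_
    calc (R.B : ℝ) / M0 * ((2 * R.A2 ^ R.I2 + 16 * (Λ * R.q) + 1) * V) =
          (R.B : ℝ) * (2 * R.A2 ^ R.I2 + 16 * (Λ * R.q) + 1) / M0 * V := by ring
      _ ≤ δ * V := by
          refine mul_le_mul_of_nonneg_right ?_ hV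
          rw [div_le_iff₀ hM0R]
          exact hM0k
      _ ≤ R.B * δ * V := by
          refine mul_le_mul_of_nonneg_right ?_ hV
          nlinarith
  have hdiff : 1 / 8 * V ≤ ∑ n ∈ T, w n * (∑ j, (2 * t * N j n - t ^ 2 * (N j n : ℝ) ^ 2) - (m - 1) -
      R.B * NK n - R.B / M0 * Nr n) := by
    have e1 : ∑ n ∈ T, w n * (∑ j, (2 * t * N j n - t ^ 2 * (N j n : ℝ) ^ 2) - (m - 1) -
        R.B * NK n - R.B / M0 * Nr n) =
        ∑ j, (2 * t * ∑ n ∈ T, w n * (N j n : ℝ) - t ^ 2 * ∑ n ∈ T, w n * (N j n : ℝ) ^ 2) -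
          (m - 1) * ∑ n ∈ T, w n - R.B * ∑ n ∈ T, w n * (NK n : ℝ) -
          R.B / M0 * ∑ n ∈ T, w n * (Nr n : ℝ) := by
      have e2 : ∑ j, (2 * t * ∑ n ∈ T, w n * (N j n : ℝ) - t ^ 2 * ∑ n ∈ T, w n * (N j n : ℝ) ^ 2) =
          ∑ n ∈ T, w n * ∑ j, (2 * t * N j n - t ^ 2 * (N j n : ℝ) ^ 2) := by
        simp only [Finset.mul_sum]
        rw [Finset.sum_comm]
        refine Finset.sum_congr rfl fun j _ => ?_
        rw [← Finset.sum_sub_distrib]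
        refine Finset.sum_congr rfl fun n _ => ?_
        ring
      rw [e2, Finset.mul_sum, Finset.mul_sum, Finset.mul_sum, ← Finset.sum_sub_distrib,
        ← Finset.sum_sub_distrib, ← Finset.sum_sub_distrib]
      refine Finset.sum_congr rfl fun n _ => ?_
      ring
    rw [e1]
    have hj : ∀ j, (2 * t - t ^ 2) * ((1 - δ) * S) * V - t ^ 2 * (4 * (1 + δ) * S ^ 2) * V ≤
        2 * t * ∑ n ∈ T, w n * (N j n : ℝ) - t ^ 2 * ∑ n ∈ T, w n * (N j n : ℝ) ^ 2 := by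
      intro j
      have h6 := mul_le_mul_of_nonneg_left (hN1 j) ht2
      have h7 := mul_le_mul_of_nonneg_left (hN2 j) (sq_nonneg t)
      nlinarith
    have h8 := Finset.sum_le_sum fun j (_ : j ∈ (univ : Finset (Fin (4 * m - 3)))) => hj j
    have hRB' : ((4 * m - 3 : ℕ) : ℝ) = (R.B : ℝ) := by rw [hRB]
    rw [Finset.sum_const, Finset.card_univ, Fintype.card_fin, nsmul_eq_mul, hRB'] at h8
    have h9 := mul_le_mul_of_nonneg_right hreal hV
    have hm1 : (0 : ℝ) ≤ (m : ℝ) - 1 := by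
      have : (1 : ℝ) ≤ m := by exact_mod_cast hm
      linarith
    have h10 := mul_le_mul_of_nonneg_left hA1 hm1
    have h11 := mul_le_mul_of_nonneg_left hA3 (by linarith : (0 : ℝ) ≤ R.B)
    nlinarith
  have hpt : ∀ n ∈ T, w n * (∑ j, (2 * t * N j n - t ^ 2 * (N j n : ℝ) ^ 2) - (m - 1) -
      R.B * NK n - R.B / M0 * Nr n) ≤ R.B * bdG R M0 B ^ 2 *
        (rhoP (P0 z p1) H n * if m ≤ (univ.filter fun j => ∃ a ∈ h j, (n + a).Prime).card ∧
          (∀ a ∈ K, ¬ (n + a).Prime) ∧ (K.filter fun a => ∀ p ∈ P0 z p1, ¬ p ∣ n + a).card ≤ M0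
          then 1 else 0) := by
    intro n hn
    have h6 := F2_point (B := 4 * m - 3) (m := m) (fun j => N j n) (NK n) (Nr n) M0 hM0 hm htp.le
      (w := w n) (rho := rhoP (P0 z p1) H n) (Bd := bdG R M0 B ^ 2) (hw0 n) (rhoP_nonneg (P0 z p1) H n).1
      (sq_nonneg _) (fun hM => PsG_sq_le hp hBs hB1 hS hcard (fun y hy => (hxs y hy).1) hn hM)
    have e1 : (univ.filter fun j : Fin (4 * m - 3) => 1 ≤ N j n) =
        univ.filter fun j => ∃ a ∈ h j, (n + a).Prime := by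
      refine Finset.filter_congr fun j _ => ?_
      rw [hNdef]
      simp only
      rw [Nat.one_le_iff_ne_zero, ← Nat.pos_iff_ne_zero, Finset.card_pos, Finset.filter_nonempty_iff]
    have e2 : NK n = 0 ↔ ∀ a ∈ K, ¬ (n + a).Prime := by
      rw [hNK]
      simp only
      rw [Finset.card_eq_zero, Finset.filter_eq_empty_iff]
    have hRB' : ((4 * m - 3 : ℕ) : ℝ) = (R.B : ℝ) := by rw [hRB]
    simp only [e1, e2, hRB'] at h6
    exact h6
  have hfin := hdiff.trans (Finset.sum_le_sum hpt)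
  rw [← Finset.mul_sum] at hfin
  have hBd : 0 < bdG R M0 B := by
    unfold bdG
    have : 0 < B := by linarith
    positivity
  have hVV : VP (P0 z p1) H / Wp z p1 * (z : ℝ) ^ R.q ≤ V := by
    have e1 : VP (P0 z p1) H / Wp z p1 * (z : ℝ) ^ R.q = NW R z p1 * VP (P0 z p1) H := by
      unfold NW
      ring
    rw [e1, hVdef]
    refine mul_le_mul_of_nonneg_left ?_ hN.le
    calc VP (P0 z p1) H ≤ DK := hDK
      _ = 1 * DK := (one_mul _).symm
      _ ≤ G2 ^ R.k * DK := mul_le_mul_of_nonneg_right (one_le_pow₀ hG21) hDK0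
  have hBB : (0 : ℝ) < 8 * R.B * bdG R M0 B ^ 2 := by positivity
  rw [mul_assoc, one_div, inv_mul_le_iff₀ hBB]
  refine (hVV.trans ?_)
  have h12 : V = 8 * (1 / 8 * V) := by ring
  rw [h12]
  refine (mul_le_mul_of_nonneg_left hfin (by norm_num)).trans (le_of_eq ?_)
  ring

end Pool.Agent.LibGL22
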