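import Pool.Agent.LibGL22.Defs
import Pool.Agent.LibPL63.M8

/-!
Row PR (existence of the parameters). Copy of the finished `LibSC93/S5.lean` (`paramsS`): `M, D, B, a, I, A2` fixed; `I2` with `hcD` and `kill`; then `r0 → ∞`: `b0 = 2 R.u → ∞` linearly in `r0`, `R.n`, `R.K`, `R.k` are fixed and `R.q`, `R.k1` are linear in `r0`,
so `R.e * (10^5 Cm Λ R.q)` is `eps0 Cq (2 R.n) (2 R.u)` times a polynomial in `r0`, and tends to `0`.
-/

open Finset Filter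

namespace Pool.Agent.LibGL22

open Pool.Agent.LibRG87 Pool.Agent.LibLG5 Pool.Agent.LibPL63 Pool.Agent.LibSC93

private theorem PR_tend (K X : ℝ) :
    Tendsto (fun n : ℕ => K * (X ^ n / (n.factorial : ℝ))) atTop (nhds 0) := by
  have h := (FloorSemiring.tendsto_pow_div_factorial_atTop X).const_mul K
  rwa [mul_zero] at h

theorem paramsG (C Cq Cm a A2 : ℕ) (c cD : ℝ) (hs : SumsP a C c) (hq : QFRp Cq) (hCq : 1 ≤ Cq)
    (hdn : DnP A2 cD) (hm : MertP Cm) (M D B I : ℕ) (δ : ℝ) (hB : 1 ≤ B) (hδ : 0 < δ) (hδ1 : δ ≤ 1 / 8)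
    (hD : (128 * C : ℝ) ≤ δ * c * D) (hD1 : 1 ≤ D) (hM : 60 ≤ δ * M) (hI : 1 ≤ I) (Λ : ℝ) (hΛ : 1 ≤ Λ) :
    ∃ I2 r0 : ℕ, ParG ⟨M, D, B, a, I, A2, I2, r0⟩ C Cq Cm c cD Λ δ := by
  have ha : 2 ≤ a := hs.1
  have hA2 : 2 ≤ A2 := hdn.1
  have hcD0 : 0 < cD := hdn.2.1
  have hΛ0 : 0 < Λ := by linarith
  have hM1 : 1 ≤ M := by
    by_contra h0
    have h1 : M = 0 := by omega
    rw [h1] at hM
    norm_num at hM
  set kk := B * a ^ I with hkk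
  -- choice of `I2`
  obtain ⟨n1, hn1⟩ := exists_nat_ge (1 / cD)
  obtain ⟨n2, hn2⟩ := exists_nat_ge
    ((10 ^ 8 * Cm * Λ ^ 2 * (M * D * kk * (I + 1)) : ℝ) / (δ * cD))
  set I2 := 1 + n1 + n2 with hI2
  have hI2a : (n1 : ℝ) ≤ I2 := by exact_mod_cast (by omega : n1 ≤ I2)
  have hI2b : (n2 : ℝ) ≤ I2 := by exact_mod_cast (by omega : n2 ≤ I2)
  have hcDI : 1 ≤ cD * I2 := by
    have h1 := hn1.trans hI2a
    rw [div_le_iff₀ hcD0] at h1
    linarith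
  have hkill : 10 ^ 8 * Cm * Λ ^ 2 * (M * D * kk * (I + 1)) ≤ δ * (cD * I2) := by
    have h1 := hn2.trans hI2b
    rw [div_le_iff₀ (mul_pos hδ hcD0)] at h1
    calc _ ≤ (I2 : ℝ) * (δ * cD) := h1
      _ = δ * (cD * I2) := by ring
  -- the constants
  set K := kk + 2 * A2 ^ I2 with hK
  set k := kk + 1 + 2 * K with hk
  set s := D * kk * (I + 1) * A2 ^ I2 with hsdef
  have hs1 : 1 ≤ s := by
    have h1 : 0 < D := hD1
    have h2 : 0 < a := by omega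
    have h3 : 0 < A2 := by omega
    have h4 : 0 < B := hB
    have : 0 < s := by
      rw [hsdef, hkk]
      positivity
    exact this
  set X : ℝ := (Cq : ℝ) * ((2 * k : ℕ) : ℝ) with hX
  have hX0 : 0 ≤ X := by positivity
  set K1 : ℝ := (Cq : ℝ) * Real.exp X with hK1
  have hK10 : 0 ≤ K1 := by positivity
  set m1 := Cq * (k + 1) ^ 2 with hm1
  set m2 := 2 * K with hm2
  set B1 : ℝ := ((Cq * (M * s) : ℕ) : ℝ) with hB1
  set B2 : ℝ := 1 + (kk : ℝ) + 16 * Λ * (M * (s : ℝ)) with hB2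
  set B3 : ℝ := 10 ^ 5 * Cm * Λ * (4 * M * (s : ℝ)) with hB3
  have hB10 : 0 ≤ B1 := by positivity
  have hB20 : 0 ≤ B2 := by positivity
  have hB30 : 0 ≤ B3 := by positivity
  set ME := m1 + m2 + 1 with hME
  have h1 := (PR_tend K1 X).eventually_lt_const (zero_lt_one)
  have h2 := (PR_tend (K1 * (B1 ^ m1 * B2 ^ m2 * B3) * (ME.factorial : ℝ))
    (Real.exp 1 * X)).eventually_lt_const hδ
  obtain ⟨N1, hN1⟩ := eventually_atTop.1 h1
  obtain ⟨N2, hN2⟩ := eventually_atTop.1 h2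
  set r0 := 1 + N1 + N2 with hr0
  set N := 2 * (s * r0) + 1 with hN
  have hNq : r0 ≤ N := by
    have : r0 ≤ s * r0 := Nat.le_mul_of_pos_left _ hs1
    omega
  have hr1 : (1 : ℝ) ≤ r0 := by exact_mod_cast (by omega : 1 ≤ r0)
  set R : Prm := ⟨M, D, B, a, I, A2, I2, r0⟩ with hR
  have hRk : R.k = kk := rfl
  have hRK : R.K = K := rfl
  have hRn : R.n = k := rfl
  have hRu : R.u = s * r0 := by
    show D * kk * (I + 1) * (A2 ^ I2 * r0) = s * r0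
    rw [hsdef]
    ring
  have hRq : R.q = 4 * M * (s * r0) := by
    show 4 * M * R.u = _
    rw [hRu]
  have hRk1 : R.k1 = M * (s * r0) := by
    show M * R.u = _
    rw [hRu]
  have heps : eps0 Cq (2 * k) (2 * (s * r0)) = K1 * (X ^ N / (N.factorial : ℝ)) := by
    unfold eps0
    rw [hK1, hN, ← hX]
    ring
  have heps1 : eps0 Cq (2 * k) (2 * (s * r0)) ≤ 1 := by
    rw [heps]
    exact (hN1 N (by omega)).le
  have hfac : (0 : ℝ) < (N.factorial : ℝ) := by exact_mod_cast Nat.factorial_pos N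
  have heps0 : 0 ≤ K1 * (X ^ N / (N.factorial : ℝ)) := by positivity
  have hpoly : ((Cq * (M * (s * r0)) : ℕ) : ℝ) ^ m1 *
      (1 + ((kk : ℝ) + 4 * Λ * ((4 * M * (s * r0) : ℕ) : ℝ))) ^ m2 *
      (10 ^ 5 * Cm * Λ * ((4 * M * (s * r0) : ℕ) : ℝ)) ≤
      (B1 ^ m1 * B2 ^ m2 * B3) * ((ME.factorial : ℝ) * Real.exp 1 ^ N) := by
    have e1 : ((Cq * (M * (s * r0)) : ℕ) : ℝ) = B1 * r0 := by
      rw [hB1]
      push_cast
      ring
    have e2 : (1 + ((kk : ℝ) + 4 * Λ * ((4 * M * (s * r0) : ℕ) : ℝ))) ≤ B2 * r0 := by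
      rw [hB2]
      push_cast
      have h3 : (0 : ℝ) ≤ 1 + (kk : ℝ) := by positivity
      nlinarith
    have e3 : (10 ^ 5 * Cm * Λ * ((4 * M * (s * r0) : ℕ) : ℝ) : ℝ) = B3 * r0 := by
      rw [hB3]
      push_cast
      ring
    have e4 : (0 : ℝ) ≤ 1 + ((kk : ℝ) + 4 * Λ * ((4 * M * (s * r0) : ℕ) : ℝ)) := by positivity
    have h6 : (r0 : ℝ) ^ ME ≤ (ME.factorial : ℝ) * Real.exp 1 ^ N := by
      have h7 : (r0 : ℝ) ^ ME ≤ (N : ℝ) ^ ME :=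
        pow_le_pow_left₀ (Nat.cast_nonneg _) (by exact_mod_cast hNq) ME
      have h8 := Real.pow_div_factorial_le_exp (N : ℝ) (Nat.cast_nonneg _) ME
      have hmf : (0 : ℝ) < (ME.factorial : ℝ) := by exact_mod_cast Nat.factorial_pos ME
      rw [div_le_iff₀ hmf] at h8
      rw [← Real.exp_nat_mul, mul_one]
      linarith
    rw [e1, e3]
    calc (B1 * r0) ^ m1 * (1 + ((kk : ℝ) + 4 * Λ * ((4 * M * (s * r0) : ℕ) : ℝ))) ^ m2 * (B3 * r0)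
        ≤ (B1 * r0) ^ m1 * (B2 * r0) ^ m2 * (B3 * r0) := by
          gcongr
      _ = (B1 ^ m1 * B2 ^ m2 * B3) * (r0 : ℝ) ^ ME := by
          rw [hME, mul_pow, mul_pow, pow_add, pow_add]
          ring
      _ ≤ _ := by gcongr
  refine ⟨I2, r0, ⟨hs, hq, hCq, hdn, hm, hΛ, hB, hδ, hδ1, hD, hD1, hM, hI, ?_, hcDI, ?_, hkill, ?_, ?_⟩⟩
  · show 1 ≤ I2
    omega
  · show 1 ≤ r0
    omega
  · show eps0 Cq (2 * R.n) (2 * R.u) ≤ 1
    rw [hRn, hRu]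
    exact heps1
  · show R.e Cq Λ * (10 ^ 5 * Cm * Λ * R.q) ≤ δ
    unfold Prm.e
    rw [hRn, hRu, hRk1, hRk, hRq, hRK, heps, ← hm1, ← hm2]
    calc K1 * (X ^ N / (N.factorial : ℝ)) * ((Cq * (M * (s * r0)) : ℕ) : ℝ) ^ m1 *
          (1 + ((kk : ℝ) + 4 * Λ * ((4 * M * (s * r0) : ℕ) : ℝ))) ^ m2 *
          (10 ^ 5 * Cm * Λ * ((4 * M * (s * r0) : ℕ) : ℝ))
        = K1 * (X ^ N / (N.factorial : ℝ)) * (((Cq * (M * (s * r0)) : ℕ) : ℝ) ^ m1 *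
          (1 + ((kk : ℝ) + 4 * Λ * ((4 * M * (s * r0) : ℕ) : ℝ))) ^ m2 *
          (10 ^ 5 * Cm * Λ * ((4 * M * (s * r0) : ℕ) : ℝ))) := by ring
      _ ≤ K1 * (X ^ N / (N.factorial : ℝ)) *
          ((B1 ^ m1 * B2 ^ m2 * B3) * ((ME.factorial : ℝ) * Real.exp 1 ^ N)) := by
          gcongr
      _ = K1 * (B1 ^ m1 * B2 ^ m2 * B3) * (ME.factorial : ℝ) *
          ((Real.exp 1 * X) ^ N / (N.factorial : ℝ)) := by
          rw [mul_pow (Real.exp 1)]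
          ring
      _ ≤ δ := (hN2 N (by omega)).le

end Pool.Agent.LibGL22
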