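import Pool.Agent.LibGL22.F3
import Pool.Agent.LibGL22.PR
import Pool.Agent.LibGL22.N3

/-!
Row F4 (`BCb (4 m - 3) m` of LibGL22T/Defs.lean, assembly and choice of the parameters). As `scg` in LibSC93/S7.lean: `a, C, c` from `sums`, `Cq` from `qfrp`, `A2, cD` from `dnp`, `Cm` from `mertp`; `B = 4m - 3`, `δ = 1/(100 B)`, `D`, `M` from `hD`, `hM`, `I` with
`8 C M D B (I+1) ≤ δ c² I²/…` so that `δ 4 (1+δ) a^I vG G1²/G2 ≥ 1` (`vG ≥ 1/(2q)` (`vG_facts`), `G1 ≥ c I q0`, `G2 ≤ C q0` (`sums_PL`), `q = 4 M D B a^I (I+1) q0`: `a^I vG G1²/G2 ≥ c² I²/(8 C M D B (I+1))`); `k0 = a^I`;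
for `Λ`: `paramsG`; `q = R.q`, `M0`; `p1` a prime `> z` (`Nat.exists_infinite_primes (z + 1)`); the sides `side1` … `side5`; `core`. `(univ.biUnion h).card = B a^I` (`Finset.card_biUnion`).
-/

open Finset Filter

namespace Pool.Agent.LibGL22

open Pool.Agent.LibRG87 Pool.Agent.LibLG5 Pool.Agent.LibPL63 Pool.Agent.LibSC93 Pool.Agent.LibBW4

theorem bcg (hBV : BVprimes) (m : ℕ) (hm : 1 ≤ m) : LibGL22T.BCb (4 * m - 3) m := by
  classical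
  obtain ⟨a, C, c, hs⟩ := sums
  obtain ⟨Cq, hCq1, hQ⟩ := qfrp
  obtain ⟨C0, hC01, hC0⟩ := NT_S_upper
  obtain ⟨A2, cD, hdn⟩ := dnp
  obtain ⟨Cm, hmert⟩ := mertp
  obtain ⟨ha, hC1, hc, hc1, hsum⟩ := id hs
  obtain ⟨B, hB⟩ : ∃ B : ℕ, B = 4 * m - 3 := ⟨_, rfl⟩
  have hB1 : 1 ≤ B := by omega
  have hBR : (1 : ℝ) ≤ (B : ℝ) := by exact_mod_cast hB1
  obtain ⟨δ, hδdef⟩ : ∃ δ : ℝ, δ = 1 / (100 * B) := ⟨_, rfl⟩
  have hδ : 0 < δ := by rw [hδdef]; positivity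
  have hδB : 100 * (B : ℝ) * δ = 1 := by
    rw [hδdef]
    field_simp
  have hδ1 : δ ≤ 1 / 8 := by nlinarith
  have hCR : (1 : ℝ) ≤ (C : ℝ) := by exact_mod_cast hC1
  have hδc : 0 < δ * c := by positivity
  obtain ⟨D, hD⟩ := exists_nat_ge (128 * (C : ℝ) / (δ * c))
  have hD' : (128 * C : ℝ) ≤ δ * c * D := by
    rw [div_le_iff₀ hδc] at hD
    linarith
  have hD1 : 1 ≤ D := by
    rcases Nat.eq_zero_or_pos D with h0 | h0
    · exfalso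
      rw [h0] at hD'
      simp only [Nat.cast_zero, mul_zero] at hD'
      linarith
    · exact h0
  obtain ⟨M, hM⟩ := exists_nat_ge (60 / δ)
  have hM' : 60 ≤ δ * M := by
    rw [div_le_iff₀ hδ] at hM
    linarith
  obtain ⟨I, hI1, hI⟩ : ∃ I : ℕ, 1 ≤ I ∧
      8 * (C : ℝ) * M * D * B * ((I : ℝ) + 1) ≤ 4 * δ * c ^ 2 * (I : ℝ) ^ 2 := by
    obtain ⟨I, hI⟩ := exists_nat_ge (4 * (C : ℝ) * M * D * B / (δ * c ^ 2))
    have hc2 : 0 < δ * c ^ 2 := by positivity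
    rw [div_le_iff₀ hc2] at hI
    refine ⟨I + 1, by omega, ?_⟩
    have h0 : (0 : ℝ) ≤ (I : ℝ) := Nat.cast_nonneg I
    have h1 : (0 : ℝ) ≤ (C : ℝ) * M * D * B := by positivity
    push_cast
    have h2 : 4 * (C : ℝ) * M * D * B ≤ ((I : ℝ) + 1) * (δ * c ^ 2) := by
      refine hI.trans ?_
      exact mul_le_mul_of_nonneg_right (by linarith) hc2.le
    have h3 : 8 * (C : ℝ) * M * D * B * ((I : ℝ) + 1 + 1) ≤
        4 * (4 * (C : ℝ) * M * D * B) * ((I : ℝ) + 1) := by nlinarith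
    refine h3.trans ?_
    have h4 := mul_le_mul_of_nonneg_right h2 (by linarith : (0 : ℝ) ≤ (I : ℝ) + 1)
    have h5 : ((I : ℝ) + 1) * (δ * c ^ 2) * ((I : ℝ) + 1) = δ * c ^ 2 * ((I : ℝ) + 1) ^ 2 := by ring
    rw [h5] at h4
    linarith
  have hapos : 1 ≤ a ^ I := Nat.pos_of_ne_zero (pow_ne_zero _ (by omega))
  refine ⟨a ^ I, hapos, fun Λ hΛ => ?_⟩
  obtain ⟨I2, r0, hp⟩ := paramsG C Cq Cm a A2 c cD hs (hQ Cq le_rfl) hCq1 hdn hmert M D B I δ hB1 hδ hδ1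
    hD' hD1 hM' hI1 Λ hΛ
  obtain ⟨R, hR⟩ : ∃ R : Prm, R = ⟨M, D, B, a, I, A2, I2, r0⟩ := ⟨_, rfl⟩
  have hRM : R.M = M := by rw [hR]
  have hRD : R.D = D := by rw [hR]
  have hRB : R.B = B := by rw [hR]
  have hRa : R.a = a := by rw [hR]
  have hRI : R.I = I := by rw [hR]
  rw [← hR] at hp
  obtain ⟨hq0, hk, hu, _, hq0u, _, hk2, hk21, huk, hk1q, _, _⟩ := prm_le hp
  have hq : 1 ≤ R.q := by omega
  have hk1 : 1 ≤ R.k1 := by omega
  have hqR : (1 : ℝ) ≤ (R.q : ℝ) := by exact_mod_cast hq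
  obtain ⟨M0, hM0⟩ := exists_nat_ge ((R.B : ℝ) * (2 * R.A2 ^ R.I2 + 16 * (Λ * R.q) + 1) / δ)
  have hM0' : (R.B : ℝ) * (2 * R.A2 ^ R.I2 + 16 * (Λ * R.q) + 1) ≤ δ * M0 := by
    rw [div_le_iff₀ hδ] at hM0
    linarith
  have hM0pos : 1 ≤ M0 := by
    have h1 : (0 : ℝ) < (R.B : ℝ) * (2 * R.A2 ^ R.I2 + 16 * (Λ * R.q) + 1) := by
      have h2 : (0 : ℝ) < (R.B : ℝ) := by rw [hRB]; linarith
      have h3 : (0 : ℝ) ≤ 2 * (R.A2 : ℝ) ^ R.I2 := by positivity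
      have h4 : 0 ≤ 16 * (Λ * R.q) := by
        have : 0 ≤ Λ := by linarith
        positivity
      refine mul_pos h2 (by linarith)
    have h5 : 0 < δ * (M0 : ℝ) := h1.trans_le hM0'
    have h6 : (0 : ℝ) < M0 := (mul_pos_iff_of_pos_left hδ).1 h5
    exact_mod_cast h6
  set Bd : ℝ := C0 * (R.k1 : ℝ) with hBdef
  have hBd1 : 1 ≤ Bd := by
    have h1 : (1 : ℝ) ≤ (C0 : ℝ) := by exact_mod_cast hC01
    have h2 : (1 : ℝ) ≤ (R.k1 : ℝ) := by exact_mod_cast hk1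
    rw [hBdef]
    nlinarith
  have hbd : 0 < bdG R M0 Bd := by
    unfold bdG
    have : 0 < Bd := by linarith
    positivity
  refine ⟨R.q, M0, 1 / (8 * R.B * bdG R M0 Bd ^ 2), hq, ?_, ?_⟩
  · have h2 : (0 : ℝ) < (R.B : ℝ) := by rw [hRB]; linarith
    positivity
  have hkk : R.q0 * a ^ I ≤ R.k1 := by
    rw [hRa, hRI] at hq0u
    exact hq0u.trans huk
  have hall := (side1 hp).and ((side2 hp).and ((side3 hBV hp).and ((side4 hBV hp).and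
    ((side5 hBV hp).and ((sums_PL hs I R.q0 R.k1 hI1 hq0 hkk).and ((hC0 R.k1 hk1).and
      ((baseG hp 1 zero_lt_one).and (vG_facts hq hp.mert))))))))
  obtain ⟨z0, hz0⟩ := eventually_atTop.1 hall
  refine ⟨z0, fun z hz => ?_⟩
  obtain ⟨h1, h2, h3, h4, h5, hsz, hSz, hBs, hvz⟩ := hz0 z hz
  obtain ⟨p1, hp1z, hp1⟩ := Nat.exists_infinite_primes (z + 1)
  refine ⟨p1, hp1, fun c0 h K hcard hdis hdisK hh hK => ?_⟩
  have hcardH : (univ.biUnion h).card = R.k := by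
    rw [Finset.card_biUnion fun i _ j _ hij => hdis hij, Finset.sum_congr rfl fun j _ => hcard j,
      Finset.sum_const, Finset.card_univ, Fintype.card_fin, smul_eq_mul]
    show _ = R.B * R.a ^ R.I
    rw [hRB, hRa, hRI, hB]
  have hpos : PosS z p1 c0 R.k (Λ * R.q) (univ.biUnion h) K :=
    ⟨hcardH, hdisK, hh, by rw [← mul_assoc]; exact hK⟩
  obtain ⟨hs1, _, _, hs2, _⟩ := hsz p1
  obtain ⟨hv1, _, _, hNW, _⟩ := hvz p1 hp1
  have hG1 : c * I * R.q0 ≤ G1G R z p1 := by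
    unfold G1G PG
    rw [hRa, hRI]
    exact hs1
  have hG2 : G2G R z p1 ≤ C * R.q0 := by
    unfold G2G PG
    rw [hRa, hRI]
    exact hs2
  obtain ⟨_, hG21⟩ := one_le_G (hBs p1)
  have hvpos : 0 < vG R z p1 := lt_of_lt_of_le (by positivity) hv1
  have hbig : 1 ≤ δ * (4 * (1 + δ) * (((a ^ I : ℕ) : ℝ) * (vG R z p1 * G1G R z p1 ^ 2 / G2G R z p1))) := by
    have hkR : (1 : ℝ) ≤ ((a ^ I : ℕ) : ℝ) := by exact_mod_cast hapos
    have hq0R : (1 : ℝ) ≤ (R.q0 : ℝ) := by exact_mod_cast hq0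
    have hMR : (0 : ℝ) < (M : ℝ) := by
      by_contra h6
      have : (M : ℝ) ≤ 0 := not_lt.1 h6
      nlinarith
    have hDR : (0 : ℝ) < (D : ℝ) := by exact_mod_cast hD1
    have hIR : (0 : ℝ) < (I : ℝ) := by exact_mod_cast hI1
    have hqe : (R.q : ℝ) = 4 * M * (D * (B * ((a ^ I : ℕ) : ℝ)) * (I + 1) * R.q0) := by
      unfold Prm.q Prm.u Prm.k
      rw [hRM, hRD, hRB, hRa, hRI]
      push_cast
      ring
    have e1 : 1 / (2 * (R.q : ℝ)) * (c * I * R.q0) ^ 2 / (C * R.q0) ≤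
        vG R z p1 * G1G R z p1 ^ 2 / G2G R z p1 := by
      have h6 : (c * I * R.q0) ^ 2 ≤ G1G R z p1 ^ 2 := pow_le_pow_left₀ (by positivity) hG1 2
      have h7 : 1 / (2 * (R.q : ℝ)) * (c * I * R.q0) ^ 2 ≤ vG R z p1 * G1G R z p1 ^ 2 :=
        mul_le_mul hv1 h6 (sq_nonneg _) hvpos.le
      exact div_le_div₀ (by positivity) h7 (by linarith) hG2
    have e2 : ((a ^ I : ℕ) : ℝ) * (1 / (2 * (R.q : ℝ)) * (c * I * R.q0) ^ 2 / (C * R.q0)) =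
        c ^ 2 * I ^ 2 / (8 * C * M * D * B * (I + 1)) := by
      rw [hqe]
      have : (0 : ℝ) < ((a ^ I : ℕ) : ℝ) := by linarith
      have : (0 : ℝ) < (C : ℝ) := by linarith
      have : (0 : ℝ) < (B : ℝ) := by linarith
      field_simp
      ring
    have e3 := mul_le_mul_of_nonneg_left e1 (by linarith : (0 : ℝ) ≤ ((a ^ I : ℕ) : ℝ))
    rw [e2] at e3
    have e4 : 1 ≤ 4 * δ * (c ^ 2 * I ^ 2 / (8 * C * M * D * B * (I + 1))) := by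
      have : (0 : ℝ) < (C : ℝ) := by linarith
      have : (0 : ℝ) < (B : ℝ) := by linarith
      rw [← mul_div_assoc, le_div_iff₀ (by positivity), one_mul]
      refine hI.trans (le_of_eq ?_)
      ring
    have e5 := mul_le_mul_of_nonneg_left e3 (by positivity : (0 : ℝ) ≤ 4 * δ)
    have e6 : 0 ≤ ((a ^ I : ℕ) : ℝ) * (vG R z p1 * G1G R z p1 ^ 2 / G2G R z p1) := by
      have : 0 < G2G R z p1 := by linarith
      positivity
    have e7 : δ * (4 * (1 + δ) * (((a ^ I : ℕ) : ℝ) * (vG R z p1 * G1G R z p1 ^ 2 / G2G R z p1))) =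
        4 * δ * (((a ^ I : ℕ) : ℝ) * (vG R z p1 * G1G R z p1 ^ 2 / G2G R z p1)) +
        4 * δ ^ 2 * (((a ^ I : ℕ) : ℝ) * (vG R z p1 * G1G R z p1 ^ 2 / G2G R z p1)) := by ring
    rw [e7]
    have e8 : 0 ≤ 4 * δ ^ 2 * (((a ^ I : ℕ) : ℝ) * (vG R z p1 * G1G R z p1 ^ 2 / G2G R z p1)) := by
      positivity
    linarith
  exact core hp (hBs p1) hm (by rw [hRB, hB]) (by rw [hRa, hRI]) (by rw [hRB]; exact hδB.le) hM0pos hM0'
    hBd1 hSz hbig hNW hvpos hcard (fun i j hij => hdis hij) hpos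
    (h1 p1 hp1 c0 _ K hpos) (h2 p1 hp1 c0 _ K hpos) (fun i0 hi0 => h3 p1 hp1 c0 _ K hpos i0 hi0)
    (h4 p1 hp1 c0 _ K hpos)
    (fun i0 hi0 i1 hi1 hne => h5 p1 hp1 (by omega) c0 _ K hpos i0 hi0 i1 hi1 hne)

end Pool.Agent.LibGL22
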