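import Mathlib

/-!
Sets of reals which contain a difference of every set of `k + 1` reals: at least `1/k` of `[0, X]` for every `X`, and bounded gaps.
-/

open MeasureTheory

namespace Pool.Agent.LibGL22

/-- the points `x` of `(T, X]` with `x - a ∈ L` -/
private def L1S (L : Set ℝ) (T X a : ℝ) : Set ℝ := {x | x ∈ Set.Ioc T X ∧ x - a ∈ L}

private theorem L1_insert {L : Set ℝ} {s : Finset ℝ} {T x : ℝ} (hs : ∀ a ∈ s, ∀ b ∈ s, a < b → b - a ∉ L)
    (hT : ∀ a ∈ s, a ≤ T) (hx : T < x) (h : ∃ a ∈ insert x s, ∃ b ∈ insert x s, a < b ∧ b - a ∈ L) :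
    ∃ a ∈ s, x - a ∈ L := by
  obtain ⟨a, ha, b, hb, hab, hL⟩ := h
  rw [Finset.mem_insert] at ha hb
  rcases hb with rfl | hb
  · rcases ha with rfl | ha
    · exact absurd hab (lt_irrefl _)
    · exact ⟨a, ha, hL⟩
  · rcases ha with rfl | ha
    · have := hT b hb
      linarith
    · exact absurd hL (hs a ha b hb hab)

private theorem L1_cover {L : Set ℝ} {s : Finset ℝ} {T X : ℝ} (A : Set ℝ) (hA : A ⊆ Set.Ioc T X)
    (h : ∀ x ∈ A, ∃ a ∈ s, x - a ∈ L) : volume A ≤ ∑ a ∈ s, volume (A ∩ L1S L T X a) := by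
  have h1 : A ⊆ ⋃ a ∈ s, A ∩ L1S L T X a := by
    intro x hx
    obtain ⟨a, ha, hL⟩ := h x hx
    exact Set.mem_iUnion₂.2 ⟨a, ha, hx, hA hx, hL⟩
  exact (measure_mono h1).trans (measure_biUnion_finset_le s _)

private theorem L1_shift {L : Set ℝ} {T X a : ℝ} (h0 : 0 ≤ a) (ha : a ≤ T) :
    volume (L1S L T X a) ≤ volume (L ∩ Set.Icc 0 X) := by
  have h1 : L1S L T X a ⊆ (fun x => x - a) ⁻¹' (L ∩ Set.Icc 0 X) := by
    intro x hx
    obtain ⟨⟨h2, h3⟩, h4⟩ := hx
    exact ⟨h4, by
      show 0 ≤ x - a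
      linarith, by
      show x - a ≤ X
      linarith⟩
  refine (measure_mono h1).trans (le_of_eq ?_)
  have h2 : (fun x : ℝ => x - a) = fun x => x + (-a) := by
    funext x
    ring
  rw [h2]
  exact measure_preimage_add_right volume (-a) _

private theorem L1_main {L : Set ℝ} {k : ℕ} (hk : ∀ s : Finset ℝ, s.card = k + 1 → ∃ a ∈ s, ∃ b ∈ s, a < b ∧ b - a ∈ L)
    (X : ℝ) : ∀ (j : ℕ) (s : Finset ℝ) (T : ℝ), s.card + j = k → (∀ a ∈ s, ∀ b ∈ s, a < b → b - a ∉ L) →
      (∀ a ∈ s, 0 ≤ a ∧ a ≤ T) → 0 ≤ T → T ≤ X →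
      ENNReal.ofReal (X - T) ≤ ∑ a ∈ s, volume (L1S L T X a) + j * volume (L ∩ Set.Icc 0 X) := by
  intro j
  induction j with
  | zero =>
    intro s T hc hs hT h0 hTX
    have h1 := L1_cover (L := L) (s := s) (T := T) (X := X) (Set.Ioc T X) subset_rfl (fun x hx => by
      refine L1_insert hs (fun a ha => (hT a ha).2) hx.1 (hk _ ?_)
      rw [Finset.card_insert_of_notMem (fun h => by
        have := (hT x h).2
        linarith [hx.1])]
      omega)
    rw [Real.volume_Ioc] at h1
    refine h1.trans (le_add_right (Finset.sum_le_sum fun a _ => measure_mono Set.inter_subset_right))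
  | succ j ih =>
    intro s T hc hs hT h0 hTX
    set Bad : Set ℝ := {x | x ∈ Set.Ioc T X ∧ ∀ a ∈ s, x - a ∉ L} with hBad
    by_cases hne : Bad = ∅
    · have h1 := L1_cover (L := L) (s := s) (T := T) (X := X) (Set.Ioc T X) subset_rfl (fun x hx => by
        by_contra hcon
        push Not at hcon
        have h2 : x ∈ Bad := ⟨hx, hcon⟩
        rw [hne] at h2
        exact h2)
      rw [Real.volume_Ioc] at h1
      exact h1.trans (le_add_right (Finset.sum_le_sum fun a _ => measure_mono Set.inter_subset_right))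
    · have hne' : Bad.Nonempty := Set.nonempty_iff_ne_empty.2 hne
      have hbdd : BddBelow Bad := ⟨T, fun x hx => hx.1.1.le⟩
      set t' := sInf Bad with ht'
      have hTt : T ≤ t' := le_csInf hne' fun x hx => hx.1.1.le
      refine ENNReal.le_of_forall_pos_le_add fun ε hε _ => ?_
      obtain ⟨x, hx, hxε⟩ := exists_lt_of_csInf_lt hne' (show t' < t' + (ε : ℝ) by
        have : (0 : ℝ) < ε := hε
        linarith)
      have htx : t' ≤ x := csInf_le hbdd hx
      have hTx : T < x := hx.1.1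
      have hxX : x ≤ X := hx.1.2
      have hxs : x ∉ s := fun h => by
        have := (hT x h).2
        linarith
      have h1 := ih (insert x s) x (by rw [Finset.card_insert_of_notMem hxs]; omega)
        (fun a ha b hb hab => by
          rw [Finset.mem_insert] at ha hb
          rcases hb with rfl | hb
          · rcases ha with rfl | ha
            · exact absurd hab (lt_irrefl _)
            · exact hx.2 a ha
          · rcases ha with rfl | ha
            · have := (hT b hb).2
              linarith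
            · exact hs a ha b hb hab)
        (fun a ha => by
          rw [Finset.mem_insert] at ha
          rcases ha with rfl | ha
          · exact ⟨by linarith, le_rfl⟩
          · exact ⟨(hT a ha).1, by linarith [(hT a ha).2]⟩) (by linarith) hxX
      rw [Finset.sum_insert hxs] at h1
      have h2 : volume (L1S L x X x) ≤ volume (L ∩ Set.Icc 0 X) := L1_shift (by linarith) le_rfl
      have h3 := L1_cover (L := L) (s := s) (T := T) (X := X) (Set.Ioo T t')
        (fun y hy => ⟨hy.1, by linarith [hy.2]⟩) (fun y hy => by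
          by_contra hcon
          push Not at hcon
          have h4 : y ∈ Bad := ⟨⟨hy.1, by linarith [hy.2]⟩, hcon⟩
          have := csInf_le hbdd h4
          linarith [hy.2])
      rw [Real.volume_Ioo] at h3
      have h5 : ∀ a ∈ s, volume (Set.Ioo T t' ∩ L1S L T X a) + volume (L1S L x X a) ≤ volume (L1S L T X a) := by
        intro a _
        rw [← measure_inter_add_sdiff (L1S L T X a) (measurableSet_Ioc (a := x) (b := X)), add_comm]
        refine add_le_add (measure_mono ?_) (measure_mono ?_)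
        · intro y hy
          exact ⟨⟨⟨by linarith [hy.1.1], hy.1.2⟩, hy.2⟩, hy.1⟩
        · intro y hy
          refine ⟨hy.2, fun h => ?_⟩
          linarith [hy.1.2, h.1]
      have h6 := Finset.sum_le_sum h5
      rw [Finset.sum_add_distrib] at h6
      have h7 : ENNReal.ofReal (X - T) ≤ ENNReal.ofReal (t' - T) + ENNReal.ofReal (x - t') + ENNReal.ofReal (X - x) := by
        rw [← ENNReal.ofReal_add (by linarith) (by linarith), ← ENNReal.ofReal_add (by linarith) (by linarith)]
        exact ENNReal.ofReal_le_ofReal (by linarith)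
      have h8 : ENNReal.ofReal (x - t') ≤ (ε : ENNReal) := by
        rw [ENNReal.ofReal_le_iff_le_toReal ENNReal.coe_ne_top]
        show x - t' ≤ ((ε : NNReal) : ℝ)
        linarith
      calc ENNReal.ofReal (X - T) ≤ ENNReal.ofReal (t' - T) + ENNReal.ofReal (x - t') + ENNReal.ofReal (X - x) := h7
        _ ≤ ∑ a ∈ s, volume (Set.Ioo T t' ∩ L1S L T X a) + (ε : ENNReal) +
            (volume (L ∩ Set.Icc 0 X) + ∑ a ∈ s, volume (L1S L x X a) + j * volume (L ∩ Set.Icc 0 X)) :=
          add_le_add (add_le_add h3 h8) (h1.trans (add_le_add (add_le_add h2 le_rfl) le_rfl))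
        _ = (∑ a ∈ s, volume (Set.Ioo T t' ∩ L1S L T X a) + ∑ a ∈ s, volume (L1S L x X a)) +
            ((j + 1 : ℕ) : ENNReal) * volume (L ∩ Set.Icc 0 X) + (ε : ENNReal) := by
          push_cast
          ring
        _ ≤ _ := add_le_add (add_le_add h6 le_rfl) le_rfl

/-- at least `1/k` of every interval `[0, X]` -/
theorem vol_ge_div {L : Set ℝ} {k : ℕ} (hk0 : 1 ≤ k)
    (hk : ∀ s : Finset ℝ, s.card = k + 1 → ∃ a ∈ s, ∃ b ∈ s, a < b ∧ b - a ∈ L) (X : ℝ) :
    ENNReal.ofReal X ≤ k * volume (L ∩ Set.Icc 0 X) := by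
  rcases le_or_gt X 0 with hX | hX
  · rw [ENNReal.ofReal_of_nonpos hX]
    exact zero_le
  have h1 := L1_main hk X (k - 1) {0} 0 (by rw [Finset.card_singleton]; omega)
    (fun a ha b hb hab => by
      rw [Finset.mem_singleton] at ha hb
      rw [ha, hb] at hab
      exact absurd hab (lt_irrefl _))
    (fun a ha => by
      rw [Finset.mem_singleton] at ha
      rw [ha]
      exact ⟨le_rfl, le_rfl⟩) le_rfl hX.le
  rw [Finset.sum_singleton, sub_zero] at h1
  have h2 : volume (L1S L 0 X 0) ≤ volume (L ∩ Set.Icc 0 X) := L1_shift le_rfl le_rfl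
  refine h1.trans ((add_le_add h2 le_rfl).trans (le_of_eq ?_))
  obtain ⟨k', rfl⟩ : ∃ k', k = k' + 1 := ⟨k - 1, by omega⟩
  rw [Nat.add_sub_cancel]
  push_cast
  ring

/-- bounded gaps -/
theorem synd {L : Set ℝ} {k : ℕ} (hk : ∀ s : Finset ℝ, s.card = k + 1 → ∃ a ∈ s, ∃ b ∈ s, a < b ∧ b - a ∈ L) :
    ∃ C : ℝ, ∀ T : ℝ, 0 ≤ T → ∃ x ∈ L, T ≤ x ∧ x ≤ T + C := by
  classical
  set P : ℕ → Prop := fun n => ∃ s : Finset ℝ, s.card = n ∧ ∀ a ∈ s, ∀ b ∈ s, a < b → b - a ∉ L with hP
  have hex : ∃ n, ¬ P n := by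
    refine ⟨k + 1, ?_⟩
    rintro ⟨s, hs, h⟩
    obtain ⟨a, ha, b, hb, hab, hL⟩ := hk s hs
    exact h a ha b hb hab hL
  have h0 : P 0 := ⟨∅, Finset.card_empty, fun a ha => absurd ha (Finset.notMem_empty a)⟩
  have h1 : P 1 := ⟨{0}, Finset.card_singleton 0, fun a ha b hb hab => by
    rw [Finset.mem_singleton] at ha hb
    rw [ha, hb] at hab
    exact absurd hab (lt_irrefl _)⟩
  have hn := Nat.find_spec hex
  have hn0 : Nat.find hex ≠ 0 := fun h => by rw [h] at hn; exact hn h0
  have hn1 : Nat.find hex ≠ 1 := fun h => by rw [h] at hn; exact hn h1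
  have hmin : P (Nat.find hex - 1) := by
    by_contra h
    exact Nat.find_min hex (by omega) h
  obtain ⟨s, hs, hcl⟩ := hmin
  have hsne : s.Nonempty := by
    rw [← Finset.card_pos, hs]
    omega
  refine ⟨1 + s.max' hsne - s.min' hsne, fun T hT => ?_⟩
  set x := T + 1 + s.max' hsne with hx
  have hlt : ∀ a ∈ s, a < x := fun a ha => by
    have := s.le_max' a ha
    rw [hx]
    linarith
  have hxs : x ∉ s := fun h => lt_irrefl _ (hlt x h)
  have h2 : ∃ a ∈ insert x s, ∃ b ∈ insert x s, a < b ∧ b - a ∈ L := by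
    by_contra hcon
    push Not at hcon
    exact hn ⟨insert x s, by rw [Finset.card_insert_of_notMem hxs]; omega, fun a ha b hb hab => hcon a ha b hb hab⟩
  obtain ⟨a, ha, hL⟩ := L1_insert (T := s.max' hsne) hcl (fun a ha => s.le_max' a ha) (by rw [hx]; linarith) h2
  refine ⟨x - a, hL, ?_, ?_⟩
  · have := s.le_max' a ha
    rw [hx]
    linarith
  · have := s.min'_le a ha
    rw [hx]
    linarith

/-- from tuples to sets -/
theorem fin5 {L : Set ℝ} (h : ∀ t : Fin 5 → ℝ, StrictMono t → ∃ i j, i < j ∧ t j - t i ∈ L) (s : Finset ℝ)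
    (hs : s.card = 4 + 1) : ∃ a ∈ s, ∃ b ∈ s, a < b ∧ b - a ∈ L := by
  obtain ⟨i, j, hij, hL⟩ := h (s.orderEmbOfFin hs) (s.orderEmbOfFin hs).strictMono
  exact ⟨_, s.orderEmbOfFin_mem hs i, _, s.orderEmbOfFin_mem hs j, (s.orderEmbOfFin hs).strictMono hij, hL⟩

end Pool.Agent.LibGL22
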