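import Pool.Agent.LibPL63.M5

/-!
Row N1 (sharp version of `LibPL63.DD_yC_ge`, file M5). Same proof, with `ε` instead of constants: `k = card ι`, `F A = g1 A²/ph A`.
(1) inner sum: `≥ G1s / ∏_{p ∈ sp β} (1 + 1/(p-1)) ≥ G1s / exp (L'/z) ≥ (1 - ε/4) G1s` (`|sp β| ≤ L'`, `16 L' ≤ ε z`).
(2) `∑_β ∏_{i ≠ i0} F (fb β i) ≥ G2s^(k-1) (1 - (k-1)² ∑ 1/(p-1)² - (k-1) L2s/(G2s L' log z)) ≥ G2s^(k-1) (1 - ε/4 - ε/8)` (`k²/(z-1) ≤ ε/4`; hypothesis `h2`).
(3) total `≥ (1 - ε/4)² (1 - 3ε/8) G1s² G2s^(k-1) ≥ (1 - ε) …`. Copy M5.lean and change the constants (the private lemmas `M5_*` have to be copied, with `_2` names).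
-/

open Finset Filter

namespace Pool.Agent.LibGL22

open Pool.Agent.LibRG87 Pool.Agent.LibLG5 Pool.Agent.LibPL63

variable {ι : Type} [Fintype ι] [DecidableEq ι] (P : Finset ℕ)

private theorem N1_rr_le (hP : ∀ p ∈ P, Nat.Prime p) {A B : Finset ℕ} (hB : B ⊆ P) (hAB : A ⊆ B) :
    rr A ≤ rr B := by
  unfold rr
  rw [← Finset.prod_sdiff hAB]
  have h1 : (1 : ℝ) ≤ ∏ p ∈ B \ A, (p : ℝ) :=
    one_le_rr P hP (A := B \ A) (Finset.sdiff_subset.trans hB)
  have h2 : (0 : ℝ) ≤ ∏ p ∈ A, (p : ℝ) := Finset.prod_nonneg fun p _ => Nat.cast_nonneg p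
  nlinarith

/-- splitting a sum over subsets -/
private theorem N1_split (S : Finset ℕ) (hS : S ⊆ P) (f : Finset ℕ → ℝ) :
    ∑ A ∈ P.powerset, f A = ∑ B ∈ S.powerset, ∑ A ∈ (P \ S).powerset, f (B ∪ A) := by
  rw [← Finset.sum_product']
  refine Finset.sum_nbij' (fun A => (A ∩ S, A \ S)) (fun x => x.1 ∪ x.2) ?_ ?_ ?_ ?_ ?_
  · intro A hA
    rw [Finset.mem_powerset] at hA
    rw [Finset.mem_product, Finset.mem_powerset, Finset.mem_powerset]
    exact ⟨Finset.inter_subset_right, Finset.sdiff_subset_sdiff hA le_rfl⟩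
  · intro x hx
    rw [Finset.mem_product, Finset.mem_powerset, Finset.mem_powerset] at hx
    rw [Finset.mem_powerset]
    exact Finset.union_subset (hx.1.trans hS) (hx.2.trans Finset.sdiff_subset)
  · intro A _
    show A ∩ S ∪ A \ S = A
    ext p
    simp only [Finset.mem_union, Finset.mem_inter, Finset.mem_sdiff]
    tauto
  · intro x hx
    rw [Finset.mem_product, Finset.mem_powerset, Finset.mem_powerset] at hx
    have h2 : ∀ p ∈ x.2, p ∉ S := fun p hp => (Finset.mem_sdiff.1 (hx.2 hp)).2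
    have h1 : ∀ p ∈ x.1, p ∈ S := fun p hp => hx.1 hp
    refine Prod.ext ?_ ?_
    · show (x.1 ∪ x.2) ∩ S = x.1
      ext p
      simp only [Finset.mem_union, Finset.mem_inter]
      constructor
      · rintro ⟨h | h, hs⟩
        · exact h
        · exact absurd hs (h2 p h)
      · intro h
        exact ⟨Or.inl h, h1 p h⟩
    · show (x.1 ∪ x.2) \ S = x.2
      ext p
      simp only [Finset.mem_union, Finset.mem_sdiff]
      constructor
      · rintro ⟨h | h, hs⟩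
        · exact absurd (h1 p h) hs
        · exact h
      · intro h
        exact ⟨Or.inr h, h2 p h⟩
  · intro A _
    congr 1
    ext p
    simp only [Finset.mem_union, Finset.mem_inter, Finset.mem_sdiff]
    tauto

private theorem N1_ph_union {A B : Finset ℕ} (h : Disjoint B A) : ph (B ∪ A) = ph B * ph A := by
  unfold ph
  exact Finset.prod_union h

private theorem N1_sum_inv_ph (S : Finset ℕ) :
    ∑ B ∈ S.powerset, 1 / ph B = ∏ p ∈ S, (1 + 1 / ((p : ℝ) - 1)) := by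
  rw [Finset.prod_one_add]
  refine Finset.sum_congr rfl fun B _ => ?_
  unfold ph
  rw [one_div, ← Finset.prod_inv_distrib]
  refine Finset.prod_congr rfl fun p _ => ?_
  rw [one_div]

/-- removing the primes of `S` from the sum -/
private theorem N1_G1s_le (z q0 a I : ℕ) (hP : ∀ p ∈ P, Nat.Prime p) (ha : 1 ≤ a) (S : Finset ℕ)
    (hS : S ⊆ P) :
    G1s P z q0 a I ≤ (∏ p ∈ S, (1 + 1 / ((p : ℝ) - 1))) *
      ∑ A ∈ (P \ S).powerset, g1 z q0 a I A / ph A := by
  unfold G1s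
  rw [N1_split P S hS, ← N1_sum_inv_ph, Finset.sum_mul]
  refine Finset.sum_le_sum fun B hB => ?_
  rw [Finset.mul_sum]
  refine Finset.sum_le_sum fun A hA => ?_
  rw [Finset.mem_powerset] at hA hB
  have hdis : Disjoint B A := by
    rw [Finset.disjoint_left]
    intro p h1 h2
    exact (Finset.mem_sdiff.1 (hA h2)).2 (hB h1)
  rw [N1_ph_union hdis]
  have hBP : B ⊆ P := hB.trans hS
  have hAP : A ⊆ P := hA.trans Finset.sdiff_subset
  have h1 := ph_pos P hP hBP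
  have h2 := ph_pos P hP hAP
  have h3 : g1 z q0 a I (B ∪ A) ≤ g1 z q0 a I A :=
    g1_anti ha (N1_rr_le P hP (Finset.union_subset hBP hAP) Finset.subset_union_right)
  have h4 : (1 : ℝ) / ph B * (g1 z q0 a I A / ph A) = g1 z q0 a I A / (ph B * ph A) := by
    rw [div_mul_div_comm, one_mul]
  rw [h4]
  exact div_le_div_of_nonneg_right h3 (mul_pos h1 h2).le

private theorem N1_card_le {z L' : ℕ} (hz : 2 ≤ z) (hP : ∀ p ∈ P, p.Prime ∧ z < p) (S : Finset ℕ)
    (hS : S ⊆ P) (h : rr S ≤ (z : ℝ) ^ L') : S.card ≤ L' := by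
  have h1 : (z : ℝ) ^ S.card ≤ rr S := by
    unfold rr
    rw [← Finset.prod_const]
    refine Finset.prod_le_prod (fun p _ => Nat.cast_nonneg z) fun p hp => ?_
    exact_mod_cast (hP p (hS hp)).2.le
  have h2 : (z : ℝ) ^ S.card ≤ (z : ℝ) ^ L' := h1.trans h
  have h3 : z ^ S.card ≤ z ^ L' := by exact_mod_cast h2
  exact (Nat.pow_le_pow_iff_right (by omega)).1 h3

private theorem N1_prod_le {z L' : ℕ} (hz : 2 ≤ z) (hP : ∀ p ∈ P, p.Prime ∧ z < p)
    (S : Finset ℕ) (hS : S ⊆ P) (h : rr S ≤ (z : ℝ) ^ L') :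
    ∏ p ∈ S, (1 + 1 / ((p : ℝ) - 1)) ≤ Real.exp ((L' : ℝ) / z) := by
  have hc := N1_card_le P hz hP S hS h
  have hz0 : (0 : ℝ) < (z : ℝ) := by
    have : 0 < z := by omega
    exact_mod_cast this
  have h1 : ∏ p ∈ S, (1 + 1 / ((p : ℝ) - 1)) ≤ ∏ _p ∈ S, Real.exp (1 / (z : ℝ)) := by
    refine Finset.prod_le_prod (fun p hp => ?_) fun p hp => ?_
    · have h2 : (z : ℝ) + 1 ≤ (p : ℝ) := by exact_mod_cast (hP p (hS hp)).2
      have : (0 : ℝ) ≤ 1 / ((p : ℝ) - 1) := div_nonneg zero_le_one (by linarith)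
      linarith
    · have h2 : (z : ℝ) + 1 ≤ (p : ℝ) := by exact_mod_cast (hP p (hS hp)).2
      have h3 : 1 / ((p : ℝ) - 1) ≤ 1 / (z : ℝ) := one_div_le_one_div_of_le hz0 (by linarith)
      have h4 := Real.add_one_le_exp (1 / (z : ℝ))
      linarith
  rw [Finset.prod_const, ← Real.exp_nat_mul] at h1
  refine h1.trans (Real.exp_le_exp.2 ?_)
  rw [mul_one_div]
  have h5 : (S.card : ℝ) ≤ (L' : ℝ) := by exact_mod_cast hc
  exact div_le_div_of_nonneg_right h5 hz0.le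

/-- the inner sum of `yC` -/
private theorem N1_inner_ge (z q0 a I L' : ℕ) (hP : ∀ p ∈ P, p.Prime ∧ z < p) (ha : 1 ≤ a)
    (hL : q0 * a ^ I ≤ L') (hz : 2 ≤ z) {δ : ℝ} (hδ : (L' : ℝ) / z ≤ δ) (S : Finset ℕ) (hS : S ⊆ P)
    (h : rr S ≤ (z : ℝ) ^ L') (D : DecidablePred fun A : Finset ℕ => rr A * rr S ≤ (z : ℝ) ^ (2 * L')) :
    (1 - δ) * G1s P z q0 a I ≤
      ∑ A ∈ (P \ S).powerset with rr A * rr S ≤ (z : ℝ) ^ (2 * L'), g1 z q0 a I A / ph A := by
  have hP' : ∀ p ∈ P, p.Prime := fun p hp => (hP p hp).1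
  have hz1 : (1 : ℝ) ≤ (z : ℝ) := by
    have : 1 ≤ z := by omega
    exact_mod_cast this
  have hnn : ∀ A ∈ (P \ S).powerset, 0 ≤ g1 z q0 a I A / ph A := fun A hA =>
    div_nonneg (g1_nonneg _ _ _ _ _)
      (ph_pos P hP' ((Finset.mem_powerset.1 hA).trans Finset.sdiff_subset)).le
  have e : ∑ A ∈ (P \ S).powerset with rr A * rr S ≤ (z : ℝ) ^ (2 * L'), g1 z q0 a I A / ph A =
      ∑ A ∈ (P \ S).powerset, g1 z q0 a I A / ph A := by
    refine Finset.sum_filter_of_ne fun A hA hne => ?_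
    have hAP : A ⊆ P := (Finset.mem_powerset.1 hA).trans Finset.sdiff_subset
    have hg : g1 z q0 a I A ≠ 0 := by
      intro h0
      exact hne (by rw [h0, zero_div])
    have h1 : rr A ≤ (z : ℝ) ^ L' := (g1_ne hg).trans (pow_le_pow_right₀ hz1 hL)
    have h2 : (0 : ℝ) ≤ rr S := (rr_pos P hP' hS).le
    calc rr A * rr S ≤ (z : ℝ) ^ L' * (z : ℝ) ^ L' :=
          mul_le_mul h1 h h2 (pow_nonneg (by linarith) _)
      _ = (z : ℝ) ^ (2 * L') := by rw [← pow_add, two_mul]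
  rw [e]
  have h1 := N1_G1s_le P z q0 a I hP' ha S hS
  have h2 := N1_prod_le P hz hP S hS h
  have h3 : 0 ≤ ∑ A ∈ (P \ S).powerset, g1 z q0 a I A / ph A := Finset.sum_nonneg hnn
  have h4 := mul_le_mul_of_nonneg_right h2 h3
  have h5 : Real.exp ((L' : ℝ) / z) ≤ Real.exp δ := Real.exp_le_exp.2 hδ
  have h6 := mul_le_mul_of_nonneg_right h5 h3
  have h7 : G1s P z q0 a I ≤ Real.exp δ * ∑ A ∈ (P \ S).powerset, g1 z q0 a I A / ph A :=
    h1.trans (h4.trans h6)
  have h8 : 1 - δ ≤ Real.exp (-δ) := by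
    have := Real.add_one_le_exp (-δ)
    linarith
  have h9 : 0 ≤ G1s P z q0 a I := by
    have := one_le_G1s P hP' (by omega : 1 ≤ z) (q0 := q0) (a := a) (I := I)
    linarith
  calc (1 - δ) * G1s P z q0 a I ≤ Real.exp (-δ) * G1s P z q0 a I := mul_le_mul_of_nonneg_right h8 h9
    _ ≤ Real.exp (-δ) * (Real.exp δ * ∑ A ∈ (P \ S).powerset, g1 z q0 a I A / ph A) :=
        mul_le_mul_of_nonneg_left h7 (Real.exp_pos _).le
    _ = ∑ A ∈ (P \ S).powerset, g1 z q0 a I A / ph A := by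
        rw [← mul_assoc, ← Real.exp_add, neg_add_cancel, Real.exp_zero, one_mul]

/-- the sum over the sets which contain `p` -/
private theorem N1_sum_mem (z q0 a I : ℕ) (hP : ∀ p ∈ P, p.Prime) (ha : 1 ≤ a) (p : ℕ) (hp : p ∈ P)
    (D : DecidablePred fun A : Finset ℕ => p ∈ A) :
    ∑ A ∈ P.powerset with p ∈ A, g1 z q0 a I A ^ 2 / ph A ≤
      (∑ A ∈ P.powerset, g1 z q0 a I A ^ 2 / ph A) / ((p : ℝ) - 1) := by
  have hp1 : (0 : ℝ) < (p : ℝ) - 1 := by
    have h2 : (1 : ℝ) < (p : ℝ) := by exact_mod_cast (hP p hp).one_lt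
    linarith
  have hS : {p} ⊆ P := Finset.singleton_subset_iff.2 hp
  have hnn : ∀ A ∈ P.powerset, 0 ≤ g1 z q0 a I A ^ 2 / ph A := fun A hA =>
    div_nonneg (sq_nonneg _) (ph_pos P hP (Finset.mem_powerset.1 hA)).le
  have hpow : ({p} : Finset ℕ).powerset = {∅, {p}} := by
    ext B
    rw [Finset.mem_powerset, Finset.subset_singleton_iff, Finset.mem_insert, Finset.mem_singleton]
  rw [Finset.sum_filter, N1_split P {p} hS, hpow, Finset.sum_pair (by
    intro h
    have : p ∈ (∅ : Finset ℕ) := by rw [h]; exact Finset.mem_singleton_self p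
    exact absurd this (Finset.notMem_empty p))]
  have h1 : ∑ A ∈ (P \ {p}).powerset, (if p ∈ ∅ ∪ A then g1 z q0 a I (∅ ∪ A) ^ 2 / ph (∅ ∪ A) else 0) = 0 := by
    refine Finset.sum_eq_zero fun A hA => ?_
    rw [if_neg]
    rw [Finset.empty_union]
    intro h
    exact (Finset.mem_sdiff.1 (Finset.mem_powerset.1 hA h)).2 (Finset.mem_singleton_self p)
  rw [h1, zero_add]
  have h2 : ∑ A ∈ (P \ {p}).powerset, (if p ∈ {p} ∪ A then g1 z q0 a I ({p} ∪ A) ^ 2 / ph ({p} ∪ A) else 0) ≤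
      ∑ A ∈ (P \ {p}).powerset, (g1 z q0 a I A ^ 2 / ph A) / ((p : ℝ) - 1) := by
    refine Finset.sum_le_sum fun A hA => ?_
    rw [Finset.mem_powerset] at hA
    have hAP : A ⊆ P := hA.trans Finset.sdiff_subset
    have hdis : Disjoint {p} A := by
      rw [Finset.disjoint_singleton_left]
      intro h
      exact (Finset.mem_sdiff.1 (hA h)).2 (Finset.mem_singleton_self p)
    rw [if_pos (Finset.mem_union_left _ (Finset.mem_singleton_self p)), N1_ph_union hdis]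
    have h3 : g1 z q0 a I ({p} ∪ A) ≤ g1 z q0 a I A :=
      g1_anti ha (N1_rr_le P hP (Finset.union_subset hS hAP) Finset.subset_union_right)
    have h4 : g1 z q0 a I ({p} ∪ A) ^ 2 ≤ g1 z q0 a I A ^ 2 :=
      pow_le_pow_left₀ (g1_nonneg _ _ _ _ _) h3 2
    have h5 : ph {p} = (p : ℝ) - 1 := by
      unfold ph
      rw [Finset.prod_singleton]
    have h6 := ph_pos P hP hAP
    rw [h5, div_div, mul_comm ((p : ℝ) - 1)]
    exact div_le_div_of_nonneg_right h4 (mul_pos h6 hp1).le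
  refine h2.trans ?_
  rw [← Finset.sum_div]
  refine div_le_div_of_nonneg_right ?_ hp1.le
  refine Finset.sum_le_sum_of_subset_of_nonneg (Finset.powerset_mono.2 Finset.sdiff_subset) ?_
  intro A hA _
  exact hnn A hA

/-- extension of a configuration -/
private def N1_ext (i0 : ι) (β : P → Option {i : ι // i ≠ i0}) : P → Option ι :=
  fun p => (β p).map Subtype.val

private theorem N1_ext_inj (i0 : ι) : Function.Injective (N1_ext P i0) := by
  intro β β' h
  funext p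
  have h1 := congrFun h p
  exact Option.map_injective Subtype.val_injective h1

private theorem N1_ext_ne (i0 : ι) (β : P → Option {i : ι // i ≠ i0}) (p : P) :
    N1_ext P i0 β p ≠ some i0 := by
  intro h
  unfold N1_ext at h
  rw [Option.map_eq_some_iff] at h
  obtain ⟨i, _, hi⟩ := h
  exact i.2 hi

private theorem N1_ext_fb (i0 : ι) (β : P → Option {i : ι // i ≠ i0}) (i : {i : ι // i ≠ i0}) :
    fb P (N1_ext P i0 β) (i : ι) = fb P β i := by
  ext p
  rw [mem_fb, mem_fb]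
  refine exists_congr fun h => ?_
  unfold N1_ext
  rw [Option.map_eq_some_iff]
  constructor
  · rintro ⟨j, hj, hij⟩
    rw [hj, Subtype.ext hij]
  · intro hb
    exact ⟨i, hb, rfl⟩

private theorem N1_ext_fb0 (i0 : ι) (β : P → Option {i : ι // i ≠ i0}) :
    fb P (N1_ext P i0 β) i0 = ∅ := by
  rw [Finset.eq_empty_iff_forall_notMem]
  intro p hp
  obtain ⟨h, hb⟩ := (mem_fb P).1 hp
  exact N1_ext_ne P i0 β _ hb

private theorem N1_ext_sp (i0 : ι) (β : P → Option {i : ι // i ≠ i0}) :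
    sp P (N1_ext P i0 β) = sp P β := by
  ext p
  rw [mem_sp, mem_sp]
  refine exists_congr fun h => ?_
  unfold N1_ext
  rw [ne_eq, Option.map_eq_none_iff]

private theorem N1_ext_prod (i0 : ι) (β : P → Option {i : ι // i ≠ i0}) (f : Finset ℕ → ℝ)
    (hf : f ∅ = 1) :
    ∏ i, f (fb P (N1_ext P i0 β) i) = ∏ i, f (fb P β i) := by
  rw [← Finset.mul_prod_erase Finset.univ _ (Finset.mem_univ i0), N1_ext_fb0, hf, one_mul]
  rw [Finset.prod_subtype (Finset.univ.erase i0) (p := fun i => i ≠ i0)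
    (fun i => by rw [Finset.mem_erase]; exact ⟨fun h => h.1, fun h => ⟨h, Finset.mem_univ i⟩⟩)]
  refine Finset.prod_congr rfl fun i _ => ?_
  rw [N1_ext_fb]

private theorem N1_card (i0 : ι) : Fintype.card {i : ι // i ≠ i0} = Fintype.card ι - 1 := by
  rw [Fintype.card_subtype_compl, Fintype.card_subtype_eq]

open scoped Classical in
/-- the main part of the sum over the configurations -/
private theorem N1_main (κ : Type) [Fintype κ] [DecidableEq κ] (z q0 a I L' : ℕ)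
    (hP : ∀ p ∈ P, p.Prime ∧ z < p) (ha : 1 ≤ a) (hL' : 1 ≤ L')
    {ε : ℝ} (hz2 : 2 ≤ z) (hz : 16 * (Fintype.card κ : ℝ) ^ 2 ≤ ε * z)
    (h2 : 8 * Fintype.card κ * L2s P z q0 a I ≤ ε * (G2s P z q0 a I * L' * Real.log z)) :
    (1 - ε / 4) * G2s P z q0 a I ^ Fintype.card κ ≤
      ∑ β : P → Option κ, (if rr (sp P β) ≤ (z : ℝ) ^ L' then
        ∏ i, (g1 z q0 a I (fb P β i) ^ 2 / ph (fb P β i)) else 0) := by
  have hP' : ∀ p ∈ P, p.Prime := fun p hp => (hP p hp).1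
  have hz2' : (2 : ℝ) ≤ (z : ℝ) := by exact_mod_cast hz2
  have hlz : 0 < Real.log z := Real.log_pos (by linarith)
  set F : Finset ℕ → ℝ := fun A => g1 z q0 a I A ^ 2 / ph A with hFdef
  have hF : ∀ A ∈ P.powerset, 0 ≤ F A := fun A hA =>
    div_nonneg (sq_nonneg _) (ph_pos P hP' (Finset.mem_powerset.1 hA)).le
  have hG2 : ∑ A ∈ P.powerset, F A = G2s P z q0 a I := rfl
  have hL2 : ∑ A ∈ P.powerset, F A * Real.log (rr A) = L2s P z q0 a I := rfl
  have hG1 : 1 ≤ G2s P z q0 a I := one_le_G2s P hP' (by omega)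
  have hge := sum_beta_ge (ι := κ) P hP' F hF (fun p hp => N1_sum_mem P z q0 a I hP' ha p hp _)
  rw [hG2] at hge
  have hT : (1 : ℝ) < (z : ℝ) ^ L' := one_lt_pow₀ (by linarith) (by omega)
  have hmk := markov' (ι := κ) P hP' F hF hT
  rw [hG2, hL2, Real.log_pow] at hmk
  -- the second part
  have hpart : ∑ β : P → Option κ, ∏ i, F (fb P β i) ≤
      ∑ β : P → Option κ, (if rr (sp P β) ≤ (z : ℝ) ^ L' then ∏ i, F (fb P β i) else 0) +
      ∑ A ∈ Fintype.piFinset (fun _ : κ => P.powerset) with (z : ℝ) ^ L' < ∏ i, rr (A i),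
        ∏ i, F (A i) := by
    have h3 := sum_beta_le (ι := κ) P (fun A => if (z : ℝ) ^ L' < ∏ i, rr (A i) then ∏ i, F (A i) else 0)
      (fun A hA => by
        split_ifs
        · exact Finset.prod_nonneg fun i _ => hF _ (Fintype.mem_piFinset.1 hA i)
        · exact le_rfl)
    rw [Finset.sum_filter]
    refine le_trans (le_of_eq ?_) (add_le_add_right h3 _)
    rw [← Finset.sum_add_distrib]
    refine Finset.sum_congr rfl fun β _ => ?_
    rw [rr_sp]
    by_cases h : ∏ i, rr (fb P β i) ≤ (z : ℝ) ^ L'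
    · rw [if_pos h, if_neg (not_lt.2 h), add_zero]
    · rw [if_neg h, if_pos (not_le.1 h), zero_add]
  have hsq := sum_inv_sq P hz2 (fun p hp => (hP p hp).2)
  have hk : (Fintype.card κ : ℝ) ^ 2 * ∑ p ∈ P, 1 / ((p : ℝ) - 1) ^ 2 ≤ ε / 8 := by
    have h5 : (0 : ℝ) < (z : ℝ) - 1 := by linarith
    have hε : 0 ≤ ε := by
      by_contra hneg
      push Not at hneg
      nlinarith [sq_nonneg (Fintype.card κ : ℝ)]
    calc (Fintype.card κ : ℝ) ^ 2 * ∑ p ∈ P, 1 / ((p : ℝ) - 1) ^ 2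
        ≤ (Fintype.card κ : ℝ) ^ 2 * (1 / ((z : ℝ) - 1)) :=
          mul_le_mul_of_nonneg_left hsq (sq_nonneg _)
      _ ≤ ε / 8 := by
          rw [mul_one_div, div_le_div_iff₀ h5 (by norm_num)]
          nlinarith
  have hpow : 0 ≤ G2s P z q0 a I ^ Fintype.card κ := pow_nonneg (by linarith) _
  have hm2 : (Fintype.card κ : ℝ) * G2s P z q0 a I ^ (Fintype.card κ - 1) * L2s P z q0 a I /
      ((L' : ℝ) * Real.log z) ≤ ε / 8 * G2s P z q0 a I ^ Fintype.card κ := by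
    have hLz : 0 < (L' : ℝ) * Real.log z := by
      have : (0 : ℝ) < (L' : ℝ) := by exact_mod_cast hL'
      exact mul_pos this hlz
    rw [div_le_iff₀ hLz]
    rcases Nat.eq_zero_or_pos (Fintype.card κ) with h0 | h0
    · have hε : 0 ≤ ε := by
        by_contra hneg
        push Not at hneg
        nlinarith [sq_nonneg (Fintype.card κ : ℝ)]
      rw [h0]
      simp only [Nat.cast_zero, zero_mul, pow_zero]
      positivity
    · obtain ⟨m, hm⟩ : ∃ m, Fintype.card κ = m + 1 := ⟨Fintype.card κ - 1, by omega⟩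
      rw [hm] at h2 ⊢
      have hp0 : 0 ≤ G2s P z q0 a I ^ m := pow_nonneg (by linarith) _
      have h6 := mul_le_mul_of_nonneg_left h2 hp0
      rw [Nat.add_sub_cancel, pow_succ]
      nlinarith [h6]
  have h7 : G2s P z q0 a I ^ Fintype.card κ * (ε / 8) ≥ G2s P z q0 a I ^ Fintype.card κ *
      ((Fintype.card κ : ℝ) ^ 2 * ∑ p ∈ P, 1 / ((p : ℝ) - 1) ^ 2) :=
    mul_le_mul_of_nonneg_left hk hpow
  have h8 := hge.trans hpart
  rw [mul_sub, mul_one] at h8
  have h9 := hmk.trans hm2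
  linarith

theorem DD_yC_ge2 (z q0 a I L' : ℕ) (hP : ∀ p ∈ P, p.Prime ∧ z < p) (ha : 1 ≤ a) (i0 : ι)
    (hL : q0 * a ^ I ≤ L') (hL' : 1 ≤ L') {ε : ℝ} (hε : 0 < ε) (hε1 : ε ≤ 1)
    (hz : 16 * ((Fintype.card ι : ℝ) + L' + 1) ^ 2 ≤ ε * z)
    (h2 : 8 * Fintype.card ι * L2s P z q0 a I ≤ ε * (G2s P z q0 a I * L' * Real.log z)) :
    (1 - ε) * (G1s P z q0 a I ^ 2 * G2s P z q0 a I ^ (Fintype.card ι - 1)) ≤
      DD P (yC P z q0 a I (2 * L') i0) := by
  classical
  have hP' : ∀ p ∈ P, p.Prime := fun p hp => (hP p hp).1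
  have hk0 : (0 : ℝ) ≤ (Fintype.card ι : ℝ) := Nat.cast_nonneg _
  have hL1 : (1 : ℝ) ≤ (L' : ℝ) := by exact_mod_cast hL'
  have hz64 : (64 : ℝ) ≤ (z : ℝ) := by
    have h3 : (z : ℝ) ≥ 0 := Nat.cast_nonneg _
    nlinarith
  have hz2 : 2 ≤ z := by
    have : (2 : ℝ) ≤ (z : ℝ) := by linarith
    exact_mod_cast this
  have hz1 : 1 ≤ z := by omega
  have hz0 : (0 : ℝ) < (z : ℝ) := by linarith
  have hδ : (L' : ℝ) / z ≤ ε / 16 := by
    rw [div_le_div_iff₀ hz0 (by norm_num)]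
    nlinarith
  have hcard := N1_card i0
  have hkk : Fintype.card {i : ι // i ≠ i0} ≤ Fintype.card ι := by omega
  have hL2 : 0 ≤ L2s P z q0 a I := by
    unfold L2s
    refine Finset.sum_nonneg fun A hA => ?_
    rw [Finset.mem_powerset] at hA
    exact mul_nonneg (div_nonneg (sq_nonneg _) (ph_pos P hP' hA).le)
      (Real.log_nonneg (one_le_rr P hP' hA))
  have h3k : (Fintype.card {i : ι // i ≠ i0} : ℝ) ≤ (Fintype.card ι : ℝ) := by exact_mod_cast hkk
  have hmain := N1_main P {i : ι // i ≠ i0} z q0 a I L' hP ha hL' (ε := ε) hz2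
    (by
      have h3 : (0 : ℝ) ≤ (Fintype.card {i : ι // i ≠ i0} : ℝ) := Nat.cast_nonneg _
      nlinarith)
    (by
      refine le_trans ?_ h2
      exact mul_le_mul_of_nonneg_right (mul_le_mul_of_nonneg_left h3k (by norm_num)) hL2)
  rw [hcard] at hmain
  have hG1 : 1 ≤ G1s P z q0 a I := one_le_G1s P hP' hz1
  have hG2 : 1 ≤ G2s P z q0 a I := one_le_G2s P hP' hz1
  -- lower bound of the diagonal form
  have hDD : ∑ β : P → Option {i : ι // i ≠ i0},
      yC P z q0 a I (2 * L') i0 (N1_ext P i0 β) ^ 2 / ph (sp P (N1_ext P i0 β)) ≤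
      DD P (yC P z q0 a I (2 * L') i0) := by
    unfold DD
    rw [← Finset.sum_image (f := fun β : P → Option ι => yC P z q0 a I (2 * L') i0 β ^ 2 / ph (sp P β))
      (fun β _ β' _ h => N1_ext_inj P i0 h)]
    refine Finset.sum_le_sum_of_subset_of_nonneg (Finset.subset_univ _) fun β _ _ => ?_
    exact div_nonneg (sq_nonneg _) (ph_pos P hP' (sp_subset P β)).le
  refine le_trans ?_ hDD
  have h1δ : 0 ≤ (1 - ε / 16) * G1s P z q0 a I := mul_nonneg (by linarith) (by linarith)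
  have hterm : ∀ β : P → Option {i : ι // i ≠ i0},
      ((1 - ε / 16) * G1s P z q0 a I) ^ 2 * (if rr (sp P β) ≤ (z : ℝ) ^ L' then
        ∏ i, (g1 z q0 a I (fb P β i) ^ 2 / ph (fb P β i)) else 0) ≤
      yC P z q0 a I (2 * L') i0 (N1_ext P i0 β) ^ 2 / ph (sp P (N1_ext P i0 β)) := by
    intro β
    split_ifs with h
    · rw [N1_ext_sp]
      unfold yC
      rw [if_pos (fun p => N1_ext_ne P i0 β p), N1_ext_sp,
        N1_ext_prod P i0 β (fun A => g1 z q0 a I A) (g1_empty hz1)]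
      have h3 := N1_inner_ge P z q0 a I L' hP ha hL hz2 hδ (sp P β) (sp_subset P β) h
        (fun A => Classical.propDecidable _)
      have h4 : ((1 - ε / 16) * G1s P z q0 a I) ^ 2 ≤
          (∑ A ∈ (P \ sp P β).powerset with rr A * rr (sp P β) ≤ (z : ℝ) ^ (2 * L'),
            g1 z q0 a I A / ph A) ^ 2 :=
        pow_le_pow_left₀ h1δ h3 2
      rw [mul_pow _ _ 2, ph_sp, Finset.prod_div_distrib, Finset.prod_pow]
      have h5 : 0 ≤ (∏ i, g1 z q0 a I (fb P β i)) ^ 2 / ∏ i, ph (fb P β i) :=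
        div_nonneg (sq_nonneg _) (Finset.prod_nonneg fun i _ => (ph_pos P hP' (fb_subset P β i)).le)
      have h6 := mul_le_mul_of_nonneg_right h4 h5
      rw [mul_pow _ _ 2] at h6
      refine h6.trans (le_of_eq ?_)
      ring
    · rw [mul_zero]
      exact div_nonneg (sq_nonneg _) (ph_pos P hP' (sp_subset P _)).le
  refine le_trans ?_ (Finset.sum_le_sum fun β _ => hterm β)
  rw [← Finset.mul_sum]
  have h7 := mul_le_mul_of_nonneg_left hmain (sq_nonneg ((1 - ε / 16) * G1s P z q0 a I))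
  refine le_trans ?_ h7
  have hX : 0 ≤ G1s P z q0 a I ^ 2 * G2s P z q0 a I ^ (Fintype.card ι - 1) :=
    mul_nonneg (sq_nonneg _) (pow_nonneg (by linarith) _)
  have hc : 1 - ε ≤ (1 - ε / 16) ^ 2 * (1 - ε / 4) := by nlinarith [sq_nonneg ε]
  calc (1 - ε) * (G1s P z q0 a I ^ 2 * G2s P z q0 a I ^ (Fintype.card ι - 1))
      ≤ ((1 - ε / 16) ^ 2 * (1 - ε / 4)) *
        (G1s P z q0 a I ^ 2 * G2s P z q0 a I ^ (Fintype.card ι - 1)) :=
        mul_le_mul_of_nonneg_right hc hX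
    _ = _ := by ring

end Pool.Agent.LibGL22
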