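import Pool.Agent.LibGL22.B1
import Pool.Agent.LibGL22.A3
import Pool.Agent.LibGL22.A4

/-!
Row QP (quadratic form, prime average at the position `a0 = bS h K i0`; general coefficients `y`, level `L2`). Copy of the finished `LibSC93/QP.lean` (`quP`): `hp.qf` with `k = R.n`, `K = R.K`, `k1 = R.k1`, `b0 = 2 R.u`, `L = R.L2`,
`A` from `avgP_ex` (row A3, `C = 2 R.n`, `t = R.t`, `q = R.q`, exponent `A' + Cq (R.L2 + 1) + 1`), `J = univ.erase i0`, `E = h`. `X = A.X` by `pnt_X` (row A4) with `ε = δ/16`.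
The remainder: `(log z)^(Cq (L2+1)) z^q/(log z)^(A' + Cq (L2+1) + 1) ≤ (z^q/Wp)/(log z)^A'` because `Wp ≤ log z` for large `z` (`Wp_le`).
-/

open Finset Filter

namespace Pool.Agent.LibGL22

open Pool.Agent.LibRG87 Pool.Agent.LibLG5 Pool.Agent.LibPL63 Pool.Agent.LibSC93 Pool.Agent.LibBW4

variable {R : Prm} {C Cq Cm : ℕ} {c cD Λ δ : ℝ}

private theorem QP_inj {h K : Finset ℕ} (hd : Disjoint h K) : Function.Injective (bS h K) := by
  rintro (i | i) (j | j) hij
  · exact congrArg _ (Subtype.ext hij)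
  · exfalso
    have h1 : (i : ℕ) = (j : ℕ) := hij
    exact Finset.disjoint_left.1 hd i.2 (by rw [h1]; exact j.2)
  · exfalso
    have h1 : (i : ℕ) = (j : ℕ) := hij
    exact Finset.disjoint_left.1 hd j.2 (by rw [← h1]; exact i.2)
  · exact congrArg _ (Subtype.ext hij)

open scoped Classical in
theorem quP (hBV : BVprimes) (hp : ParG R C Cq Cm c cD Λ δ) (A' : ℕ) :
    ∀ᶠ z : ℕ in atTop, ∀ p1 : ℕ, p1.Prime → ∀ (c0 : ℕ) (h K : Finset ℕ),
      PosS z p1 c0 R.k (Λ * R.q) h K → ∀ (i0 : ↥h ⊕ ↥K)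
        (y : (PG R z p1 → Option (↥h ⊕ ↥K)) → ℝ), (∀ β, |y β| ≤ 1) →
        (∀ β, y β ≠ 0 → rr (sp (PG R z p1) β) ≤ (z : ℝ) ^ R.L2 ∧
          alw (PG R z p1) (univ.erase i0) β ∧ (sui (PG R z p1) β).card ≤ R.K) →
        ∃ X : ℝ, (1 - δ / 16) * NL R z p1 ≤ X ∧ X ≤ (1 + δ / 16) * NL R z p1 ∧
        |∑ n ∈ sN (z ^ R.q) (Wp z p1) c0, prI (bS h K i0) n *
              PhiS (PG R z p1) (P0 z p1) (bS h K) y h n ^ 2 -
            X * dgV (PG R z p1) (fun B => VP (P0 z p1) (insert (bS h K i0) B) / V1p (P0 z p1)) (bS h K) h y| ≤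
          X * ((VP (P0 z p1) h / (if bS h K i0 ∈ h then V1p (P0 z p1) else 1)) * R.e Cq Λ + 1 / Real.sqrt z) +
            NW R z p1 / Real.log z ^ A' := by
  classical
  obtain ⟨hq0, hk, hu, hq0u, hq0a, hM, hk2, hk21, huk1, hk1q, ht1, ht2⟩ := prm_le hp
  have hn : 1 ≤ R.n := by unfold Prm.n; omega
  have hk1 : 1 ≤ R.k1 := hu.trans huk1
  have hq1 : 1 ≤ R.q := by omega
  obtain ⟨N, hN⟩ : ∃ N, N = Cq * (R.L2 + 1) := ⟨_, rfl⟩
  have hqf := hp.qf R.n R.K R.k1 (2 * R.u) R.L2 hn hk1 (even_two_mul _) hp.eps1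
  have hδ16 : 0 < δ / 16 := by have := hp.hδ; positivity
  have t1 : Tendsto (fun z : ℕ => Real.log (z : ℝ)) atTop atTop :=
    Real.tendsto_log_atTop.comp tendsto_natCast_atTop_atTop
  have e1 : ∀ᶠ z : ℕ in atTop, Real.log (z : ℝ) ^ 2 ≤ z := by
    have h1 : ∀ᶠ x : ℝ in atTop, ‖Real.log x ^ 2‖ ≤ 1 * ‖id x‖ :=
      (Real.isLittleO_pow_log_id_atTop (n := 2)).bound one_pos
    filter_upwards [tendsto_natCast_atTop_atTop.eventually h1] with z h2
    simp only [id, one_mul, Real.norm_eq_abs] at h2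
    rwa [abs_of_nonneg (sq_nonneg _), abs_of_nonneg (Nat.cast_nonneg z)] at h2
  filter_upwards [hqf, avgP_ex hBV R.k1 (2 * R.n) R.t R.q (A' + N + 1) (by omega) hk1q.le ht2,
    VP_step R.n, wf_tendsto.eventually_ge_atTop (4 * R.n + 4), e1, eventually_ge_atTop 4,
    t1.eventually_ge_atTop 2, pnt_X R.q hq1 hδ16]
    with z h1 h2 h3 h4 h5 h6 h7 h8
  intro p1 hp1 c0 h K hpos i0 y hy1 hy2
  obtain ⟨hcard, hdisj, hposx, hKc⟩ := id hpos
  have hz0 : (0 : ℝ) < z := by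
    have : 0 < z := by omega
    exact_mod_cast this
  have hlz : 0 < Real.log (z : ℝ) := by linarith
  have hbmem : ∀ i : ↥h ⊕ ↥K, bS h K i ∈ h ∪ K := by
    rintro (i | j)
    · exact Finset.mem_union_left _ i.2
    · exact Finset.mem_union_right _ j.2
  have hble : ∀ i : ↥h ⊕ ↥K, ((bS h K i : ℕ) : ℝ) ≤ z := fun i =>
    ((hposx _ (hbmem i)).1).trans h5
  have hbleN : ∀ i : ↥h ⊕ ↥K, bS h K i ≤ z := fun i => by exact_mod_cast hble i
  have hinj := QP_inj hdisj
  obtain ⟨A, hAs, hAom, hAX, hVA, hAsm, hAloc, hArem⟩ := h2 p1 hp1 c0 (bS h K i0) (hbleN i0)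
    (hposx _ (hbmem i0)).2
  have hP0 : ∀ p ∈ P0 z p1, p.Prime := fun p hp => (mem_P0.1 hp).2.1
  have hV1 : 0 < V1p (P0 z p1) := V1p_pos _ hP0
  have hVP0 : 0 ≤ VP (P0 z p1) h := VP_nonneg _ hP0 h
  have hcp := card_pos hp hpos
  obtain ⟨VE, hVE⟩ : ∃ VE : ℝ, VE = VP (P0 z p1) h /
      (if (bS h K i0) ∈ h then V1p (P0 z p1) else 1) := ⟨_, rfl⟩
  have hVE0 : 0 ≤ VE := by
    rw [hVE]
    split_ifs
    · exact div_nonneg hVP0 hV1.le
    · rw [div_one]; exact hVP0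
  have hVAf : (VA A (P0 z p1)) = fun B => VP (P0 z p1) (insert (bS h K i0) B) / V1p (P0 z p1) := funext hVA
  have hstep : ∀ B ⊆ (univ.erase i0).image (bS h K), B.card ≤ 2 * R.K →
      VA A (P0 z p1) (h ∪ B) ≤ 4 * V1p (P0 z p1) ^ (B \ h).card * VE := by
    intro B hB hBc
    have hBmem : ∀ b ∈ B, b ∈ h ∪ K ∧ b ≠ (bS h K i0) := by
      intro b hb
      obtain ⟨i, hi, rfl⟩ := Finset.mem_image.1 (hB hb)
      exact ⟨hbmem i, fun h9 => (Finset.mem_erase.1 hi).1 (hinj h9)⟩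
    rw [hVA, div_le_iff₀ hV1]
    by_cases ha0h : (bS h K i0) ∈ h
    · have h9 : insert (bS h K i0) (h ∪ B) = h ∪ B :=
        Finset.insert_eq_of_mem (Finset.mem_union_left _ ha0h)
      have h10 := h3 p1 hp1 h B (fun b hb => by
        rcases Finset.mem_union.1 hb with hb | hb
        · exact (hposx b (Finset.mem_union_left _ hb)).1
        · exact (hposx b (hBmem b hb).1).1) (by
        have := Finset.card_union_le h B
        unfold Prm.n
        omega)
      rw [h9, hVE, if_pos ha0h]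
      refine h10.trans (le_of_eq ?_)
      field_simp
    · have h9 : insert (bS h K i0) (h ∪ B) = h ∪ insert (bS h K i0) B := by
        rw [Finset.union_insert]
      have h10 := h3 p1 hp1 h (insert (bS h K i0) B) (fun b hb => by
        rcases Finset.mem_union.1 hb with hb | hb
        · exact (hposx b (Finset.mem_union_left _ hb)).1
        · rcases Finset.mem_insert.1 hb with rfl | hb
          · exact (hposx _ (hbmem i0)).1
          · exact (hposx b (hBmem b hb).1).1) (by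
        have := Finset.card_union_le h (insert (bS h K i0) B)
        have := Finset.card_insert_le (bS h K i0) B
        unfold Prm.n
        omega)
      have h11 : (insert (bS h K i0) B \ h).card = (B \ h).card + 1 := by
        rw [Finset.insert_sdiff_of_notMem _ ha0h, Finset.card_insert_of_notMem]
        intro h12
        exact (hBmem (bS h K i0) (Finset.mem_sdiff.1 h12).1).2 rfl
      rw [h9, hVE, if_neg ha0h]
      rw [h11, pow_succ] at h10
      refine h10.trans (le_of_eq ?_)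
      rw [div_one]
      ring
  have hmain := h1 p1 A (hAsm R.n h4) (↥h ⊕ ↥K) (bS h K)
    (univ.erase i0) h y (V1p (P0 z p1)) VE
    (hAloc (↥h ⊕ ↥K) (bS h K) (univ.erase i0) (fun i _ => hbleN i)
      (fun i _ j _ hij hval => hij (hinj hval))
      (fun i hi hval => (Finset.mem_erase.1 hi).1 (hinj hval)))
    (fun i _ j _ hij => hinj hij) hcp.1 (by
      rw [hcard]; unfold Prm.n
      omega) hV1.le hVE0 hstep hy1 hy2
  rw [hVAf] at hmain
  have hsum : ∑ n ∈ A.s, A.om n * PhiS (PL z R.k1 p1) (P0 z p1) (bS h K) y h n ^ 2 =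
      ∑ n ∈ sN (z ^ R.q) (Wp z p1) c0, prI (bS h K i0) n *
        PhiS (PG R z p1) (P0 z p1) (bS h K) y h n ^ 2 := by
    rw [hAs]
    refine Finset.sum_congr rfl fun n _ => ?_
    rw [hAom]
    rfl
  rw [hsum] at hmain
  have htot : (0 : ℝ) < ((Wp z p1).totient : ℝ) := by
    exact_mod_cast Nat.totient_pos.2 (Wp_pos z p1)
  have hW1 : (0 : ℝ) < Wp z p1 := by exact_mod_cast Wp_pos z p1
  have hqr : (0 : ℝ) < R.q := by exact_mod_cast hq1
  obtain ⟨h9, h10⟩ := h8 (bS h K i0) (hposx _ (hbmem i0)).1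
  have hNL : ∀ e : ℝ, e * NL R z p1 = e * ((z : ℝ) ^ R.q / (R.q * Real.log z)) /
      ((Wp z p1).totient : ℝ) := by
    intro e
    unfold NL
    field_simp
  have hX1 : (1 - δ / 16) * NL R z p1 ≤ A.X := by
    rw [hNL, hAX]
    exact div_le_div_of_nonneg_right h9 htot.le
  have hX2 : A.X ≤ (1 + δ / 16) * NL R z p1 := by
    rw [hNL, hAX]
    exact div_le_div_of_nonneg_right h10 htot.le
  have hX0 : 0 ≤ A.X := by
    refine le_trans ?_ hX1
    have h11 : 0 ≤ NL R z p1 := by unfold NL; positivity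
    have h12 : 0 ≤ 1 - δ / 16 := by linarith [hp.hδ1]
    exact mul_nonneg h12 h11
  refine ⟨A.X, hX1, hX2, ?_⟩
  -- the remainder
  have hRle : Real.log z ^ N * RemA A.Er (P0 z p1 ∪ PL z R.k1 p1) (2 * R.n)
      (z ^ (2 * R.L2 + 2 * (2 * R.u) + 6)) ≤ NW R z p1 / Real.log z ^ A' := by
    have hW2 : (Wp z p1 : ℝ) ≤ Real.log z := by
      have h11 := Wp_le h6 p1
      have h12 : Real.log z / Real.log 2 ≤ 2 * Real.log z := by
        rw [div_le_iff₀ (Real.log_pos (by norm_num))]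
        nlinarith [Real.log_two_gt_d9]
      nlinarith
    have h11 : Real.log z ^ N * RemA A.Er (P0 z p1 ∪ PL z R.k1 p1) (2 * R.n)
        (z ^ (2 * R.L2 + 2 * (2 * R.u) + 6)) ≤
        Real.log z ^ N * ((z : ℝ) ^ R.q / Real.log z ^ (A' + N + 1)) :=
      mul_le_mul_of_nonneg_left hArem (by positivity)
    refine h11.trans ?_
    have h12 : Real.log z ^ N * ((z : ℝ) ^ R.q / Real.log z ^ (A' + N + 1)) =
        (z : ℝ) ^ R.q / Real.log z / Real.log z ^ A' := by
      rw [pow_succ, pow_add]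
      field_simp
    rw [h12]
    unfold NW
    apply div_le_div_of_nonneg_right _ (by positivity)
    exact div_le_div_of_nonneg_left (by positivity) hW1 hW2
  -- the error factor
  have heps : eps0 Cq (2 * R.n) (2 * R.u) * ((Cq * R.k1 : ℕ) : ℝ) ^ (Cq * (R.n + 1) ^ 2) *
      (1 + Fintype.card (↥h ⊕ ↥K) * V1p (P0 z p1)) ^ (2 * R.K) ≤ R.e Cq Λ := by
    unfold Prm.e
    refine mul_le_mul_of_nonneg_left (pow_le_pow_left₀ ?_ ?_ _) ?_
    · have : 0 ≤ (Fintype.card (↥h ⊕ ↥K) : ℝ) * V1p (P0 z p1) :=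
        mul_nonneg (Nat.cast_nonneg _) hV1.le
      linarith
    · have := hcp.2
      linarith
    · refine mul_nonneg ?_ (by positivity)
      unfold eps0
      positivity
  refine hmain.trans ?_
  have h20 : A.X * VE * (eps0 Cq (2 * R.n) (2 * R.u) *
      ((Cq * R.k1 : ℕ) : ℝ) ^ (Cq * (R.n + 1) ^ 2) *
      (1 + Fintype.card (↥h ⊕ ↥K) * V1p (P0 z p1)) ^ (2 * R.K)) ≤
      A.X * VE * R.e Cq Λ :=
    mul_le_mul_of_nonneg_left heps (mul_nonneg hX0 hVE0)
  rw [← hVE]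
  have h21 : A.X * (VE * R.e Cq Λ + 1 / Real.sqrt z) =
      A.X * VE * R.e Cq Λ + A.X / Real.sqrt z := by ring
  rw [h21]
  rw [← hN]
  linarith [hRle]

end Pool.Agent.LibGL22
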