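import Pool.Agent.LibGL22.B1
import Pool.Agent.LibGL22.A1

/-!
Row QU (quadratic form, uniform average). Copy of the finished `LibSC93/QU.lean`: `hp.qf` (QFRp) with `k = R.n`, `K = R.K`, `k1 = R.k1`, `b0 = 2 R.u`, `L = R.L1`, `A` from `avgU_ex` (row A1, `N = z^R.q`, `C = 2 R.n`, `T = z^(2 R.L1 + 2 (2 R.u) + 6)`),
`ι = ↥h ⊕ ↥K`, `b = bS h K`, `J = univ`, `y = YG`, `v = V1p`, `VE = VP E`. Remainder: `(log z)^N' T z ≤ z^q/(Wp √z)` because `T z ≤ z^(q - 4)` (`prm_le`).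
-/

open Finset Filter

namespace Pool.Agent.LibGL22

open Pool.Agent.LibRG87 Pool.Agent.LibLG5 Pool.Agent.LibPL63 Pool.Agent.LibSC93

variable {R : Prm} {C Cq Cm : ℕ} {c cD Λ δ : ℝ}

private theorem bS_injU {h K : Finset ℕ} (hd : Disjoint h K) : Function.Injective (bS h K) := by
  rintro (i | i) (j | j) hij
  · exact congrArg _ (Subtype.ext hij)
  · exfalso
    have h1 : (i : ℕ) = (j : ℕ) := hij
    exact Finset.disjoint_left.1 hd i.2 (by rw [h1]; exact j.2)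
  · exfalso
    have h1 : (i : ℕ) = (j : ℕ) := hij
    exact Finset.disjoint_left.1 hd j.2 (by rw [← h1]; exact i.2)
  · exact congrArg _ (Subtype.ext hij)

theorem quU (hp : ParG R C Cq Cm c cD Λ δ) :
    ∀ᶠ z : ℕ in atTop, ∀ p1 : ℕ, p1.Prime → ∀ (c0 : ℕ) (h K E : Finset ℕ),
      PosS z p1 c0 R.k (Λ * R.q) h K → (E = h ∨ ∃ j ∈ K, E = insert j h) →
      |∑ n ∈ sN (z ^ R.q) (Wp z p1) c0,
            PhiS (PG R z p1) (P0 z p1) (bS h K) (YG R z p1 h K) E n ^ 2 -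
          NW R z p1 * dgV (PG R z p1) (VP (P0 z p1)) (bS h K) E (YG R z p1 h K)| ≤
        NW R z p1 * (VP (P0 z p1) E * R.e Cq Λ + 2 / Real.sqrt z) := by
  obtain ⟨_, _, hu1, _, _, _, _, _, huk1, _, _, htq⟩ := prm_le hp
  have hk1 : 1 ≤ R.k1 := hu1.trans huk1
  have hn1 : 1 ≤ R.n := by
    unfold Prm.n
    omega
  have hT : 2 * R.L1 + 2 * (2 * R.u) + 6 + 4 ≤ R.q := by
    have h1 : 2 * R.L1 + 2 * (2 * R.u) + 6 ≤ R.t := by
      unfold Prm.t Prm.L2
      omega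
    omega
  have hqf := hp.qf R.n R.K R.k1 (2 * R.u) R.L1 hn1 hk1 (even_two_mul _) hp.eps1
  set N : ℕ := Cq * (R.L1 + 1) with hN
  have e3 : ∀ᶠ z : ℕ in atTop, Real.log (z : ℝ) ^ N ≤ z := by
    have h1 : ∀ᶠ x : ℝ in atTop, ‖Real.log x ^ N‖ ≤ 1 * ‖id x‖ :=
      (Real.isLittleO_pow_log_id_atTop (n := N)).bound (by norm_num)
    filter_upwards [tendsto_natCast_atTop_atTop.eventually h1, eventually_ge_atTop 1] with z h2 h3
    have h4 : 0 ≤ Real.log (z : ℝ) := Real.log_nonneg (by exact_mod_cast h3)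
    simp only [id, Real.norm_eq_abs] at h2
    rw [abs_of_nonneg (pow_nonneg h4 _), abs_of_nonneg (Nat.cast_nonneg z)] at h2
    linarith
  filter_upwards [hqf, avgU_ex R.k1 (2 * R.n) hk1, VP_step R.n, baseG hp 1 one_pos, e3,
    eventually_ge_atTop 4] with z h1 h2 h3 h4 h5 h6 p1 hp1 c0 h K E hpos hE
  have hB := h4 p1
  obtain ⟨hz3, hl1, hlz, hwf, _⟩ := h4 p1
  have hz0 : (0 : ℝ) < z := by
    have : 0 < z := by omega
    exact_mod_cast this
  have hz1 : (1 : ℝ) ≤ z := by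
    have : 1 ≤ z := by omega
    exact_mod_cast this
  have hl0 : (0 : ℝ) < Real.log z := by linarith
  obtain ⟨hh, hd, hpos', _⟩ := id hpos
  obtain ⟨A, hAs, hAom, hAX, hVA, hsm, hloc, hrem0⟩ := h2 p1 hp1 (z ^ R.q) c0
    (z ^ (2 * R.L1 + 2 * (2 * R.u) + 6))
  have hX : A.X = NW R z p1 := by
    rw [hAX]
    unfold NW
    push_cast
    rfl
  have hP0 : ∀ p ∈ P0 z p1, p.Prime := fun p hp => (mem_P0.1 hp).2.1
  have hbmem : ∀ i, bS h K i ∈ h ∪ K := by
    rintro (i | i)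
    · exact Finset.mem_union_left _ i.2
    · exact Finset.mem_union_right _ i.2
  have hinj := bS_injU hd
  have hEsub : E ⊆ h ∪ K := by
    rcases hE with rfl | ⟨j, hj, rfl⟩
    · exact Finset.subset_union_left
    · exact Finset.insert_subset (Finset.mem_union_right _ hj) Finset.subset_union_left
  have hEc : E.card ≤ R.k + 1 := by
    rcases hE with rfl | ⟨j, hj, rfl⟩
    · omega
    · exact (Finset.card_insert_le _ _).trans (by omega)
  have hEk : E.card + 2 * R.K ≤ R.n := by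
    unfold Prm.n
    omega
  obtain ⟨hc1, hc2⟩ := card_pos hp hpos
  have hV0 : 0 ≤ V1p (P0 z p1) := (V1p_pos _ hP0).le
  have hVE0 : 0 ≤ VP (P0 z p1) E := VP_nonneg _ hP0 E
  have hmain := h1 p1 A (hsm R.n hwf) (↥h ⊕ ↥K) (bS h K)
    univ E (YG R z p1 h K) (V1p (P0 z p1)) (VP (P0 z p1) E)
    (hloc (↥h ⊕ ↥K) (bS h K) univ
      (fun i _ => by
        have h7 := (hpos' _ (hbmem i)).1
        have h8 : (bS h K i : ℝ) ≤ z := by linarith
        exact_mod_cast h8)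
      (fun i _ j _ hij hval => hij (hinj hval)))
    hinj.injOn hc1 hEk hV0 hVE0
    (fun B hBs hBc => by
      rw [hVA]
      refine h3 p1 hp1 E B (fun y hy => ?_) ?_
      · rcases Finset.mem_union.1 hy with hy | hy
        · exact (hpos' y (hEsub hy)).1
        · obtain ⟨i, _, rfl⟩ := Finset.mem_image.1 (hBs hy)
          exact (hpos' _ (hbmem i)).1
      · exact (Finset.card_union_le _ _).trans (by omega))
    (fun β => YG_abs hp hB β)
    (fun β hβ => by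
      obtain ⟨h7, h8⟩ := YG_supp hp hB hh hβ
      exact ⟨h7, fun _ _ _ => Finset.mem_univ _, h8⟩)
  have hWpos : (0 : ℝ) < Wp z p1 := by exact_mod_cast Wp_pos z p1
  -- the remainder
  have hWz : (Wp z p1 : ℝ) ≤ z := by
    exact_mod_cast Wp_le_self h6 p1
  have hsq : Real.sqrt z ≤ z := by
    rw [Real.sqrt_le_left hz0.le]
    nlinarith
  have hsq0 : 0 < Real.sqrt z := Real.sqrt_pos.2 hz0
  have hrem : Real.log z ^ N * RemA A.Er (P0 z p1 ∪ PL z R.k1 p1)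
      (2 * R.n) (z ^ (2 * R.L1 + 2 * (2 * R.u) + 6)) ≤ NW R z p1 / Real.sqrt z := by
    have h12 : Real.log z ^ N * RemA A.Er (P0 z p1 ∪ PL z R.k1 p1)
        (2 * R.n) (z ^ (2 * R.L1 + 2 * (2 * R.u) + 6)) ≤
        z * ((z : ℝ) ^ (2 * R.L1 + 2 * (2 * R.u) + 6) * z) := by
      refine (mul_le_mul_of_nonneg_left hrem0 (by positivity)).trans ?_
      push_cast
      exact mul_le_mul_of_nonneg_right h5 (by positivity)
    refine h12.trans ?_
    unfold NW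
    rw [div_div, le_div_iff₀ (by positivity)]
    have h14 : (Wp z p1 : ℝ) * Real.sqrt z ≤ z * z :=
      mul_le_mul hWz hsq hsq0.le hz0.le
    calc z * ((z : ℝ) ^ (2 * R.L1 + 2 * (2 * R.u) + 6) * z) * (Wp z p1 * Real.sqrt z)
        ≤ z * ((z : ℝ) ^ (2 * R.L1 + 2 * (2 * R.u) + 6) * z) * (z * z) :=
          mul_le_mul_of_nonneg_left h14 (by positivity)
      _ = (z : ℝ) ^ (2 * R.L1 + 2 * (2 * R.u) + 6 + 4) := by ring
      _ ≤ (z : ℝ) ^ R.q := pow_le_pow_right₀ hz1 hT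
  -- the main error
  have hcv : (1 + (Fintype.card (↥h ⊕ ↥K) : ℝ) * V1p (P0 z p1)) ^ (2 * R.K) ≤
      (1 + (R.k + 4 * Λ * R.q)) ^ (2 * R.K) := by
    refine pow_le_pow_left₀ (by positivity) ?_ _
    have : (4 : ℝ) * Λ * R.q = 4 * (Λ * R.q) := by ring
    rw [this]
    linarith
  have heps0 : 0 ≤ eps0 Cq (2 * R.n) (2 * R.u) := by
    unfold eps0
    positivity
  have herr : eps0 Cq (2 * R.n) (2 * R.u) *
      ((Cq * R.k1 : ℕ) : ℝ) ^ (Cq * (R.n + 1) ^ 2) *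
        (1 + (Fintype.card (↥h ⊕ ↥K) : ℝ) * V1p (P0 z p1)) ^ (2 * R.K) ≤
      R.e Cq Λ := by
    unfold Prm.e
    exact mul_le_mul_of_nonneg_left hcv (by positivity)
  have hdg : dgV (PL z R.k1 p1) (VA A (P0 z p1)) (bS h K) E
      (YG R z p1 h K) = dgV (PL z R.k1 p1) (VP (P0 z p1)) (bS h K) E
      (YG R z p1 h K) := by
    unfold dgV
    refine Finset.sum_congr rfl fun β _ => ?_
    rw [hVA]
  rw [hdg, hX, hAs] at hmain
  have hsum : ∑ n ∈ sN (z ^ R.q) (Wp z p1) c0, A.om n *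
      PhiS (PL z R.k1 p1) (P0 z p1) (bS h K) (YG R z p1 h K) E n ^ 2 =
      ∑ n ∈ sN (z ^ R.q) (Wp z p1) c0,
        PhiS (PG R z p1) (P0 z p1) (bS h K) (YG R z p1 h K) E n ^ 2 := by
    refine Finset.sum_congr rfl fun n _ => ?_
    rw [hAom, one_mul]
    rfl
  rw [hsum] at hmain
  refine hmain.trans ?_
  have hNW : 0 ≤ NW R z p1 := by
    unfold NW
    positivity
  have h20 := mul_le_mul_of_nonneg_left herr (mul_nonneg hNW hVE0)
  have h21 : NW R z p1 * (VP (P0 z p1) E * R.e Cq Λ + 2 / Real.sqrt z) =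
      NW R z p1 * VP (P0 z p1) E * R.e Cq Λ +
        NW R z p1 / Real.sqrt z + NW R z p1 / Real.sqrt z := by ring
  rw [h21]
  linarith [hrem, h20]

end Pool.Agent.LibGL22
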